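import Pool.Agent.Y546.WQ.All

/-!
# The coefficients of the norm polynomial at `T = 1`
-/

set_option autoImplicit false

namespace Pool.Agent.V5helper55.FQ

open Pool.Agent.Y546.WQ NumberField IsDedekindDomain Polynomial

/-- dividing the value at a root of unity by a power of `z - 1` -/
theorem exists_h {p : ℕ} {R : Type*} [CommRing R] (z : R) (U : ℤ[X])
    (hU : (z - 1) * aeval z U = (p : R)) (f : ℤ[X]) (n : ℕ)
    (hc : ∀ j < n, (p : ℤ) ^ (2 * (n - j)) ∣ (taylor 1 f).coeff j) :
    ∃ h : ℤ[X], aeval z f = (z - 1) ^ n * aeval z h ∧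
      f.map (Int.castRingHom (ZMod p)) = (X - 1) ^ n * h.map (Int.castRingHom (ZMod p)) := by
  have he : ∀ j, ∃ e : ℤ, j < n → (taylor 1 f).coeff j = (p : ℤ) ^ (2 * (n - j)) * e := by
    intro j
    by_cases hj : j < n
    · obtain ⟨e, he⟩ := hc j hj
      exact ⟨e, fun _ => he⟩
    · exact ⟨0, fun h => absurd h hj⟩
  choose e he using he
  obtain ⟨M, hM⟩ : ∃ M, M = (taylor 1 f).natDegree + 1 := ⟨_, rfl⟩
  have hf : f = ∑ j ∈ Finset.range n, C ((taylor 1 f).coeff j) * (X - 1) ^ j +
      ∑ j ∈ Finset.range M, C ((taylor 1 f).coeff (n + j)) * (X - 1) ^ (n + j) := by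
    have h1 := sum_taylor_eq f 1
    rw [sum_over_range' _ (fun i => by simp) (n + M) (by omega), Finset.sum_range_add] at h1
    simpa using h1.symm
  have hf2 : f = ∑ j ∈ Finset.range n, C ((p : ℤ) ^ (2 * (n - j)) * e j) * (X - 1) ^ j +
      ∑ j ∈ Finset.range M, C ((taylor 1 f).coeff (n + j)) * (X - 1) ^ (n + j) := by
    rw [← Finset.sum_congr rfl fun j hj => by rw [← he j (Finset.mem_range.1 hj)]]
    exact hf
  refine ⟨∑ j ∈ Finset.range n, C ((p : ℤ) ^ (n - j) * e j) * U ^ (n - j) +
      ∑ j ∈ Finset.range M, C ((taylor 1 f).coeff (n + j)) * (X - 1) ^ j, ?_, ?_⟩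
  · conv_lhs => rw [hf2]
    simp only [map_add, map_sum, map_mul, map_pow, map_sub, aeval_X, map_one, aeval_C]
    rw [mul_add, Finset.mul_sum, Finset.mul_sum]
    congr 1
    · refine Finset.sum_congr rfl fun j hj => ?_
      have hjn := Finset.mem_range.1 hj
      have e1 : (z - 1) ^ n = (z - 1) ^ j * (z - 1) ^ (n - j) := by
        rw [← pow_add]
        congr 1
        omega
      have e2 : (z - 1) ^ (n - j) * aeval z U ^ (n - j) = (p : R) ^ (n - j) := by
        rw [← mul_pow, hU]
      have e3 : (algebraMap ℤ R) (p : ℤ) = (p : R) := by simp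
      rw [e1, two_mul, pow_add, e3]
      linear_combination (-(z - 1) ^ j * (p : R) ^ (n - j) * (algebraMap ℤ R) (e j)) * e2
    · refine Finset.sum_congr rfl fun j _ => ?_
      rw [pow_add]
      ring
  · conv_lhs => rw [hf2]
    have e4 : (Int.castRingHom (ZMod p)) (p : ℤ) = 0 := by simp
    simp only [Polynomial.map_add, Polynomial.map_sum, Polynomial.map_mul, Polynomial.map_pow,
      Polynomial.map_sub, map_X, Polynomial.map_one, map_C, map_mul, map_pow, e4]
    rw [mul_add, Finset.mul_sum, Finset.mul_sum]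
    congr 1
    · rw [Finset.sum_eq_zero, Finset.sum_eq_zero]
      · intro j hj
        have hjn := Finset.mem_range.1 hj
        rw [C_0, zero_pow (by omega), zero_mul, zero_mul, mul_zero]
      · intro j hj
        have hjn := Finset.mem_range.1 hj
        rw [C_0, zero_pow (by omega), zero_mul, zero_mul]
    · refine Finset.sum_congr rfl fun j _ => ?_
      rw [pow_add]
      ring

/-- divisibility of the coefficients of a product of linear polynomials -/
theorem prod_coeff_dvd {ι S : Type*} [CommRing S] (A : Finset ι) (P : S) (w b : ι → S) (j : ℕ) :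
    P ^ (A.card - j) ∣ (∏ t ∈ A, (C (P * w t) + X * C (b t))).coeff j := by
  classical
  induction A using Finset.induction_on generalizing j with
  | empty => simp
  | insert t A ht ih =>
    rw [Finset.prod_insert ht, Finset.card_insert_of_notMem ht, add_mul, coeff_add, coeff_C_mul,
      mul_assoc]
    apply dvd_add
    · rcases Nat.lt_or_ge A.card j with h | h
      · rw [Nat.sub_eq_zero_of_le h, pow_zero]
        exact one_dvd _
      · rw [Nat.succ_sub h, pow_succ']
        exact mul_dvd_mul_left P ((ih j).mul_left _)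
    · rw [mul_assoc]
      rcases j with _ | j
      · rw [mul_coeff_zero, coeff_X_zero, zero_mul]
        exact dvd_zero _
      · rw [coeff_X_mul, coeff_C_mul, Nat.add_sub_add_right]
        exact (ih j).mul_left _

theorem prod_coeff_dvd' {ι S : Type*} [CommRing S] (A : Finset ι) (P : S) (w b : ι → S)
    (H : S[X]) (j : ℕ) :
    P ^ (A.card - j) ∣ ((∏ t ∈ A, (C (P * w t) + X * C (b t))) * H).coeff j := by
  rw [coeff_mul]
  refine Finset.dvd_sum fun x hx => ?_
  have h1 := Finset.HasAntidiagonal.mem_antidiagonal.1 hx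
  refine (dvd_trans (pow_dvd_pow P ?_) (prod_coeff_dvd A P w b x.1)).mul_right _
  omega

/-- divisibility of an integer by a power of `p` -/
theorem int_pow_dvd {R : Type*} [CommRing R] [IsDomain R] [CharZero R] (Q : Ideal R)
    (hQ : Q.IsPrime) (p : ℕ) (hp : p.Prime) (hpQ : ((p : ℕ) : R) ∈ Q) (U : R) (hU : U ∉ Q)
    (k : ℕ) (c : ℤ) (h : (p : R) ^ k ∣ U * (c : R)) : (p : ℤ) ^ k ∣ c := by
  induction k generalizing c with
  | zero => simp
  | succ k ih =>
    have h1 : U * (c : R) ∈ Q := by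
      obtain ⟨d, hd⟩ := h
      rw [hd, pow_succ', mul_assoc]
      exact Q.mul_mem_right _ hpQ
    have h2 : (c : R) ∈ Q := (hQ.mem_or_mem h1).resolve_left hU
    have h3 : (p : ℤ) ∣ c := by
      by_contra h3
      exact int_notMem Q hQ p hp hpQ c h3 h2
    obtain ⟨c', rfl⟩ := h3
    rw [pow_succ']
    apply mul_dvd_mul_left
    apply ih
    obtain ⟨d, hd⟩ := h
    refine ⟨d, ?_⟩
    have h4 : (p : R) ≠ 0 := by
      exact_mod_cast hp.ne_zero
    apply mul_left_cancel₀ h4
    push_cast at hd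
    rw [pow_succ'] at hd
    linear_combination hd

/-- the binomial theorem for a prime exponent, up to the second order -/
theorem add_pow_two_terms {R : Type*} [CommRing R] {p : ℕ} (hp : p.Prime) (hp3 : 3 ≤ p)
    (s b : R) : ∃ r : R, (s + b) ^ p = b ^ p + p * s * b ^ (p - 1) + p * s ^ 2 * r + s ^ p := by
  obtain ⟨k, rfl⟩ : ∃ k, p = k + 2 := ⟨p - 2, by omega⟩
  have hd : ∀ j, ∃ c : ℕ, j < k → (k + 2).choose (j + 2) = (k + 2) * c := by
    intro j
    by_cases hj : j < k
    · obtain ⟨c, hc⟩ := hp.dvd_choose_self (k := j + 2) (by omega) (by omega)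
      exact ⟨c, fun _ => hc⟩
    · exact ⟨0, fun h => absurd h hj⟩
  choose c hc using hd
  refine ⟨∑ j ∈ Finset.range k, s ^ j * b ^ (k - j) * c j, ?_⟩
  rw [add_pow, Finset.sum_range_succ, Finset.sum_range_succ', Finset.sum_range_succ',
    Finset.mul_sum]
  have e1 : ∀ j ∈ Finset.range k, s ^ (j + 1 + 1) * b ^ (k + 2 - (j + 1 + 1)) *
      ((k + 2).choose (j + 1 + 1) : R) =
      ((k + 2 : ℕ) : R) * s ^ 2 * (s ^ j * b ^ (k - j) * c j) := by
    intro j hj
    have h1 := hc j (Finset.mem_range.1 hj)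
    rw [show j + 1 + 1 = j + 2 by ring, h1, show k + 2 - (j + 2) = k - j by omega]
    push_cast
    ring
  rw [Finset.sum_congr rfl e1]
  simp only [zero_add, Nat.choose_zero_right, Nat.choose_one_right, Nat.choose_self, Nat.cast_one,
    pow_zero, pow_one, Nat.sub_self, Nat.sub_zero]
  ring

section

variable {K : Type} [Field K] [NumberField K]

/-- at a prime above `p` which divides `Z` but not `X` and `Y`, the sum `X + Y` is divisible by
`p ^ 2` -/
theorem exists_sq {p : ℕ} [Fact p.Prime] (hm : 3 * Module.finrank ℚ K ≤ p) (P : Ideal (𝓞 K))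
    (hP : P.IsPrime) (hpP : ((p : ℕ) : 𝓞 K) ∈ P) {X Y Z : 𝓞 K} (h : X ^ p + Y ^ p + Z ^ p = 0)
    (hZ0 : Z ≠ 0) (hZ : Z ∈ P) (hY : Y ∉ P) :
    ∃ u w : 𝓞 K, u ∉ P ∧ u * (X + Y) = (p : 𝓞 K) ^ 2 * w := by
  have hpp : p.Prime := Fact.out
  have hm0 := Module.finrank_pos (R := ℚ) (M := K)
  have hodd : Odd p := hpp.odd_of_ne_two (by omega)
  have hP0 : P ≠ ⊥ := by
    rintro rfl
    exact hZ0 (by simpa using hZ)
  obtain ⟨v, hv⟩ : ∃ v : HeightOneSpectrum (𝓞 K), v.asIdeal = P := ⟨⟨P, hP, hP0⟩, rfl⟩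
  obtain ⟨s, hs⟩ : ∃ s, s = X + Y := ⟨_, rfl⟩
  have hsP : s ∈ P := by
    have h1 := lin_p hpp P hP hpP h
    rw [hs]
    have e : X + Y = (X + Y + Z) - Z := by ring
    rw [e]
    exact P.sub_mem h1 hZ
  obtain ⟨r, hr⟩ := add_pow_two_terms hpp (by omega) s (-Y)
  have hprod : s * ((p : 𝓞 K) * ((-Y) ^ (p - 1) + s * r) + s ^ (p - 1)) = -Z ^ p := by
    have e1 : s ^ p = s * s ^ (p - 1) := by
      rw [← pow_succ']
      congr 1
      have := hpp.pos
      omega
    have e2 : s + -Y = X := by rw [hs]; ring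
    rw [e2, hodd.neg_pow, e1] at hr
    linear_combination -hr + h
  have hu : (-Y) ^ (p - 1) + s * r ∉ P := by
    intro h1
    have h2 : (-Y) ^ (p - 1) ∈ P := by
      have e : (-Y) ^ (p - 1) = ((-Y) ^ (p - 1) + s * r) - s * r := by ring
      rw [e]
      exact P.sub_mem h1 (P.mul_mem_right _ hsP)
    exact hY (neg_mem_iff.1 (hP.mem_of_pow_mem _ h2))
  -- valuations
  have hvp0 : v.intValuation ((p : ℕ) : 𝓞 K) ≠ 0 := by
    apply v.intValuation_ne_zero
    exact_mod_cast hpp.ne_zero
  obtain ⟨e, he⟩ : ∃ e : ℤ, v.intValuation ((p : ℕ) : 𝓞 K) = WithZero.exp (-e) := by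
    refine ⟨-(WithZero.log (v.intValuation ((p : ℕ) : 𝓞 K))), ?_⟩
    rw [neg_neg, WithZero.exp_log hvp0]
  have he1 : e ≤ Module.finrank ℚ K := by
    obtain ⟨n, hn, -, hn2⟩ := exists_ram P hP hpP
    rw [← hv, ← v.intValuation_le_pow_iff_mem, he, not_le, WithZero.exp_lt_exp] at hn2
    push_cast at hn2
    omega
  have he0 : 0 < e := by
    have h1 : v.intValuation ((p : ℕ) : 𝓞 K) < 1 := by
      rw [v.intValuation_lt_one_iff_mem, hv]
      exact hpP
    rw [he, ← WithZero.exp_zero, WithZero.exp_lt_exp] at h1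
    omega
  have hvu : v.intValuation ((-Y) ^ (p - 1) + s * r) = 1 := by
    rw [v.intValuation_eq_one_iff_mem_primeCompl]
    intro h1
    rw [hv] at h1
    exact hu h1
  have hvs1 : v.intValuation s ≤ WithZero.exp (-1 : ℤ) := by
    have := (v.intValuation_le_pow_iff_mem s 1).2 (by rw [hv, pow_one]; exact hsP)
    simpa using this
  have hvw : v.intValuation ((p : 𝓞 K) * ((-Y) ^ (p - 1) + s * r) + s ^ (p - 1)) =
      WithZero.exp (-e) := by
    rw [Valuation.map_add_eq_of_lt_left]
    · rw [map_mul, hvu, mul_one, he]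
    · rw [map_mul, hvu, mul_one, he, map_pow]
      calc v.intValuation s ^ (p - 1) ≤ WithZero.exp (-1 : ℤ) ^ (p - 1) := by gcongr
        _ = WithZero.exp (-((p - 1 : ℕ) : ℤ)) := by
            rw [← WithZero.exp_nsmul]
            simp
        _ < WithZero.exp (-e) := by
            rw [WithZero.exp_lt_exp]
            omega
  have hvZ : v.intValuation Z ≤ WithZero.exp (-1 : ℤ) := by
    have := (v.intValuation_le_pow_iff_mem Z 1).2 (by rw [hv, pow_one]; exact hZ)
    simpa using this
  have hle : v.intValuation s ≤ WithZero.exp (-(2 * e)) := by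
    have h1 := congrArg v.intValuation hprod
    rw [map_mul, hvw, Valuation.map_neg, map_pow] at h1
    have h2 : v.intValuation Z ^ p ≤ WithZero.exp (-(p : ℤ)) := by
      calc v.intValuation Z ^ p ≤ WithZero.exp (-1 : ℤ) ^ p := by gcongr
        _ = WithZero.exp (-(p : ℤ)) := by
            rw [← WithZero.exp_nsmul]
            simp
    rw [← h1] at h2
    have h3 : v.intValuation s * WithZero.exp (-e) ≤ WithZero.exp (-(2 * e)) * WithZero.exp (-e) := by
      refine h2.trans ?_
      rw [← WithZero.exp_add, WithZero.exp_le_exp]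
      omega
    exact le_of_mul_le_mul_right h3 (by simp)
  -- the conclusion
  have hpK : ((p : ℕ) : K) ≠ 0 := by exact_mod_cast hpp.ne_zero
  obtain ⟨w, d, hwd⟩ := v.exists_primeCompl_mul_eq_of_integer (K := K)
    ((s : K) / ((p : ℕ) : K) ^ 2) (by
      have e1 : v.valuation K (((p : ℕ) : K)) = WithZero.exp (-e) := by
        have h1 := v.valuation_of_algebraMap (K := K) ((p : ℕ) : 𝓞 K)
        have h2 : algebraMap (𝓞 K) K ((p : ℕ) : 𝓞 K) = ((p : ℕ) : K) := map_natCast _ _
        rw [he] at h1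
        rw [← h2]
        exact h1
      have e2 : v.valuation K (s : K) = v.intValuation s := v.valuation_of_algebraMap (K := K) s
      rw [map_div₀, map_pow, e1, e2]
      refine (div_le_one₀ (by
        rw [← WithZero.exp_nsmul]
        exact WithZero.exp_pos)).2 ?_
      rw [← WithZero.exp_nsmul]
      refine hle.trans (le_of_eq ?_)
      congr 1
      simp)
  refine ⟨d, w, ?_, ?_⟩
  · rw [← hv]
    exact d.2
  · apply RingOfIntegers.coe_injective
    have h1 : algebraMap (𝓞 K) K s = (s : K) := rfl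
    rw [← hs, map_mul, map_mul, map_pow, map_natCast, ← hwd]
    field_simp

end

end Pool.Agent.V5helper55.FQ
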