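import Pool.Agent.Y546.WQ.Stm

/-!
# The ideals of the factors of a sum of two `p`-th powers, all cases
-/

set_option autoImplicit false

namespace Pool.Agent.V5helper55.FQ

open Finset Polynomial Ideal

variable {R : Type} [CommRing R] [IsDedekindDomain R]

/-- the factors `X + z Y` and `X + Y` differ by the `p`-th power of an ideal; no condition on the
primes above `p` -/
theorem ide0 {p : ℕ} [Fact p.Prime] (hp2 : p ≠ 2) (z : R) (hz : IsPrimitiveRoot z p)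
    (X Y Z : R) (hX : X ≠ 0) (hZ : Z ≠ 0) (h : X ^ p + Y ^ p + Z ^ p = 0) :
    ∃ A B : Ideal R, A ≠ ⊥ ∧ B ≠ ⊥ ∧ span {X + z * Y} * B ^ p = span {X + Y} * A ^ p := by
  have hp : p.Prime := Fact.out
  have hodd : Odd p := hp.odd_of_ne_two hp2
  have hp0 : p ≠ 0 := hp.ne_zero
  obtain ⟨G, hG⟩ : ∃ G : Ideal R, G = span {X, Y} := ⟨_, rfl⟩
  have hXG : X ∈ G := hG ▸ subset_span (by simp)
  have hYG : Y ∈ G := hG ▸ subset_span (by simp)
  have hG0 : G ≠ ⊥ := by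
    rintro h0
    rw [h0, mem_bot] at hXG
    exact hX hXG
  obtain ⟨S, hS⟩ : ∃ S : Finset R, S = nthRootsFinset p (1 : R) := ⟨_, rfl⟩
  have hfac : ∀ ζ : R, ∃ I : Ideal R, span {X + ζ * Y} = G * I := fun ζ =>
    dvd_span_singleton.2 (add_mem hXG (mul_mem_left _ _ hYG))
  choose I hI using hfac
  have hprod : ∏ ζ ∈ S, (X + ζ * Y) = -Z ^ p := by
    rw [hS, ← hz.pow_add_pow_eq_prod_add_mul X Y hodd]
    linear_combination h
  have hne : ∀ ζ ∈ S, X + ζ * Y ≠ 0 := by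
    intro ζ hζ h0
    have h1 : ∏ ζ ∈ S, (X + ζ * Y) = 0 := prod_eq_zero hζ h0
    rw [hprod, neg_eq_zero] at h1
    exact hZ (pow_eq_zero_iff hp0 |>.1 h1)
  have hI0 : ∀ ζ ∈ S, I ζ ≠ ⊥ := by
    intro ζ hζ h0
    have h1 := hI ζ
    rw [h0, mul_bot, span_singleton_eq_bot] at h1
    exact hne ζ hζ h1
  have hGp : G ^ p * ∏ ζ ∈ S, I ζ = span {Z} ^ p := by
    have h1 : ∏ ζ ∈ S, span {X + ζ * Y} = G ^ p * ∏ ζ ∈ S, I ζ := by
      rw [prod_congr rfl fun ζ _ => hI ζ, prod_mul_distrib, prod_const, hS, hz.card_nthRootsFinset]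
    rw [← h1, prod_span_singleton, hprod, span_singleton_neg, span_singleton_pow]
  have hGZ : G ∣ span {Z} := by
    have h1 : G ^ p ∣ span {Z} ^ p := ⟨_, hGp.symm⟩
    exact (UniqueFactorizationMonoid.pow_dvd_pow_iff_dvd hp0).1 h1
  obtain ⟨Z', hZ'⟩ := hGZ
  have hprodI : ∏ ζ ∈ S, I ζ = Z' ^ p := by
    rw [hZ', mul_pow] at hGp
    exact mul_left_cancel₀ (pow_ne_zero p hG0) hGp
  -- the differences of the roots of unity
  obtain ⟨L, hL⟩ : ∃ L : Ideal R, L = span {z - 1} := ⟨_, rfl⟩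
  have hdiff : ∀ ζ ∈ S, ∀ ξ ∈ S, ζ ≠ ξ → span {ζ - ξ} = L := by
    intro ζ hζ ξ hξ hne'
    rw [hL]
    have h1 := hz.nthRootsFinset_pairwise_associated_sub_one_sub_of_prime hp (x := ζ)
      (by rw [← hS]; exact hζ) (y := ξ) (by rw [← hS]; exact hξ) hne'
    exact (span_singleton_eq_span_singleton.2 h1).symm
  -- a common divisor divides `L`
  have hgcd : ∀ ζ ∈ S, ∀ ξ ∈ S, ζ ≠ ξ → L ≤ I ζ ⊔ I ξ := by
    intro ζ hζ ξ hξ hne'
    have m0 : ∀ w, w ∈ I ζ ⊔ I ξ → w ∈ I ζ ⊔ I ξ := fun w h => h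
    have m1 : X + ζ * Y ∈ (I ζ ⊔ I ξ) * G := by
      have h1 : X + ζ * Y ∈ G * I ζ := by rw [← hI]; exact mem_span_singleton_self _
      rw [mul_comm]
      exact mul_mono_right le_sup_left h1
    have m2 : X + ξ * Y ∈ (I ζ ⊔ I ξ) * G := by
      have h1 : X + ξ * Y ∈ G * I ξ := by rw [← hI]; exact mem_span_singleton_self _
      rw [mul_comm]
      exact mul_mono_right le_sup_right h1
    have m3 : (ζ - ξ) * Y ∈ (I ζ ⊔ I ξ) * G := by
      have : (ζ - ξ) * Y = (X + ζ * Y) - (X + ξ * Y) := by ring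
      rw [this]
      exact sub_mem m1 m2
    have m4 : (ζ - ξ) * X ∈ (I ζ ⊔ I ξ) * G := by
      have : (ζ - ξ) * X = ζ * (X + ξ * Y) - ξ * (X + ζ * Y) := by ring
      rw [this]
      exact sub_mem (mul_mem_left _ _ m2) (mul_mem_left _ _ m1)
    have m5 : span {ζ - ξ} * G ≤ (I ζ ⊔ I ξ) * G := by
      rw [hG, span_mul_span', span_le, ← hG]
      rintro _ ⟨a, ha, b, hb, rfl⟩
      rw [Set.mem_singleton_iff] at ha
      subst ha
      simp only [Set.mem_insert_iff, Set.mem_singleton_iff] at hb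
      rcases hb with rfl | rfl
      · exact m4
      · exact m3
    have m6 : (I ζ ⊔ I ξ) ∣ span {ζ - ξ} := (mul_dvd_mul_iff_right hG0).1 (dvd_iff_le.2 m5)
    rw [hdiff ζ hζ ξ hξ hne'] at m6
    exact dvd_iff_le.1 m6
  -- one factor modulo another one
  have hmod : ∀ ζ ∈ S, ∀ ξ ∈ S, I ξ ≤ I ζ ⊔ L := by
    intro ζ hζ ξ hξ
    by_cases hne' : ζ = ξ
    · rw [hne']
      exact le_sup_left
    · have h1 : X + ξ * Y ∈ (I ζ ⊔ L) * G := by
        have e : X + ξ * Y = (X + ζ * Y) - (ζ - ξ) * Y := by ring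
        rw [e]
        apply sub_mem
        · have h1 : X + ζ * Y ∈ G * I ζ := by rw [← hI]; exact mem_span_singleton_self _
          rw [mul_comm]
          exact mul_mono_right le_sup_left h1
        · apply mul_mem_mul _ hYG
          apply mem_sup_right
          rw [← hdiff ζ hζ ξ hξ hne']
          exact mem_span_singleton_self _
      have h2 : (I ζ ⊔ L) ∣ I ξ := by
        rw [← mul_dvd_mul_iff_right hG0]
        have h3 : (I ζ ⊔ L) * G ∣ span {X + ξ * Y} := dvd_span_singleton.2 h1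
        rwa [hI, mul_comm G] at h3
      exact dvd_iff_le.1 h2
  have hCC : ∀ ζ ∈ S, ∀ ξ ∈ S, I ζ ⊔ L = I ξ ⊔ L := fun ζ hζ ξ hξ =>
    le_antisymm (sup_le (hmod ξ hξ ζ hζ) le_sup_right) (sup_le (hmod ζ hζ ξ hξ) le_sup_right)
  have h1S : (1 : R) ∈ S := hS ▸ (mem_nthRootsFinset hp.pos 1).2 (one_pow p)
  have hzS : z ∈ S := hS ▸ (mem_nthRootsFinset hp.pos 1).2 hz.pow_eq_one
  obtain ⟨C, hC⟩ : ∃ C : Ideal R, C = I 1 ⊔ L := ⟨_, rfl⟩
  have hC1 : ∀ ζ ∈ S, I ζ ⊔ L = C := fun ζ hζ => by rw [hC]; exact hCC ζ hζ 1 h1S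
  have hC0 : C ≠ ⊥ := by
    rintro h0
    rw [hC] at h0
    exact hI0 1 h1S (le_bot_iff.1 (le_sup_left.trans h0.le))
  have hU : ∀ ζ : R, ∃ U : Ideal R, ζ ∈ S → I ζ = C * U := by
    intro ζ
    by_cases hζ : ζ ∈ S
    · have h1 : C ∣ I ζ := by
        rw [← hC1 ζ hζ]
        exact dvd_iff_le.2 le_sup_left
      obtain ⟨U, hU⟩ := h1
      exact ⟨U, fun _ => hU⟩
    · exact ⟨⊥, fun h => absurd h hζ⟩
  choose U hU using hU
  have hprodU : C ^ p * ∏ ζ ∈ S, U ζ = Z' ^ p := by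
    rw [← hprodI, prod_congr rfl fun ζ hζ => hU ζ hζ, prod_mul_distrib, prod_const, hS,
      hz.card_nthRootsFinset]
  have hCZ : C ∣ Z' := (UniqueFactorizationMonoid.pow_dvd_pow_iff_dvd hp0).1 ⟨_, hprodU.symm⟩
  obtain ⟨Z2, hZ2⟩ := hCZ
  have hprodU2 : ∏ ζ ∈ S, U ζ = Z2 ^ p := by
    rw [hZ2, mul_pow] at hprodU
    exact mul_left_cancel₀ (pow_ne_zero p hC0) hprodU
  have hcop : ∀ ζ ∈ S, ∀ ξ ∈ S, ζ ≠ ξ → IsCoprime (U ζ) (U ξ) := by
    intro ζ hζ ξ hξ hne'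
    rw [isCoprime_iff_sup_eq]
    have h1 : C * (U ζ ⊔ U ξ) = I ζ ⊔ I ξ := by
      rw [Ideal.mul_sup, hU ζ hζ, hU ξ hξ]
    have h2 : C ≤ I ζ ⊔ I ξ := by
      rw [← hC1 ζ hζ]
      exact sup_le le_sup_left (hgcd ζ hζ ξ hξ hne')
    have h3 : C * (U ζ ⊔ U ξ) = C := by
      apply le_antisymm Ideal.mul_le_left
      rw [h1]
      exact h2
    have h4 : C * (U ζ ⊔ U ξ) = C * ⊤ := by rw [h3, mul_top]
    exact mul_left_cancel₀ hC0 h4
  have hpow := Finset.exists_eq_pow_of_mul_eq_pow_of_coprime hcop hprodU2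
  obtain ⟨B, hB⟩ := hpow 1 h1S
  obtain ⟨A, hA⟩ := hpow z hzS
  refine ⟨A, B, ?_, ?_, ?_⟩
  · rintro rfl
    apply hI0 z hzS
    rw [hU z hzS, hA, ← zero_eq_bot, zero_pow hp0, mul_zero]
  · rintro rfl
    apply hI0 1 h1S
    rw [hU 1 h1S, hB, ← zero_eq_bot, zero_pow hp0, mul_zero]
  · have h1 := hI 1
    rw [one_mul] at h1
    rw [hI z, h1, hU z hzS, hU 1 h1S, hA, hB]
    ring

end Pool.Agent.V5helper55.FQ
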