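import Pool.Agent.Y546.WQ.FldG
import Pool.Agent.V5helper55.FQ.Ide0

/-!
# The norm of `x + z y` in the cyclotomic field, all cases
-/

set_option autoImplicit false

namespace Pool.Agent.V5helper55.FQ

open Pool.Agent.Y546.WQ NumberField IsDedekindDomain Polynomial

variable {p : ℕ} [Fact p.Prime] {E : Type} [Field E] [NumberField E]
  {K N : Type} [Field K] [NumberField K] [Field N] [NumberField N]

/-- the value of the norm polynomial at a `p`-th root of unity is the value at `1` times the `p`-th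
power of an ideal -/
theorem fld0 (hp2 : p ≠ 2) (c : Cyc p E) (i : E →+* N)
    (hD : Dn p E N i) (X Y Z : 𝓞 K) (hX : X ≠ 0) (hZ : Z ≠ 0)
    (h : X ^ p + Y ^ p + Z ^ p = 0)
    (f : Polynomial ℤ) (hf : f.map (Int.castRingHom (𝓞 N)) = nrmP K N X Y) :
    aeval c.z f ≠ 0 ∧ f.eval 1 ≠ 0 ∧
    ∀ P : HeightOneSpectrum (𝓞 E), ∃ m : ℤ, P.valuation E (aeval c.z f) =
      P.valuation E ((f.eval 1 : ℤ) : E) * WithZero.exp ((p : ℤ) * m) := by
  classical
  have hpp : p.Prime := Fact.out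
  have hodd : Odd p := hpp.odd_of_ne_two hp2
  -- the root of unity in the integers of N
  have hzint : IsIntegral ℤ (i c.z) := by
    have h1 : (i c.z) ^ p = 1 := by rw [← map_pow, c.prim.pow_eq_one, map_one]
    exact ⟨Polynomial.X ^ p - 1, Polynomial.monic_X_pow_sub_C 1 hpp.ne_zero, by simp [h1]⟩
  obtain ⟨zN, hzN⟩ : ∃ w : 𝓞 N, (w : N) = i c.z := ⟨⟨i c.z, hzint⟩, rfl⟩
  have hzprim : IsPrimitiveRoot zN p := by
    apply IsPrimitiveRoot.of_map_of_injective (f := algebraMap (𝓞 N) N) _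
      RingOfIntegers.coe_injective
    have h1 : algebraMap (𝓞 N) N zN = i c.z := hzN
    rw [h1]
    exact c.prim.map_of_injective i.injective
  have key : ∀ τ : K →+* N,
      (RingOfIntegers.mapRingHom τ X + RingOfIntegers.mapRingHom τ Y ≠ 0 ∧
        RingOfIntegers.mapRingHom τ X + zN * RingOfIntegers.mapRingHom τ Y ≠ 0) ∧
      ∃ I J : Ideal (𝓞 N), I ≠ ⊥ ∧ J ≠ ⊥ ∧
        Ideal.span {RingOfIntegers.mapRingHom τ X + zN * RingOfIntegers.mapRingHom τ Y} * J ^ p =
          Ideal.span {RingOfIntegers.mapRingHom τ X + RingOfIntegers.mapRingHom τ Y} * I ^ p := by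
    intro τ
    have finj := mapRingHom_inj τ
    generalize RingOfIntegers.mapRingHom τ = φ at finj
    have habd : φ X ^ p + φ Y ^ p + φ Z ^ p = 0 := by
      rw [← map_pow, ← map_pow, ← map_pow, ← map_add, ← map_add, h, map_zero]
    obtain ⟨I, J, hI0, hJ0, hIJ⟩ := ide0 hp2 zN hzprim (φ X) (φ Y) (φ Z)
      (fun h0 => hX (finj (by rw [h0, map_zero])))
      (fun h0 => hZ (finj (by rw [h0, map_zero]))) habd
    have h1 : φ X + φ Y ≠ 0 := by
      intro h0
      have h2 : φ X = -φ Y := eq_neg_of_add_eq_zero_left h0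
      have h3 : φ Z ^ p = 0 := by
        rw [h2, hodd.neg_pow, neg_add_cancel, zero_add] at habd
        exact habd
      have h5 := (pow_eq_zero_iff hpp.ne_zero).1 h3
      exact hZ (finj (by rw [h5, map_zero]))
    refine ⟨⟨h1, ?_⟩, I, J, hI0, hJ0, hIJ⟩
    intro h0
    rw [h0, Ideal.span_singleton_eq_bot.2 rfl, Ideal.bot_mul] at hIJ
    have h2 := hIJ.symm
    rw [Ideal.mul_eq_bot, Ideal.span_singleton_eq_bot] at h2
    rcases h2 with h2 | h2
    · exact h1 h2
    · exact hI0 ((pow_eq_zero_iff hpp.ne_zero).1 h2)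
  choose h1 I J hI0 hJ0 hIJ using key
  have eU : ((∏ τ : K →+* N, (RingOfIntegers.mapRingHom τ X +
      zN * RingOfIntegers.mapRingHom τ Y) : 𝓞 N) : N) = i (aeval c.z f) := by
    rw [← eval_f hf zN]
    have e1 : algebraMap (𝓞 N) N (aeval zN f) = aeval (algebraMap (𝓞 N) N zN) f :=
      (aeval_algebraMap_apply N zN f).symm
    have e2 : algebraMap (𝓞 N) N zN = i c.z := hzN
    rw [e2] at e1
    refine e1.trans ?_
    rw [aeval_def, aeval_def, hom_eval₂]
    congr 1
    exact RingHom.ext_int _ _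
  have eV : ((∏ τ : K →+* N, (RingOfIntegers.mapRingHom τ X +
      RingOfIntegers.mapRingHom τ Y) : 𝓞 N) : N) = i ((f.eval 1 : ℤ) : E) := by
    have e0 : (∏ τ : K →+* N, (RingOfIntegers.mapRingHom τ X + RingOfIntegers.mapRingHom τ Y)) =
        ((f.eval 1 : ℤ) : 𝓞 N) := by
      have e1 := eval_f hf (1 : 𝓞 N)
      simp only [one_mul] at e1
      rw [← e1]
      have e2 := aeval_algebraMap_apply (𝓞 N) (1 : ℤ) f
      rw [map_one] at e2
      rw [e2]
      rfl
    rw [e0, map_intCast]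
    exact map_intCast (algebraMap (𝓞 N) N) _
  have hU0 : (∏ τ : K →+* N, (RingOfIntegers.mapRingHom τ X +
      zN * RingOfIntegers.mapRingHom τ Y)) ≠ 0 := Finset.prod_ne_zero_iff.2 fun τ _ => (h1 τ).2
  have hV0 : (∏ τ : K →+* N, (RingOfIntegers.mapRingHom τ X +
      RingOfIntegers.mapRingHom τ Y)) ≠ 0 := Finset.prod_ne_zero_iff.2 fun τ _ => (h1 τ).1
  have hu0 : aeval c.z f ≠ 0 := by
    intro h0
    rw [h0, map_zero] at eU
    exact hU0 (RingOfIntegers.coe_injective (by rw [map_zero]; exact eU))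
  have hv0 : ((f.eval 1 : ℤ) : E) ≠ 0 := by
    intro h0
    rw [h0, map_zero] at eV
    exact hV0 (RingOfIntegers.coe_injective (by rw [map_zero]; exact eV))
  refine ⟨hu0, fun h0 => hv0 (by rw [h0, Int.cast_zero]), ?_⟩
  apply hD _ _ hu0 hv0 _ _ eU eV (∏ τ : K →+* N, I τ) (∏ τ : K →+* N, J τ)
  · rw [← Ideal.zero_eq_bot]
    exact Finset.prod_ne_zero_iff.2 fun τ _ => hI0 τ
  · rw [← Ideal.zero_eq_bot]
    exact Finset.prod_ne_zero_iff.2 fun τ _ => hJ0 τ
  · rw [← Ideal.prod_span_singleton, ← Ideal.prod_span_singleton, ← Finset.prod_pow,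
      ← Finset.prod_pow, ← Finset.prod_mul_distrib, ← Finset.prod_mul_distrib]
    exact Finset.prod_congr rfl fun τ _ => hIJ τ


end Pool.Agent.V5helper55.FQ
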