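import Pool.Agent.V5helper55.FQ.Coef
import Pool.Agent.V5helper55.FQ.Fld0

/-!
# The coefficients of the norm polynomial at `T = 1` and the relations for the quotient
-/

set_option autoImplicit false

namespace Pool.Agent.V5helper55.FQ

open Pool.Agent.Y546.WQ NumberField IsDedekindDomain Polynomial

/-- a solution, scaled at `p` -/
structure Sol0 (p : ℕ) (K : Type) [Field K] [NumberField K] (X Y Z : 𝓞 K) : Prop where
  X0 : X ≠ 0
  Y0 : Y ≠ 0
  Z0 : Z ≠ 0
  eq : X ^ p + Y ^ p + Z ^ p = 0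
  cp : ∀ P : Ideal (𝓞 K), P.IsPrime → ((p : ℕ) : 𝓞 K) ∈ P → ¬ (X ∈ P ∧ Y ∈ P ∧ Z ∈ P)

section

variable {p : ℕ} [Fact p.Prime] {E : Type} [Field E] [NumberField E]
  {K N : Type} [Field K] [NumberField K] [Field N] [NumberField N]

theorem taylor_nrmP (X Y : 𝓞 K) : taylor 1 (nrmP K N X Y) =
    ∏ τ : K →+* N, (Polynomial.C (RingOfIntegers.mapRingHom τ X + RingOfIntegers.mapRingHom τ Y) +
      Polynomial.X * Polynomial.C (RingOfIntegers.mapRingHom τ Y)) := by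
  unfold nrmP
  rw [taylor_apply, prod_comp]
  refine Finset.prod_congr rfl fun τ _ => ?_
  rw [add_comp, C_comp, mul_comp, X_comp, C_comp, C_1, C_add]
  ring

/-- divisibility of the first coefficients at `1` by powers of `p` -/
theorem coef_main (hm : 3 * Module.finrank ℚ K ≤ p) {X Y Z : 𝓞 K} (hs : Sol0 p K X Y Z)
    (Q : Ideal (𝓞 N)) (hQ : Q.IsPrime) (hpQ : ((p : ℕ) : 𝓞 N) ∈ Q) (f : ℤ[X])
    (hf : f.map (Int.castRingHom (𝓞 N)) = nrmP K N X Y) (n : ℕ)
    (hn : n = Nat.card {τ : K →+* N // Ideal.Quotient.mk Q (RingOfIntegers.mapRingHom τ Z) = 0}) :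
    ∀ j < n, (p : ℤ) ^ (2 * (n - j)) ∣ (taylor 1 f).coeff j := by
  classical
  have hpp : p.Prime := Fact.out
  have huw : ∀ τ : K →+* N, ∃ u w : 𝓞 N, u ∉ Q ∧
      (Ideal.Quotient.mk Q (RingOfIntegers.mapRingHom τ Z) = 0 →
        u * (RingOfIntegers.mapRingHom τ X + RingOfIntegers.mapRingHom τ Y) =
          (p : 𝓞 N) ^ 2 * w) := by
    intro τ
    by_cases hZ : Ideal.Quotient.mk Q (RingOfIntegers.mapRingHom τ Z) = 0
    · have hP : (Q.comap (RingOfIntegers.mapRingHom τ)).IsPrime := hQ.comap _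
      have hpP : ((p : ℕ) : 𝓞 K) ∈ Q.comap (RingOfIntegers.mapRingHom τ) := by
        rw [Ideal.mem_comap, map_natCast]
        exact hpQ
      have hZP : Z ∈ Q.comap (RingOfIntegers.mapRingHom τ) :=
        Ideal.mem_comap.2 (Ideal.Quotient.eq_zero_iff_mem.1 hZ)
      have hYP : Y ∉ Q.comap (RingOfIntegers.mapRingHom τ) := by
        intro hY
        apply hs.cp _ hP hpP
        refine ⟨?_, hY, hZP⟩
        have h1 := lin_p hpp _ hP hpP hs.eq
        have e : X = (X + Y + Z) - Y - Z := by ring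
        rw [e]
        exact Ideal.sub_mem _ (Ideal.sub_mem _ h1 hY) hZP
      obtain ⟨u, w, hu, huw⟩ := exists_sq hm _ hP hpP hs.eq hs.Z0 hZP hYP
      refine ⟨RingOfIntegers.mapRingHom τ u, RingOfIntegers.mapRingHom τ w, fun h => hu h,
        fun _ => ?_⟩
      rw [← map_add, ← map_mul, huw, map_mul, map_pow, map_natCast]
    · exact ⟨1, 0, one_notMem Q hQ, fun h => absurd h hZ⟩
  choose u w hu huw using huw
  intro j hj
  obtain ⟨A, hA⟩ : ∃ A : Finset (K →+* N), A = Finset.univ.filter (fun τ : K →+* N =>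
    Ideal.Quotient.mk Q (RingOfIntegers.mapRingHom τ Z) = 0) := ⟨_, rfl⟩
  obtain ⟨A', hA'⟩ : ∃ A' : Finset (K →+* N), A' = Finset.univ.filter (fun τ : K →+* N =>
    ¬ Ideal.Quotient.mk Q (RingOfIntegers.mapRingHom τ Z) = 0) := ⟨_, rfl⟩
  have hAc : A.card = n := by
    rw [hn, hA, Nat.card_eq_fintype_card, Fintype.card_subtype]
  have hU : ∏ τ ∈ A, u τ ∉ Q := by
    rw [hQ.prod_mem_iff]
    rintro ⟨τ, -, h⟩
    exact hu τ h
  refine int_pow_dvd Q hQ p hpp hpQ (∏ τ ∈ A, u τ) hU _ _ ?_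
  have e1 : (taylor 1 f).map (Int.castRingHom (𝓞 N)) =
      (∏ τ ∈ A, (Polynomial.C (RingOfIntegers.mapRingHom τ X + RingOfIntegers.mapRingHom τ Y) +
        Polynomial.X * Polynomial.C (RingOfIntegers.mapRingHom τ Y))) *
      ∏ τ ∈ A', (Polynomial.C (RingOfIntegers.mapRingHom τ X + RingOfIntegers.mapRingHom τ Y) +
        Polynomial.X * Polynomial.C (RingOfIntegers.mapRingHom τ Y)) := by
    rw [hA, hA', Finset.prod_filter_mul_prod_filter_not, ← taylor_nrmP, ← hf, map_taylor, map_one]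
  have e2 : Polynomial.C (∏ τ ∈ A, u τ) * (taylor 1 f).map (Int.castRingHom (𝓞 N)) =
      (∏ τ ∈ A, (Polynomial.C ((p : 𝓞 N) ^ 2 * w τ) +
        Polynomial.X * Polynomial.C (u τ * RingOfIntegers.mapRingHom τ Y))) *
      ∏ τ ∈ A', (Polynomial.C (RingOfIntegers.mapRingHom τ X + RingOfIntegers.mapRingHom τ Y) +
        Polynomial.X * Polynomial.C (RingOfIntegers.mapRingHom τ Y)) := by
    rw [e1, ← mul_assoc, map_prod, ← Finset.prod_mul_distrib]
    congr 1
    refine Finset.prod_congr rfl fun τ hτ => ?_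
    rw [hA] at hτ
    rw [← huw τ (Finset.mem_filter.1 hτ).2, C_mul, C_mul]
    ring
  have e3 := prod_coeff_dvd' A ((p : 𝓞 N) ^ 2) w (fun τ => u τ * RingOfIntegers.mapRingHom τ Y)
    (∏ τ ∈ A', (Polynomial.C (RingOfIntegers.mapRingHom τ X + RingOfIntegers.mapRingHom τ Y) +
        Polynomial.X * Polynomial.C (RingOfIntegers.mapRingHom τ Y))) j
  rw [← e2, coeff_C_mul, coeff_map, hAc, ← pow_mul] at e3
  exact e3

/-- removing two primes from an integer -/
theorem exists_coprime_part (p q : ℕ) (hp : p.Prime) (hq : q.Prime) (N : ℤ) (hN : N ≠ 0) :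
    ∃ (s t : ℕ) (n : ℤ), ¬ (p : ℤ) ∣ n ∧ ¬ (q : ℤ) ∣ n ∧ N = (p : ℤ) ^ s * (q : ℤ) ^ t * n := by
  have key : ∀ (q : ℕ), q.Prime → ∀ N : ℤ, N ≠ 0 → ∃ (s : ℕ) (n : ℤ), ¬ (q : ℤ) ∣ n ∧
      N = (q : ℤ) ^ s * n := by
    intro q hq N hN
    have hfin : FiniteMultiplicity (q : ℤ) N := by
      refine Int.finiteMultiplicity_iff.2 ⟨?_, hN⟩
      rw [Int.natAbs_natCast]
      exact hq.one_lt.ne'
    obtain ⟨n, hn1, hn2⟩ := hfin.exists_eq_pow_mul_and_not_dvd
    exact ⟨_, n, hn2, hn1⟩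
  obtain ⟨s, n1, h1, h2⟩ := key p hp N hN
  have hn1 : n1 ≠ 0 := by
    rintro rfl
    exact h1 (dvd_zero _)
  obtain ⟨t, n, h3, h4⟩ := key q hq n1 hn1
  refine ⟨s, t, n, fun h => h1 (h4 ▸ h.mul_left _), h3, ?_⟩
  rw [h2, h4]
  ring

/-- the Stickelberger relations for the quotient -/
theorem rel_h (hp2 : p ≠ 2) (c : Cyc p E) (f h : ℤ[X]) (n : ℕ)
    (hfh : aeval c.z f = (c.z - 1) ^ n * aeval c.z h) (h1 : ¬ (p : ℤ) ∣ h.eval 1)
    (hf0 : aeval c.z f ≠ 0) (hf1 : f.eval 1 ≠ 0)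
    (hv : ∀ P : HeightOneSpectrum (𝓞 E), ∃ m : ℤ, P.valuation E (aeval c.z f) =
      P.valuation E ((f.eval 1 : ℤ) : E) * WithZero.exp ((p : ℤ) * m))
    (q : ℕ) (hq : q.Prime) (hqp : q ≠ p)
    (hcop : ∀ P : Ideal (𝓞 E), P.IsPrime → ((q : ℕ) : 𝓞 E) ∈ P →
      ∀ w : 𝓞 E, (w : E) = aeval c.z f → w ∉ P) :
    ∃ n0 : ℤ, ¬ (p : ℤ) ∣ n0 ∧ ¬ (q : ℤ) ∣ n0 ∧ ∀ a : ℕ, 0 < a → a + 2 ≤ p →
      ∃ g : E, g ≠ 0 ∧ ∃ i : ℕ, tha c a (aeval c.z h / (n0 : E)) = c.z ^ i * g ^ p := by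
  have hpp : p.Prime := Fact.out
  obtain ⟨s, t, n0, hn1, hn2, hn⟩ := exists_coprime_part p q hpp hq (f.eval 1) hf1
  have hh0 : aeval c.z h ≠ 0 := by
    intro h0
    rw [h0, mul_zero] at hfh
    exact hf0 hfh
  refine ⟨n0, hn1, hn2, fun a ha hap => relGA aUNITA hp2 a ha hap c h n0 hn1 h1 hh0 ?_⟩
  intro P
  obtain ⟨w, hwz, hw⟩ := exists_zint c
  have hwz' : algebraMap (𝓞 E) E w = c.z := hwz
  have hΛ : ∀ g : ℤ[X], algebraMap (𝓞 E) E (aeval w g) = aeval c.z g := by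
    intro g
    rw [← hwz']
    exact (aeval_algebraMap_apply E w g).symm
  by_cases hpP : ((p : ℕ) : 𝓞 E) ∈ P.asIdeal
  · -- both are units
    refine ⟨0, ?_⟩
    have e1 : P.valuation E ((n0 : ℤ) : E) = 1 := by
      have := val_one P ((n0 : ℤ) : 𝓞 E) (int_notMem P.asIdeal P.isPrime p hpp hpP n0 hn1)
      simpa using this
    have e2 : P.valuation E (algebraMap (𝓞 E) E (aeval w h)) = 1 := by
      apply val_one
      intro h3
      apply int_notMem P.asIdeal P.isPrime p hpp hpP (h.eval 1) h1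
      have h4 : w - 1 ∣ aeval w h - ((h.eval 1 : ℤ) : 𝓞 E) := by
        have h5 := sub_dvd_eval_sub w 1 (h.map (algebraMap ℤ (𝓞 E)))
        rw [eval_map_algebraMap, eval_map_algebraMap] at h5
        have h6 : aeval (1 : 𝓞 E) h = ((h.eval 1 : ℤ) : 𝓞 E) := by
          have e2 := aeval_algebraMap_apply (𝓞 E) (1 : ℤ) h
          rw [map_one] at e2
          rw [e2]
          rfl
        rwa [h6] at h5
      obtain ⟨d, hd⟩ := h4
      have h7 : ((h.eval 1 : ℤ) : 𝓞 E) = aeval w h + d * (1 - w) := by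
        linear_combination -hd
      rw [h7]
      exact P.asIdeal.add_mem h3
        (P.asIdeal.mul_mem_left _ (one_sub_mem w hw.pow_eq_one P.asIdeal P.isPrime hpP))
    rw [← hΛ, e1, e2, mul_zero, WithZero.exp_zero, mul_one]
  · -- `z - 1` is a unit
    have e1 : P.valuation E (c.z - 1) = 1 := by
      have h2 : (w - 1 : 𝓞 E) ∉ P.asIdeal := by
        intro h3
        apply hpP
        apply p_mem_of_one_sub_mem w hw
        rw [← neg_mem_iff]
        have e : -(1 - w) = w - 1 := by ring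
        rw [e]
        exact h3
      have h3 := val_one P (w - 1) h2
      have e : ((w - 1 : 𝓞 E) : E) = c.z - 1 := by
        have e2 := map_sub (algebraMap (𝓞 E) E) w 1
        rw [hwz', map_one] at e2
        exact e2
      rwa [e] at h3
    have e2 : P.valuation E (aeval c.z f) = P.valuation E (aeval c.z h) := by
      rw [hfh, map_mul, map_pow, e1, one_pow, one_mul]
    rw [← e2]
    by_cases hqP : ((q : ℕ) : 𝓞 E) ∈ P.asIdeal
    · refine ⟨0, ?_⟩
      have e3 : P.valuation E ((n0 : ℤ) : E) = 1 := by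
        have := val_one P ((n0 : ℤ) : 𝓞 E) (int_notMem P.asIdeal P.isPrime q hq hqP n0 hn2)
        simpa using this
      have e4 : P.valuation E (algebraMap (𝓞 E) E (aeval w f)) = 1 :=
        val_one P _ (hcop P.asIdeal P.isPrime hqP _ (hΛ f))
      rw [← hΛ, e3, e4, mul_zero, WithZero.exp_zero, mul_one]
    · obtain ⟨m, hm⟩ := hv P
      refine ⟨m, ?_⟩
      rw [hm, hn]
      congr 1
      push_cast
      rw [map_mul, map_mul, map_pow, map_pow]
      have e3 : P.valuation E ((p : ℕ) : E) = 1 := by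
        have h10 : (((p : ℕ) : 𝓞 E) : E) = ((p : ℕ) : E) := map_natCast (algebraMap (𝓞 E) E) p
        have := val_one P ((p : ℕ) : 𝓞 E) hpP
        rwa [h10] at this
      have e4 : P.valuation E ((q : ℕ) : E) = 1 := by
        have h10 : (((q : ℕ) : 𝓞 E) : E) = ((q : ℕ) : E) := map_natCast (algebraMap (𝓞 E) E) q
        have := val_one P ((q : ℕ) : 𝓞 E) hqP
        rwa [h10] at this
      rw [e3, e4, one_pow, one_pow, one_mul, one_mul]

end

end Pool.Agent.V5helper55.FQ
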