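import Pool.Agent.V5helper55.FQ.Prep2
import Pool.Agent.Y941.WQ.BR

/-!
# The comparison in terms of embeddings into the algebraic closures of the `p`-adic numbers
-/

set_option autoImplicit false

namespace Pool.Agent.V5helper55.FQ

open Pool.Agent.Y546.WQ Pool.Agent.Y941.WQ NumberField IsDedekindDomain

/-- the number of embeddings at which `x` is smaller than `y` -/
noncomputable def emb (q : ℕ) [Fact q.Prime] {K : Type} [Field K] (x y : K) : ℕ :=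
  Nat.card {σ : K →+* PadicAlgCl q // ‖σ x‖ < ‖σ y‖}

section norms

variable {q : ℕ} [Fact q.Prime]

theorem add_lt_one {a b : PadicAlgCl q} (ha : ‖a‖ < 1) (hb : ‖b‖ < 1) : ‖a + b‖ < 1 :=
  lt_of_le_of_lt (PadicAlgCl.isNonarchimedean q _ _) (max_lt ha hb)

theorem sum_lt_one {ι : Type*} (s : Finset ι) (f : ι → PadicAlgCl q) (h : ∀ i ∈ s, ‖f i‖ < 1) :
    ‖∑ i ∈ s, f i‖ < 1 :=
  Finset.sum_induction f (fun w => ‖w‖ < 1) (fun _ _ => add_lt_one) (by simp) h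

theorem third_lt {p : ℕ} (hp : p ≠ 0) {A B C : PadicAlgCl q} (h : A ^ p + B ^ p + C ^ p = 0)
    (hA : ‖A‖ < 1) (hB : ‖B‖ < 1) : ‖C‖ < 1 := by
  have h1 : C ^ p = -(A ^ p + B ^ p) := by linear_combination h
  have h2 : ‖C ^ p‖ < 1 := by
    rw [h1, norm_neg]
    apply add_lt_one
    · rw [norm_pow]
      exact pow_lt_one₀ (norm_nonneg _) hA hp
    · rw [norm_pow]
      exact pow_lt_one₀ (norm_nonneg _) hB hp
  rw [norm_pow] at h2
  exact (pow_lt_one_iff_of_nonneg (norm_nonneg _) hp).1 h2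

theorem lt_iff {p : ℕ} (hp : p ≠ 0) {A B C : PadicAlgCl q} (h : A ^ p + B ^ p + C ^ p = 0)
    (hB1 : ‖B‖ ≤ 1) (hn : ¬ (‖A‖ < 1 ∧ ‖B‖ < 1 ∧ ‖C‖ < 1)) : ‖A‖ < 1 ↔ ‖A‖ < ‖B‖ := by
  constructor
  · intro hA
    by_contra hcon
    rw [not_lt] at hcon
    have hB : ‖B‖ < 1 := lt_of_le_of_lt hcon hA
    exact hn ⟨hA, hB, third_lt hp h hA hB⟩
  · intro hA
    exact lt_of_lt_of_le hA hB1

end norms

section

variable {K N : Type} [Field K] [NumberField K] [Field N] [NumberField N] {q : ℕ} [Fact q.Prime]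

theorem comp_bij (hcard : Nat.card (K →+* N) = Module.finrank ℚ K) (ι : N →+* PadicAlgCl q) :
    Function.Bijective (fun τ : K →+* N => ι.comp τ) := by
  have hinj : Function.Injective (fun τ : K →+* N => ι.comp τ) := by
    intro τ τ' h
    exact RingHom.ext fun x => ι.injective (RingHom.congr_fun h x)
  apply hinj.bijective_of_nat_card_le
  rw [hcard, Nat.card_eq_fintype_card, NumberField.Embeddings.card]

theorem mem_PI' (ι : N →+* PadicAlgCl q) (τ : K →+* N) (W : 𝓞 K) :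
    RingOfIntegers.mapRingHom τ W ∈ PI ι ↔ ‖ι.comp τ (algebraMap (𝓞 K) K W)‖ < 1 := by
  rw [mem_PI]
  rfl

/-- the numbers of embeddings with a property -/
theorem card_emb (hcard : Nat.card (K →+* N) = Module.finrank ℚ K) (ι : N →+* PadicAlgCl q)
    (P : (K →+* N) → Prop) (P' : (K →+* PadicAlgCl q) → Prop)
    (h : ∀ τ, P τ ↔ P' (ι.comp τ)) :
    Nat.card {τ : K →+* N // P τ} = Nat.card {σ : K →+* PadicAlgCl q // P' σ} :=
  Nat.card_congr ((Equiv.ofBijective _ (comp_bij hcard ι)).subtypeEquiv h)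

end

section

variable {p q : ℕ} [Fact p.Prime] [Fact q.Prime] {K : Type} [Field K] [NumberField K]

open Classical in
/-- **Comparison of the primes above `p` and above `q`.** -/
theorem mainE (h5 : 5 ≤ p) (h3m : 3 * Module.finrank ℚ K ≤ p) (hqp : q ≠ p)
    (hW : ¬ p ^ 2 ∣ q ^ (p - 1) - 1) {x y z : K} (hx : x ≠ 0) (hy : y ≠ 0) (hz : z ≠ 0)
    (h : x ^ p + y ^ p + z ^ p = 0) (hgood : Good p q K x y z) :
    ‖∑ σ ∈ Finset.univ.filter (fun σ : K →+* PadicAlgCl p => ‖σ x‖ = ‖σ y‖ ∧ ‖σ y‖ = ‖σ z‖),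
        σ ((x - y) / z) - ((((emb q x y : ℤ) - emb q y x) - ((emb p x y : ℤ) - emb p y x) : ℤ) :
          PadicAlgCl p)‖ < 1 ∧
    (RegC p (Nat.card {σ : K →+* PadicAlgCl p // ‖σ x‖ = ‖σ y‖ ∧ ‖σ y‖ = ‖σ z‖}) →
      (emb p x y : ℤ) - emb p y x = (emb q x y : ℤ) - emb q y x) := by
  have hpp : p.Prime := Fact.out
  have hqq : q.Prime := Fact.out
  have hp0 := hpp.ne_zero
  have hm := Module.finrank_pos (R := ℚ) (M := K)
  obtain ⟨E, _, _, ⟨c⟩⟩ := Pool.Agent.Y978.WQ.main p (by omega)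
  obtain ⟨N, _, _, i, hcard, hD⟩ := Pool.Agent.Y258.WQ.mainDOWNG p E c K (by omega)
  have hD' : Dn p E N i := hD
  have hpq0 : p * q ≠ 0 := mul_ne_zero hp0 hqq.ne_zero
  obtain ⟨a, X, Y, Z, ha, hXa, hYa, hZa, hX0, hY0, hZ0, hXYZ, hn⟩ := prep2 hx hy hz h (p * q) hpq0
    ⟨p, Nat.mem_primeFactors.2 ⟨hpp, dvd_mul_right _ _, hpq0⟩⟩
  have hnp : ∀ P : Ideal (𝓞 K), P.IsPrime → ((p : ℕ) : 𝓞 K) ∈ P → ¬ (X ∈ P ∧ Y ∈ P ∧ Z ∈ P) := by
    intro P hP hpP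
    refine hn P hP ?_
    rw [Nat.cast_mul]
    exact P.mul_mem_right _ hpP
  have hnq : ∀ P : Ideal (𝓞 K), P.IsPrime → ((q : ℕ) : 𝓞 K) ∈ P → ¬ (X ∈ P ∧ Y ∈ P ∧ Z ∈ P) := by
    intro P hP hqP
    refine hn P hP ?_
    rw [Nat.cast_mul]
    exact P.mul_mem_left _ hqP
  have hs : Sol0 p K X Y Z := ⟨hX0, hY0, hZ0, hXYZ, hnp⟩
  have hloc : Loc q K X Y Z := loc_of_good hpp h5 hqq ha hXa hYa hZa hXYZ hnq hgood
  obtain ⟨ιp⟩ : Nonempty (N →+* PadicAlgCl p) := inferInstance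
  obtain ⟨ιq⟩ : Nonempty (N →+* PadicAlgCl q) := inferInstance
  obtain ⟨h1, h2⟩ := mainAB (by omega) c i hD' hcard h3m q hqq hqp hW hs hloc (PI ιp)
    (PI_prime ιp) (q_mem ιp) (PI ιq) (PI_prime ιq) (q_mem ιq)
  -- translation
  have hXYZK : (algebraMap (𝓞 K) K X) ^ p + (algebraMap (𝓞 K) K Y) ^ p +
      (algebraMap (𝓞 K) K Z) ^ p = 0 := by
    rw [← map_pow, ← map_pow, ← map_pow, ← map_add, ← map_add, hXYZ, map_zero]
  have key : ∀ (r : ℕ) (_ : Fact r.Prime) (ι : N →+* PadicAlgCl r)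
      (_ : ∀ P : Ideal (𝓞 K), P.IsPrime → ((r : ℕ) : 𝓞 K) ∈ P → ¬ (X ∈ P ∧ Y ∈ P ∧ Z ∈ P)),
      ∀ τ : K →+* N,
        (RingOfIntegers.mapRingHom τ X ∈ PI ι ↔ ‖ι.comp τ x‖ < ‖ι.comp τ y‖) ∧
        (RingOfIntegers.mapRingHom τ Y ∈ PI ι ↔ ‖ι.comp τ y‖ < ‖ι.comp τ x‖) ∧
        ((RingOfIntegers.mapRingHom τ X ∉ PI ι ∧ RingOfIntegers.mapRingHom τ Y ∉ PI ι ∧
          RingOfIntegers.mapRingHom τ Z ∉ PI ι) ↔
            (‖ι.comp τ x‖ = ‖ι.comp τ y‖ ∧ ‖ι.comp τ y‖ = ‖ι.comp τ z‖)) := by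
    intro r _ ι hnr τ
    obtain ⟨σ, hσ⟩ : ∃ σ : K →+* PadicAlgCl r, σ = ι.comp τ := ⟨_, rfl⟩
    rw [mem_PI', mem_PI', mem_PI', ← hσ]
    have hnot : ¬ (‖σ (algebraMap (𝓞 K) K X)‖ < 1 ∧ ‖σ (algebraMap (𝓞 K) K Y)‖ < 1 ∧
        ‖σ (algebraMap (𝓞 K) K Z)‖ < 1) := by
      have h3 := hnr (PI σ) (PI_prime σ) (q_mem σ)
      rw [mem_PI, mem_PI, mem_PI] at h3
      exact h3
    have hX1 : ‖σ (algebraMap (𝓞 K) K X)‖ ≤ 1 := norm_int σ X
    have hY1 : ‖σ (algebraMap (𝓞 K) K Y)‖ ≤ 1 := norm_int σ Y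
    have hZ1 : ‖σ (algebraMap (𝓞 K) K Z)‖ ≤ 1 := norm_int σ Z
    have he : (σ (algebraMap (𝓞 K) K X)) ^ p + (σ (algebraMap (𝓞 K) K Y)) ^ p +
        (σ (algebraMap (𝓞 K) K Z)) ^ p = 0 := by
      have e1 := congrArg σ hXYZK
      rwa [map_add, map_add, map_pow, map_pow, map_pow, map_zero] at e1
    have ha0 : 0 < ‖σ a‖ := norm_pos_iff.2 ((map_ne_zero σ).2 ha)
    have hXn : ‖σ (algebraMap (𝓞 K) K X)‖ = ‖σ a‖ * ‖σ x‖ := by rw [hXa, map_mul, norm_mul]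
    have hYn : ‖σ (algebraMap (𝓞 K) K Y)‖ = ‖σ a‖ * ‖σ y‖ := by rw [hYa, map_mul, norm_mul]
    have hZn : ‖σ (algebraMap (𝓞 K) K Z)‖ = ‖σ a‖ * ‖σ z‖ := by rw [hZa, map_mul, norm_mul]
    have i1 := lt_iff hp0 he hY1 hnot
    have i2 := lt_iff hp0 (A := σ (algebraMap (𝓞 K) K Y)) (B := σ (algebraMap (𝓞 K) K X))
      (C := σ (algebraMap (𝓞 K) K Z)) (by rw [← he]; ring) hX1 (by tauto)
    have i3 := lt_iff hp0 (A := σ (algebraMap (𝓞 K) K Z)) (B := σ (algebraMap (𝓞 K) K X))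
      (C := σ (algebraMap (𝓞 K) K Y)) (by rw [← he]; ring) hX1 (by tauto)
    have i4 := lt_iff hp0 (A := σ (algebraMap (𝓞 K) K Y)) (B := σ (algebraMap (𝓞 K) K Z))
      (C := σ (algebraMap (𝓞 K) K X)) (by rw [← he]; ring) hZ1 (by tauto)
    refine ⟨?_, ?_, ?_⟩
    · rw [i1, hXn, hYn, mul_lt_mul_iff_right₀ ha0]
    · rw [i2, hXn, hYn, mul_lt_mul_iff_right₀ ha0]
    · constructor
      · rintro ⟨h3, h4, h5⟩
        have e1 : ‖σ (algebraMap (𝓞 K) K X)‖ = 1 := le_antisymm hX1 (not_lt.1 h3)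
        have e2 : ‖σ (algebraMap (𝓞 K) K Y)‖ = 1 := le_antisymm hY1 (not_lt.1 h4)
        have e3 : ‖σ (algebraMap (𝓞 K) K Z)‖ = 1 := le_antisymm hZ1 (not_lt.1 h5)
        rw [hXn] at e1
        rw [hYn] at e2
        rw [hZn] at e3
        exact ⟨mul_left_cancel₀ ha0.ne' (e1.trans e2.symm), mul_left_cancel₀ ha0.ne' (e2.trans e3.symm)⟩
      · rintro ⟨h3, h4⟩
        refine ⟨?_, ?_, ?_⟩
        · rw [i1, hXn, hYn, h3]
          exact lt_irrefl _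
        · rw [i2, hXn, hYn, h3]
          exact lt_irrefl _
        · rw [i3, hXn, hZn, h3, h4]
          exact lt_irrefl _
  have kp := key p inferInstance ιp hnp
  have kq := key q inferInstance ιq hnq
  have c1 : Nat.card {τ : K →+* N // RingOfIntegers.mapRingHom τ X ∈ PI ιq} = emb q x y :=
    card_emb hcard ιq _ _ fun τ => (kq τ).1
  have c2 : Nat.card {τ : K →+* N // RingOfIntegers.mapRingHom τ Y ∈ PI ιq} = emb q y x :=
    card_emb hcard ιq _ _ fun τ => (kq τ).2.1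
  have c3 : Nat.card {τ : K →+* N // RingOfIntegers.mapRingHom τ X ∈ PI ιp} = emb p x y :=
    card_emb hcard ιp _ _ fun τ => (kp τ).1
  have c4 : Nat.card {τ : K →+* N // RingOfIntegers.mapRingHom τ Y ∈ PI ιp} = emb p y x :=
    card_emb hcard ιp _ _ fun τ => (kp τ).2.1
  have c5 : Nat.card {τ : K →+* N // RingOfIntegers.mapRingHom τ X ∉ PI ιp ∧
      RingOfIntegers.mapRingHom τ Y ∉ PI ιp ∧ RingOfIntegers.mapRingHom τ Z ∉ PI ιp} =
      Nat.card {σ : K →+* PadicAlgCl p // ‖σ x‖ = ‖σ y‖ ∧ ‖σ y‖ = ‖σ z‖} :=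
    card_emb hcard ιp _ _ fun τ => (kp τ).2.2
  rw [c1, c2, c3, c4, c5] at h2
  refine ⟨?_, h2⟩
  -- the sum
  rw [c1, c2] at h1
  obtain ⟨S, hS⟩ : ∃ S : Finset (K →+* N), S = Finset.univ.filter (fun τ : K →+* N =>
    ¬ RingOfIntegers.mapRingHom τ Z ∈ PI ιp) := ⟨_, rfl⟩
  rw [← hS, mem_PI] at h1
  obtain ⟨u, hu⟩ : ∃ u : (K →+* N) → PadicAlgCl p, u = fun τ => ιp (τ (algebraMap (𝓞 K) K X)) :=
    ⟨_, rfl⟩
  obtain ⟨v, hv⟩ : ∃ v : (K →+* N) → PadicAlgCl p, v = fun τ => ιp (τ (algebraMap (𝓞 K) K Y)) :=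
    ⟨_, rfl⟩
  obtain ⟨w, hw⟩ : ∃ w : (K →+* N) → PadicAlgCl p, w = fun τ => ιp (τ (algebraMap (𝓞 K) K Z)) :=
    ⟨_, rfl⟩
  have hmu : ∀ τ, RingOfIntegers.mapRingHom τ X ∈ PI ιp ↔ ‖u τ‖ < 1 := fun τ => by
    rw [hu, mem_PI']; rfl
  have hmv : ∀ τ, RingOfIntegers.mapRingHom τ Y ∈ PI ιp ↔ ‖v τ‖ < 1 := fun τ => by
    rw [hv, mem_PI']; rfl
  have hmw : ∀ τ, RingOfIntegers.mapRingHom τ Z ∈ PI ιp ↔ ‖w τ‖ < 1 := fun τ => by
    rw [hw, mem_PI']; rfl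
  have hu1 : ∀ τ, ‖u τ‖ ≤ 1 := fun τ => by rw [hu]; exact norm_int (ιp.comp τ) X
  have hv1 : ∀ τ, ‖v τ‖ ≤ 1 := fun τ => by rw [hv]; exact norm_int (ιp.comp τ) Y
  have hw1 : ∀ τ, ‖w τ‖ ≤ 1 := fun τ => by rw [hw]; exact norm_int (ιp.comp τ) Z
  have huvw : ∀ τ, ‖u τ + v τ + w τ‖ < 1 := by
    intro τ
    have hP : (PI (ιp.comp τ)).IsPrime := PI_prime _
    have h3 := lin_p hpp (PI (ιp.comp τ)) hP (q_mem _) hXYZ
    rw [mem_PI, map_add, map_add, map_add, map_add] at h3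
    rw [hu, hv, hw]
    exact h3
  have hwS : ∀ τ ∈ S, ‖w τ‖ = 1 := by
    intro τ hτ
    rw [hS] at hτ
    have h3 := (Finset.mem_filter.1 hτ).2
    rw [hmw] at h3
    exact le_antisymm (hw1 τ) (not_lt.1 h3)
  have hw0 : ∀ τ, w τ ≠ 0 := by
    intro τ
    rw [hw]
    exact (map_ne_zero ιp).2 ((map_ne_zero τ).2 (by
      intro h3
      exact hZ0 (RingOfIntegers.coe_injective (by rw [map_zero]; exact h3))))
  have hnotp : ∀ τ, ¬ (‖u τ‖ < 1 ∧ ‖v τ‖ < 1 ∧ ‖w τ‖ < 1) := by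
    intro τ
    have h3 := hnp (PI (ιp.comp τ)) (PI_prime _) (q_mem _)
    rw [mem_PI, mem_PI, mem_PI] at h3
    rw [hu, hv, hw]
    exact h3
  -- the trace congruence
  have hM : (Module.finrank ℚ K : ℤ) -
      Nat.card {τ : K →+* N // RingOfIntegers.mapRingHom τ Z ∈ PI ιp} = S.card := by
    rw [← hcard, Nat.card_eq_fintype_card, Nat.card_eq_fintype_card, Fintype.card_subtype,
      ← Finset.card_univ, hS]
    have := Finset.card_filter_add_card_filter_not (s := (Finset.univ : Finset (K →+* N)))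
      (fun τ : K →+* N => RingOfIntegers.mapRingHom τ Z ∈ PI ιp)
    push_cast [← this]
    ring
  rw [hM] at h1
  have h3 : ‖∑ τ ∈ S, 2 * (v τ / w τ) + ((S.card : ℤ) + emb q x y - emb q y x : ℤ)‖ < 1 := by
    have hD1 : ‖∏ σ ∈ S, w σ‖ = 1 := by
      rw [norm_prod]
      exact Finset.prod_eq_one hwS
    have e1 : ιp (algebraMap (𝓞 N) N (∑ τ ∈ S, 2 * (RingOfIntegers.mapRingHom τ Y *
          ∏ σ ∈ S.erase τ, RingOfIntegers.mapRingHom σ Z) +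
        (((S.card : ℤ) + emb q x y - emb q y x : ℤ) : 𝓞 N) *
          ∏ σ ∈ S, RingOfIntegers.mapRingHom σ Z)) =
        (∑ τ ∈ S, 2 * (v τ / w τ) + ((S.card : ℤ) + emb q x y - emb q y x : ℤ)) *
          ∏ σ ∈ S, w σ := by
      have e2 : ∀ (τ : K →+* N), ιp (algebraMap (𝓞 N) N (RingOfIntegers.mapRingHom τ Y)) = v τ := by
        intro τ
        rw [hv]
        rfl
      have e3 : ∀ (τ : K →+* N), ιp (algebraMap (𝓞 N) N (RingOfIntegers.mapRingHom τ Z)) = w τ := by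
        intro τ
        rw [hw]
        rfl
      rw [map_add, map_add, map_sum, map_sum, map_mul, map_mul, map_intCast, map_intCast, map_prod,
        map_prod, Finset.prod_congr rfl fun τ _ => e3 τ, add_mul, Finset.sum_mul]
      congr 1
      refine Finset.sum_congr rfl fun τ hτ => ?_
      rw [map_mul, map_mul, map_mul, map_mul, map_prod, map_prod, e2,
        Finset.prod_congr rfl fun τ _ => e3 τ, ← Finset.mul_prod_erase S _ hτ, map_ofNat, map_ofNat]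
      have := hw0 τ
      field_simp
    rw [e1, norm_mul, hD1, mul_one] at h1
    exact h1
  -- the terms
  obtain ⟨t, ht⟩ : ∃ t : (K →+* N) → PadicAlgCl p, t = fun τ =>
    if ‖u τ‖ < 1 then 1 else if ‖v τ‖ < 1 then -1 else (u τ - v τ) / w τ := ⟨_, rfl⟩
  have h4 : ∀ τ ∈ S, ‖2 * (v τ / w τ) + 1 + t τ‖ < 1 := by
    intro τ hτ
    have hwt := hwS τ hτ
    have hw0' := hw0 τ
    have e0 : ∀ b : PadicAlgCl p, ‖b‖ < 1 → ‖b / w τ‖ < 1 := by
      intro b hb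
      rw [norm_div, hwt, div_one]
      exact hb
    rw [ht]
    simp only
    split_ifs with hc1 hc2
    · have e1 : 2 * (v τ / w τ) + 1 + 1 = (u τ + v τ + w τ) / w τ + (u τ + v τ + w τ) / w τ +
          -(u τ / w τ) + -(u τ / w τ) := by
        field_simp
        ring
      rw [e1]
      refine add_lt_one (add_lt_one (add_lt_one (e0 _ (huvw τ)) (e0 _ (huvw τ))) ?_) ?_
      · rw [norm_neg]
        exact e0 _ hc1
      · rw [norm_neg]
        exact e0 _ hc1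
    · have e1 : 2 * (v τ / w τ) + 1 + -1 = v τ / w τ + v τ / w τ := by
        field_simp
        ring
      rw [e1]
      exact add_lt_one (e0 _ hc2) (e0 _ hc2)
    · have e1 : 2 * (v τ / w τ) + 1 + (u τ - v τ) / w τ = (u τ + v τ + w τ) / w τ := by
        field_simp
        ring
      rw [e1]
      exact e0 _ (huvw τ)
  have h5 := sum_lt_one S _ h4
  have h6 : ‖∑ τ ∈ S, t τ - ((emb q x y : ℤ) - emb q y x : ℤ)‖ < 1 := by
    have e1 : ∑ τ ∈ S, t τ - (((emb q x y : ℤ) - emb q y x : ℤ) : PadicAlgCl p) =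
        ∑ τ ∈ S, (2 * (v τ / w τ) + 1 + t τ) +
          -(∑ τ ∈ S, 2 * (v τ / w τ) + (((S.card : ℤ) + emb q x y - emb q y x : ℤ) :
            PadicAlgCl p)) := by
      rw [Finset.sum_add_distrib, Finset.sum_add_distrib, Finset.sum_const, nsmul_one]
      push_cast
      ring
    rw [e1]
    refine add_lt_one h5 ?_
    rw [norm_neg]
    exact h3
  -- splitting the sum
  have h7 : ∑ τ ∈ S, t τ = (((emb p x y : ℤ) - emb p y x : ℤ) : PadicAlgCl p) +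
      ∑ σ ∈ Finset.univ.filter (fun σ : K →+* PadicAlgCl p => ‖σ x‖ = ‖σ y‖ ∧ ‖σ y‖ = ‖σ z‖),
        σ ((x - y) / z) := by
    have e1 : ∑ σ ∈ Finset.univ.filter (fun σ : K →+* PadicAlgCl p =>
        ‖σ x‖ = ‖σ y‖ ∧ ‖σ y‖ = ‖σ z‖), σ ((x - y) / z) =
        ∑ τ : K →+* N, if (¬ ‖u τ‖ < 1 ∧ ¬ ‖v τ‖ < 1 ∧ ¬ ‖w τ‖ < 1) then (u τ - v τ) / w τ else 0 := by
      rw [Finset.sum_filter]
      symm
      refine Fintype.sum_bijective _ (comp_bij hcard ιp) _ _ fun τ => ?_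
      have h8 := (kp τ).2.2
      rw [hmu, hmv, hmw] at h8
      have h9 : ιp.comp τ ((x - y) / z) = (u τ - v τ) / w τ := by
        rw [hu, hv, hw]
        simp only
        rw [hXa, hYa, hZa]
        have e2 : (x - y) / z = (a * x - a * y) / (a * z) := by
          field_simp
        rw [e2, map_div₀, map_sub]
        rfl
      rw [h9]
      by_cases hc : ¬ ‖u τ‖ < 1 ∧ ¬ ‖v τ‖ < 1 ∧ ¬ ‖w τ‖ < 1
      · rw [if_pos hc, if_pos (h8.1 hc)]
      · rw [if_neg hc, if_neg fun h => hc (h8.2 h)]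
    have e2 : ((emb p x y : ℕ) : PadicAlgCl p) = ∑ τ : K →+* N, if ‖u τ‖ < 1 then 1 else 0 := by
      rw [← c3, Nat.card_eq_fintype_card, Fintype.card_subtype, Finset.card_filter]
      push_cast
      refine Finset.sum_congr rfl fun τ _ => ?_
      rw [hmu]
    have e3 : ((emb p y x : ℕ) : PadicAlgCl p) = ∑ τ : K →+* N, if ‖v τ‖ < 1 then 1 else 0 := by
      rw [← c4, Nat.card_eq_fintype_card, Fintype.card_subtype, Finset.card_filter]
      push_cast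
      refine Finset.sum_congr rfl fun τ _ => ?_
      rw [hmv]
    have e4 : ∑ τ ∈ S, t τ = ∑ τ : K →+* N, if ¬ ‖w τ‖ < 1 then t τ else 0 := by
      rw [hS, Finset.sum_filter]
      refine Finset.sum_congr rfl fun τ _ => ?_
      rw [hmw]
    rw [e4, e1]
    push_cast
    rw [e2, e3, ← Finset.sum_sub_distrib, ← Finset.sum_add_distrib]
    refine Finset.sum_congr rfl fun τ _ => ?_
    have hnt := hnotp τ
    have he : (u τ) ^ p + (v τ) ^ p + (w τ) ^ p = 0 := by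
      have e1 := congrArg (ιp.comp τ) hXYZK
      rw [map_add, map_add, map_pow, map_pow, map_pow, map_zero] at e1
      rw [hu, hv, hw]
      exact e1
    rw [ht]
    simp only
    by_cases hcu : ‖u τ‖ < 1
    · have hcv : ¬ ‖v τ‖ < 1 := fun hc => hnt ⟨hcu, hc, third_lt hp0 he hcu hc⟩
      have hcw : ¬ ‖w τ‖ < 1 := fun hc => hcv (third_lt hp0 (by rw [← he]; ring) hcu hc)
      simp [hcu, hcv, hcw]
    · by_cases hcv : ‖v τ‖ < 1
      · have hcw : ¬ ‖w τ‖ < 1 := fun hc => hcu (third_lt hp0 (by rw [← he]; ring) hcv hc)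
        simp [hcu, hcv, hcw]
      · by_cases hcw : ‖w τ‖ < 1
        · simp [hcu, hcv, hcw]
        · simp [hcu, hcv, hcw]
  rw [h7] at h6
  have e9 : ∑ σ ∈ Finset.univ.filter (fun σ : K →+* PadicAlgCl p => ‖σ x‖ = ‖σ y‖ ∧ ‖σ y‖ = ‖σ z‖),
        σ ((x - y) / z) - ((((emb q x y : ℤ) - emb q y x) - ((emb p x y : ℤ) - emb p y x) : ℤ) :
          PadicAlgCl p) = (((emb p x y : ℤ) - emb p y x : ℤ) : PadicAlgCl p) +
      ∑ σ ∈ Finset.univ.filter (fun σ : K →+* PadicAlgCl p => ‖σ x‖ = ‖σ y‖ ∧ ‖σ y‖ = ‖σ z‖),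
        σ ((x - y) / z) - ((emb q x y : ℤ) - emb q y x : ℤ) := by
    push_cast
    ring
  rw [e9]
  exact h6

end

end Pool.Agent.V5helper55.FQ
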