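import Pool.Agent.Y546.WQ.All

/-!
# First order consequences of the relations
-/

set_option autoImplicit false

namespace Pool.Agent.V5helper55.FQ

open Pool.Agent.Y546.WQ Polynomial

section

variable {p : ℕ} [Fact p.Prime]

theorem units_val_pos (t : (ZMod p)ˣ) : 0 < (t : ZMod p).val := by
  rw [Nat.pos_iff_ne_zero]
  intro h
  rw [ZMod.val_eq_zero] at h
  exact Units.ne_zero _ h

/-- the index sets as differences of integral parts -/
theorem floor_diff (a : ℕ) (ha : a + 2 ≤ p) (t : (ZMod p)ˣ) :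
    ((a + 1) * (t : ZMod p).val) / p = (a * (t : ZMod p).val) / p + if t ∈ hf p a then 1 else 0 := by
  have hpp : p.Prime := Fact.out
  have hp0 := hpp.pos
  have e1 : ((a : ZMod p) * (t : ZMod p)).val = (a * (t : ZMod p).val) % p := by
    rw [ZMod.val_mul, ZMod.val_natCast]
    rw [Nat.mod_mul_mod]
  have e2 : (t ∈ hf p a) ↔ p < (t : ZMod p).val + (a * (t : ZMod p).val) % p := by
    unfold hf
    rw [Finset.mem_filter, e1]
    simp
  have h1 : (t : ZMod p).val < p := ZMod.val_lt _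
  have h2 := units_val_pos t
  obtain ⟨τ, hτ⟩ : ∃ τ, τ = (t : ZMod p).val := ⟨_, rfl⟩
  rw [← hτ] at e2 h1 h2 ⊢
  have h3 := Nat.div_add_mod (a * τ) p
  obtain ⟨u, hu⟩ : ∃ u, u = a * τ / p := ⟨_, rfl⟩
  obtain ⟨v, hv⟩ : ∃ v, v = a * τ % p := ⟨_, rfl⟩
  have h4 : v < p := hv ▸ Nat.mod_lt _ hp0
  rw [← hu, ← hv] at h3
  rw [← hv] at e2
  rw [← hu]
  have h5 : (a + 1) * τ = p * u + (τ + v) := by
    rw [← add_assoc, add_comm _ τ] at *
    linarith [h3]
  have h6 : τ + v ≠ p := by
    intro h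
    have h7 : p ∣ (a + 1) * τ := by
      rw [h5, h]
      exact dvd_add (dvd_mul_right _ _) (dvd_refl _)
    rcases (Nat.Prime.dvd_mul hpp).1 h7 with h8 | h8
    · have := Nat.le_of_dvd (by omega) h8
      omega
    · have := Nat.le_of_dvd h2 h8
      omega
  by_cases hc : p < τ + v
  · rw [if_pos (e2.2 hc), h5]
    have e3 : p * u + (τ + v) = (τ + v - p) + p * (u + 1) := by
      rw [mul_add, mul_one]
      omega
    rw [e3, Nat.add_mul_div_left _ _ hp0, Nat.div_eq_of_lt (by omega), zero_add]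
  · rw [if_neg (fun h => hc (e2.1 h)), h5, add_comm (p * u), Nat.add_mul_div_left _ _ hp0,
      Nat.div_eq_of_lt (by omega), zero_add, add_zero]

/-- one of the sums is not zero -/
theorem exists_a (hp3 : 3 ≤ p) : ∃ a : ℕ, 0 < a ∧ a + 2 ≤ p ∧ hsa p a 1 ≠ 0 := by
  have hpp : p.Prime := Fact.out
  by_contra hcon
  push Not at hcon
  have key : ∀ a : ℕ, 0 < a → a + 1 ≤ p →
      ∑ t : (ZMod p)ˣ, (((a * (t : ZMod p).val) / p : ℕ) : ZMod p) * ((t⁻¹ : (ZMod p)ˣ) : ZMod p) = 0 := by
    intro a ha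
    induction a with
    | zero => exact absurd ha (lt_irrefl 0)
    | succ a ih =>
      intro hap
      rcases Nat.eq_zero_or_pos a with h0 | h0
      · subst h0
        refine Finset.sum_eq_zero fun t _ => ?_
        rw [zero_add, one_mul, Nat.div_eq_of_lt (ZMod.val_lt _), Nat.cast_zero, zero_mul]
      · have h1 := ih h0 (by omega)
        have h2 := hcon a h0 (by omega)
        rw [← h1]
        have h3 : ∀ t : (ZMod p)ˣ, ((((a + 1) * (t : ZMod p).val) / p : ℕ) : ZMod p) *
            ((t⁻¹ : (ZMod p)ˣ) : ZMod p) =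
            (((a * (t : ZMod p).val) / p : ℕ) : ZMod p) * ((t⁻¹ : (ZMod p)ˣ) : ZMod p) +
              if t ∈ hf p a then ((t⁻¹ : (ZMod p)ˣ) : ZMod p) else 0 := by
          intro t
          rw [floor_diff a (by omega) t]
          split_ifs
          · push_cast
            ring
          · push_cast
            ring
        rw [Finset.sum_congr rfl fun t _ => h3 t, Finset.sum_add_distrib, h1, zero_add,
          ← Finset.sum_filter]
        unfold hsa at h2
        rw [← h2]
        refine Finset.sum_congr ?_ fun t _ => by rw [pow_one]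
        ext t
        simp
  have h1 := key (p - 1) (by omega) (by omega)
  have h2 : ∀ t : (ZMod p)ˣ, ((((p - 1) * (t : ZMod p).val) / p : ℕ) : ZMod p) *
      ((t⁻¹ : (ZMod p)ˣ) : ZMod p) = 1 - ((t⁻¹ : (ZMod p)ˣ) : ZMod p) := by
    intro t
    have h3 := units_val_pos t
    have h4 : (t : ZMod p).val < p := ZMod.val_lt _
    obtain ⟨τ, hτ⟩ : ∃ τ, τ = (t : ZMod p).val := ⟨_, rfl⟩
    rw [← hτ] at h3 h4 ⊢
    have h5 : (p - 1) * τ = (p - τ) + p * (τ - 1) := by
      obtain ⟨s, rfl⟩ : ∃ s, τ = s + 1 := ⟨τ - 1, by omega⟩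
      obtain ⟨r, hr⟩ : ∃ r, p = r + 1 := ⟨p - 1, by omega⟩
      rw [hr] at h4 ⊢
      rw [Nat.add_sub_cancel, Nat.add_sub_cancel, Nat.add_sub_add_right]
      have h6 : r - s + s = r := by omega
      nlinarith [h6]
    rw [h5, Nat.add_mul_div_left _ _ hpp.pos, Nat.div_eq_of_lt (by omega), zero_add,
      Nat.cast_sub (by omega), hτ, ZMod.natCast_val, ZMod.cast_id', id, Nat.cast_one, sub_mul,
      one_mul, ← Units.val_mul, mul_inv_cancel, Units.val_one]
  rw [Finset.sum_congr rfl fun t _ => h2 t, Finset.sum_sub_distrib] at h1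
  have h3 : ∑ t : (ZMod p)ˣ, ((t⁻¹ : (ZMod p)ˣ) : ZMod p) = 0 := by
    rw [Fintype.sum_equiv (Equiv.inv (ZMod p)ˣ) (fun t => ((t⁻¹ : (ZMod p)ˣ) : ZMod p))
      (fun t => (t : ZMod p)) (fun t => rfl)]
    have h4 := FiniteField.sum_pow_units (ZMod p) 1
    rw [ZMod.card, if_neg] at h4
    · simpa using h4
    · intro hd
      have := Nat.le_of_dvd one_pos hd
      omega
  rw [h3, sub_zero, Finset.sum_const, Finset.card_univ, ZMod.card_units p, nsmul_one,
    Nat.cast_sub hpp.one_lt.le, CharP.cast_eq_zero, Nat.cast_one, zero_sub] at h1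
  exact one_ne_zero (neg_eq_zero.1 h1)

/-- the relation of first order -/
theorem der1 (hp3 : 3 ≤ p) (a i : ℕ) (g : (ZMod p)[X]) (r : ZMod p) (hg : g.eval 1 ≠ 0)
    (h : (X - 1) ^ (p - 1) ∣ thPa p a g - C r * X ^ i) :
    (i : ZMod p) * g.eval 1 = (derivative g).eval 1 * hsa p a 1 := by
  have hpp : p.Prime := Fact.out
  obtain ⟨W, hW⟩ := h
  obtain ⟨k, hk⟩ : ∃ k, p - 1 = k + 2 := ⟨p - 3, by omega⟩
  rw [hk] at hW
  have h1 := congrArg (eval 1) hW
  have h2 := congrArg (fun f => eval 1 (derivative f)) hW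
  simp only [derivative_sub, derivative_mul, derivative_C, eval_sub, eval_add,
    eval_mul, eval_C, eval_pow, eval_X, eval_one, one_pow, zero_mul, zero_add, mul_one, sub_self,
    derivative_pow, derivative_X, derivative_one, mul_zero, add_zero, pow_succ] at h1 h2
  have e0 : (thPa p a g).eval 1 = ∏ t ∈ hf p a, g.eval 1 := by
    unfold thPa
    rw [eval_prod]
    refine Finset.prod_congr rfl fun t _ => ?_
    rw [eval_comp, eval_pow, eval_X, one_pow]
  have e1 : (derivative (thPa p a g)).eval 1 * g.eval 1 =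
      (∏ t ∈ hf p a, g.eval 1) * ((derivative g).eval 1 * hsa p a 1) := by
    unfold thPa
    rw [derivative_prod_finset, eval_finsetSum, Finset.sum_mul]
    unfold hsa
    rw [Finset.mul_sum, Finset.mul_sum]
    refine Finset.sum_congr rfl fun t ht => ?_
    have e2 : (∏ s ∈ (hf p a).erase t, g.comp (X ^ ((s⁻¹ : (ZMod p)ˣ) : ZMod p).val)).eval 1 =
        ∏ s ∈ (hf p a).erase t, g.eval 1 := by
      rw [eval_prod]
      refine Finset.prod_congr rfl fun t _ => ?_
      rw [eval_comp, eval_pow, eval_X, one_pow]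
    rw [eval_mul, e2, derivative_comp, eval_mul, eval_comp, eval_pow, eval_X, one_pow,
      derivative_X_pow, eval_mul, eval_pow, eval_X, one_pow, mul_one, pow_one,
      ← Finset.mul_prod_erase _ _ ht]
    simp only [eval_C, ZMod.natCast_val, ZMod.cast_id', id]
    ring
  have h3 : (thPa p a g).eval 1 = r := by linear_combination h1
  have h4 : (derivative (thPa p a g)).eval 1 = r * i := by linear_combination h2
  have h5 : (∏ t ∈ hf p a, g.eval 1) ≠ 0 := Finset.prod_ne_zero_iff.2 fun _ _ => hg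
  apply mul_left_cancel₀ h5
  rw [← e1, h4, ← h3, e0]
  ring

/-- the derivative of a palindromic polynomial -/
theorem pal_der (D : ℕ) (G : (ZMod p)[X]) (hG : G.natDegree ≤ D) (h : G.reflect D = G) :
    2 * (derivative G).eval 1 = D * G.eval 1 := by
  have hs : ∀ k ∈ Finset.range (D + 1), G.coeff (D - k) = G.coeff k := by
    intro k hk
    have hk' := Finset.mem_range.1 hk
    have h1 := congrArg (fun f => Polynomial.coeff f k) h
    simp only [coeff_reflect] at h1
    rwa [revAt_le (by omega)] at h1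
  have e1 : (derivative G).eval 1 = ∑ k ∈ Finset.range (D + 1), (k : ZMod p) * G.coeff k := by
    rw [derivative_eval, sum_over_range' _ (fun i => by simp) (D + 1) (by omega)]
    refine Finset.sum_congr rfl fun k _ => ?_
    rw [one_pow, mul_one, mul_comm]
  have e2 : G.eval 1 = ∑ k ∈ Finset.range (D + 1), G.coeff k := by
    rw [eval_eq_sum_range' (n := D + 1) (by omega)]
    refine Finset.sum_congr rfl fun k _ => ?_
    rw [one_pow, mul_one]
  have e3 : ∑ k ∈ Finset.range (D + 1), (k : ZMod p) * G.coeff k =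
      ∑ k ∈ Finset.range (D + 1), ((D : ZMod p) - k) * G.coeff k := by
    rw [← Finset.sum_range_reflect]
    refine Finset.sum_congr rfl fun k hk => ?_
    have hk' := Finset.mem_range.1 hk
    rw [show D + 1 - 1 - k = D - k by omega, hs k hk, Nat.cast_sub (by omega)]
  rw [two_mul]
  nth_rw 2 [e1]
  rw [e3, e1, e2, ← Finset.sum_add_distrib, Finset.mul_sum]
  refine Finset.sum_congr rfl fun k _ => ?_
  ring

/-- a power of the variable -/
theorem thPa_X_mul (a d : ℕ) (G : (ZMod p)[X]) :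
    thPa p a (X ^ d * G) =
      X ^ (d * ∑ t ∈ hf p a, ((t⁻¹ : (ZMod p)ˣ) : ZMod p).val) * thPa p a G := by
  unfold thPa
  rw [Finset.mul_sum, ← Finset.prod_pow_eq_pow_sum, ← Finset.prod_mul_distrib]
  refine Finset.prod_congr rfl fun t _ => ?_
  rw [mul_comp, pow_comp, X_comp, ← pow_mul, mul_comm d]

theorem rel_shift (a d i : ℕ) (G : (ZMod p)[X]) (r : ZMod p)
    (h : (X - 1) ^ (p - 1) ∣ thPa p a (X ^ d * G) - C r * X ^ i) :
    ∃ i' : ℕ, (i' : ZMod p) = i - d * hsa p a 1 ∧
      (X - 1) ^ (p - 1) ∣ thPa p a G - C r * X ^ i' := by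
  have hpp : p.Prime := Fact.out
  obtain ⟨S, hS⟩ : ∃ S : ℕ, S = ∑ t ∈ hf p a, ((t⁻¹ : (ZMod p)ˣ) : ZMod p).val := ⟨_, rfl⟩
  have hSc : ((S : ℕ) : ZMod p) = hsa p a 1 := by
    rw [hS]
    unfold hsa
    push_cast
    refine Finset.sum_congr rfl fun t _ => ?_
    rw [ZMod.natCast_val, ZMod.cast_id', id, pow_one]
  rw [thPa_X_mul, ← hS] at h
  have hle : d * S ≤ p * (d * S) := Nat.le_mul_of_pos_left _ hpp.pos
  refine ⟨i + p * (d * S) - d * S, ?_, ?_⟩
  · rw [Nat.cast_sub (by omega)]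
    push_cast
    rw [CharP.cast_eq_zero (ZMod p) p, hSc]
    ring
  · have h1 : (X - 1 : (ZMod p)[X]) ^ (p - 1) ∣ X ^ (p * (d * S)) - 1 := by
      have e1 : (X : (ZMod p)[X]) ^ (p * (d * S)) - 1 = (X ^ (d * S) - 1) ^ p := by
        rw [sub_pow_char, one_pow, ← pow_mul, mul_comm]
      rw [e1]
      refine (pow_dvd_pow _ (Nat.sub_le p 1)).trans (pow_dvd_pow_of_dvd ?_ p)
      have := sub_dvd_pow_sub_pow (X : (ZMod p)[X]) 1 (d * S)
      rwa [one_pow] at this
    have h2 : (X - 1 : (ZMod p)[X]) ^ (p - 1) ∣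
        X ^ (d * S) * (thPa p a G - C r * X ^ (i + p * (d * S) - d * S)) := by
      have e2 : X ^ (d * S) * (thPa p a G - C r * X ^ (i + p * (d * S) - d * S)) =
          (X ^ (d * S) * thPa p a G - C r * X ^ i) - C r * X ^ i * (X ^ (p * (d * S)) - 1) := by
        have e3 : (X : (ZMod p)[X]) ^ (d * S) * X ^ (i + p * (d * S) - d * S) =
            X ^ i * X ^ (p * (d * S)) := by
          rw [← pow_add, ← pow_add]
          congr 1
          omega
        linear_combination (-C r) * e3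
      rw [e2]
      exact dvd_sub h (h1.mul_left _)
    have hcop : IsCoprime ((X - 1 : (ZMod p)[X]) ^ (p - 1)) (X ^ (d * S)) := by
      apply IsCoprime.pow
      refine ⟨-1, 1, ?_⟩
      ring
    exact hcop.dvd_of_dvd_mul_left h2

end

end Pool.Agent.V5helper55.FQ
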