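import Pool.Agent.V5helper55.FQ.Omega
import Pool.Agent.V5helper55.FQ.PlaF

/-!
# Local degrees at the balanced primes
-/

set_option autoImplicit false

namespace Pool.Agent.V5helper55.FQ

open Pool.Agent.Y546.WQ Pool.Agent.Y941.WQ NumberField IsDedekindDomain

section

variable {p : ℕ} [Fact p.Prime] {K : Type} [Field K] [NumberField K]

/-- a permutation of a finite set from an equality of multisets -/
theorem perm_of_map {ι k : Type*} (F : Finset ι) (f g : ι → k) (h : F.val.map f = F.val.map g) :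
    ∃ β : Equiv.Perm {i // i ∈ F}, ∀ i, f (β i).1 = g i.1 := by
  classical
  refine Pool.Agent.N840.FC.exists_perm (fun i : {i // i ∈ F} => f i.1) (fun i => g i.1) ?_
  have e : ∀ f : ι → k, (Finset.univ : Finset {i // i ∈ F}).val.map (fun i => f i.1) =
      F.val.map f := by
    intro f
    exact Multiset.attach_map_val' F.val f
  rw [e f, e g, h]

/-- **Local degrees of the balanced primes.** -/
theorem mainL (h5 : 5 ≤ p) (h3m : 3 * Module.finrank ℚ K ≤ p) {x y z : K}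
    (hx : x ≠ 0) (hy : y ≠ 0) (hz : z ≠ 0) (h : x ^ p + y ^ p + z ^ p = 0)
    (hreg : RegC p (frst p x y z)) (v : HeightOneSpectrum (𝓞 K))
    (hpv : ((p : ℕ) : 𝓞 K) ∈ v.asIdeal) (v1 : v.valuation K x = v.valuation K y)
    (v2 : v.valuation K y = v.valuation K z) (e f : ℕ)
    (hpe : ((p : ℕ) : 𝓞 K) ∈ v.asIdeal ^ e) (hf : Ideal.absNorm v.asIdeal = p ^ f) :
    e * f ≤ frst p x y z ∧
    (frst p x y z < 2 * (e * f) →
      v.valuation K (x ^ 2 + x * y + y ^ 2) < v.valuation K (x ^ 2) ∧ p % 3 ≠ 1) ∧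
    (frst p x y z < 3 * (e * f) → ¬ 3 ∣ f →
      v.valuation K (x ^ 2 + x * y + y ^ 2) < v.valuation K (x ^ 2)) ∧
    (frst p x y z < 6 * (e * f) → Nat.Coprime 6 f →
      (v.valuation K (x - y) < v.valuation K x ∨ v.valuation K (y - z) < v.valuation K x ∨
        v.valuation K (z - x) < v.valuation K x) ∨
      v.valuation K (x ^ 2 + x * y + y ^ 2) < v.valuation K (x ^ 2)) := by
  classical
  have hpp : p.Prime := Fact.out
  have hp0 := hpp.ne_zero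
  have hm := Module.finrank_pos (R := ℚ) (M := K)
  obtain ⟨E, _, _, ⟨c⟩⟩ := Pool.Agent.Y978.WQ.main p (by omega)
  obtain ⟨N, _, _, i, hcard, hD⟩ := Pool.Agent.Y258.WQ.mainDOWNG p E c K (by omega)
  have hD' : Dn p E N i := hD
  obtain ⟨a, X, Y, Z, ha, hXa, hYa, hZa, hX0, hY0, hZ0, hXYZ, hnp⟩ := prep2 hx hy hz h p hp0
    ⟨p, Nat.mem_primeFactors.2 ⟨hpp, dvd_refl _, hp0⟩⟩
  obtain ⟨ιp⟩ : Nonempty (N →+* PadicAlgCl p) := inferInstance
  have hPp : (PI ιp).IsPrime := PI_prime ιp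
  have hbot : PI ιp ≠ ⊥ := by
    intro h0
    have h1 := q_mem ιp
    rw [h0, Ideal.mem_bot] at h1
    exact hp0 (by exact_mod_cast h1)
  have hmax : (PI ιp).IsMaximal := hPp.isMaximal hbot
  let _ : Field (𝓞 N ⧸ PI ιp) := Ideal.Quotient.field (PI ιp)
  have hchar : CharP (𝓞 N ⧸ PI ιp) p := charP_quot (PI ιp) hPp p hpp (q_mem ιp)
  obtain ⟨ψ, hψ⟩ : ∃ ψ : 𝓞 N →+* 𝓞 N ⧸ PI ιp, ∀ w, ψ w = 0 ↔ ‖ιp (algebraMap (𝓞 N) N w)‖ < 1 :=
    ⟨Ideal.Quotient.mk (PI ιp), fun w => by rw [Ideal.Quotient.eq_zero_iff_mem, mem_PI]⟩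
  -- the residues
  obtain ⟨x', hx'⟩ : ∃ x' : (K →+* N) → 𝓞 N ⧸ PI ιp, ∀ τ, x' τ =
    ψ (RingOfIntegers.mapRingHom τ X) := ⟨_, fun _ => rfl⟩
  obtain ⟨y', hy'⟩ : ∃ y' : (K →+* N) → 𝓞 N ⧸ PI ιp, ∀ τ, y' τ =
    ψ (RingOfIntegers.mapRingHom τ Y) := ⟨_, fun _ => rfl⟩
  obtain ⟨z', hz'⟩ : ∃ z' : (K →+* N) → 𝓞 N ⧸ PI ιp, ∀ τ, z' τ =
    ψ (RingOfIntegers.mapRingHom τ Z) := ⟨_, fun _ => rfl⟩
  have hmem : ∀ (τ : K →+* N) (W : 𝓞 K), ψ (RingOfIntegers.mapRingHom τ W) = 0 ↔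
      W ∈ PI (ιp.comp τ) := by
    intro τ W
    rw [hψ, mem_PI]
    rfl
  have hnot : ∀ τ : K →+* N, ¬ (X ∈ PI (ιp.comp τ) ∧ Y ∈ PI (ιp.comp τ) ∧ Z ∈ PI (ιp.comp τ)) :=
    fun τ => hnp _ (PI_prime _) (q_mem _)
  have hF : ∀ τ : K →+* N, (x' τ ≠ 0 ∧ y' τ ≠ 0 ∧ z' τ ≠ 0) ↔
      (‖ιp.comp τ x‖ = ‖ιp.comp τ y‖ ∧ ‖ιp.comp τ y‖ = ‖ιp.comp τ z‖) := by
    intro τ
    rw [hx', hy', hz', Ne, Ne, Ne, hmem, hmem, hmem]
    exact (keyE hp0 (ιp.comp τ) ha hXa hYa hZa hXYZ (hnot τ)).2.2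
  have hsum : ∀ τ : K →+* N, x' τ + y' τ + z' τ = 0 := by
    intro τ
    have h1 := lin_p hpp (PI (ιp.comp τ)) (PI_prime _) (q_mem _) hXYZ
    rw [hx', hy', hz', ← map_add, ← map_add, ← map_add, ← map_add, hmem]
    exact h1
  obtain ⟨F, hFd⟩ : ∃ F : Finset (K →+* N), F = Finset.univ.filter
    (fun τ : K →+* N => x' τ ≠ 0 ∧ y' τ ≠ 0 ∧ z' τ ≠ 0) := ⟨_, rfl⟩
  have hmF : ∀ τ, τ ∈ F ↔ x' τ ≠ 0 ∧ y' τ ≠ 0 ∧ z' τ ≠ 0 := by
    intro τ
    rw [hFd, Finset.mem_filter]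
    simp only [Finset.mem_univ, true_and]
  have hcount : ∀ (P : (K →+* N) → Prop) (P' : (K →+* PadicAlgCl p) → Prop)
      (_ : ∀ τ ∈ F, P τ ↔ P' (ιp.comp τ)),
      Nat.card {σ : K →+* PadicAlgCl p // (‖σ x‖ = ‖σ y‖ ∧ ‖σ y‖ = ‖σ z‖) ∧ P' σ} =
        (F.filter P).card := by
    intro P P' hPP
    rw [← card_emb hcard ιp (fun τ => τ ∈ F ∧ P τ)
      (fun σ => (‖σ x‖ = ‖σ y‖ ∧ ‖σ y‖ = ‖σ z‖) ∧ P' σ) (by
        intro τ
        rw [← hF, ← hmF]
        constructor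
        · rintro ⟨h1, h2⟩
          exact ⟨h1, (hPP τ h1).1 h2⟩
        · rintro ⟨h1, h2⟩
          exact ⟨h1, (hPP τ h1).2 h2⟩), Nat.card_eq_fintype_card, Fintype.card_subtype]
    congr 1
    ext τ
    simp
  have hFcard : frst p x y z = F.card := by
    have h1 := hcount (fun _ => True) (fun _ => True) (fun _ _ => Iff.rfl)
    rw [Finset.filter_true] at h1
    rw [← h1]
    unfold frst
    exact Nat.card_congr (Equiv.subtypeEquivRight fun σ => by simp)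
  -- the three symmetries
  have hcardF : Nat.card {τ : K →+* N // ψ (RingOfIntegers.mapRingHom τ X) ≠ 0 ∧
      ψ (RingOfIntegers.mapRingHom τ Y) ≠ 0 ∧ ψ (RingOfIntegers.mapRingHom τ Z) ≠ 0} = F.card := by
    rw [Nat.card_eq_fintype_card, Fintype.card_subtype, hFd]
    congr 1
    ext τ
    simp only [Finset.mem_filter, Finset.mem_univ, true_and, hx', hy', hz']
  have hreg1 : RegC p F.card := by rw [← hFcard]; exact hreg
  have hs : Sol0 p K X Y Z := ⟨hX0, hY0, hZ0, hXYZ, hnp⟩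
  have s1 : F.val.map (fun τ => x' τ / y' τ) = F.val.map (fun τ => y' τ / x' τ) := by
    have h1 := symPal (by omega) c i hD' hcard h3m hs ψ (by rw [hcardF]; exact hreg1)
    have e : (Finset.univ.filter (fun τ : K →+* N => ψ (RingOfIntegers.mapRingHom τ X) ≠ 0 ∧
        ψ (RingOfIntegers.mapRingHom τ Y) ≠ 0 ∧ ψ (RingOfIntegers.mapRingHom τ Z) ≠ 0)) = F := by
      ext τ
      simp only [Finset.mem_filter, Finset.mem_univ, true_and, hmF, hx', hy', hz']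
    rw [e] at h1
    simp only [hx', hy']
    exact h1
  have s2 : F.val.map (fun τ => y' τ / z' τ) = F.val.map (fun τ => z' τ / y' τ) := by
    have hs' : Sol0 p K Y Z X := ⟨hY0, hZ0, hX0, by rw [← hXYZ]; ring,
      fun P hP hpP hn => hnp P hP hpP ⟨hn.2.2, hn.1, hn.2.1⟩⟩
    have hcardF' : Nat.card {τ : K →+* N // ψ (RingOfIntegers.mapRingHom τ Y) ≠ 0 ∧
      ψ (RingOfIntegers.mapRingHom τ Z) ≠ 0 ∧ ψ (RingOfIntegers.mapRingHom τ X) ≠ 0} = F.card := by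
      rw [← hcardF]
      exact Nat.card_congr (Equiv.subtypeEquivRight fun τ => by tauto)
    have h1 := symPal (by omega) c i hD' hcard h3m hs' ψ (by rw [hcardF']; exact hreg1)
    have e : (Finset.univ.filter (fun τ : K →+* N => ψ (RingOfIntegers.mapRingHom τ Y) ≠ 0 ∧
        ψ (RingOfIntegers.mapRingHom τ Z) ≠ 0 ∧ ψ (RingOfIntegers.mapRingHom τ X) ≠ 0)) = F := by
      ext τ
      simp only [Finset.mem_filter, Finset.mem_univ, true_and, hmF, hx', hy', hz']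
      tauto
    rw [e] at h1
    simp only [hz', hy']
    exact h1
  have s3 : F.val.map (fun τ => x' τ / z' τ) = F.val.map (fun τ => z' τ / x' τ) := by
    have hs' : Sol0 p K X Z Y := ⟨hX0, hZ0, hY0, by rw [← hXYZ]; ring,
      fun P hP hpP hn => hnp P hP hpP ⟨hn.1, hn.2.2, hn.2.1⟩⟩
    have hcardF' : Nat.card {τ : K →+* N // ψ (RingOfIntegers.mapRingHom τ X) ≠ 0 ∧
      ψ (RingOfIntegers.mapRingHom τ Z) ≠ 0 ∧ ψ (RingOfIntegers.mapRingHom τ Y) ≠ 0} = F.card := by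
      rw [← hcardF]
      exact Nat.card_congr (Equiv.subtypeEquivRight fun τ => by tauto)
    have h1 := symPal (by omega) c i hD' hcard h3m hs' ψ (by rw [hcardF']; exact hreg1)
    have e : (Finset.univ.filter (fun τ : K →+* N => ψ (RingOfIntegers.mapRingHom τ X) ≠ 0 ∧
        ψ (RingOfIntegers.mapRingHom τ Z) ≠ 0 ∧ ψ (RingOfIntegers.mapRingHom τ Y) ≠ 0)) = F := by
      ext τ
      simp only [Finset.mem_filter, Finset.mem_univ, true_and, hmF, hx', hy', hz']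
      tauto
    rw [e] at h1
    simp only [hz', hx']
    exact h1
  have hxF : ∀ τ ∈ F, x' τ ≠ 0 := fun τ hτ => ((hmF τ).1 hτ).1
  have hyF : ∀ τ ∈ F, y' τ ≠ 0 := fun τ hτ => ((hmF τ).1 hτ).2.1
  have hzF : ∀ τ ∈ F, z' τ ≠ 0 := fun τ hτ => ((hmF τ).1 hτ).2.2
  -- the elements at the prime
  have hva : v.valuation K a ≠ 0 := (Valuation.ne_zero_iff _).2 ha
  have hmemv : ∀ W : 𝓞 K, W ∈ v.asIdeal ↔ v.valuation K (algebraMap (𝓞 K) K W) < 1 := fun W =>
    (v.valuation_lt_one_iff_mem (K := K) W).symm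
  have hvX : v.valuation K (algebraMap (𝓞 K) K X) = v.valuation K a * v.valuation K x := by
    rw [hXa, map_mul]
  have hvY : v.valuation K (algebraMap (𝓞 K) K Y) = v.valuation K a * v.valuation K x := by
    rw [hYa, map_mul, v1]
  have hvZ : v.valuation K (algebraMap (𝓞 K) K Z) = v.valuation K a * v.valuation K x := by
    rw [hZa, map_mul, v1, v2]
  have hone : v.valuation K a * v.valuation K x = 1 := by
    refine le_antisymm ?_ ?_
    · rw [← hvX]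
      exact v.valuation_le_one X
    · rw [← not_lt]
      intro hlt
      refine hnp v.asIdeal v.isPrime hpv ⟨?_, ?_, ?_⟩
      · rw [hmemv, hvX]
        exact hlt
      · rw [hmemv, hvY]
        exact hlt
      · rw [hmemv, hvZ]
        exact hlt
  have hXv : X ∉ v.asIdeal := by
    rw [hmemv, hvX, hone]
    exact lt_irrefl _
  have hYv : Y ∉ v.asIdeal := by
    rw [hmemv, hvY, hone]
    exact lt_irrefl _
  have hZv : Z ∉ v.asIdeal := by
    rw [hmemv, hvZ, hone]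
    exact lt_irrefl _
  have hlow : ∀ (w : K) (W : 𝓞 K), algebraMap (𝓞 K) K W = a * w →
      (W ∈ v.asIdeal → v.valuation K w < v.valuation K x) := by
    intro w W hW hWv
    rw [hmemv, hW, map_mul, ← hone] at hWv
    exact (mul_lt_mul_iff_right₀ (zero_lt_iff.2 hva)).1 hWv
  have hlow2 : X ^ 2 + X * Y + Y ^ 2 ∈ v.asIdeal →
      v.valuation K (x ^ 2 + x * y + y ^ 2) < v.valuation K (x ^ 2) := by
    intro hW
    have e1 : algebraMap (𝓞 K) K (X ^ 2 + X * Y + Y ^ 2) = a ^ 2 * (x ^ 2 + x * y + y ^ 2) := by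
      rw [map_add, map_add, map_pow, map_mul, map_pow, hXa, hYa]
      ring
    have hone2 : v.valuation K (a ^ 2) * v.valuation K (x ^ 2) = 1 := by
      rw [map_pow, map_pow, ← mul_pow, hone, one_pow]
    rw [hmemv, e1, map_mul, ← hone2] at hW
    refine (mul_lt_mul_iff_right₀ (zero_lt_iff.2 ?_)).1 hW
    rw [map_pow]
    exact pow_ne_zero 2 hva
  -- the symmetric family
  obtain ⟨V, hV⟩ : ∃ V : Fin 3 → 𝓞 K, V = ![X, Y, Z] := ⟨_, rfl⟩
  have V0 : V 0 = X := by rw [hV]; rfl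
  have V1 : V 1 = Y := by rw [hV]; rfl
  have V2 : V 2 = Z := by rw [hV]; rfl
  have hfam0 : ∀ τ : K →+* N, Pool.Agent.N840.FC.fam (K := K) ψ V τ 0 = x' τ := by
    intro τ
    rw [hx', ← V0]
    rfl
  have hfam1 : ∀ τ : K →+* N, Pool.Agent.N840.FC.fam (K := K) ψ V τ 1 = y' τ := by
    intro τ
    rw [hy', ← V1]
    rfl
  have hfam2 : ∀ τ : K →+* N, Pool.Agent.N840.FC.fam (K := K) ψ V τ 2 = z' τ := by
    intro τ
    rw [hz', ← V2]
    rfl
  have S : Pool.Agent.N840.FC.Sym (fun (τ : {τ // τ ∈ F}) (b : Fin 3) =>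
      Pool.Agent.N840.FC.fam (K := K) ψ V τ.1 b) := by
    refine ⟨?_, ?_, ?_, ?_⟩
    · rintro ⟨τ, hτ⟩ b
      fin_cases b
      · show Pool.Agent.N840.FC.fam (K := K) ψ V τ 0 ≠ 0
        rw [hfam0]
        exact hxF τ hτ
      · show Pool.Agent.N840.FC.fam (K := K) ψ V τ 1 ≠ 0
        rw [hfam1]
        exact hyF τ hτ
      · show Pool.Agent.N840.FC.fam (K := K) ψ V τ 2 ≠ 0
        rw [hfam2]
        exact hzF τ hτ
    · rintro ⟨τ, hτ⟩
      simp only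
      rw [hfam0, hfam1, hfam2]
      exact hsum τ
    · obtain ⟨β, hβ⟩ := perm_of_map F _ _ s1
      refine ⟨β, fun i => ?_⟩
      rw [hfam0, hfam1, hfam0, hfam1]
      exact hβ i
    · obtain ⟨β, hβ⟩ := perm_of_map F _ _ s2
      refine ⟨β, fun i => ?_⟩
      rw [hfam1, hfam2, hfam2, hfam1]
      exact hβ i
  have hres := place_sub h5 hcard (by omega) (PI ιp) hPp (q_mem ιp) ψ
    (fun w => by rw [hψ, mem_PI]) V F S v e f (by
      intro τ hτ
      rw [hmF, hx', hy', hz', Ne, Ne, Ne, hψ, hψ, hψ]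
      have e1 : ∀ W : 𝓞 K, ‖ιp (algebraMap (𝓞 N) N (RingOfIntegers.mapRingHom τ W))‖ < 1 ↔
          W ∈ v.asIdeal := by
        intro W
        rw [← hτ, Ideal.mem_comap, mem_PI]
      rw [e1, e1, e1]
      exact ⟨hXv, hYv, hZv⟩) hpe hf (by
      intro b
      fin_cases b
      · show V 0 ∉ v.asIdeal
        rw [V0]
        exact hXv
      · show V 1 ∉ v.asIdeal
        rw [V1]
        exact hYv
      · show V 2 ∉ v.asIdeal
        rw [V2]
        exact hZv) (by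
      rw [V0, V1, V2]
      exact lin_p hpp v.asIdeal v.isPrime hpv hXYZ)
  rw [V0, V1, V2, ← hFcard] at hres
  obtain ⟨q1, q2, q3, q4⟩ := hres
  refine ⟨q1, fun hh => ⟨hlow2 (q2 hh).1, (q2 hh).2⟩, fun hh hf3 => hlow2 (q3 hh hf3), ?_⟩
  intro hh hf6
  rcases q4 hh hf6 with (h6 | h6 | h6) | h6
  · left; left
    exact hlow (x - y) (X - Y) (by rw [map_sub, hXa, hYa]; ring) h6
  · left; right; left
    exact hlow (y - z) (Y - Z) (by rw [map_sub, hYa, hZa]; ring) h6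
  · left; right; right
    exact hlow (z - x) (Z - X) (by rw [map_sub, hXa, hZa]; ring) h6
  · right
    exact hlow2 h6

end

end Pool.Agent.V5helper55.FQ
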