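import Pool.Agent.V5helper55.FQ.Loc2

/-!
# The balanced primes
-/

set_option autoImplicit false

namespace Pool.Agent.V5helper55.FQ

open Pool.Agent.Y546.WQ Pool.Agent.Y941.WQ NumberField IsDedekindDomain

section

variable {p : ℕ} [Fact p.Prime] {K : Type} [Field K] [NumberField K]

/-- scaling at a balanced prime -/
theorem scaleV {x y z : K} (hx : x ≠ 0) (hy : y ≠ 0) (hz : z ≠ 0)
    (h : x ^ p + y ^ p + z ^ p = 0) (v : HeightOneSpectrum (𝓞 K))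
    (hpv : ((p : ℕ) : 𝓞 K) ∈ v.asIdeal) (v1 : v.valuation K x = v.valuation K y)
    (v2 : v.valuation K y = v.valuation K z) :
    ∃ (a : K) (X Y Z : 𝓞 K), a ≠ 0 ∧ algebraMap (𝓞 K) K X = a * x ∧
      algebraMap (𝓞 K) K Y = a * y ∧ algebraMap (𝓞 K) K Z = a * z ∧ X ^ p + Y ^ p + Z ^ p = 0 ∧
      X ∉ v.asIdeal ∧ Y ∉ v.asIdeal ∧ Z ∉ v.asIdeal ∧ v.valuation K a * v.valuation K x = 1 := by
  have hpp : p.Prime := Fact.out
  have hp0 := hpp.ne_zero
  obtain ⟨a, X, Y, Z, ha, hXa, hYa, hZa, hX0, hY0, hZ0, hXYZ, hnp⟩ := prep2 hx hy hz h p hp0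
    ⟨p, Nat.mem_primeFactors.2 ⟨hpp, dvd_refl _, hp0⟩⟩
  have hmemv : ∀ W : 𝓞 K, W ∈ v.asIdeal ↔ v.valuation K (algebraMap (𝓞 K) K W) < 1 := fun W =>
    (v.valuation_lt_one_iff_mem (K := K) W).symm
  have hvX : v.valuation K (algebraMap (𝓞 K) K X) = v.valuation K a * v.valuation K x := by
    rw [hXa, map_mul]
  have hvY : v.valuation K (algebraMap (𝓞 K) K Y) = v.valuation K a * v.valuation K x := by
    rw [hYa, map_mul, v1]
  have hvZ : v.valuation K (algebraMap (𝓞 K) K Z) = v.valuation K a * v.valuation K x := by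
    rw [hZa, map_mul, v1, v2]
  have hone : v.valuation K a * v.valuation K x = 1 := by
    refine le_antisymm ?_ ?_
    · rw [← hvX]
      exact v.valuation_le_one X
    · rw [← not_lt]
      intro hlt
      refine hnp v.asIdeal v.isPrime hpv ⟨?_, ?_, ?_⟩
      · rw [hmemv, hvX]
        exact hlt
      · rw [hmemv, hvY]
        exact hlt
      · rw [hmemv, hvZ]
        exact hlt
  refine ⟨a, X, Y, Z, ha, hXa, hYa, hZa, hXYZ, ?_, ?_, ?_, hone⟩
  · rw [hmemv, hvX, hone]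
    exact lt_irrefl _
  · rw [hmemv, hvY, hone]
    exact lt_irrefl _
  · rw [hmemv, hvZ, hone]
    exact lt_irrefl _

theorem wiefV (hmp : Module.finrank ℚ K < p) (hp2 : p ≠ 2) (hW : ¬ p ^ 2 ∣ 2 ^ (p - 1) - 1)
    {x y z : K} (hx : x ≠ 0) (hy : y ≠ 0) (hz : z ≠ 0)
    (h : x ^ p + y ^ p + z ^ p = 0) (v : HeightOneSpectrum (𝓞 K))
    (hpv : ((p : ℕ) : 𝓞 K) ∈ v.asIdeal) (v1 : v.valuation K x = v.valuation K y)
    (v2 : v.valuation K y = v.valuation K z) : ¬ v.valuation K (x - y) < v.valuation K x := by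
  intro hlt
  obtain ⟨a, X, Y, Z, ha, hXa, hYa, hZa, hXYZ, hX, hY, hZ, hone⟩ := scaleV hx hy hz h v hpv v1 v2
  refine wiefL hmp hp2 hW v.asIdeal v.isPrime hpv hXYZ hX ?_
  have e1 : algebraMap (𝓞 K) K (X - Y) = a * (x - y) := by
    rw [map_sub, hXa, hYa]
    ring
  have hva : v.valuation K a ≠ 0 := (Valuation.ne_zero_iff _).2 ha
  refine (v.valuation_lt_one_iff_mem (K := K) (X - Y)).1 ?_
  have e2 : v.valuation K (algebraMap (𝓞 K) K (X - Y)) < 1 := by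
    rw [e1, map_mul, ← hone]
    exact (mul_lt_mul_iff_right₀ (zero_lt_iff.2 hva)).2 hlt
  exact e2

theorem omegaV (h5 : 5 ≤ p) {x y z : K} (hx : x ≠ 0) (hy : y ≠ 0) (hz : z ≠ 0)
    (h : x ^ p + y ^ p + z ^ p = 0) (v : HeightOneSpectrum (𝓞 K))
    (hpv : ((p : ℕ) : 𝓞 K) ∈ v.asIdeal) (v1 : v.valuation K x = v.valuation K y)
    (v2 : v.valuation K y = v.valuation K z)
    (hlt : v.valuation K (x ^ 2 + x * y + y ^ 2) < v.valuation K (x ^ 2)) :
    Nat.card (𝓞 K ⧸ v.asIdeal) % 3 = 1 := by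
  have hpp : p.Prime := Fact.out
  obtain ⟨a, X, Y, Z, ha, hXa, hYa, hZa, hXYZ, hX, hY, hZ, hone⟩ := scaleV hx hy hz h v hpv v1 v2
  have hva : v.valuation K a ≠ 0 := (Valuation.ne_zero_iff _).2 ha
  have e1 : algebraMap (𝓞 K) K (X ^ 2 + X * Y + Y ^ 2) = a ^ 2 * (x ^ 2 + x * y + y ^ 2) := by
    rw [map_add, map_add, map_pow, map_mul, map_pow, hXa, hYa]
    ring
  have hone2 : v.valuation K (a ^ 2) * v.valuation K (x ^ 2) = 1 := by
    rw [map_pow, map_pow, ← mul_pow, hone, one_pow]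
  have hmem : X ^ 2 + X * Y + Y ^ 2 ∈ v.asIdeal := by
    refine (v.valuation_lt_one_iff_mem (K := K) (X ^ 2 + X * Y + Y ^ 2)).1 ?_
    have e2 : v.valuation K (algebraMap (𝓞 K) K (X ^ 2 + X * Y + Y ^ 2)) < 1 := by
      rw [e1, map_mul, ← hone2]
      refine (mul_lt_mul_iff_right₀ (zero_lt_iff.2 ?_)).2 hlt
      rw [map_pow]
      exact pow_ne_zero 2 hva
    exact e2
  have hvm : v.asIdeal.IsMaximal := v.isMaximal
  let _ : Field (𝓞 K ⧸ v.asIdeal) := Ideal.Quotient.field v.asIdeal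
  have hfin : Finite (𝓞 K ⧸ v.asIdeal) := Ideal.finiteQuotientOfFreeOfNeBot v.asIdeal v.ne_bot
  have hch : CharP (𝓞 K ⧸ v.asIdeal) p := charP_quot v.asIdeal v.isPrime p hpp hpv
  have h3P : (3 : 𝓞 K ⧸ v.asIdeal) ≠ 0 := by
    have h : ((3 : ℕ) : 𝓞 K ⧸ v.asIdeal) ≠ 0 := by
      rw [Ne, CharP.cast_eq_zero_iff (𝓞 K ⧸ v.asIdeal) p]
      intro hd
      have := Nat.le_of_dvd (by norm_num) hd
      omega
    exact_mod_cast h
  have hY0 : (Ideal.Quotient.mk v.asIdeal Y) ≠ 0 := fun h0 =>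
    hY (Ideal.Quotient.eq_zero_iff_mem.1 h0)
  refine three_card ((Ideal.Quotient.mk v.asIdeal X) / (Ideal.Quotient.mk v.asIdeal Y)) ?_ h3P
  have h4 : (Ideal.Quotient.mk v.asIdeal X) ^ 2 + (Ideal.Quotient.mk v.asIdeal X) *
      (Ideal.Quotient.mk v.asIdeal Y) + (Ideal.Quotient.mk v.asIdeal Y) ^ 2 = 0 := by
    rw [← map_pow, ← map_pow, ← map_mul, ← map_add, ← map_add]
    exact Ideal.Quotient.eq_zero_iff_mem.2 hmem
  field_simp
  linear_combination h4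

/-- the number of balanced embeddings is positive if there is a balanced prime -/
theorem frst_pos (h5 : 5 ≤ p) (h3m : 3 * Module.finrank ℚ K ≤ p) {x y z : K}
    (hx : x ≠ 0) (hy : y ≠ 0) (hz : z ≠ 0) (h : x ^ p + y ^ p + z ^ p = 0)
    (hreg : RegC p (frst p x y z)) (v : HeightOneSpectrum (𝓞 K))
    (hpv : ((p : ℕ) : 𝓞 K) ∈ v.asIdeal) (v1 : v.valuation K x = v.valuation K y)
    (v2 : v.valuation K y = v.valuation K z) : 0 < frst p x y z := by
  have hpp : p.Prime := Fact.out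
  have h1 : Ideal.absNorm v.asIdeal ∣ Ideal.absNorm (Ideal.span {((p : ℕ) : 𝓞 K)}) :=
    Ideal.absNorm_dvd_absNorm_of_le ((Ideal.span_singleton_le_iff_mem _).2 hpv)
  rw [Ideal.absNorm_span_natCast] at h1
  obtain ⟨f, -, hf⟩ := (Nat.dvd_prime_pow hpp).1 h1
  have hf0 : f ≠ 0 := by
    rintro rfl
    rw [pow_zero] at hf
    exact v.isPrime.ne_top (Ideal.absNorm_eq_one_iff.1 hf)
  have h2 := (mainL h5 h3m hx hy hz h hreg v hpv v1 v2 1 f (by rwa [pow_one]) hf).1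
  omega

end

end Pool.Agent.V5helper55.FQ
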