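import Pool.Agent.Y546.WQ.All

/-!
# The norm polynomial modulo `p`
-/

set_option autoImplicit false

namespace Pool.Agent.V5helper55.FQ

open Pool.Agent.Y546.WQ Polynomial

section

variable {p : ℕ} [Fact p.Prime] {k : Type*} [Field k] [CharP k p] {ι : Type*} [Fintype ι]

theorem map_castHom (h : ℤ[X]) :
    (h.map (Int.castRingHom (ZMod p))).map (ZMod.castHom (dvd_refl p) k) =
      h.map (Int.castRingHom k) := by
  rw [Polynomial.map_map]
  congr 1
  exact RingHom.ext_int _ _

open Classical in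
/-- the quotient of the norm polynomial by a power of `X - 1` modulo `p` -/
theorem locP (x y z : ι → k) (hsum : ∀ t, x t + y t + z t = 0) (f h : ℤ[X])
    (hf : f.map (Int.castRingHom k) = ∏ t, (C (x t) + X * C (y t)))
    (hh : f.map (Int.castRingHom (ZMod p)) =
      (X - 1) ^ Nat.card {t // z t = 0} * h.map (Int.castRingHom (ZMod p))) :
    h.map (Int.castRingHom k) = (∏ t ∈ Finset.univ.filter (fun t => z t = 0), C (y t)) *
      ∏ t ∈ Finset.univ.filter (fun t => ¬ z t = 0), (C (x t) + X * C (y t)) := by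
  have h1 := congrArg (Polynomial.map (ZMod.castHom (dvd_refl p) k)) hh
  rw [Polynomial.map_mul, map_castHom, map_castHom, hf, Polynomial.map_pow, Polynomial.map_sub,
    map_X, Polynomial.map_one, ← Finset.prod_filter_mul_prod_filter_not Finset.univ
      (fun t => z t = 0)] at h1
  have h2 : ∏ t ∈ Finset.univ.filter (fun t => z t = 0), (C (x t) + X * C (y t)) =
      (X - 1) ^ Nat.card {t // z t = 0} * ∏ t ∈ Finset.univ.filter (fun t => z t = 0), C (y t) := by
    rw [Nat.card_eq_fintype_card, Fintype.card_subtype, ← Finset.prod_const,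
      ← Finset.prod_mul_distrib]
    refine Finset.prod_congr rfl fun t ht => ?_
    have h3 := (Finset.mem_filter.1 ht).2
    have h4 : x t = -y t := by
      have := hsum t
      rw [h3, add_zero] at this
      exact eq_neg_of_add_eq_zero_left this
    rw [h4, C_neg]
    ring
  rw [h2, mul_assoc] at h1
  have h3 : (X - 1 : k[X]) ^ Nat.card {t // z t = 0} ≠ 0 := by
    apply pow_ne_zero
    have := X_sub_C_ne_zero (1 : k)
    rwa [C_1] at this
  exact (mul_left_cancel₀ h3 h1).symm

open Classical in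
/-- the value at `1` -/
theorem locP_one (x y z : ι → k) (hsum : ∀ t, x t + y t + z t = 0)
    (hnot : ∀ t, ¬ (x t = 0 ∧ y t = 0 ∧ z t = 0)) (h : ℤ[X])
    (hh : h.map (Int.castRingHom k) = (∏ t ∈ Finset.univ.filter (fun t => z t = 0), C (y t)) *
      ∏ t ∈ Finset.univ.filter (fun t => ¬ z t = 0), (C (x t) + X * C (y t))) :
    (h.map (Int.castRingHom (ZMod p))).eval 1 ≠ 0 := by
  intro h0
  have h1 : (h.map (Int.castRingHom k)).eval 1 = 0 := by
    rw [← map_castHom (p := p), ← map_one (ZMod.castHom (dvd_refl p) k), eval_map_apply, h0,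
      map_zero]
  rw [hh, eval_mul, eval_prod, eval_prod, mul_eq_zero, Finset.prod_eq_zero_iff,
    Finset.prod_eq_zero_iff] at h1
  rcases h1 with ⟨t, ht, h2⟩ | ⟨t, ht, h2⟩
  · have h3 := (Finset.mem_filter.1 ht).2
    rw [eval_C] at h2
    have h4 := hsum t
    rw [h2, h3, add_zero, add_zero] at h4
    exact hnot t ⟨h4, h2, h3⟩
  · have h3 := (Finset.mem_filter.1 ht).2
    rw [eval_add, eval_mul, eval_C, eval_C, eval_X, one_mul] at h2
    have h4 := hsum t
    rw [h2, zero_add] at h4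
    exact h3 h4

open Classical in
/-- the part of the first case -/
theorem locP_G2 (x y z : ι → k) (hsum : ∀ t, x t + y t + z t = 0)
    (hnot : ∀ t, ¬ (x t = 0 ∧ y t = 0 ∧ z t = 0)) (h : ℤ[X])
    (hh : h.map (Int.castRingHom k) = (∏ t ∈ Finset.univ.filter (fun t => z t = 0), C (y t)) *
      ∏ t ∈ Finset.univ.filter (fun t => ¬ z t = 0), (C (x t) + X * C (y t))) :
    ∃ G : (ZMod p)[X], h.map (Int.castRingHom (ZMod p)) = X ^ Nat.card {t // x t = 0} * G ∧
      G.natDegree ≤ Nat.card {t // x t ≠ 0 ∧ y t ≠ 0 ∧ z t ≠ 0} ∧ G.coeff 0 ≠ 0 ∧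
      G.coeff (Nat.card {t // x t ≠ 0 ∧ y t ≠ 0 ∧ z t ≠ 0}) ≠ 0 ∧ G.eval 1 ≠ 0 ∧
      ∃ c : k, c ≠ 0 ∧ G.map (ZMod.castHom (dvd_refl p) k) = C c *
        ∏ t ∈ Finset.univ.filter (fun t => x t ≠ 0 ∧ y t ≠ 0 ∧ z t ≠ 0),
          (C (x t) + X * C (y t)) := by
  obtain ⟨A, hA⟩ : ∃ A : Finset ι, A = Finset.univ.filter (fun t => z t = 0) := ⟨_, rfl⟩
  obtain ⟨B, hB⟩ : ∃ B : Finset ι, B = Finset.univ.filter (fun t => x t = 0) := ⟨_, rfl⟩
  obtain ⟨D, hD⟩ : ∃ D : Finset ι, D = Finset.univ.filter (fun t => y t = 0) := ⟨_, rfl⟩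
  obtain ⟨F, hF⟩ : ∃ F : Finset ι, F = Finset.univ.filter
    (fun t => x t ≠ 0 ∧ y t ≠ 0 ∧ z t ≠ 0) := ⟨_, rfl⟩
  have hBc : Nat.card {t // x t = 0} = B.card := by
    rw [Nat.card_eq_fintype_card, Fintype.card_subtype, hB]
  have hFc : Nat.card {t // x t ≠ 0 ∧ y t ≠ 0 ∧ z t ≠ 0} = F.card := by
    rw [Nat.card_eq_fintype_card, Fintype.card_subtype, hF]
  have hsplit : ∏ t ∈ Finset.univ.filter (fun t => ¬ z t = 0), (C (x t) + X * C (y t)) =
      X ^ B.card * ((∏ t ∈ B, C (y t)) * (∏ t ∈ D, C (x t))) *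
        ∏ t ∈ F, (C (x t) + X * C (y t)) := by
    rw [← Finset.prod_filter_mul_prod_filter_not _ (fun t => x t = 0)]
    have e1 : (Finset.univ.filter (fun t => ¬ z t = 0)).filter (fun t => x t = 0) = B := by
      rw [hB]
      ext t
      simp only [Finset.mem_filter, Finset.mem_univ, true_and]
      constructor
      · exact fun h => h.2
      · intro h1
        refine ⟨fun h2 => ?_, h1⟩
        have h3 := hsum t
        rw [h1, h2, zero_add, add_zero] at h3
        exact hnot t ⟨h1, h3, h2⟩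
    rw [e1, ← Finset.prod_filter_mul_prod_filter_not
      ((Finset.univ.filter (fun t => ¬ z t = 0)).filter (fun t => ¬ x t = 0)) (fun t => y t = 0)]
    have e2 : ((Finset.univ.filter (fun t => ¬ z t = 0)).filter (fun t => ¬ x t = 0)).filter
        (fun t => y t = 0) = D := by
      rw [hD]
      ext t
      simp only [Finset.mem_filter, Finset.mem_univ, true_and]
      constructor
      · exact fun h => h.2
      · intro h1
        refine ⟨⟨fun h2 => ?_, fun h2 => ?_⟩, h1⟩
        · have h3 := hsum t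
          rw [h1, h2, add_zero, add_zero] at h3
          exact hnot t ⟨h3, h1, h2⟩
        · have h3 := hsum t
          rw [h1, h2, zero_add, zero_add] at h3
          exact hnot t ⟨h2, h1, h3⟩
    have e3 : ((Finset.univ.filter (fun t => ¬ z t = 0)).filter (fun t => ¬ x t = 0)).filter
        (fun t => ¬ y t = 0) = F := by
      rw [hF]
      ext t
      simp only [Finset.mem_filter, Finset.mem_univ, true_and]
      tauto
    rw [e2, e3]
    have e4 : ∏ t ∈ B, (C (x t) + X * C (y t)) = X ^ B.card * ∏ t ∈ B, C (y t) := by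
      rw [← Finset.prod_const, ← Finset.prod_mul_distrib]
      refine Finset.prod_congr rfl fun t ht => ?_
      rw [hB] at ht
      rw [(Finset.mem_filter.1 ht).2, C_0, zero_add]
    have e5 : ∏ t ∈ D, (C (x t) + X * C (y t)) = ∏ t ∈ D, C (x t) := by
      refine Finset.prod_congr rfl fun t ht => ?_
      rw [hD] at ht
      rw [(Finset.mem_filter.1 ht).2, C_0, mul_zero, add_zero]
    rw [e4, e5]
    ring
  obtain ⟨c, hc⟩ : ∃ c : k, c = (∏ t ∈ A, y t) * ((∏ t ∈ B, y t) * ∏ t ∈ D, x t) := ⟨_, rfl⟩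
  have hc0 : c ≠ 0 := by
    rw [hc]
    refine mul_ne_zero (Finset.prod_ne_zero_iff.2 fun t ht => ?_)
      (mul_ne_zero (Finset.prod_ne_zero_iff.2 fun t ht => ?_)
        (Finset.prod_ne_zero_iff.2 fun t ht => ?_))
    · rw [hA] at ht
      have h1 := (Finset.mem_filter.1 ht).2
      intro h2
      have h3 := hsum t
      rw [h1, h2, add_zero, add_zero] at h3
      exact hnot t ⟨h3, h2, h1⟩
    · rw [hB] at ht
      have h1 := (Finset.mem_filter.1 ht).2
      intro h2
      have h3 := hsum t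
      rw [h1, h2, zero_add, zero_add] at h3
      exact hnot t ⟨h1, h2, h3⟩
    · rw [hD] at ht
      have h1 := (Finset.mem_filter.1 ht).2
      intro h2
      have h3 := hsum t
      rw [h1, h2, zero_add, zero_add] at h3
      exact hnot t ⟨h2, h1, h3⟩
  have hk : h.map (Int.castRingHom k) =
      X ^ B.card * (C c * ∏ t ∈ F, (C (x t) + X * C (y t))) := by
    rw [hh, hsplit, ← hA, hc, C_mul, C_mul, map_prod, map_prod, map_prod]
    ring
  have hinj : Function.Injective (ZMod.castHom (dvd_refl p) k) := RingHom.injective _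
  have hdvd : X ^ B.card ∣ h.map (Int.castRingHom (ZMod p)) := by
    rw [X_pow_dvd_iff]
    intro d hd
    apply hinj
    rw [map_zero, ← coeff_map, map_castHom, hk, coeff_X_pow_mul', if_neg (by omega)]
  obtain ⟨G, hG⟩ := hdvd
  have hGk : G.map (ZMod.castHom (dvd_refl p) k) = C c * ∏ t ∈ F, (C (x t) + X * C (y t)) := by
    have h1 := congrArg (Polynomial.map (ZMod.castHom (dvd_refl p) k)) hG
    rw [map_castHom, hk, Polynomial.map_mul, Polynomial.map_pow, map_X] at h1
    exact (mul_left_cancel₀ (pow_ne_zero _ X_ne_zero) h1).symm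
  have hlin : ∀ t ∈ F, (C (x t) + X * C (y t)).natDegree ≤ 1 := by
    intro t _
    compute_degree
  have hFne : ∀ t ∈ F, x t ≠ 0 ∧ y t ≠ 0 ∧ z t ≠ 0 := by
    intro t ht
    rw [hF] at ht
    exact (Finset.mem_filter.1 ht).2
  refine ⟨G, by rw [hBc]; exact hG, ?_, ?_, ?_, ?_, c, hc0, by rw [hGk, hF]⟩
  · rw [hFc, ← natDegree_map_eq_of_injective hinj, hGk]
    refine (natDegree_C_mul_le _ _).trans ((natDegree_prod_le _ _).trans ?_)
    have h1 := Finset.sum_le_card_nsmul F (fun t => (C (x t) + X * C (y t)).natDegree) 1 hlin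
    simpa using h1
  · intro h0
    have h1 : (G.map (ZMod.castHom (dvd_refl p) k)).coeff 0 = 0 := by
      rw [coeff_map, h0, map_zero]
    rw [hGk, coeff_C_mul, coeff_zero_prod, mul_eq_zero, Finset.prod_eq_zero_iff] at h1
    rcases h1 with h1 | ⟨t, ht, h1⟩
    · exact hc0 h1
    · rw [coeff_add, coeff_C_zero, mul_coeff_zero, coeff_X_zero, zero_mul, add_zero] at h1
      exact (hFne t ht).1 h1
  · rw [hFc]
    intro h0
    have h1 : (G.map (ZMod.castHom (dvd_refl p) k)).coeff F.card = 0 := by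
      rw [coeff_map, h0, map_zero]
    have h2 := coeff_prod_of_natDegree_le (s := F) (f := fun t => C (x t) + X * C (y t)) (n := 1) hlin
    rw [mul_one] at h2
    rw [hGk, coeff_C_mul, h2, mul_eq_zero, Finset.prod_eq_zero_iff] at h1
    rcases h1 with h1 | ⟨t, ht, h1⟩
    · exact hc0 h1
    · rw [coeff_add, coeff_X_mul, coeff_C_zero, coeff_C_succ, zero_add] at h1
      exact (hFne t ht).2.1 h1
  · intro h0
    have h1 : (G.map (ZMod.castHom (dvd_refl p) k)).eval 1 = 0 := by
      rw [← map_one (ZMod.castHom (dvd_refl p) k), eval_map_apply, h0, map_zero]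
    rw [hGk, eval_mul, eval_C, eval_prod, mul_eq_zero, Finset.prod_eq_zero_iff] at h1
    rcases h1 with h1 | ⟨t, ht, h1⟩
    · exact hc0 h1
    · rw [eval_add, eval_mul, eval_C, eval_C, eval_X, one_mul] at h1
      have h4 := hsum t
      rw [h1, zero_add] at h4
      exact (hFne t ht).2.2 h4

theorem locP_G (x y z : ι → k) (hsum : ∀ t, x t + y t + z t = 0)
    (hnot : ∀ t, ¬ (x t = 0 ∧ y t = 0 ∧ z t = 0)) (h : ℤ[X])
    (hh : open Classical in h.map (Int.castRingHom k) =
      (∏ t ∈ Finset.univ.filter (fun t => z t = 0), C (y t)) *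
      ∏ t ∈ Finset.univ.filter (fun t => ¬ z t = 0), (C (x t) + X * C (y t))) :
    ∃ G : (ZMod p)[X], h.map (Int.castRingHom (ZMod p)) = X ^ Nat.card {t // x t = 0} * G ∧
      G.natDegree ≤ Nat.card {t // x t ≠ 0 ∧ y t ≠ 0 ∧ z t ≠ 0} ∧ G.coeff 0 ≠ 0 ∧
      G.coeff (Nat.card {t // x t ≠ 0 ∧ y t ≠ 0 ∧ z t ≠ 0}) ≠ 0 ∧ G.eval 1 ≠ 0 := by
  obtain ⟨G, h1, h2, h3, h4, h5, -⟩ := locP_G2 x y z hsum hnot h hh
  exact ⟨G, h1, h2, h3, h4, h5⟩

open Classical in
/-- the logarithmic derivative at `1` -/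
theorem locP_der (x y z : ι → k) (hsum : ∀ t, x t + y t + z t = 0)
    (hnot : ∀ t, ¬ (x t = 0 ∧ y t = 0 ∧ z t = 0)) (h : ℤ[X])
    (hh : h.map (Int.castRingHom k) = (∏ t ∈ Finset.univ.filter (fun t => z t = 0), C (y t)) *
      ∏ t ∈ Finset.univ.filter (fun t => ¬ z t = 0), (C (x t) + X * C (y t)))
    (M : ℤ) (hM : 2 * (derivative (h.map (Int.castRingHom (ZMod p)))).eval 1 =
      (M : ZMod p) * (h.map (Int.castRingHom (ZMod p))).eval 1) :
    ∑ t ∈ Finset.univ.filter (fun t => ¬ z t = 0), 2 * (y t / z t) + (M : k) = 0 := by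
  obtain ⟨A, hA⟩ : ∃ A : Finset ι, A = Finset.univ.filter (fun t => ¬ z t = 0) := ⟨_, rfl⟩
  have h1 : 2 * (derivative (h.map (Int.castRingHom k))).eval 1 =
      (M : k) * (h.map (Int.castRingHom k)).eval 1 := by
    have h2 := congrArg (ZMod.castHom (dvd_refl p) k) hM
    rw [map_mul, map_mul, map_intCast, ← eval_map_apply, ← eval_map_apply, ← derivative_map,
      map_castHom, map_one, map_ofNat] at h2
    exact h2
  have h0 : (h.map (Int.castRingHom k)).eval 1 ≠ 0 := by
    intro h3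
    apply locP_one (p := p) x y z hsum hnot h hh
    apply (ZMod.castHom (dvd_refl p) k).injective
    rw [map_zero, ← eval_map_apply, map_one, map_castHom]
    exact h3
  have hne : ∀ t ∈ A, x t + y t ≠ 0 ∧ z t ≠ 0 ∧ x t + y t = -z t := by
    intro t ht
    rw [hA] at ht
    have h3 := (Finset.mem_filter.1 ht).2
    have h4 : x t + y t = -z t := eq_neg_of_add_eq_zero_left (hsum t)
    refine ⟨?_, h3, h4⟩
    rw [h4]
    exact neg_ne_zero.2 h3
  obtain ⟨c, hc⟩ : ∃ c : k, c = ∏ t ∈ Finset.univ.filter (fun t => z t = 0), y t := ⟨_, rfl⟩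
  rw [← map_prod, ← hc, ← hA] at hh
  have e1 : (derivative (h.map (Int.castRingHom k))).eval 1 =
      (h.map (Int.castRingHom k)).eval 1 * ∑ t ∈ A, y t / (x t + y t) := by
    rw [hh, derivative_C_mul, eval_mul, eval_mul, eval_C, derivative_prod_finset, eval_finsetSum,
      mul_assoc]
    congr 1
    rw [Finset.mul_sum]
    refine Finset.sum_congr rfl fun t ht => ?_
    rw [eval_mul, ← Finset.mul_prod_erase A _ ht, eval_mul]
    have e2 : (derivative (C (x t) + X * C (y t))).eval 1 = y t := by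
      simp
    have e3 : (C (x t) + X * C (y t)).eval 1 = x t + y t := by
      simp
    rw [e2, e3]
    have := (hne t ht).1
    field_simp
  rw [e1] at h1
  have h3 : 2 * ∑ t ∈ A, y t / (x t + y t) = (M : k) := by
    apply mul_left_cancel₀ h0
    linear_combination h1
  rw [← hA, ← h3, Finset.mul_sum, ← Finset.sum_add_distrib]
  refine Finset.sum_eq_zero fun t ht => ?_
  rw [(hne t ht).2.2]
  have := (hne t ht).2.1
  field_simp
  ring

end

end Pool.Agent.V5helper55.FQ
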