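import Pool.Agent.Y546.WQ.All

/-!
# The norm polynomial modulo a prime number `q ≠ p`
-/

set_option autoImplicit false

namespace Pool.Agent.V5helper55.FQ

open Pool.Agent.Y546.WQ NumberField IsDedekindDomain Polynomial

/-- the values of a product of linear polynomials with integer coefficients in characteristic `q` -/
theorem locR {q : ℕ} (hq : q.Prime) {k : Type*} [Field k] [CharP k q] {ι : Type*} [Fintype ι]
    (x y : ι → k) (f : ℤ[X])
    (hf : f.map (Int.castRingHom k) = ∏ t, (C (x t) + X * C (y t)))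
    (hloc : ∀ t, (x t = 0 ∧ y t ≠ 0) ∨ (y t = 0 ∧ x t ≠ 0) ∨
      (x t ≠ 0 ∧ y t ≠ 0 ∧ x t ^ (q + 1) = y t ^ (q + 1))) :
    ∃ c : k, ∀ u u' : k, u * u' = 1 →
      u ^ Nat.card {t // y t = 0} * f.eval₂ (Int.castRingHom k) u =
        c * (u ^ (Nat.card {t // x t = 0} + Nat.card ι) * f.eval₂ (Int.castRingHom k) u') := by
  classical
  have hq0 : q ≠ 0 := hq.ne_zero
  have hfq : Fact q.Prime := ⟨hq⟩
  have hev : ∀ u : k, f.eval₂ (Int.castRingHom k) u = ∏ t, (x t + u * y t) := by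
    intro u
    rw [← eval_map, hf, eval_prod]
    refine Finset.prod_congr rfl fun t _ => ?_
    rw [eval_add, eval_mul, eval_C, eval_C, eval_X]
  have hev2 : ∀ u : k, f.eval₂ (Int.castRingHom k) u = ∏ t, (x t ^ q + u * y t ^ q) := by
    intro u
    have h1 : (f.map (Int.castRingHom k)).map (frobenius k q) = f.map (Int.castRingHom k) := by
      rw [Polynomial.map_map]
      congr 1
      exact RingHom.ext_int _ _
    rw [← eval_map, ← h1, hf, Polynomial.map_prod, eval_prod]
    refine Finset.prod_congr rfl fun t _ => ?_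
    rw [Polynomial.map_add, Polynomial.map_mul, map_C, map_C, map_X, eval_add, eval_mul, eval_C,
      eval_C, eval_X, frobenius_def, frobenius_def]
  refine ⟨∏ t, (if x t = 0 then y t ^ (q - 1) else if y t = 0 then x t ^ (q - 1) else
    x t ^ q / y t), fun u u' huu => ?_⟩
  have e1 : u ^ Nat.card {t // y t = 0} = ∏ t, (if y t = 0 then u else 1) := by
    rw [Finset.prod_ite, Finset.prod_const, Finset.prod_const_one, mul_one,
      Nat.card_eq_fintype_card, Fintype.card_subtype]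
  have e2 : u ^ (Nat.card {t // x t = 0} + Nat.card ι) =
      (∏ t, (if x t = 0 then u else 1)) * ∏ t : ι, u := by
    rw [pow_add]
    congr 1
    · rw [Finset.prod_ite, Finset.prod_const, Finset.prod_const_one, mul_one,
        Nat.card_eq_fintype_card, Fintype.card_subtype]
    · rw [Finset.prod_const, Finset.card_univ, Nat.card_eq_fintype_card]
  rw [e1, e2, hev2 u, hev u', ← Finset.prod_mul_distrib, ← Finset.prod_mul_distrib,
    ← Finset.prod_mul_distrib, ← Finset.prod_mul_distrib]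
  refine Finset.prod_congr rfl fun t _ => ?_
  have e3 : ∀ w : k, w ^ q = w ^ (q - 1) * w := by
    intro w
    rw [← pow_succ]
    congr 1
    have := hq.pos
    omega
  rcases hloc t with ⟨h1, h2⟩ | ⟨h1, h2⟩ | ⟨h1, h2, h3⟩
  · rw [if_pos h1, if_pos h1, if_neg h2, h1, zero_pow hq0, e3]
    linear_combination (-(y t ^ (q - 1) * y t * u)) * huu
  · rw [if_neg h2, if_pos h1, if_pos h1, if_neg h2, h1, zero_pow hq0, e3]
    ring
  · rw [if_neg h1, if_neg h2, if_neg h1, if_neg h2]
    rw [pow_succ, pow_succ] at h3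
    field_simp
    linear_combination (-(x t ^ q * y t)) * huu - u * h3

/-- the sign -/
theorem locR_sign {k : Type*} [Field k] {a b : ℕ} {c : k} {F : k → k}
    (h : ∀ u u' : k, u * u' = 1 → u ^ b * F u = c * (u ^ a * F u')) {u u' : k} (huu : u * u' = 1)
    (hF : F u' ≠ 0) : c = 1 ∨ c = -1 := by
  have h1 := h u u' huu
  have h2 := h u' u (by rw [mul_comm]; exact huu)
  have hu : u ≠ 0 := left_ne_zero_of_mul_eq_one huu
  have hu' : u' ≠ 0 := right_ne_zero_of_mul_eq_one huu
  have e1 : u' ^ b * u ^ b = 1 := by rw [← mul_pow, mul_comm u', huu, one_pow]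
  have e2 : u' ^ a * u ^ a = 1 := by rw [← mul_pow, mul_comm u', huu, one_pow]
  have h3 : c ^ 2 * (u ^ a * F u') = 1 * (u ^ a * F u') := by
    have h4 : u ^ b * u ^ a * (u' ^ b * F u') = u ^ b * u ^ a * (c * (u' ^ a * F u)) := by rw [h2]
    linear_combination (-c) * h1 - h4 + (u ^ a * F u') * e1 - (c * u ^ b * F u) * e2
  have h5 := mul_right_cancel₀ (mul_ne_zero (pow_ne_zero _ hu) hF) h3
  have h6 : (c - 1) * (c + 1) = 0 := by linear_combination h5
  rcases mul_eq_zero.1 h6 with h7 | h7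
  · exact Or.inl (by linear_combination h7)
  · exact Or.inr (by linear_combination h7)

section

variable {p : ℕ} [Fact p.Prime] {E : Type} [Field E] [NumberField E]
  {K N : Type} [Field K] [NumberField K] [Field N] [NumberField N]

/-- the condition at the primes above `q` -/
def Loc (q : ℕ) (K : Type) [Field K] [NumberField K] (X Y Z : 𝓞 K) : Prop :=
  ∀ P : Ideal (𝓞 K), P.IsPrime → ((q : ℕ) : 𝓞 K) ∈ P →
    (X ∈ P ∧ Y ∉ P) ∨ (Y ∈ P ∧ X ∉ P) ∨ (X ∉ P ∧ Y ∉ P ∧ X + Y ∈ P) ∨
      (X ∉ P ∧ Y ∉ P ∧ Z ∉ P ∧ X ^ (q + 1) - Y ^ (q + 1) ∈ P)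

/-- the value of the norm polynomial at a `p`-th root of unity is prime to `q` -/
theorem cop0 (hp2 : p ≠ 2) (c : Cyc p E) (i : E →+* N) (q : ℕ) (hq : q.Prime) (hqp : q ≠ p)
    {X Y Z : 𝓞 K} (h : X ^ p + Y ^ p + Z ^ p = 0) (hloc : Loc q K X Y Z)
    (f : Polynomial ℤ) (hf : f.map (Int.castRingHom (𝓞 N)) = nrmP K N X Y) :
    ∀ P : Ideal (𝓞 E), P.IsPrime → ((q : ℕ) : 𝓞 E) ∈ P →
      ∀ w : 𝓞 E, (w : E) = aeval c.z f → w ∉ P := by
  classical
  intro P hP hqP w hw hwP
  have := hP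
  have hpp : p.Prime := Fact.out
  have hodd : Odd p := hpp.odd_of_ne_two hp2
  set j : 𝓞 E →+* 𝓞 N := RingOfIntegers.mapRingHom i with hj
  have hjinj : Function.Injective j := by
    intro a b hab
    have h1 : ((j a : 𝓞 N) : N) = j b := congrArg _ hab
    rw [hj, RingOfIntegers.mapRingHom_apply, RingOfIntegers.mapRingHom_apply] at h1
    exact RingOfIntegers.ext (i.injective h1)
  obtain ⟨Q, hQ, hQP⟩ := Pool.Agent.Y67.WQ.exists_over j hjinj P
  have := hQ
  have hmem : ∀ a : 𝓞 E, a ∈ P → j a ∈ Q := by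
    intro a ha
    rw [← hQP] at ha
    exact ha
  obtain ⟨u, hu, hup⟩ := exists_zint c
  have hzp : IsPrimitiveRoot (j u) p := hup.map_of_injective hjinj
  set v : 𝓞 N := j u with hv
  have hqQ : ((q : ℕ) : 𝓞 N) ∈ Q := by
    have := hmem _ hqP
    rwa [map_natCast] at this
  have hvQ : v ∉ Q := by
    intro h
    apply one_notMem Q hQ
    rw [← hzp.pow_eq_one]
    exact Q.pow_mem_of_mem h p hpp.pos
  -- the value
  have hw' : w = aeval u f := by
    apply RingOfIntegers.ext
    rw [hw, ← hu]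
    exact (Polynomial.aeval_algebraMap_apply E u f)
  have hjw : j w = ∏ τ : K →+* N, (RingOfIntegers.mapRingHom τ X +
      v * RingOfIntegers.mapRingHom τ Y) := by
    have h1 : j w = (f.map (Int.castRingHom (𝓞 N))).eval v := by
      rw [hw', Polynomial.aeval_def, Polynomial.hom_eval₂, Polynomial.eval_map,
        RingHom.ext_int (j.comp (algebraMap ℤ (𝓞 E))) (Int.castRingHom (𝓞 N))]
    rw [h1, hf, nrmP, Polynomial.eval_prod]
    refine Finset.prod_congr rfl fun τ _ => ?_
    rw [Polynomial.eval_add, Polynomial.eval_C, Polynomial.eval_mul, Polynomial.eval_X,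
      Polynomial.eval_C]
  have hprod := hmem w hwP
  rw [hjw, hQ.prod_mem_iff] at hprod
  obtain ⟨τ, -, hτ⟩ := hprod
  set T : 𝓞 K →+* 𝓞 N := RingOfIntegers.mapRingHom τ with hT
  have hPτ : (Q.comap T).IsPrime := Ideal.comap_isPrime T Q
  have hqτ : ((q : ℕ) : 𝓞 K) ∈ Q.comap T := by
    rw [Ideal.mem_comap, map_natCast]
    exact hqQ
  rcases hloc (Q.comap T) hPτ hqτ with ⟨h1, h2⟩ | ⟨h1, h2⟩ | ⟨h1, h2, h3⟩ | ⟨h1, h2, h3, h4⟩
  · have h5 : v * T Y ∈ Q := by
      have := Q.sub_mem hτ (show T X ∈ Q from h1)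
      rwa [add_sub_cancel_left] at this
    exact h2 ((hQ.mem_or_mem h5).resolve_left hvQ)
  · have h5 : T X ∈ Q := by
      have := Q.sub_mem hτ (Q.mul_mem_left v (show T Y ∈ Q from h1))
      rwa [add_sub_cancel_right] at this
    exact h2 h5
  · have h4 : T X + T Y ∈ Q := by
      rw [Ideal.mem_comap, map_add] at h3
      exact h3
    have h5 : (1 - v) * T Y ∈ Q := by
      have e : (1 - v) * T Y = (T X + T Y) - (T X + v * T Y) := by ring
      rw [e]
      exact Q.sub_mem h4 hτ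
    have h6 : 1 - v ∈ Q := (hQ.mem_or_mem h5).resolve_right h2
    have h7 := p_mem_of_one_sub_mem v hzp Q h6
    have h8 := int_notMem Q hQ q hq hqQ (p : ℤ) (by
      intro h
      have h9 : q ∣ p := by exact_mod_cast h
      exact hqp ((Nat.prime_dvd_prime_iff_eq hq hpp).1 h9))
    exact h8 (by exact_mod_cast h7)
  · apply h3
    apply hPτ.mem_of_pow_mem p
    rw [Ideal.mem_comap, map_pow]
    have e1 : T X ^ p + T Y ^ p + T Z ^ p = 0 := by
      rw [← map_pow, ← map_pow, ← map_pow, ← map_add, ← map_add, h, map_zero]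
    have e2 : T X - (-(v * T Y)) ∣ T X ^ p - (-(v * T Y)) ^ p := sub_dvd_pow_sub_pow _ _ p
    have e3 : T X ^ p - (-(v * T Y)) ^ p ∈ Q := by
      refine Q.mem_of_dvd e2 ?_
      rw [sub_neg_eq_add]
      exact hτ
    have e4 : T Z ^ p = -(T X ^ p - (-(v * T Y)) ^ p) := by
      rw [hodd.neg_pow, mul_pow, hzp.pow_eq_one]
      linear_combination e1
    rw [e4]
    exact Q.neg_mem e3

end

end Pool.Agent.V5helper55.FQ
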