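import Pool.Agent.V5helper55.FQ.Types

/-!
# Comparison of the primes above `p` and above `q`: the main step
-/

set_option autoImplicit false

namespace Pool.Agent.V5helper55.FQ

open Pool.Agent.Y546.WQ NumberField IsDedekindDomain Polynomial

section

variable {p : ℕ} [Fact p.Prime] {E : Type} [Field E] [NumberField E]
  {K N : Type} [Field K] [NumberField K] [Field N] [NumberField N]

/-- the condition on the irregular indices -/
def RegC (p u : ℕ) : Prop :=
  (2 * u + 3 ≤ p ∧ ∀ k ∈ irr p, k + 2 * u + 1 < p) ∨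
    u * (((irr p).card + 1) * ((irr p).card + 2)) + 3 ≤ p

/-- a polynomial satisfying all relations is palindromic -/
theorem pal_of_rel (hp3 : 3 ≤ p) (u : ℕ) (hreg : RegC p u) (G : (ZMod p)[X])
    (h1 : G.natDegree ≤ u) (h2 : G.coeff 0 ≠ 0) (h3 : G.coeff u ≠ 0) (h4 : G.eval 1 ≠ 0)
    (hrel : Rel p G) : G.reflect u = G := by
  rcases Nat.eq_zero_or_pos u with h0 | h0
  · subst h0
    exact Pool.Agent.Y510.WQ.mainPOLBA Pool.Agent.Y275.WQ.mainCOREA p 0 G (by omega) h1 h2 h3 h4 hrel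
      (fun j _ hj1 hj2 => by omega)
  rcases hreg with h | h
  · refine Pool.Agent.Y510.WQ.mainPOLBA Pool.Agent.Y275.WQ.mainCOREA p u G h.1 h1 h2 h3 h4 hrel
      fun j hj h3j hjm => ?_
    apply reg_of Pool.Agent.Y61.WQ.mainBER j hj h3j (by omega)
    intro hk
    have := h.2 _ hk
    omega
  · refine (Pool.Agent.Y590.WQ.mainPOLE Pool.Agent.Y780.WQ.mainPOLE1 Pool.Agent.Y286.WQ.mainPOLE2)
      p u G ((irr p).image fun k => p - k) h0 h1 h2 h3 h4 hrel ?_ ?_
    · intro j hj h3j hjp hjJ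
      apply reg_of Pool.Agent.Y61.WQ.mainBER j hj h3j hjp
      intro hk
      apply hjJ
      rw [Finset.mem_image]
      exact ⟨p - j, hk, by omega⟩
    · have e : ((irr p).image fun k => p - k).card ≤ (irr p).card := Finset.card_image_le
      have e2 : (((irr p).image fun k => p - k).card + 1) *
          (((irr p).image fun k => p - k).card + 2) ≤ ((irr p).card + 1) * ((irr p).card + 2) :=
        Nat.mul_le_mul (by omega) (by omega)
      have := Nat.mul_le_mul_left u e2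
      omega

open Classical in
/-- **The main step.** -/
theorem mainAB (hp3 : 3 ≤ p) (c : Cyc p E) (i : E →+* N) (hD : Dn p E N i)
    (hcard : Nat.card (K →+* N) = Module.finrank ℚ K) (h3m : 3 * Module.finrank ℚ K ≤ p)
    (q : ℕ) (hq : q.Prime) (hqp : q ≠ p) (hW : ¬ p ^ 2 ∣ q ^ (p - 1) - 1)
    {X' Y Z : 𝓞 K} (hs : Sol0 p K X' Y Z) (hloc : Loc q K X' Y Z)
    (R : Ideal (𝓞 N)) (hR : R.IsPrime) (hpR : ((p : ℕ) : 𝓞 N) ∈ R)
    (Q : Ideal (𝓞 N)) (hQ : Q.IsPrime) (hqQ : ((q : ℕ) : 𝓞 N) ∈ Q) :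
    -- the trace
    (∑ τ ∈ Finset.univ.filter (fun τ : K →+* N => ¬ RingOfIntegers.mapRingHom τ Z ∈ R),
        2 * (RingOfIntegers.mapRingHom τ Y *
          ∏ σ ∈ (Finset.univ.filter (fun τ : K →+* N =>
            ¬ RingOfIntegers.mapRingHom τ Z ∈ R)).erase τ, RingOfIntegers.mapRingHom σ Z) +
      (((Module.finrank ℚ K : ℤ) - Nat.card {τ : K →+* N // RingOfIntegers.mapRingHom τ Z ∈ R} +
        Nat.card {τ : K →+* N // RingOfIntegers.mapRingHom τ X' ∈ Q} -
        Nat.card {τ : K →+* N // RingOfIntegers.mapRingHom τ Y ∈ Q} : ℤ) : 𝓞 N) *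
      ∏ σ ∈ Finset.univ.filter (fun τ : K →+* N => ¬ RingOfIntegers.mapRingHom τ Z ∈ R),
        RingOfIntegers.mapRingHom σ Z) ∈ R ∧
    -- the equality of the types
    (RegC p (Nat.card {τ : K →+* N // RingOfIntegers.mapRingHom τ X' ∉ R ∧
        RingOfIntegers.mapRingHom τ Y ∉ R ∧ RingOfIntegers.mapRingHom τ Z ∉ R}) →
      (Nat.card {τ : K →+* N // RingOfIntegers.mapRingHom τ X' ∈ R} : ℤ) -
        Nat.card {τ : K →+* N // RingOfIntegers.mapRingHom τ Y ∈ R} =
      (Nat.card {τ : K →+* N // RingOfIntegers.mapRingHom τ X' ∈ Q} : ℤ) -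
        Nat.card {τ : K →+* N // RingOfIntegers.mapRingHom τ Y ∈ Q}) := by
  have hpp : p.Prime := Fact.out
  have hp2 : p ≠ 2 := by omega
  have hm0 := Module.finrank_pos (R := ℚ) (M := K)
  obtain ⟨f, hdeg, hc0, hcm, hev, hf⟩ := Pool.Agent.Y290.WQ.mainNORM K X' Y
  have hf := hf N hcard
  -- the residue field at `p`
  have hRbot : R ≠ ⊥ := by
    rintro rfl
    rw [Ideal.mem_bot] at hpR
    have : p = 0 := by exact_mod_cast hpR
    exact hpp.ne_zero this
  have := hR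
  have hRM : R.IsMaximal := hR.isMaximal hRbot
  let _ : Field (𝓞 N ⧸ R) := Ideal.Quotient.field R
  have hchar : CharP (𝓞 N ⧸ R) p := charP_quot R hR p hpp hpR
  have hzero : ∀ w : 𝓞 N, Ideal.Quotient.mk R w = 0 ↔ w ∈ R := fun w =>
    Ideal.Quotient.eq_zero_iff_mem
  obtain ⟨x, hx⟩ : ∃ x : (K →+* N) → 𝓞 N ⧸ R, x = fun τ => Ideal.Quotient.mk R
    (RingOfIntegers.mapRingHom τ X') := ⟨_, rfl⟩
  obtain ⟨y, hy⟩ : ∃ y : (K →+* N) → 𝓞 N ⧸ R, y = fun τ => Ideal.Quotient.mk R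
    (RingOfIntegers.mapRingHom τ Y) := ⟨_, rfl⟩
  obtain ⟨z, hz⟩ : ∃ z : (K →+* N) → 𝓞 N ⧸ R, z = fun τ => Ideal.Quotient.mk R
    (RingOfIntegers.mapRingHom τ Z) := ⟨_, rfl⟩
  have hx0 : ∀ τ, x τ = 0 ↔ RingOfIntegers.mapRingHom τ X' ∈ R := fun τ => by
    rw [hx]; exact hzero _
  have hy0 : ∀ τ, y τ = 0 ↔ RingOfIntegers.mapRingHom τ Y ∈ R := fun τ => by
    rw [hy]; exact hzero _
  have hz0 : ∀ τ, z τ = 0 ↔ RingOfIntegers.mapRingHom τ Z ∈ R := fun τ => by
    rw [hz]; exact hzero _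
  have hsum : ∀ τ, x τ + y τ + z τ = 0 := by
    intro τ
    have hP : (R.comap (RingOfIntegers.mapRingHom τ)).IsPrime := hR.comap _
    have hpP : ((p : ℕ) : 𝓞 K) ∈ R.comap (RingOfIntegers.mapRingHom τ) := by
      rw [Ideal.mem_comap, map_natCast]
      exact hpR
    have h1 := lin_p hpp _ hP hpP hs.eq
    rw [Ideal.mem_comap, map_add, map_add] at h1
    rw [hx, hy, hz]
    simp only
    rw [← map_add, ← map_add]
    exact (hzero _).2 h1
  have hnot : ∀ τ, ¬ (x τ = 0 ∧ y τ = 0 ∧ z τ = 0) := by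
    intro τ
    have hP : (R.comap (RingOfIntegers.mapRingHom τ)).IsPrime := hR.comap _
    have hpP : ((p : ℕ) : 𝓞 K) ∈ R.comap (RingOfIntegers.mapRingHom τ) := by
      rw [Ideal.mem_comap, map_natCast]
      exact hpR
    rw [hx0, hy0, hz0]
    exact hs.cp _ hP hpP
  obtain ⟨n, hn⟩ : ∃ n, n = Nat.card {τ : K →+* N // z τ = 0} := ⟨_, rfl⟩
  -- the quotient polynomial
  obtain ⟨U, hU⟩ := exists_U c
  obtain ⟨h, hfh, hfp⟩ := exists_h c.z U hU f n
    (coef_main h3m hs R hR hpR f hf n (by rw [hn, hz]))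
  have hfx : f.map (Int.castRingHom (𝓞 N ⧸ R)) = ∏ τ, (Polynomial.C (x τ) +
      X * Polynomial.C (y τ)) := by
    rw [hx, hy]
    exact map_nrmP (Ideal.Quotient.mk R) X' Y f hf
  have hh := locP x y z hsum f h hfx (by rw [← hn]; exact hfp)
  have hh1 := locP_one (p := p) x y z hsum hnot h hh
  have hh1' : ¬ (p : ℤ) ∣ h.eval 1 := by
    intro hd
    apply hh1
    rw [← map_one (Int.castRingHom (ZMod p)), eval_map_apply]
    exact (ZMod.intCast_zmod_eq_zero_iff_dvd _ p).2 hd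
  obtain ⟨hf0, hf1, hv⟩ := fld0 hp2 c i hD X' Y Z hs.X0 hs.Z0 hs.eq f hf
  have hcop := cop0 hp2 c i q hq hqp hs.eq hloc f hf
  obtain ⟨n0, hn1, hn2, hrel⟩ := rel_h hp2 c f h n hfh hh1' hf0 hf1 hv q hq hqp hcop
  obtain ⟨A, hA⟩ : ∃ A, A = Nat.card {τ : K →+* N // RingOfIntegers.mapRingHom τ X' ∈ Q} :=
    ⟨_, rfl⟩
  obtain ⟨B, hB⟩ : ∃ B, B = Nat.card {τ : K →+* N // RingOfIntegers.mapRingHom τ Y ∈ Q} :=
    ⟨_, rfl⟩
  have hall : ∀ a : ℕ, 0 < a → a + 2 ≤ p → ∃ (j : ℕ) (r : ZMod p), r ≠ 0 ∧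
      (X - 1) ^ (p - 1) ∣ thPa p a (h.map (Int.castRingHom (ZMod p))) - Polynomial.C r * X ^ j ∧
      2 * (j : ZMod p) = ((Module.finrank ℚ K : ZMod p) - n + A - B) * hsa p a 1 := by
    intro a ha hap
    obtain ⟨g, hg, j, hj⟩ := hrel a ha hap
    obtain ⟨r, hr, hdv⟩ := Pool.Agent.Y919.WQ.mainLAMA p hp2 a ha hap E c h n0 hn1 hh1' g hg j hj
    refine ⟨j, r, hr, hdv, ?_⟩
    rw [hA, hB]
    exact relQ hp2 c i hcard q hq hqp hW hs hloc f h hf n hfh Q hQ hqQ n0 hn2 a g j hj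
  -- the first derivative
  have hder : 2 * (derivative (h.map (Int.castRingHom (ZMod p)))).eval 1 =
      (((Module.finrank ℚ K : ℤ) - n + A - B : ℤ) : ZMod p) *
        (h.map (Int.castRingHom (ZMod p))).eval 1 := by
    obtain ⟨a, ha, hap, hne⟩ := exists_a (p := p) hp3
    obtain ⟨j, r, hr, hdv, h2j⟩ := hall a ha hap
    have h1 := der1 hp3 a j _ r hh1 hdv
    apply mul_right_cancel₀ hne
    push_cast
    linear_combination (-2) * h1 + (h.map (Int.castRingHom (ZMod p))).eval 1 * h2j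
  have hncard : n = Nat.card {τ : K →+* N // RingOfIntegers.mapRingHom τ Z ∈ R} := by
    rw [hn]
    exact Nat.card_congr (Equiv.subtypeEquivRight hz0)
  constructor
  · have h1 := locP_der x y z hsum hnot h hh _ hder
    have hfilt : Finset.univ.filter (fun τ : K →+* N => ¬ z τ = 0) =
        Finset.univ.filter (fun τ : K →+* N => ¬ RingOfIntegers.mapRingHom τ Z ∈ R) := by
      ext τ
      simp only [Finset.mem_filter, Finset.mem_univ, true_and, hz0]
    rw [hfilt] at h1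
    obtain ⟨S, hS⟩ : ∃ S, S = Finset.univ.filter (fun τ : K →+* N =>
      ¬ RingOfIntegers.mapRingHom τ Z ∈ R) := ⟨_, rfl⟩
    rw [← hS] at h1 ⊢
    rw [← hA, ← hB, ← hncard, ← hzero, map_add, map_sum, map_mul, map_intCast, map_prod]
    have h2 : ∀ τ ∈ S, z τ ≠ 0 := by
      intro τ hτ
      rw [hS] at hτ
      rw [Ne, hz0]
      exact (Finset.mem_filter.1 hτ).2
    have h3 : ∏ σ ∈ S, (Ideal.Quotient.mk R) ((RingOfIntegers.mapRingHom σ) Z) = ∏ σ ∈ S, z σ := by
      rw [hz]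
    rw [h3]
    have h4 : ∀ τ ∈ S, Ideal.Quotient.mk R (2 * (RingOfIntegers.mapRingHom τ Y *
        ∏ σ ∈ S.erase τ, RingOfIntegers.mapRingHom σ Z)) = 2 * (y τ / z τ) * ∏ σ ∈ S, z σ := by
      intro τ hτ
      rw [map_mul, map_mul, map_prod, map_ofNat, ← Finset.mul_prod_erase S _ hτ]
      have e1 : ∏ σ ∈ S.erase τ, (Ideal.Quotient.mk R) ((RingOfIntegers.mapRingHom σ) Z) =
          ∏ σ ∈ S.erase τ, z σ := by rw [hz]
      have e2 : (Ideal.Quotient.mk R) ((RingOfIntegers.mapRingHom τ) Y) = y τ := by rw [hy]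
      rw [e1, e2]
      have := h2 τ hτ
      field_simp
    rw [Finset.sum_congr rfl h4, ← Finset.sum_mul, ← add_mul, h1, zero_mul]
  · intro hreg
    obtain ⟨G, hG, g1, g2, g3, g4⟩ := locP_G x y z hsum hnot h hh
    obtain ⟨dF, hdF⟩ : ∃ dF, dF = Nat.card {τ : K →+* N // x τ ≠ 0 ∧ y τ ≠ 0 ∧ z τ ≠ 0} :=
      ⟨_, rfl⟩
    have hdF' : dF = Nat.card {τ : K →+* N // RingOfIntegers.mapRingHom τ X' ∉ R ∧
        RingOfIntegers.mapRingHom τ Y ∉ R ∧ RingOfIntegers.mapRingHom τ Z ∉ R} := by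
      rw [hdF]
      refine Nat.card_congr (Equiv.subtypeEquivRight fun τ => ?_)
      rw [Ne, Ne, Ne, hx0, hy0, hz0]
    rw [← hdF'] at hreg
    rw [← hdF] at g1 g3
    obtain ⟨dx, hdx⟩ : ∃ dx, dx = Nat.card {τ : K →+* N // x τ = 0} := ⟨_, rfl⟩
    rw [← hdx] at hG
    have hdx' : dx = Nat.card {τ : K →+* N // RingOfIntegers.mapRingHom τ X' ∈ R} := by
      rw [hdx]
      exact Nat.card_congr (Equiv.subtypeEquivRight hx0)
    obtain ⟨dy, hdy⟩ : ∃ dy, dy = Nat.card {τ : K →+* N // y τ = 0} := ⟨_, rfl⟩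
    have hdy' : dy = Nat.card {τ : K →+* N // RingOfIntegers.mapRingHom τ Y ∈ R} := by
      rw [hdy]
      exact Nat.card_congr (Equiv.subtypeEquivRight hy0)
    have hrelG : Rel p G := by
      intro a ha hap
      obtain ⟨j, r, hr, hdv, -⟩ := hall a ha hap
      rw [hG] at hdv
      obtain ⟨j', -, hj'⟩ := rel_shift a dx j G r hdv
      exact ⟨j', r, hr, hj'⟩
    have hpal := pal_of_rel hp3 dF hreg G g1 g2 g3 g4 hrelG
    have hpd := pal_der dF G g1 hpal
    have h1 : 2 * (derivative (h.map (Int.castRingHom (ZMod p)))).eval 1 =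
        (2 * dx + dF : ZMod p) * (h.map (Int.castRingHom (ZMod p))).eval 1 := by
      rw [hG, derivative_mul, derivative_X_pow, eval_add, eval_mul, eval_mul, eval_mul, eval_mul,
        eval_pow, eval_pow, eval_X, one_pow, one_pow, eval_C]
      linear_combination hpd
    have h2 : ((2 * dx + dF : ℤ) : ZMod p) = (((Module.finrank ℚ K : ℤ) - n + A - B : ℤ) : ZMod p) := by
      apply mul_right_cancel₀ hh1
      rw [← hder, h1]
      push_cast
      ring
    -- the total number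
    have hcount : n + dx + dy + dF = Module.finrank ℚ K := by
      rw [← hcard, hn, hdx, hdy, hdF, Nat.card_eq_fintype_card, Nat.card_eq_fintype_card,
        Nat.card_eq_fintype_card, Nat.card_eq_fintype_card, Nat.card_eq_fintype_card,
        Fintype.card_subtype, Fintype.card_subtype, Fintype.card_subtype, Fintype.card_subtype,
        ← Finset.card_univ, Finset.card_filter, Finset.card_filter, Finset.card_filter,
        Finset.card_filter, ← Finset.sum_add_distrib, ← Finset.sum_add_distrib,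
        ← Finset.sum_add_distrib, Finset.card_eq_sum_ones]
      refine Finset.sum_congr rfl fun τ _ => ?_
      have s := hsum τ
      have t := hnot τ
      by_cases hx1 : x τ = 0
      · have hy1 : y τ ≠ 0 := fun h => t ⟨hx1, h, by rw [hx1, h] at s; simpa using s⟩
        have hz1 : z τ ≠ 0 := fun h => hy1 (by rw [hx1, h] at s; simpa using s)
        simp [hx1, hy1, hz1]
      · by_cases hy1 : y τ = 0
        · have hz1 : z τ ≠ 0 := fun h => hx1 (by rw [hy1, h] at s; simpa using s)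
          simp [hx1, hy1, hz1]
        · by_cases hz1 : z τ = 0
          · simp [hx1, hy1, hz1]
          · simp [hx1, hy1, hz1]
    have hAle : A ≤ Module.finrank ℚ K := by
      rw [hA, ← hcard, Nat.card_eq_fintype_card, Nat.card_eq_fintype_card]
      exact Fintype.card_subtype_le _
    have hBle : B ≤ Module.finrank ℚ K := by
      rw [hB, ← hcard, Nat.card_eq_fintype_card, Nat.card_eq_fintype_card]
      exact Fintype.card_subtype_le _
    rw [← hdx', ← hdy', ← hA, ← hB]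
    rw [← sub_eq_zero, ← Int.cast_sub, ZMod.intCast_zmod_eq_zero_iff_dvd] at h2
    have h3 : (2 * dx + dF : ℤ) - ((Module.finrank ℚ K : ℤ) - n + A - B) =
        (dx - dy : ℤ) - (A - B) := by
      have : (Module.finrank ℚ K : ℤ) = n + dx + dy + dF := by exact_mod_cast hcount.symm
      rw [this]
      ring
    rw [h3] at h2
    have h4 := Int.eq_zero_of_abs_lt_dvd h2 (by
      rw [abs_lt]
      constructor <;> omega)
    linarith

end

end Pool.Agent.V5helper55.FQ
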