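import Pool.Agent.V5helper55.FQ.Two3
import Pool.Agent.Y546.WQ.Cas2

/-!
# The residues `ω` of the balanced embeddings
-/

set_option autoImplicit false

namespace Pool.Agent.V5helper55.FQ

open Pool.Agent.Y546.WQ Pool.Agent.Y941.WQ NumberField IsDedekindDomain

section

variable {p : ℕ} [Fact p.Prime] {K : Type} [Field K] [NumberField K]

/-- a balanced embedding comes from a prime at which the three valuations are equal -/
theorem val_of_bal {q : ℕ} [Fact q.Prime] (hp0 : p ≠ 0) {x y z a : K} {X Y Z : 𝓞 K} (ha : a ≠ 0)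
    (hXa : algebraMap (𝓞 K) K X = a * x) (hYa : algebraMap (𝓞 K) K Y = a * y)
    (hZa : algebraMap (𝓞 K) K Z = a * z) (σ : K →+* PadicAlgCl q)
    (hk : X ∉ PI σ ∧ Y ∉ PI σ ∧ Z ∉ PI σ) (v : HeightOneSpectrum (𝓞 K)) (hv : v.asIdeal = PI σ) :
    v.valuation K x = v.valuation K y ∧ v.valuation K y = v.valuation K z := by
  have hva : v.valuation K a ≠ 0 := (Valuation.ne_zero_iff _).2 ha
  have hone : ∀ (w : K) (W : 𝓞 K), algebraMap (𝓞 K) K W = a * w → W ∉ PI σ →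
      v.valuation K a * v.valuation K w = 1 := by
    intro w W hW hWP
    rw [← map_mul, ← hW]
    refine le_antisymm (v.valuation_le_one W) ?_
    rw [← hv] at hWP
    rw [← not_lt]
    intro hlt
    exact hWP ((v.valuation_lt_one_iff_mem (K := K) W).1 hlt)
  have e1 := hone x X hXa hk.1
  have e2 := hone y Y hYa hk.2.1
  have e3 := hone z Z hZa hk.2.2
  exact ⟨mul_left_cancel₀ hva (e1.trans e2.symm), mul_left_cancel₀ hva (e2.trans e3.symm)⟩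

theorem omegaE (h5 : 5 ≤ p) {x y z : K} (hx : x ≠ 0) (hy : y ≠ 0) (hz : z ≠ 0)
    (h : x ^ p + y ^ p + z ^ p = 0)
    (h3 : ∀ v : HeightOneSpectrum (𝓞 K), ((p : ℕ) : 𝓞 K) ∈ v.asIdeal →
      v.valuation K x = v.valuation K y → v.valuation K y = v.valuation K z →
      Nat.card (𝓞 K ⧸ v.asIdeal) % 3 ≠ 1)
    (σ : K →+* PadicAlgCl p) (hσ : ‖σ x‖ = ‖σ y‖ ∧ ‖σ y‖ = ‖σ z‖) :
    ¬ ‖σ (x ^ 2 + x * y + y ^ 2)‖ < ‖σ (x ^ 2)‖ := by
  have hpp : p.Prime := Fact.out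
  have hp0 := hpp.ne_zero
  intro hlt
  obtain ⟨a, X, Y, Z, ha, hXa, hYa, hZa, hX0, hY0, hZ0, hXYZ, hnp⟩ := prep2 hx hy hz h p hp0
    ⟨p, Nat.mem_primeFactors.2 ⟨hpp, dvd_refl _, hp0⟩⟩
  have hk := (keyE hp0 σ ha hXa hYa hZa hXYZ (hnp _ (PI_prime _) (q_mem _))).2.2.2 hσ
  obtain ⟨v, hv⟩ : ∃ v : HeightOneSpectrum (𝓞 K), v.asIdeal = PI σ :=
    ⟨⟨PI σ, PI_prime σ, PI_ne_bot σ⟩, rfl⟩
  obtain ⟨v1, v2⟩ := val_of_bal (p := p) hp0 ha hXa hYa hZa σ hk v hv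
  have e1 : algebraMap (𝓞 K) K (X ^ 2 + X * Y + Y ^ 2) = a ^ 2 * (x ^ 2 + x * y + y ^ 2) := by
    rw [map_add, map_add, map_pow, map_mul, map_pow, hXa, hYa]
    ring
  have h1 : ‖σ (a ^ 2) * σ (x ^ 2)‖ = 1 := by
    have h2 : ‖σ a * σ x‖ = 1 := by
      refine le_antisymm ?_ ?_
      · rw [← map_mul, ← hXa]
        exact norm_int _ _
      · have h2 := hk.1
        rw [mem_PI, hXa, map_mul] at h2
        exact not_lt.1 h2
    rw [map_pow, map_pow, ← mul_pow, norm_pow, h2, one_pow]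
  have hmem : X ^ 2 + X * Y + Y ^ 2 ∈ PI σ := by
    rw [mem_PI, e1, map_mul, norm_mul, ← h1, norm_mul]
    exact (mul_lt_mul_iff_right₀ (norm_pos_iff.2 ((map_ne_zero _).2 (pow_ne_zero 2 ha)))).2 hlt
  have hP0 := PI_ne_bot σ
  have hP := PI_prime σ
  have hPm : (PI σ).IsMaximal := hP.isMaximal hP0
  let _ : Field (𝓞 K ⧸ PI σ) := Ideal.Quotient.field (PI σ)
  have hfin : Finite (𝓞 K ⧸ PI σ) := Ideal.finiteQuotientOfFreeOfNeBot (PI σ) hP0
  have hchP : CharP (𝓞 K ⧸ PI σ) p := charP_quot (PI σ) hP p hpp (q_mem σ)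
  have h3P : (3 : 𝓞 K ⧸ PI σ) ≠ 0 := by
    have h : ((3 : ℕ) : 𝓞 K ⧸ PI σ) ≠ 0 := by
      rw [Ne, CharP.cast_eq_zero_iff (𝓞 K ⧸ PI σ) p]
      intro hd
      have := Nat.le_of_dvd (by norm_num) hd
      omega
    exact_mod_cast h
  have hY : (Ideal.Quotient.mk (PI σ) Y) ≠ 0 := by
    intro h0
    exact hk.2.1 (Ideal.Quotient.eq_zero_iff_mem.1 h0)
  have h6 := three_card ((Ideal.Quotient.mk (PI σ) X) / (Ideal.Quotient.mk (PI σ) Y)) (by
    have h4 : (Ideal.Quotient.mk (PI σ) X) ^ 2 + (Ideal.Quotient.mk (PI σ) X) *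
        (Ideal.Quotient.mk (PI σ) Y) + (Ideal.Quotient.mk (PI σ) Y) ^ 2 = 0 := by
      rw [← map_pow, ← map_pow, ← map_mul, ← map_add, ← map_add]
      exact Ideal.Quotient.eq_zero_iff_mem.2 hmem
    field_simp
    linear_combination h4) h3P
  refine h3 v (by rw [hv]; exact q_mem σ) v1 v2 ?_
  rw [hv]
  exact h6

end

end Pool.Agent.V5helper55.FQ
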