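import Pool.Agent.V5helper55.FQ.Two2

/-!
# Exponents divisible by `p`
-/

set_option autoImplicit false

namespace Pool.Agent.V5helper55.FQ

open Pool.Agent.Y546.WQ Pool.Agent.Y941.WQ NumberField IsDedekindDomain

section

variable {q : ℕ} [Fact q.Prime] {K : Type} [Field K]

theorem norm_pow_lt (σ : K →+* PadicAlgCl q) (x y : K) {k : ℕ} (hk : k ≠ 0) :
    ‖σ (x ^ k)‖ < ‖σ (y ^ k)‖ ↔ ‖σ x‖ < ‖σ y‖ := by
  rw [map_pow, map_pow, norm_pow, norm_pow]
  exact pow_lt_pow_iff_left₀ (norm_nonneg _) (norm_nonneg _) hk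

theorem norm_pow_eq (σ : K →+* PadicAlgCl q) (x y : K) {k : ℕ} (hk : k ≠ 0) :
    ‖σ (x ^ k)‖ = ‖σ (y ^ k)‖ ↔ ‖σ x‖ = ‖σ y‖ := by
  rw [map_pow, map_pow, norm_pow, norm_pow]
  exact pow_left_inj₀ (norm_nonneg _) (norm_nonneg _) hk

theorem norm_neg' (σ : K →+* PadicAlgCl q) (x : K) : ‖σ (-x)‖ = ‖σ x‖ := by
  rw [map_neg, norm_neg]

theorem emb_pow (x y : K) {k : ℕ} (hk : k ≠ 0) : emb q (x ^ k) (y ^ k) = emb q x y := by
  unfold emb
  exact Nat.card_congr (Equiv.subtypeEquivRight fun σ => norm_pow_lt σ x y hk)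

theorem emb_neg_right (x y : K) : emb q x (-y) = emb q x y := by
  unfold emb
  exact Nat.card_congr (Equiv.subtypeEquivRight fun σ => by rw [norm_neg'])

theorem emb_neg_left (x y : K) : emb q (-x) y = emb q x y := by
  unfold emb
  exact Nat.card_congr (Equiv.subtypeEquivRight fun σ => by rw [norm_neg'])

theorem frst_pow (x y z : K) {k : ℕ} (hk : k ≠ 0) :
    frst q (x ^ k) (y ^ k) (-z ^ k) = frst q x y z := by
  unfold frst
  refine Nat.card_congr (Equiv.subtypeEquivRight fun σ => ?_)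
  rw [norm_neg', norm_pow_eq σ x y hk, norm_pow_eq σ y z hk]

end

section

variable {p : ℕ} [Fact p.Prime] {K : Type} [Field K] [NumberField K]

theorem RegC_zero (hp3 : 3 ≤ p) : RegC p 0 := by
  right
  omega

theorem good_of_two (hp2 : p ≠ 2) {x y z : K}
    (h2 : ∀ v : HeightOneSpectrum (𝓞 K), ((2 : ℕ) : 𝓞 K) ∈ v.asIdeal →
      Nat.card (𝓞 K ⧸ v.asIdeal) ≤ 4 ∨ (¬ p ∣ Nat.card (𝓞 K ⧸ v.asIdeal) - 1 ∧
        ¬ (v.valuation K x = v.valuation K y ∧ v.valuation K y = v.valuation K z)))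
    (h : x ^ p + y ^ p + z ^ p = 0) : Good p 2 K x y z := by
  have hpp : p.Prime := Fact.out
  intro v hv
  rcases h2 v hv with h3 | ⟨h3, h4⟩
  · exact Or.inl h3
  · by_cases h5 : v.valuation K x = v.valuation K y
    · refine Or.inr (Or.inr (Or.inl ⟨?_, h3⟩))
      have h6 : v.valuation K z ≤ v.valuation K x := by
        have e : z ^ p = -(x ^ p + y ^ p) := by linear_combination h
        have h7 : v.valuation K (z ^ p) ≤ v.valuation K (x ^ p) := by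
          rw [e, Valuation.map_neg]
          refine (Valuation.map_add _ _ _).trans ?_
          rw [map_pow, map_pow, h5, max_self]
        rw [map_pow, map_pow] at h7
        exact (pow_le_pow_iff_left₀ zero_le' zero_le' hpp.ne_zero).1 h7
      refine lt_of_le_of_ne h6 fun h7 => h4 ⟨h5, ?_⟩
      rw [← h5, h7]
    · exact Or.inr (Or.inl h5)

/-- **The types at two**, all exponents divisible by `p`. -/
theorem mainT2 (h5 : 5 ≤ p) (h3m : 3 * Module.finrank ℚ K ≤ p) (hW : ¬ p ^ 2 ∣ 2 ^ (p - 1) - 1)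
    {x y z : K} (hx : x ≠ 0) (hy : y ≠ 0) (hz : z ≠ 0) (h : x ^ p + y ^ p + z ^ p = 0)
    (h2 : ∀ v : HeightOneSpectrum (𝓞 K), ((2 : ℕ) : 𝓞 K) ∈ v.asIdeal →
      Nat.card (𝓞 K ⧸ v.asIdeal) ≤ 4 ∨ (¬ p ∣ Nat.card (𝓞 K ⧸ v.asIdeal) - 1 ∧
        ¬ (v.valuation K x = v.valuation K y ∧ v.valuation K y = v.valuation K z)))
    (hreg : RegC p (frst p x y z)) :
    Even (frst p x y z) ∧ Even (frst 2 x y z) ∧
    3 * emb p x y + frst p x y z = 3 * emb 2 x y + frst 2 x y z ∧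
    3 * emb p y z + frst p x y z = 3 * emb 2 y z + frst 2 x y z ∧
    3 * emb p z x + frst p x y z = 3 * emb 2 z x + frst 2 x y z := by
  have hp2 : p ≠ 2 := by omega
  have hp0 : p ≠ 0 := by omega
  have hm := Module.finrank_pos (R := ℚ) (M := K)
  have g1 : Good p 2 K x y z := good_of_two hp2 h2 h
  have g2 : Good p 2 K y z x := by
    refine good_of_two hp2 (fun v hv => ?_) (by rw [← h]; ring)
    rcases h2 v hv with h3 | ⟨h3, h4⟩
    · exact Or.inl h3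
    · exact Or.inr ⟨h3, fun h5 => h4 ⟨(h5.1.trans h5.2).symm, h5.1⟩⟩
  obtain ⟨b1, b2, b3⟩ := mainQ2 h5 h3m 2 (Ne.symm hp2) hW hx hy hz h g1 g2 hreg
  refine ⟨?_, even_two h5 h3m hx hy hz h g1, b1, b2, b3⟩
  obtain ⟨-, s2, -⟩ := mainS h5 h3m hx hy hz h hreg
  have e : Nat.card {σ : K →+* PadicAlgCl p // (‖σ x‖ = ‖σ y‖ ∧ ‖σ y‖ = ‖σ z‖) ∧
      ‖σ (x - y)‖ < ‖σ x‖} = 0 := by
    rw [Nat.card_eq_zero]
    left
    refine ⟨fun ⟨σ, hσ⟩ => ?_⟩
    exact wiefE (by omega) hp2 hW hx hy hz h σ hσ.1 hσ.2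
  rw [e] at s2
  rw [Nat.even_iff]
  exact s2

end

end Pool.Agent.V5helper55.FQ
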