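import Pool.Agent.V5helper55.FQ.Main

/-!
# Preparation of a solution, all cases
-/

set_option autoImplicit false

namespace Pool.Agent.V5helper55.FQ

open Pool.Agent.Y546.WQ NumberField IsDedekindDomain

section

variable {K : Type} [Field K] [NumberField K]

/-- scaling a solution at the primes above `s` -/
theorem prep2 {p : ℕ} {x y z : K} (hx : x ≠ 0) (hy : y ≠ 0) (hz : z ≠ 0)
    (h : x ^ p + y ^ p + z ^ p = 0) (s : ℕ) (hs : s ≠ 0) (hs1 : s.primeFactors.Nonempty) :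
    ∃ (a : K) (X Y Z : 𝓞 K), a ≠ 0 ∧ algebraMap (𝓞 K) K X = a * x ∧
      algebraMap (𝓞 K) K Y = a * y ∧ algebraMap (𝓞 K) K Z = a * z ∧
      X ≠ 0 ∧ Y ≠ 0 ∧ Z ≠ 0 ∧ X ^ p + Y ^ p + Z ^ p = 0 ∧
      ∀ P : Ideal (𝓞 K), P.IsPrime → ((s : ℕ) : 𝓞 K) ∈ P → ¬ (X ∈ P ∧ Y ∈ P ∧ Z ∈ P) := by
  obtain ⟨T, hT⟩ := finite_primes (K := K) s hs
  obtain ⟨a, X, Y, Z, hXa, hYa, hZa, hn⟩ := scaleT (y := y) (z := z) hx T
  have hne : ∀ (P : Ideal (𝓞 K)), P.IsPrime → ((s : ℕ) : 𝓞 K) ∈ P →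
      ∃ h0 : P ≠ ⊥, ∀ hP : P.IsPrime, (⟨P, hP, h0⟩ : HeightOneSpectrum (𝓞 K)) ∈ T := by
    intro P hP hm
    have h0 : P ≠ ⊥ := by
      rintro rfl
      rw [Ideal.mem_bot] at hm
      exact hs (by exact_mod_cast hm)
    exact ⟨h0, fun hP' => hT _ hm⟩
  obtain ⟨r, hr⟩ := hs1
  obtain ⟨M, hM, hMr⟩ := exists_above (K := K) r (Nat.prime_of_mem_primeFactors hr)
  have hMs : ((s : ℕ) : 𝓞 K) ∈ M := by
    obtain ⟨t, rfl⟩ := Nat.dvd_of_mem_primeFactors hr
    rw [Nat.cast_mul]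
    exact M.mul_mem_right _ hMr
  have ha : a ≠ 0 := by
    rintro rfl
    rw [zero_mul] at hXa hYa hZa
    have h1 : X = 0 := RingOfIntegers.coe_injective (by rw [map_zero]; exact hXa)
    have h2 : Y = 0 := RingOfIntegers.coe_injective (by rw [map_zero]; exact hYa)
    have h3 : Z = 0 := RingOfIntegers.coe_injective (by rw [map_zero]; exact hZa)
    obtain ⟨h0, h4⟩ := hne M hM hMs
    apply hn _ (h4 hM)
    rw [h1, h2, h3]
    exact ⟨zero_mem _, zero_mem _, zero_mem _⟩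
  refine ⟨a, X, Y, Z, ha, hXa, hYa, hZa, ?_, ?_, ?_, ?_, ?_⟩
  · rintro rfl
    rw [map_zero] at hXa
    exact mul_ne_zero ha hx hXa.symm
  · rintro rfl
    rw [map_zero] at hYa
    exact mul_ne_zero ha hy hYa.symm
  · rintro rfl
    rw [map_zero] at hZa
    exact mul_ne_zero ha hz hZa.symm
  · apply RingOfIntegers.coe_injective
    rw [map_zero, map_add, map_add, map_pow, map_pow, map_pow]
    have e : a ^ p * (x ^ p + y ^ p + z ^ p) = 0 := by rw [h, mul_zero]
    rw [hXa, hYa, hZa, mul_pow, mul_pow, mul_pow]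
    linear_combination e
  · intro P hP hsP
    obtain ⟨h0, h4⟩ := hne P hP hsP
    exact hn _ (h4 hP)

/-- the condition on the primes above `q` -/
def Good (p q : ℕ) (K : Type) [Field K] [NumberField K] (x y z : K) : Prop :=
  ∀ v : HeightOneSpectrum (𝓞 K), ((q : ℕ) : 𝓞 K) ∈ v.asIdeal →
    Nat.card (𝓞 K ⧸ v.asIdeal) ≤ 4 ∨
    v.valuation K x ≠ v.valuation K y ∨
    (v.valuation K z < v.valuation K x ∧ ¬ p ∣ Nat.card (𝓞 K ⧸ v.asIdeal) - 1) ∨
    v.valuation K (x + y) < v.valuation K x ∨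
    (v.valuation K z = v.valuation K x ∧
      v.valuation K (x ^ (q + 1) - y ^ (q + 1)) < v.valuation K (x ^ (q + 1)))

/-- in a finite field whose number of elements is not `1` modulo `p`, the power with exponent `p` is
injective -/
theorem pow_inj {k : Type*} [Field k] [Finite k] {p : ℕ} (hp : p.Prime) (hodd : Odd p)
    (h : ¬ p ∣ Nat.card k - 1) {x y : k} (hy : y ≠ 0) (hxy : x ^ p + y ^ p = 0) : x + y = 0 := by
  have h1 : (-(x / y)) ^ p = 1 := by
    rw [hodd.neg_pow, div_pow]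
    have : x ^ p = -y ^ p := by linear_combination hxy
    rw [this, neg_div, neg_neg, div_self (pow_ne_zero _ hy)]
  have hne : -(x / y) ≠ 0 := by
    intro h0
    rw [h0, zero_pow hp.ne_zero] at h1
    exact zero_ne_one h1
  have h2 : orderOf (Units.mk0 _ hne) ∣ p := by
    apply orderOf_dvd_of_pow_eq_one
    ext
    simpa using h1
  rcases (Nat.dvd_prime hp).1 h2 with h3 | h3
  · rw [orderOf_eq_one_iff] at h3
    have h4 := congrArg (fun w : kˣ => (w : k)) h3
    simp only [Units.val_mk0, Units.val_one] at h4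
    have h5 : x / y = -1 := by linear_combination -h4
    rw [div_eq_iff hy] at h5
    linear_combination h5
  · exfalso
    apply h
    rw [← h3, ← Nat.card_units]
    exact orderOf_dvd_natCard _

/-- the condition for integral solutions -/
theorem loc_of_good {p q : ℕ} (hp : p.Prime) (h5 : 5 ≤ p) (hq : q.Prime) {x y z a : K}
    {X Y Z : 𝓞 K} (ha : a ≠ 0) (hX : algebraMap (𝓞 K) K X = a * x)
    (hY : algebraMap (𝓞 K) K Y = a * y) (hZ : algebraMap (𝓞 K) K Z = a * z)
    (h : X ^ p + Y ^ p + Z ^ p = 0)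
    (hn : ∀ P : Ideal (𝓞 K), P.IsPrime → ((q : ℕ) : 𝓞 K) ∈ P → ¬ (X ∈ P ∧ Y ∈ P ∧ Z ∈ P))
    (hgood : Good p q K x y z) : Loc q K X Y Z := by
  intro P hP hqP
  have hodd : Odd p := hp.odd_of_ne_two (by omega)
  have hP0 : P ≠ ⊥ := by
    rintro rfl
    rw [Ideal.mem_bot] at hqP
    exact hq.ne_zero (by exact_mod_cast hqP)
  have hnot := hn P hP hqP
  -- two of them in the ideal
  have hXY : X ∈ P → Y ∉ P := by
    intro h1 h2
    apply hnot
    refine ⟨h1, h2, hP.mem_of_pow_mem p ?_⟩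
    have e : Z ^ p = -(X ^ p + Y ^ p) := by linear_combination h
    rw [e]
    exact P.neg_mem (P.add_mem (P.pow_mem_of_mem h1 p hp.pos) (P.pow_mem_of_mem h2 p hp.pos))
  have hXZ : X ∈ P → Z ∉ P := by
    intro h1 h2
    apply hnot
    refine ⟨h1, hP.mem_of_pow_mem p ?_, h2⟩
    have e : Y ^ p = -(X ^ p + Z ^ p) := by linear_combination h
    rw [e]
    exact P.neg_mem (P.add_mem (P.pow_mem_of_mem h1 p hp.pos) (P.pow_mem_of_mem h2 p hp.pos))
  have hYZ : Y ∈ P → Z ∉ P := by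
    intro h1 h2
    apply hnot
    refine ⟨hP.mem_of_pow_mem p ?_, h1, h2⟩
    have e : X ^ p = -(Y ^ p + Z ^ p) := by linear_combination h
    rw [e]
    exact P.neg_mem (P.add_mem (P.pow_mem_of_mem h1 p hp.pos) (P.pow_mem_of_mem h2 p hp.pos))
  -- the residue field
  have := hP
  have hPM : P.IsMaximal := hP.isMaximal hP0
  let _ : Field (𝓞 K ⧸ P) := Ideal.Quotient.field P
  have hfin : Finite (𝓞 K ⧸ P) := Ideal.finiteQuotientOfFreeOfNeBot P hP0
  have hchar : CharP (𝓞 K ⧸ P) q := charP_quot P hP q hq hqP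
  have hzero : ∀ w : 𝓞 K, Ideal.Quotient.mk P w = 0 ↔ w ∈ P := fun w =>
    Ideal.Quotient.eq_zero_iff_mem
  have hF : (Ideal.Quotient.mk P X) ^ p + (Ideal.Quotient.mk P Y) ^ p +
      (Ideal.Quotient.mk P Z) ^ p = 0 := by
    rw [← map_pow, ← map_pow, ← map_pow, ← map_add, ← map_add, h, map_zero]
  have hZcase : Z ∈ P → ¬ p ∣ Nat.card (𝓞 K ⧸ P) - 1 → X ∉ P ∧ Y ∉ P ∧ X + Y ∈ P := by
    intro h1 h2
    have h3 : X ∉ P := fun h => hXZ h h1
    have h4 : Y ∉ P := fun h => hYZ h h1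
    refine ⟨h3, h4, ?_⟩
    rw [(hzero Z).2 h1, zero_pow hp.ne_zero, add_zero] at hF
    rw [← hzero, map_add]
    exact pow_inj hp hodd h2 (fun h => h4 ((hzero Y).1 h)) hF
  obtain ⟨v, hv⟩ : ∃ v : HeightOneSpectrum (𝓞 K), v.asIdeal = P := ⟨⟨P, hP, hP0⟩, rfl⟩
  have hva : v.valuation K a ≠ 0 := (Valuation.ne_zero_iff _).2 ha
  have hval : ∀ (w : K) (W : 𝓞 K), algebraMap (𝓞 K) K W = a * w →
      v.valuation K (algebraMap (𝓞 K) K W) = v.valuation K a * v.valuation K w := by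
    intro w W hW
    rw [hW, map_mul]
  have hmem : ∀ W : 𝓞 K, W ∈ P ↔ v.valuation K (algebraMap (𝓞 K) K W) < 1 := by
    intro W
    rw [← hv]
    exact (v.valuation_lt_one_iff_mem (K := K) W).symm
  have hle : ∀ W : 𝓞 K, v.valuation K (algebraMap (𝓞 K) K W) ≤ 1 := fun W =>
    v.valuation_le_one W
  have hlt : ∀ (w w' : K) (W W' : 𝓞 K), algebraMap (𝓞 K) K W = a * w →
      algebraMap (𝓞 K) K W' = a * w' → v.valuation K w < v.valuation K w' → W ∈ P := by
    intro w w' W W' hW hW' hlt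
    rw [hmem, hval w W hW]
    refine lt_of_lt_of_le (?_ : _ < v.valuation K a * v.valuation K w') ?_
    · exact (mul_lt_mul_iff_right₀ (zero_lt_iff.2 hva)).2 hlt
    · rw [← hval w' W' hW']
      exact hle W'
  rcases hgood v (by rw [hv]; exact hqP) with h1 | h1 | ⟨h1, h2⟩ | h1 | ⟨h1, h2⟩
  · -- small residue fields
    rw [hv] at h1
    have hN2 : 2 ≤ Nat.card (𝓞 K ⧸ P) := by
      have : 1 < Nat.card (𝓞 K ⧸ P) := Finite.one_lt_card
      omega
    have hqN : q ∣ Nat.card (𝓞 K ⧸ P) := by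
      have hft : Fintype (𝓞 K ⧸ P) := Fintype.ofFinite _
      rw [Nat.card_eq_fintype_card, ← CharP.cast_eq_zero_iff (𝓞 K ⧸ P) q]
      exact FiniteField.cast_card_eq_zero _
    have hdvd : Nat.card (𝓞 K ⧸ P) - 1 ∣ q + 1 := by
      have hq2 := hq.two_le
      have hqle := Nat.le_of_dvd (by omega) hqN
      obtain ⟨N, hN⟩ : ∃ N, N = Nat.card (𝓞 K ⧸ P) := ⟨_, rfl⟩
      rw [← hN] at h1 hN2 hqN hqle ⊢
      interval_cases N
      · exact one_dvd _
      · have : q = 3 := by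
          interval_cases q
          · omega
          · rfl
        subst this
        norm_num
      · have : q = 2 := by
          interval_cases q
          · rfl
          · omega
          · exact absurd hq (by norm_num)
        subst this
        norm_num
    by_cases hXP : X ∈ P
    · exact Or.inl ⟨hXP, hXY hXP⟩
    by_cases hYP : Y ∈ P
    · exact Or.inr (Or.inl ⟨hYP, hXP⟩)
    by_cases hZP : Z ∈ P
    · refine Or.inr (Or.inr (Or.inl (hZcase hZP ?_)))
      intro hd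
      have := Nat.le_of_dvd (by omega) hd
      omega
    · refine Or.inr (Or.inr (Or.inr ⟨hXP, hYP, hZP, ?_⟩))
      have hone : ∀ w : 𝓞 K ⧸ P, w ≠ 0 → w ^ (q + 1) = 1 := by
        intro w hw
        obtain ⟨t, ht⟩ := hdvd
        rw [ht, pow_mul]
        have h3 : w ^ (Nat.card (𝓞 K ⧸ P) - 1) = 1 := by
          have hft : Fintype (𝓞 K ⧸ P) := Fintype.ofFinite _
          rw [Nat.card_eq_fintype_card]
          exact FiniteField.pow_card_sub_one_eq_one w hw
        rw [h3, one_pow]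
      rw [← hzero, map_sub, map_pow, map_pow, hone _ (fun h => hXP ((hzero X).1 h)),
        hone _ (fun h => hYP ((hzero Y).1 h)), sub_self]
  · by_cases hXP : X ∈ P
    · exact Or.inl ⟨hXP, hXY hXP⟩
    by_cases hYP : Y ∈ P
    · exact Or.inr (Or.inl ⟨hYP, hXP⟩)
    exfalso
    apply h1
    rw [hmem, not_lt] at hXP hYP
    have h2 : v.valuation K (algebraMap (𝓞 K) K X) = 1 := le_antisymm (hle X) hXP
    have h3 : v.valuation K (algebraMap (𝓞 K) K Y) = 1 := le_antisymm (hle Y) hYP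
    rw [hval x X hX] at h2
    rw [hval y Y hY, ← h2] at h3
    exact (mul_left_cancel₀ hva h3).symm
  · rw [hv] at h2
    exact Or.inr (Or.inr (Or.inl (hZcase (hlt z x Z X hZ hX h1) h2)))
  · have h3 : X + Y ∈ P := by
      refine hlt (x + y) x (X + Y) X ?_ hX h1
      rw [map_add, hX, hY]
      ring
    have h4 : X ∉ P := by
      intro h5
      have h6 : Y ∈ P := (Ideal.add_mem_iff_right P h5).1 h3
      exact hXY h5 h6
    refine Or.inr (Or.inr (Or.inl ⟨h4, fun h5 => h4 ((Ideal.add_mem_iff_left P h5).1 h3), h3⟩))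
  · have h3 : X ^ (q + 1) - Y ^ (q + 1) ∈ P := by
      rw [hmem, map_sub, map_pow, map_pow, hX, hY]
      have e : (a * x) ^ (q + 1) - (a * y) ^ (q + 1) = a ^ (q + 1) *
        (x ^ (q + 1) - y ^ (q + 1)) := by ring
      rw [e, map_mul]
      refine lt_of_lt_of_le (?_ : _ < v.valuation K (a ^ (q + 1)) *
        v.valuation K (x ^ (q + 1))) ?_
      · refine (mul_lt_mul_iff_right₀ (zero_lt_iff.2 ?_)).2 h2
        rw [map_pow]
        exact pow_ne_zero _ hva
      · rw [← map_mul, ← mul_pow, ← hX, ← map_pow]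
        exact hle _
    have h4 : X ∉ P := by
      intro h5
      apply hXZ h5
      rw [hmem, hval z Z hZ, h1, ← hval x X hX, ← hmem]
      exact h5
    have h6 : Z ∉ P := by
      rw [hmem, hval z Z hZ, h1, ← hval x X hX, ← hmem]
      exact h4
    have h7 : Y ∉ P := by
      intro h8
      apply h4
      apply hP.mem_of_pow_mem (q + 1)
      have e : X ^ (q + 1) = (X ^ (q + 1) - Y ^ (q + 1)) + Y ^ (q + 1) := by ring
      rw [e]
      exact P.add_mem h3 (P.pow_mem_of_mem h8 _ (by omega))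
    exact Or.inr (Or.inr (Or.inr ⟨h4, h7, h6, h3⟩))

end

end Pool.Agent.V5helper55.FQ
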