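import Pool.Agent.V5helper55.FQ.Two3

/-!
# Quadratic fields: the residues
-/

set_option autoImplicit false

namespace Pool.Agent.V5helper55.FQ

open Pool.Agent.Y546.WQ Pool.Agent.Y941.WQ NumberField IsDedekindDomain

section

variable {p : ℕ} [Fact p.Prime]

/-- the subring of the elements of norm at most one -/
noncomputable def ballRing (p : ℕ) [Fact p.Prime] : Subring (PadicAlgCl p) where
  carrier := {w | ‖w‖ ≤ 1}
  mul_mem' := by
    intro a b ha hb
    have h1 : ‖a‖ ≤ 1 := ha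
    have h2 : ‖b‖ ≤ 1 := hb
    show ‖a * b‖ ≤ 1
    rw [norm_mul]
    exact mul_le_one₀ h1 (norm_nonneg _) h2
  one_mem' := by
    show ‖(1 : PadicAlgCl p)‖ ≤ 1
    rw [norm_one]
  add_mem' := by
    intro a b ha hb
    have h1 : ‖a‖ ≤ 1 := ha
    have h2 : ‖b‖ ≤ 1 := hb
    exact (PadicAlgCl.isNonarchimedean p a b).trans (max_le h1 h2)
  zero_mem' := by
    show ‖(0 : PadicAlgCl p)‖ ≤ 1
    rw [norm_zero]
    exact zero_le_one
  neg_mem' := by
    intro a ha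
    show ‖-a‖ ≤ 1
    rw [norm_neg]
    exact ha

theorem mem_ballRing (w : PadicAlgCl p) : w ∈ ballRing p ↔ ‖w‖ ≤ 1 := Iff.rfl

/-- the maximal ideal -/
noncomputable def ballIdeal (p : ℕ) [Fact p.Prime] : Ideal (ballRing p) where
  carrier := {w | ‖(w : PadicAlgCl p)‖ < 1}
  add_mem' := by
    intro a b ha hb
    have h1 : ‖(a : PadicAlgCl p)‖ < 1 := ha
    have h2 : ‖(b : PadicAlgCl p)‖ < 1 := hb
    exact add_lt_one h1 h2
  zero_mem' := by
    show ‖((0 : ballRing p) : PadicAlgCl p)‖ < 1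
    simp
  smul_mem' := by
    intro c a ha
    have h1 : ‖(a : PadicAlgCl p)‖ < 1 := ha
    have h2 : ‖(c : PadicAlgCl p)‖ ≤ 1 := c.2
    show ‖((c * a : ballRing p) : PadicAlgCl p)‖ < 1
    rw [Subring.coe_mul, norm_mul]
    exact mul_lt_one_of_nonneg_of_lt_one_right h2 (norm_nonneg _) h1

theorem mem_ballIdeal (w : ballRing p) : w ∈ ballIdeal p ↔ ‖(w : PadicAlgCl p)‖ < 1 := Iff.rfl

theorem ballIdeal_max : (ballIdeal p).IsMaximal := by
  rw [Ideal.isMaximal_iff]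
  constructor
  · rw [mem_ballIdeal]
    simp
  · intro J w hJ hw hwJ
    rw [mem_ballIdeal, not_lt] at hw
    have h1 : ‖(w : PadicAlgCl p)‖ = 1 := le_antisymm w.2 hw
    have hw0 : (w : PadicAlgCl p) ≠ 0 := by
      intro h
      rw [h, norm_zero] at h1
      exact zero_ne_one h1
    have h2 : (w : PadicAlgCl p)⁻¹ ∈ ballRing p := by
      rw [mem_ballRing, norm_inv, h1, inv_one]
    have h3 : (⟨(w : PadicAlgCl p)⁻¹, h2⟩ : ballRing p) * w = 1 := by
      apply Subtype.ext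
      simp [hw0]
    rw [← h3]
    exact J.mul_mem_left _ hwJ

/-- the residue field of the algebraic closure of the `p`-adic numbers -/
theorem exists_resid (p : ℕ) [Fact p.Prime] : ∃ (k : Type) (_ : Field k) (_ : CharP k p)
    (ρ : ballRing p →+* k), ∀ w : ballRing p, ρ w = 0 ↔ ‖(w : PadicAlgCl p)‖ < 1 := by
  have hmax := ballIdeal_max (p := p)
  have hpp : p.Prime := Fact.out
  refine ⟨ballRing p ⧸ ballIdeal p, Ideal.Quotient.field _, ?_, Ideal.Quotient.mk _, ?_⟩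
  · refine charP_quot (ballIdeal p) hmax.isPrime p hpp ?_
    rw [mem_ballIdeal]
    have : (((p : ℕ) : ballRing p) : PadicAlgCl p) = ((p : ℕ) : PadicAlgCl p) := by simp
    rw [this]
    exact norm_q_lt p
  · intro w
    rw [Ideal.Quotient.eq_zero_iff_mem]
    exact mem_ballIdeal w

variable {K : Type} [Field K] [NumberField K]

/-- the sum of the unknowns is small at each balanced embedding -/
theorem sum_small (hp0 : p ≠ 0) {x y z : K} (hx : x ≠ 0) (hy : y ≠ 0) (hz : z ≠ 0)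
    (h : x ^ p + y ^ p + z ^ p = 0) (σ : K →+* PadicAlgCl p)
    (hσ : ‖σ x‖ = ‖σ y‖ ∧ ‖σ y‖ = ‖σ z‖) : ‖σ ((x + y + z) / x)‖ < 1 := by
  have hpp : p.Prime := Fact.out
  obtain ⟨a, X, Y, Z, ha, hXa, hYa, hZa, hX0, hY0, hZ0, hXYZ, hnp⟩ := prep2 hx hy hz h p hp0
    ⟨p, Nat.mem_primeFactors.2 ⟨hpp, dvd_refl _, hp0⟩⟩
  have hk := (keyE hp0 σ ha hXa hYa hZa hXYZ (hnp _ (PI_prime _) (q_mem _))).2.2.2 hσ
  have h1 := lin_p hpp (PI σ) (PI_prime σ) (q_mem σ) hXYZ
  have e1 : algebraMap (𝓞 K) K (X + Y + Z) = a * (x + y + z) := by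
    rw [map_add, map_add, hXa, hYa, hZa]
    ring
  have h2 : ‖σ a * σ x‖ = 1 := by
    refine le_antisymm ?_ ?_
    · rw [← map_mul, ← hXa]
      exact norm_int _ _
    · have h2 := hk.1
      rw [mem_PI, hXa, map_mul] at h2
      exact not_lt.1 h2
  rw [mem_PI, e1, map_mul, norm_mul] at h1
  rw [norm_mul] at h2
  have hσx : 0 < ‖σ x‖ := norm_pos_iff.2 ((map_ne_zero σ).2 hx)
  rw [map_div₀, norm_div, div_lt_one hσx]
  have ha0 : 0 < ‖σ a‖ := norm_pos_iff.2 ((map_ne_zero σ).2 ha)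
  rw [← h2] at h1
  exact (mul_lt_mul_iff_right₀ ha0).1 h1

/-- the residues at a balanced embedding -/
theorem resE (hp0 : p ≠ 0) {x y z : K} (hx : x ≠ 0) (hy : y ≠ 0) (hz : z ≠ 0)
    (h : x ^ p + y ^ p + z ^ p = 0) {k : Type} [Field k]
    (ρ : ballRing p →+* k) (hρ : ∀ w : ballRing p, ρ w = 0 ↔ ‖(w : PadicAlgCl p)‖ < 1)
    (σ : K →+* PadicAlgCl p) (hσ : ‖σ x‖ = ‖σ y‖ ∧ ‖σ y‖ = ‖σ z‖) :
    ∃ (t : k) (a b c : ballRing p), t ≠ 0 ∧ -1 - t ≠ 0 ∧
      (a : PadicAlgCl p) = σ ((x - y) / z) ∧ (b : PadicAlgCl p) = σ ((y - z) / x) ∧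
      (c : PadicAlgCl p) = σ ((z - x) / y) ∧
      ρ a * (-1 - t) = 1 - t ∧ ρ b = 2 * t + 1 ∧ ρ c * t = -2 - t ∧
      (∀ c0 c1 c2 : ℤ, c0 + c1 * t + c2 * t ^ 2 = 0 →
        ‖σ (c0 * x ^ 2 + c1 * (x * y) + c2 * y ^ 2)‖ < ‖σ (x ^ 2)‖) ∧
      (∀ c0 c1 : ℤ, c0 + c1 * t = 0 → ‖σ (c0 * x + c1 * y)‖ < ‖σ x‖) := by
  have hsm := sum_small hp0 hx hy hz h σ hσ
  obtain ⟨h1, h2⟩ := hσ
  have hσx : σ x ≠ 0 := (map_ne_zero σ).2 hx
  have hσz : σ z ≠ 0 := (map_ne_zero σ).2 hz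
  have hσy : σ y ≠ 0 := (map_ne_zero σ).2 hy
  have hnx : 0 < ‖σ x‖ := norm_pos_iff.2 hσx
  have ht : ‖σ (y / x)‖ = 1 := by
    rw [map_div₀, norm_div, ← h1, div_self hnx.ne']
  have hs : ‖σ (z / x)‖ = 1 := by
    rw [map_div₀, norm_div, ← h2, ← h1, div_self hnx.ne']
  have hs' : ‖σ (x / z)‖ = 1 := by
    rw [map_div₀, norm_div, ← h2, ← h1, div_self hnx.ne']
  have ht' : ‖σ (x / y)‖ = 1 := by
    rw [map_div₀, norm_div, ← h1, div_self hnx.ne']
  obtain ⟨T', hT'⟩ : ∃ T' : ballRing p, (T' : PadicAlgCl p) = σ (x / y) := ⟨⟨_, ht'.le⟩, rfl⟩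
  obtain ⟨T, hT⟩ : ∃ T : ballRing p, (T : PadicAlgCl p) = σ (y / x) := ⟨⟨_, ht.le⟩, rfl⟩
  obtain ⟨S, hS⟩ : ∃ S : ballRing p, (S : PadicAlgCl p) = σ (z / x) := ⟨⟨_, hs.le⟩, rfl⟩
  obtain ⟨S', hS'⟩ : ∃ S' : ballRing p, (S' : PadicAlgCl p) = σ (x / z) := ⟨⟨_, hs'.le⟩, rfl⟩
  have hST : ρ S = -1 - ρ T := by
    have h3 : ρ (1 + T + S) = 0 := by
      rw [hρ]
      have e : ((1 + T + S : ballRing p) : PadicAlgCl p) = σ ((x + y + z) / x) := by
        rw [Subring.coe_add, Subring.coe_add, Subring.coe_one, hT, hS, ← map_one σ, ← map_add,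
          ← map_add]
        congr 1
        field_simp
      rw [e]
      exact hsm
    rw [map_add, map_add, map_one] at h3
    linear_combination h3
  have hT0 : ρ T ≠ 0 := by
    rw [Ne, hρ, hT, ht]
    exact lt_irrefl _
  have hS0 : ρ S ≠ 0 := by
    rw [Ne, hρ, hS, hs]
    exact lt_irrefl _
  refine ⟨ρ T, (1 - T) * S', T - S, (S - 1) * T', hT0, ?_, ?_, ?_, ?_, ?_, ?_, ?_, ?_, ?_⟩
  · rw [← hST]
    exact hS0
  · rw [Subring.coe_mul, AddSubgroupClass.coe_sub, Subring.coe_one, hT, hS', ← map_one σ, ← map_sub,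
      ← map_mul]
    congr 1
    field_simp
  · rw [AddSubgroupClass.coe_sub, hT, hS, ← map_sub]
    congr 1
    field_simp
  · rw [Subring.coe_mul, AddSubgroupClass.coe_sub, Subring.coe_one, hS, hT', ← map_one σ,
      ← map_sub, ← map_mul]
    congr 1
    field_simp
  · rw [← hST, ← map_mul]
    have e : (1 - T) * S' * S = 1 - T := by
      apply Subtype.ext
      rw [Subring.coe_mul, Subring.coe_mul, AddSubgroupClass.coe_sub, Subring.coe_one, hT, hS', hS,
        ← map_one σ, ← map_sub, ← map_mul, ← map_mul]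
      congr 1
      field_simp
    rw [e, map_sub, map_one]
  · rw [map_sub, hST]
    ring
  · rw [← map_mul]
    have e : (S - 1) * T' * T = S - 1 := by
      apply Subtype.ext
      rw [Subring.coe_mul, Subring.coe_mul, AddSubgroupClass.coe_sub, Subring.coe_one, hT, hT', hS,
        ← map_one σ, ← map_sub, ← map_mul, ← map_mul]
      congr 1
      field_simp
    rw [e, map_sub, map_one, hST]
    ring
  · intro c0 c1 c2 hc
    have h3 : ρ ((c0 : ballRing p) + (c1 : ballRing p) * T + (c2 : ballRing p) * T ^ 2) = 0 := by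
      rw [map_add, map_add, map_mul, map_mul, map_pow, map_intCast, map_intCast, map_intCast]
      exact hc
    rw [hρ] at h3
    have e : (((c0 : ballRing p) + (c1 : ballRing p) * T + (c2 : ballRing p) * T ^ 2 :
        ballRing p) : PadicAlgCl p) = σ ((c0 * x ^ 2 + c1 * (x * y) + c2 * y ^ 2) / x ^ 2) := by
      push_cast
      rw [hT]
      have e2 : (c0 * x ^ 2 + c1 * (x * y) + c2 * y ^ 2) / x ^ 2 =
          c0 + c1 * (y / x) + c2 * (y / x) ^ 2 := by
        field_simp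
      rw [e2]
      simp
    rw [e, map_div₀, norm_div, div_lt_one (norm_pos_iff.2 ((map_ne_zero σ).2
      (pow_ne_zero 2 hx)))] at h3
    exact h3
  · intro c0 c1 hc
    have h3 : ρ ((c0 : ballRing p) + (c1 : ballRing p) * T) = 0 := by
      rw [map_add, map_mul, map_intCast, map_intCast]
      exact hc
    rw [hρ] at h3
    have e : (((c0 : ballRing p) + (c1 : ballRing p) * T : ballRing p) : PadicAlgCl p) =
        σ ((c0 * x + c1 * y) / x) := by
      push_cast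
      rw [hT]
      have e2 : (c0 * x + c1 * y) / x = c0 + c1 * (y / x) := by
        field_simp
      rw [e2]
      simp
    rw [e, map_div₀, norm_div, div_lt_one hnx] at h3
    exact h3

end

end Pool.Agent.V5helper55.FQ
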