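import Pool.Agent.V5helper55.FQ.Quad

/-!
# Quadratic fields: the cases
-/

set_option autoImplicit false

namespace Pool.Agent.V5helper55.FQ

open Pool.Agent.Y546.WQ Pool.Agent.Y941.WQ NumberField IsDedekindDomain

section

variable {p : ℕ} [Fact p.Prime] {K : Type} [Field K] [NumberField K]

/-- the types at two auxiliary prime numbers -/
theorem typesEq (h5 : 5 ≤ p) (h3m : 3 * Module.finrank ℚ K ≤ p) {x y z : K} (hx : x ≠ 0)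
    (hy : y ≠ 0) (hz : z ≠ 0) (h : x ^ p + y ^ p + z ^ p = 0) (q q' : ℕ) [Fact q.Prime]
    [Fact q'.Prime] (hqp : q ≠ p) (hW : ¬ p ^ 2 ∣ q ^ (p - 1) - 1) (hg : Good p q K x y z)
    (hqp' : q' ≠ p) (hW' : ¬ p ^ 2 ∣ q' ^ (p - 1) - 1) (hg' : Good p q' K x y z) :
    (emb q x y : ℤ) - emb q y x = (emb q' x y : ℤ) - emb q' y x := by
  classical
  have hT : ∀ (r : ℕ) [Fact r.Prime] (a b : K), emb r a b ≤ Module.finrank ℚ K := by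
    intro r _ a b
    unfold emb
    rw [Nat.card_eq_fintype_card, ← NumberField.Embeddings.card K (PadicAlgCl r)]
    exact Fintype.card_subtype_le _
  have h1 := (mainE h5 h3m hqp hW hx hy hz h hg).1
  have h2 := (mainE h5 h3m hqp' hW' hx hy hz h hg').1
  obtain ⟨s0, hs0⟩ : ∃ s, s = ∑ σ ∈ Finset.univ.filter (fun σ : K →+* PadicAlgCl p =>
    ‖σ x‖ = ‖σ y‖ ∧ ‖σ y‖ = ‖σ z‖), σ ((x - y) / z) := ⟨_, rfl⟩
  rw [← hs0] at h1 h2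
  obtain ⟨D, hD⟩ : ∃ D : ℤ, D = (emb q x y : ℤ) - emb q y x := ⟨_, rfl⟩
  obtain ⟨D', hD'⟩ : ∃ D' : ℤ, D' = (emb q' x y : ℤ) - emb q' y x := ⟨_, rfl⟩
  obtain ⟨D0, hD0⟩ : ∃ D0 : ℤ, D0 = (emb p x y : ℤ) - emb p y x := ⟨_, rfl⟩
  rw [← hD, ← hD0] at h1
  rw [← hD', ← hD0] at h2
  have h3 : ‖((D' - D : ℤ) : PadicAlgCl p)‖ < 1 := by
    have e : ((D' - D : ℤ) : PadicAlgCl p) =
        (s0 - ((D - D0 : ℤ) : PadicAlgCl p)) + -(s0 - ((D' - D0 : ℤ) : PadicAlgCl p)) := by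
      push_cast
      ring
    rw [e]
    exact add_lt_one h1 (by rw [norm_neg]; exact h2)
  have h4 : (p : ℤ) ∣ D' - D := by
    have e : ((D' - D : ℤ) : PadicAlgCl p) =
        algebraMap ℚ_[p] (PadicAlgCl p) ((D' - D : ℤ) : ℚ_[p]) := by
      rw [map_intCast]
    rw [e, norm_algebraMap'] at h3
    exact (Padic.norm_intCast_lt_one_iff).1 h3
  have hm := Module.finrank_pos (R := ℚ) (M := K)
  have b1 := hT q x y
  have b2 := hT q y x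
  have b3 := hT q' x y
  have b4 := hT q' y x
  have h7 := Int.eq_zero_of_abs_lt_dvd h4 (by
    rw [abs_lt]
    constructor <;> omega)
  rw [← hD, ← hD']
  omega

theorem filter_rot (x y z : K) [DecidablePred fun σ : K →+* PadicAlgCl p =>
    ‖σ x‖ = ‖σ y‖ ∧ ‖σ y‖ = ‖σ z‖] [DecidablePred fun σ : K →+* PadicAlgCl p =>
    ‖σ y‖ = ‖σ z‖ ∧ ‖σ z‖ = ‖σ x‖] :
    Finset.univ.filter (fun σ : K →+* PadicAlgCl p => ‖σ y‖ = ‖σ z‖ ∧ ‖σ z‖ = ‖σ x‖) =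
      Finset.univ.filter (fun σ : K →+* PadicAlgCl p => ‖σ x‖ = ‖σ y‖ ∧ ‖σ y‖ = ‖σ z‖) := by
  ext σ
  rw [Finset.mem_filter, Finset.mem_filter]
  constructor
  · rintro ⟨h0, h1, h2⟩
    exact ⟨h0, (h1.trans h2).symm, h1⟩
  · rintro ⟨h0, h1, h2⟩
    exact ⟨h0, h2, (h1.trans h2).symm⟩

open Classical in
/-- the residues and the types, one pair -/
theorem sum_res (h5 : 5 ≤ p) (h3m : 3 * Module.finrank ℚ K ≤ p) {x y z : K} (hx : x ≠ 0)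
    (hy : y ≠ 0) (hz : z ≠ 0) (h : x ^ p + y ^ p + z ^ p = 0) (hW : ¬ p ^ 2 ∣ 2 ^ (p - 1) - 1)
    (hg : Good p 2 K x y z) {k : Type} [Field k]
    (ρ : ballRing p →+* k) (hρ : ∀ w : ballRing p, ρ w = 0 ↔ ‖(w : PadicAlgCl p)‖ < 1)
    (a : (K →+* PadicAlgCl p) → ballRing p)
    (ha : ∀ σ ∈ Finset.univ.filter (fun σ : K →+* PadicAlgCl p =>
      ‖σ x‖ = ‖σ y‖ ∧ ‖σ y‖ = ‖σ z‖), (a σ : PadicAlgCl p) = σ ((x - y) / z)) :
    ∑ σ ∈ Finset.univ.filter (fun σ : K →+* PadicAlgCl p =>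
      ‖σ x‖ = ‖σ y‖ ∧ ‖σ y‖ = ‖σ z‖), ρ (a σ) =
      ((((emb 2 x y : ℤ) - emb 2 y x) - ((emb p x y : ℤ) - emb p y x) : ℤ) : k) := by
  have h1 := (mainE h5 h3m (q := 2) (by omega) hW hx hy hz h hg).1
  rw [← map_sum, ← map_intCast ρ, ← sub_eq_zero, ← map_sub, hρ]
  have e : ((∑ σ ∈ Finset.univ.filter (fun σ : K →+* PadicAlgCl p =>
      ‖σ x‖ = ‖σ y‖ ∧ ‖σ y‖ = ‖σ z‖), a σ -
      ((((emb 2 x y : ℤ) - emb 2 y x) - ((emb p x y : ℤ) - emb p y x) : ℤ) : ballRing p) :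
        ballRing p) : PadicAlgCl p) = ∑ σ ∈ Finset.univ.filter (fun σ : K →+* PadicAlgCl p =>
      ‖σ x‖ = ‖σ y‖ ∧ ‖σ y‖ = ‖σ z‖), σ ((x - y) / z) -
      ((((emb 2 x y : ℤ) - emb 2 y x) - ((emb p x y : ℤ) - emb p y x) : ℤ) : PadicAlgCl p) := by
    rw [AddSubgroupClass.coe_sub, AddSubmonoidClass.coe_finset_sum, Finset.sum_congr rfl ha]
    congr 1
  rw [e]
  exact h1

end

end Pool.Agent.V5helper55.FQ
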