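import Pool.Agent.V5helper55.FQ.Quad2

/-!
# Quadratic fields: one or two balanced embeddings
-/

set_option autoImplicit false

namespace Pool.Agent.V5helper55.FQ

open Pool.Agent.Y546.WQ Pool.Agent.Y941.WQ NumberField IsDedekindDomain

section

variable {p : ℕ} [Fact p.Prime] {K : Type} [Field K] [NumberField K]

/-- the differences of the types -/
theorem diff_eq (hp0 : p ≠ 0) {x y z : K} (h : x ^ p + y ^ p + z ^ p = 0) (r : ℕ) [Fact r.Prime] :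
    emb r y x = emb r y z ∧ emb r z y = emb r z x ∧ emb r x z = emb r x y := by
  refine ⟨?_, ?_, emb_swap hp0 h⟩
  · exact emb_swap (x := y) (y := z) (z := x) hp0 (by rw [← h]; ring)
  · exact emb_swap (x := z) (y := x) (z := y) hp0 (by rw [← h]; ring)

/-- exactly one balanced embedding is impossible -/
theorem case_one (h5 : 5 ≤ p) (h3m : 3 * Module.finrank ℚ K ≤ p) {x y z : K} (hx : x ≠ 0)
    (hy : y ≠ 0) (hz : z ≠ 0) (h : x ^ p + y ^ p + z ^ p = 0) (hW : ¬ p ^ 2 ∣ 2 ^ (p - 1) - 1)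
    (g1 : Good p 2 K x y z) (g2 : Good p 2 K y z x) (g3 : Good p 2 K z x y) :
    frst p x y z ≠ 1 := by
  classical
  intro h1
  have hp0 : p ≠ 0 := by omega
  have hm := Module.finrank_pos (R := ℚ) (M := K)
  have h' : y ^ p + z ^ p + x ^ p = 0 := by rw [← h]; ring
  have h'' : z ^ p + x ^ p + y ^ p = 0 := by rw [← h]; ring
  obtain ⟨S, hS⟩ : ∃ S : Finset (K →+* PadicAlgCl p), S = Finset.univ.filter
    (fun σ : K →+* PadicAlgCl p => ‖σ x‖ = ‖σ y‖ ∧ ‖σ y‖ = ‖σ z‖) := ⟨_, rfl⟩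
  have hcard : S.card = 1 := by
    rw [← h1, hS]
    unfold frst
    rw [Nat.card_eq_fintype_card, Fintype.card_subtype]
  obtain ⟨σ, hσS⟩ := Finset.card_eq_one.1 hcard
  have hσ : ‖σ x‖ = ‖σ y‖ ∧ ‖σ y‖ = ‖σ z‖ := by
    have : σ ∈ S := by
      rw [hσS]
      exact Finset.mem_singleton_self σ
    rw [hS] at this
    exact (Finset.mem_filter.1 this).2
  obtain ⟨k, _, _, ρ, hρ⟩ := exists_resid p
  obtain ⟨t, a, b, c, ht0, ht1, ha, hb, hc, ra, rb, rc, -, -⟩ := resE hp0 hx hy hz h ρ hρ σ hσ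
  have s1 := sum_res h5 h3m hx hy hz h hW g1 ρ hρ (fun _ => a) (by
    intro σ' hσ'
    rw [← hS, hσS, Finset.mem_singleton] at hσ'
    rw [hσ']
    exact ha)
  have s2 := sum_res h5 h3m hy hz hx h' hW g2 ρ hρ (fun _ => b) (by
    intro σ' hσ'
    rw [filter_rot, ← hS, hσS, Finset.mem_singleton] at hσ'
    rw [hσ']
    exact hb)
  have s3 := sum_res h5 h3m hz hx hy h'' hW g3 ρ hρ (fun _ => c) (by
    intro σ' hσ'
    rw [filter_rot y z x, filter_rot, ← hS, hσS, Finset.mem_singleton] at hσ'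
    rw [hσ']
    exact hc)
  rw [← hS, hσS, Finset.sum_singleton] at s1
  rw [filter_rot, ← hS, hσS, Finset.sum_singleton] at s2
  rw [filter_rot y z x, filter_rot, ← hS, hσS, Finset.sum_singleton] at s3
  obtain ⟨d1, d2, d3⟩ := diff_eq hp0 h 2
  obtain ⟨e1, e2, e3⟩ := diff_eq hp0 h p
  rw [d1, e1] at s1
  rw [d2, e2] at s2
  rw [d3, e3] at s3
  have hsum : ρ a + ρ b + ρ c = 0 := by
    rw [s1, s2, s3]
    push_cast
    ring
  have hprod : (t - 1) * (2 * t + 1) * (t + 2) = 0 := by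
    linear_combination (-(t * (-1 - t))) * hsum + t * ra + t * (-1 - t) * rb + (-1 - t) * rc
  have hsmall : ∀ (w : ballRing p) (u : K) (v : K), v ≠ 0 → (w : PadicAlgCl p) = σ (u / v) →
      ρ w = 0 → ‖σ u‖ < ‖σ v‖ := by
    intro w u v hv hw hw0
    rw [hρ, hw, map_div₀, norm_div, div_lt_one (norm_pos_iff.2 ((map_ne_zero σ).2 hv))] at hw0
    exact hw0
  rcases mul_eq_zero.1 hprod with h2 | h2
  · rcases mul_eq_zero.1 h2 with h3 | h3
    · have h4 : ρ a = 0 := by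
        have : ρ a * (-1 - t) = 0 := by linear_combination ra - h3
        exact (mul_eq_zero.1 this).resolve_right ht1
      have h5' := hsmall a _ _ hz ha h4
      refine wiefE (by omega) (by omega) hW hx hy hz h σ hσ ?_
      rw [hσ.1, hσ.2]
      exact h5'
    · have h4 : ρ b = 0 := by rw [rb]; exact h3
      have h5' := hsmall b _ _ hx hb h4
      refine wiefE (by omega) (by omega) hW hy hz hx h' σ ⟨hσ.2, (hσ.1.trans hσ.2).symm⟩ ?_
      rw [← hσ.1]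
      exact h5'
  · have h4 : ρ c = 0 := by
      have : ρ c * t = 0 := by linear_combination rc - h2
      exact (mul_eq_zero.1 this).resolve_right ht0
    have h5' := hsmall c _ _ hy hc h4
    refine wiefE (by omega) (by omega) hW hz hx hy h'' σ ⟨(hσ.1.trans hσ.2).symm, hσ.1⟩ ?_
    rw [← hσ.2]
    exact h5'

/-- exactly two balanced embeddings in a quadratic field -/
theorem case_two (h7 : 7 ≤ p) (hK : Module.finrank ℚ K = 2) {x y z : K} (hx : x ≠ 0)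
    (hy : y ≠ 0) (hz : z ≠ 0) (h : x ^ p + y ^ p + z ^ p = 0) (hW : ¬ p ^ 2 ∣ 2 ^ (p - 1) - 1)
    (g1 : Good p 2 K x y z) (g2 : Good p 2 K y z x) (hu : frst p x y z = 2)
    (hev : Even (frst 2 x y z)) :
    (frst 2 x y z = 2 ∧ ∀ σ : K →+* PadicAlgCl p, ‖σ (x ^ 2 + x * y + y ^ 2)‖ < ‖σ (x ^ 2)‖) ∨
    (frst 2 x y z = 0 ∧
      ((emb 2 x y = 1 ∧ emb 2 y z = 1 ∧
        ∀ σ : K →+* PadicAlgCl p, ‖σ (2 * x ^ 2 + x * y + 2 * y ^ 2)‖ < ‖σ (x ^ 2)‖) ∨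
      (emb 2 y z = 1 ∧ emb 2 z x = 1) ∨ (emb 2 z x = 1 ∧ emb 2 x y = 1))) := by
  classical
  have h5 : 5 ≤ p := by omega
  have hp0 : p ≠ 0 := by omega
  have h3m : 3 * Module.finrank ℚ K ≤ p := by rw [hK]; omega
  have h' : y ^ p + z ^ p + x ^ p = 0 := by rw [← h]; ring
  have tp := total (q := p) hp0 h
  have t2 := total (q := 2) hp0 h
  rw [hK, hu] at tp
  rw [hK] at t2
  obtain ⟨S, hS⟩ : ∃ S : Finset (K →+* PadicAlgCl p), S = Finset.univ.filter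
    (fun σ : K →+* PadicAlgCl p => ‖σ x‖ = ‖σ y‖ ∧ ‖σ y‖ = ‖σ z‖) := ⟨_, rfl⟩
  have hcard : S.card = 2 := by
    rw [← hu, hS]
    unfold frst
    rw [Nat.card_eq_fintype_card, Fintype.card_subtype]
  have huniv : S = Finset.univ := by
    rw [← Finset.card_eq_iff_eq_univ, hcard, NumberField.Embeddings.card, hK]
  have hall : ∀ σ : K →+* PadicAlgCl p, ‖σ x‖ = ‖σ y‖ ∧ ‖σ y‖ = ‖σ z‖ := by
    intro σ
    have : σ ∈ S := by
      rw [huniv]
      exact Finset.mem_univ σ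
    rw [hS] at this
    exact (Finset.mem_filter.1 this).2
  obtain ⟨k, _, _, ρ, hρ⟩ := exists_resid p
  choose t a b c ht0 ht1 ha hb hc ra rb rc r2 r1 using fun σ => resE hp0 hx hy hz h ρ hρ σ (hall σ)
  have s1 := sum_res h5 h3m hx hy hz h hW g1 ρ hρ a (fun σ _ => ha σ)
  have s2 := sum_res h5 h3m hy hz hx h' hW g2 ρ hρ b (fun σ _ => hb σ)
  obtain ⟨σ1, σ2, hne, hσ12⟩ := Finset.card_eq_two.1 hcard
  rw [← hS, hσ12, Finset.sum_pair hne] at s1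
  rw [filter_rot, ← hS, hσ12, Finset.sum_pair hne] at s2
  obtain ⟨d1, d2, -⟩ := diff_eq hp0 h 2
  obtain ⟨e1, e2, -⟩ := diff_eq hp0 h p
  have p1 : emb p x y = 0 := by omega
  have p2 : emb p y z = 0 := by omega
  have p3 : emb p z x = 0 := by omega
  rw [d1, e1, p1, p2] at s1
  rw [d2, e2, p2, p3] at s2
  have hboth : ∀ P : (K →+* PadicAlgCl p) → Prop, P σ1 → P σ2 → ∀ σ, P σ := by
    intro P h1 h2 σ
    have : σ ∈ S := by
      rw [huniv]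
      exact Finset.mem_univ σ
    rw [hσ12, Finset.mem_insert, Finset.mem_singleton] at this
    rcases this with h3 | h3
    · rw [h3]; exact h1
    · rw [h3]; exact h2
  -- the two relations
  rw [rb, rb] at s2
  have hs2 : 2 * (t σ1 + t σ2) = ((emb 2 y z : k) - emb 2 z x) - 2 := by
    push_cast at s2
    linear_combination s2
  have hs1 : ((emb 2 x y : k) - emb 2 y z) * ((-1 - t σ1) * (-1 - t σ2)) =
      2 * (t σ1 * t σ2) - 2 := by
    push_cast at s1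
    have h8 := ra σ1
    have h9 := ra σ2
    linear_combination (-((-1 - t σ1) * (-1 - t σ2))) * s1 + (-1 - t σ2) * h8 + (-1 - t σ1) * h9
  have h2k : (2 : k) ≠ 0 := by
    have h1 : ((2 : ℕ) : k) ≠ 0 := by
      rw [Ne, CharP.cast_eq_zero_iff k p]
      intro hd
      have := Nat.le_of_dvd (by norm_num) hd
      omega
    exact_mod_cast h1
  obtain ⟨α, hα⟩ : ∃ α, α = emb 2 x y := ⟨_, rfl⟩
  obtain ⟨β, hβ⟩ : ∃ β, β = emb 2 y z := ⟨_, rfl⟩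
  obtain ⟨γ, hγ⟩ : ∃ γ, γ = emb 2 z x := ⟨_, rfl⟩
  obtain ⟨δ, hδ⟩ : ∃ δ, δ = frst 2 x y z := ⟨_, rfl⟩
  rw [← hα, ← hβ, ← hγ, ← hδ] at t2
  rw [← hβ, ← hγ] at hs2
  rw [← hα, ← hβ] at hs1
  rw [← hδ] at hev
  rw [← hα, ← hβ, ← hγ, ← hδ]
  rw [Nat.even_iff] at hev
  have hcases : (δ = 2 ∧ α = 0 ∧ β = 0 ∧ γ = 0) ∨ (δ = 0 ∧ α = 2 ∧ β = 0 ∧ γ = 0) ∨
      (δ = 0 ∧ α = 0 ∧ β = 2 ∧ γ = 0) ∨ (δ = 0 ∧ α = 0 ∧ β = 0 ∧ γ = 2) ∨
      (δ = 0 ∧ α = 1 ∧ β = 1 ∧ γ = 0) ∨ (δ = 0 ∧ α = 1 ∧ β = 0 ∧ γ = 1) ∨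
      (δ = 0 ∧ α = 0 ∧ β = 1 ∧ γ = 1) := by omega
  have u1 := ht0 σ1
  have u2 := ht0 σ2
  have v1 := ht1 σ1
  have v2 := ht1 σ2
  obtain ⟨τ1, hτ1⟩ : ∃ τ, τ = t σ1 := ⟨_, rfl⟩
  obtain ⟨τ2, hτ2⟩ : ∃ τ, τ = t σ2 := ⟨_, rfl⟩
  rw [← hτ1, ← hτ2] at hs1 hs2
  rw [← hτ1] at u1 v1
  rw [← hτ2] at u2 v2
  rcases hcases with ⟨c0, c1, c2, c3⟩ | ⟨c0, c1, c2, c3⟩ | ⟨c0, c1, c2, c3⟩ | ⟨c0, c1, c2, c3⟩ |
    ⟨c0, c1, c2, c3⟩ | ⟨c0, c1, c2, c3⟩ | ⟨c0, c1, c2, c3⟩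
  · left
    refine ⟨c0, ?_⟩
    rw [c1, c2] at hs1
    rw [c2, c3] at hs2
    push_cast at hs1 hs2
    have k1 : 2 * (1 + τ1 + τ1 ^ 2) = 0 := by linear_combination τ1 * hs2 + hs1
    have k2 : 2 * (1 + τ2 + τ2 ^ 2) = 0 := by linear_combination τ2 * hs2 + hs1
    have k1' := (mul_eq_zero.1 k1).resolve_left h2k
    have k2' := (mul_eq_zero.1 k2).resolve_left h2k
    have key : ∀ σ, 1 + t σ + (t σ) ^ 2 = 0 → ‖σ (x ^ 2 + x * y + y ^ 2)‖ < ‖σ (x ^ 2)‖ := by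
      intro σ hσ
      have h8 := r2 σ 1 1 1 (by push_cast; linear_combination hσ)
      have e : ((1 : ℤ) : K) * x ^ 2 + ((1 : ℤ) : K) * (x * y) + ((1 : ℤ) : K) * y ^ 2 =
          x ^ 2 + x * y + y ^ 2 := by push_cast; ring
      rwa [e] at h8
    refine hboth _ (key σ1 ?_) (key σ2 ?_)
    · rw [← hτ1]
      exact k1'
    · rw [← hτ2]
      exact k2'
  · exfalso
    rw [c1, c2] at hs1
    rw [c2, c3] at hs2
    push_cast at hs1 hs2
    apply h2k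
    linear_combination hs1 - hs2
  · exfalso
    rw [c1, c2] at hs1
    rw [c2, c3] at hs2
    push_cast at hs1 hs2
    have k1 : 2 * (2 * (τ1 * τ2)) = 0 := by linear_combination -hs1 - hs2
    rcases mul_eq_zero.1 ((mul_eq_zero.1 ((mul_eq_zero.1 k1).resolve_left h2k)).resolve_left
      h2k) with h8 | h8
    · exact u1 h8
    · exact u2 h8
  · exfalso
    rw [c1, c2] at hs1
    rw [c2, c3] at hs2
    push_cast at hs1 hs2
    have k1 : 2 * ((-1 - τ1) * (-1 - τ2)) = 0 := by linear_combination hs2 - hs1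
    rcases mul_eq_zero.1 ((mul_eq_zero.1 k1).resolve_left h2k) with h8 | h8
    · exact v1 h8
    · exact v2 h8
  · right
    refine ⟨c0, Or.inl ⟨c1, c2, ?_⟩⟩
    rw [c1, c2] at hs1
    rw [c2, c3] at hs2
    push_cast at hs1 hs2
    have k1 : 2 + τ1 + 2 * τ1 ^ 2 = 0 := by linear_combination τ1 * hs2 + hs1
    have k2 : 2 + τ2 + 2 * τ2 ^ 2 = 0 := by linear_combination τ2 * hs2 + hs1
    have key : ∀ σ, 2 + t σ + 2 * (t σ) ^ 2 = 0 →
        ‖σ (2 * x ^ 2 + x * y + 2 * y ^ 2)‖ < ‖σ (x ^ 2)‖ := by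
      intro σ hσ
      have h8 := r2 σ 2 1 2 (by push_cast; linear_combination hσ)
      have e : ((2 : ℤ) : K) * x ^ 2 + ((1 : ℤ) : K) * (x * y) + ((2 : ℤ) : K) * y ^ 2 =
          2 * x ^ 2 + x * y + 2 * y ^ 2 := by push_cast; ring
      rwa [e] at h8
    refine hboth _ (key σ1 ?_) (key σ2 ?_)
    · rw [← hτ1]
      exact k1
    · rw [← hτ2]
      exact k2
  · right
    exact ⟨c0, Or.inr (Or.inr ⟨c3, c1⟩)⟩
  · right
    exact ⟨c0, Or.inr (Or.inl ⟨c2, c3⟩)⟩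

end

end Pool.Agent.V5helper55.FQ
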