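import Pool.Agent.V5helper55.FQ.Quad3
import Pool.Agent.V5helper55.FQ.Loc3
import Pool.Agent.Y546.WQ.FinQ

/-!
# Quadratic fields: the end
-/

set_option autoImplicit false

namespace Pool.Agent.V5helper55.FQ

open Pool.Agent.Y546.WQ Pool.Agent.Y941.WQ NumberField IsDedekindDomain

section

variable {p : ℕ} [Fact p.Prime] {K : Type} [Field K] [NumberField K]

/-- every prime above `p` comes from an embedding -/
theorem exists_emb (h3 : 3 ≤ p) (hmp : Module.finrank ℚ K < p) (v : HeightOneSpectrum (𝓞 K))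
    (hpv : ((p : ℕ) : 𝓞 K) ∈ v.asIdeal) : ∃ σ : K →+* PadicAlgCl p, PI σ = v.asIdeal := by
  have hpp : p.Prime := Fact.out
  obtain ⟨E, _, _, ⟨c⟩⟩ := Pool.Agent.Y978.WQ.main p (by omega)
  obtain ⟨N, _, _, i, hcard, -⟩ := Pool.Agent.Y258.WQ.mainDOWNG p E c K (by omega)
  obtain ⟨ιp⟩ : Nonempty (N →+* PadicAlgCl p) := inferInstance
  have h1 : Ideal.absNorm v.asIdeal ∣ Ideal.absNorm (Ideal.span {((p : ℕ) : 𝓞 K)}) :=
    Ideal.absNorm_dvd_absNorm_of_le ((Ideal.span_singleton_le_iff_mem _).2 hpv)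
  rw [Ideal.absNorm_span_natCast] at h1
  obtain ⟨f, -, hf⟩ := (Nat.dvd_prime_pow hpp).1 h1
  have hf0 : f ≠ 0 := by
    rintro rfl
    rw [pow_zero] at hf
    exact v.isPrime.ne_top (Ideal.absNorm_eq_one_iff.1 hf)
  have h2 := Pool.Agent.N840.FC.count_ge hcard hmp (PI ιp) (PI_prime ιp) (q_mem ιp) v 1 f
    (by rwa [pow_one]) hf
  obtain ⟨τ, hτ⟩ : (Pool.Agent.N840.FC.emb (K := K) (PI ιp) v.asIdeal).Nonempty := by
    rw [← Finset.card_pos]
    omega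
  rw [Pool.Agent.N840.FC.mem_emb] at hτ
  refine ⟨ιp.comp τ, ?_⟩
  rw [← hτ]
  ext W
  rw [Ideal.mem_comap, mem_PI, mem_PI]
  rfl

/-- the prime of a balanced embedding is balanced -/
theorem bal_val {x y z : K} (hx : x ≠ 0) (hy : y ≠ 0) (hz : z ≠ 0)
    (h : x ^ p + y ^ p + z ^ p = 0) (σ : K →+* PadicAlgCl p)
    (hσ : ‖σ x‖ = ‖σ y‖ ∧ ‖σ y‖ = ‖σ z‖) (v : HeightOneSpectrum (𝓞 K)) (hv : PI σ = v.asIdeal) :
    v.valuation K x = v.valuation K y ∧ v.valuation K y = v.valuation K z := by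
  have hpp : p.Prime := Fact.out
  have hp0 := hpp.ne_zero
  obtain ⟨a, X, Y, Z, ha, hXa, hYa, hZa, hX0, hY0, hZ0, hXYZ, hnp⟩ := prep2 hx hy hz h p hp0
    ⟨p, Nat.mem_primeFactors.2 ⟨hpp, dvd_refl _, hp0⟩⟩
  have hk := (keyE hp0 σ ha hXa hYa hZa hXYZ (hnp _ (PI_prime _) (q_mem _))).2.2.2 hσ
  exact val_of_bal (p := p) hp0 ha hXa hYa hZa σ hk v hv.symm

theorem good_of_q {q : ℕ} {x y z : K}
    (h2 : ∀ v : HeightOneSpectrum (𝓞 K), ((q : ℕ) : 𝓞 K) ∈ v.asIdeal →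
      Nat.card (𝓞 K ⧸ v.asIdeal) ≤ 4 ∨ (¬ p ∣ Nat.card (𝓞 K ⧸ v.asIdeal) - 1 ∧
        ¬ (v.valuation K x = v.valuation K y ∧ v.valuation K y = v.valuation K z)))
    (h : x ^ p + y ^ p + z ^ p = 0) : Good p q K x y z := by
  have hpp : p.Prime := Fact.out
  intro v hv
  rcases h2 v hv with h3 | ⟨h3, h4⟩
  · exact Or.inl h3
  · by_cases h5 : v.valuation K x = v.valuation K y
    · refine Or.inr (Or.inr (Or.inl ⟨?_, h3⟩))
      have h6 : v.valuation K z ≤ v.valuation K x := by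
        have e : z ^ p = -(x ^ p + y ^ p) := by linear_combination h
        have h7 : v.valuation K (z ^ p) ≤ v.valuation K (x ^ p) := by
          rw [e, Valuation.map_neg]
          refine (Valuation.map_add _ _ _).trans ?_
          rw [map_pow, map_pow, h5, max_self]
        rw [map_pow, map_pow] at h7
        exact (pow_le_pow_iff_left₀ zero_le' zero_le' hpp.ne_zero).1 h7
      refine lt_of_le_of_ne h6 fun h7 => h4 ⟨h5, ?_⟩
      rw [← h5, h7]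
    · exact Or.inr (Or.inl h5)

theorem good_rot {q : ℕ} {x y z : K}
    (h2 : ∀ v : HeightOneSpectrum (𝓞 K), ((q : ℕ) : 𝓞 K) ∈ v.asIdeal →
      Nat.card (𝓞 K ⧸ v.asIdeal) ≤ 4 ∨ (¬ p ∣ Nat.card (𝓞 K ⧸ v.asIdeal) - 1 ∧
        ¬ (v.valuation K x = v.valuation K y ∧ v.valuation K y = v.valuation K z))) :
    ∀ v : HeightOneSpectrum (𝓞 K), ((q : ℕ) : 𝓞 K) ∈ v.asIdeal →
      Nat.card (𝓞 K ⧸ v.asIdeal) ≤ 4 ∨ (¬ p ∣ Nat.card (𝓞 K ⧸ v.asIdeal) - 1 ∧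
        ¬ (v.valuation K y = v.valuation K z ∧ v.valuation K z = v.valuation K x)) := by
  intro v hv
  rcases h2 v hv with h3 | ⟨h3, h4⟩
  · exact Or.inl h3
  · exact Or.inr ⟨h3, fun h5 => h4 ⟨(h5.1.trans h5.2).symm, h5.1⟩⟩

theorem norm_le_four (hK : Module.finrank ℚ K = 2) (v : HeightOneSpectrum (𝓞 K))
    (hv : ((2 : ℕ) : 𝓞 K) ∈ v.asIdeal) : Nat.card (𝓞 K ⧸ v.asIdeal) ≤ 4 := by
  have h1 : Ideal.absNorm v.asIdeal ∣ Ideal.absNorm (Ideal.span {((2 : ℕ) : 𝓞 K)}) :=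
    Ideal.absNorm_dvd_absNorm_of_le ((Ideal.span_singleton_le_iff_mem _).2 hv)
  rw [Ideal.absNorm_span_natCast, RingOfIntegers.rank, hK] at h1
  exact Nat.le_of_dvd (by norm_num) h1

/-- the types at a further prime number, quadratic fields -/
theorem quad_q (h7 : 7 ≤ p) (hK : Module.finrank ℚ K = 2) {x y z : K} (hx : x ≠ 0)
    (hy : y ≠ 0) (hz : z ≠ 0) (h : x ^ p + y ^ p + z ^ p = 0) (hW : ¬ p ^ 2 ∣ 2 ^ (p - 1) - 1)
    (q : ℕ) [Fact q.Prime] (hqp : q ≠ p) (hWq : ¬ p ^ 2 ∣ q ^ (p - 1) - 1)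
    (hq : ∀ v : HeightOneSpectrum (𝓞 K), ((q : ℕ) : 𝓞 K) ∈ v.asIdeal →
      Nat.card (𝓞 K ⧸ v.asIdeal) ≤ 4 ∨ (¬ p ∣ Nat.card (𝓞 K ⧸ v.asIdeal) - 1 ∧
        ¬ (v.valuation K x = v.valuation K y ∧ v.valuation K y = v.valuation K z))) :
    emb q x y = emb 2 x y ∧ emb q y z = emb 2 y z ∧ emb q z x = emb 2 z x ∧
      frst q x y z = frst 2 x y z := by
  have h5 : 5 ≤ p := by omega
  have hp0 : p ≠ 0 := by omega
  have h3m : 3 * Module.finrank ℚ K ≤ p := by rw [hK]; omega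
  have h' : y ^ p + z ^ p + x ^ p = 0 := by rw [← h]; ring
  have h2 : ∀ v : HeightOneSpectrum (𝓞 K), ((2 : ℕ) : 𝓞 K) ∈ v.asIdeal →
      Nat.card (𝓞 K ⧸ v.asIdeal) ≤ 4 ∨ (¬ p ∣ Nat.card (𝓞 K ⧸ v.asIdeal) - 1 ∧
        ¬ (v.valuation K x = v.valuation K y ∧ v.valuation K y = v.valuation K z)) :=
    fun v hv => Or.inl (norm_le_four hK v hv)
  have a1 := typesEq h5 h3m hx hy hz h q 2 hqp hWq (good_of_q hq h) (by omega) hW
    (good_of_q h2 h)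
  have a2 := typesEq h5 h3m hy hz hx h' q 2 hqp hWq (good_of_q (good_rot hq) h') (by omega) hW
    (good_of_q (good_rot h2) h')
  have t1 := total (q := q) hp0 h
  have t2 := total (q := 2) hp0 h
  obtain ⟨d1, d2, -⟩ := diff_eq hp0 h 2
  obtain ⟨e1, e2, -⟩ := diff_eq hp0 h q
  rw [d1, e1] at a1
  rw [d2, e2] at a2
  rw [hK] at t1 t2
  omega

/-- the three cases, quadratic fields -/
theorem quad_main (h7 : 7 ≤ p) (hK : Module.finrank ℚ K = 2) {x y z : K} (hx : x ≠ 0)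
    (hy : y ≠ 0) (hz : z ≠ 0) (h : x ^ p + y ^ p + z ^ p = 0) (hW : ¬ p ^ 2 ∣ 2 ^ (p - 1) - 1) :
    (frst p x y z = 0 ∧ frst 2 x y z = 0 ∧ emb p x y = emb 2 x y ∧ emb p y z = emb 2 y z ∧
      emb p z x = emb 2 z x) ∨
    (frst p x y z = 2 ∧ frst 2 x y z = 2 ∧
      ∀ σ : K →+* PadicAlgCl p, ‖σ (x ^ 2 + x * y + y ^ 2)‖ < ‖σ (x ^ 2)‖) ∨
    (frst p x y z = 2 ∧ frst 2 x y z = 0 ∧
      ((emb 2 x y = 1 ∧ emb 2 y z = 1 ∧
        ∀ σ : K →+* PadicAlgCl p, ‖σ (2 * x ^ 2 + x * y + 2 * y ^ 2)‖ < ‖σ (x ^ 2)‖) ∨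
      (emb 2 y z = 1 ∧ emb 2 z x = 1 ∧
        ∀ σ : K →+* PadicAlgCl p, ‖σ (2 * y ^ 2 + y * z + 2 * z ^ 2)‖ < ‖σ (y ^ 2)‖) ∨
      (emb 2 z x = 1 ∧ emb 2 x y = 1 ∧
        ∀ σ : K →+* PadicAlgCl p, ‖σ (2 * z ^ 2 + z * x + 2 * x ^ 2)‖ < ‖σ (z ^ 2)‖))) := by
  have h5 : 5 ≤ p := by omega
  have hp0 : p ≠ 0 := by omega
  have h3m : 3 * Module.finrank ℚ K ≤ p := by rw [hK]; omega
  have h' : y ^ p + z ^ p + x ^ p = 0 := by rw [← h]; ring
  have h'' : z ^ p + x ^ p + y ^ p = 0 := by rw [← h]; ring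
  have h2 : ∀ v : HeightOneSpectrum (𝓞 K), ((2 : ℕ) : 𝓞 K) ∈ v.asIdeal →
      Nat.card (𝓞 K ⧸ v.asIdeal) ≤ 4 ∨ (¬ p ∣ Nat.card (𝓞 K ⧸ v.asIdeal) - 1 ∧
        ¬ (v.valuation K x = v.valuation K y ∧ v.valuation K y = v.valuation K z)) :=
    fun v hv => Or.inl (norm_le_four hK v hv)
  have g1 := good_of_q h2 h
  have g2 := good_of_q (good_rot h2) h'
  have g3 := good_of_q (good_rot (good_rot h2)) h''
  have hev := even_two h5 h3m hx hy hz h g1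
  have tp := total (q := p) hp0 h
  have t2 := total (q := 2) hp0 h
  rw [hK] at tp t2
  have hne1 := case_one h5 h3m hx hy hz h hW g1 g2 g3
  have hu : frst p x y z = 0 ∨ frst p x y z = 2 := by omega
  rcases hu with hu | hu
  · left
    obtain ⟨b1, b2, b3⟩ := mainQ2 h5 h3m 2 (by omega) hW hx hy hz h g1 g2
      (by rw [hu]; exact RegC_zero (by omega))
    rw [hu] at b1 b2 b3 tp
    rw [Nat.even_iff] at hev
    omega
  · right
    have c1 := case_two h7 hK hx hy hz h hW g1 g2 hu hev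
    have c2 := case_two h7 hK hy hz hx h' hW g2 g3 (by rw [frst_rot]; exact hu)
      (by rw [frst_rot]; exact hev)
    have c3 := case_two h7 hK hz hx hy h'' hW g3 g1 (by rw [frst_rot, frst_rot]; exact hu)
      (by rw [frst_rot, frst_rot]; exact hev)
    rw [frst_rot] at c2
    rw [frst_rot, frst_rot] at c3
    rcases c1 with c1 | ⟨h0, c1⟩
    · left
      exact ⟨hu, c1⟩
    · right
      refine ⟨hu, h0, ?_⟩
      rw [h0] at t2
      rcases c1 with c1 | c1 | c1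
      · left
        exact c1
      · right; left
        rcases c2 with ⟨c2, -⟩ | ⟨-, c2 | c2 | c2⟩
        · omega
        · exact c2
        · omega
        · omega
      · right; right
        rcases c3 with ⟨c3, -⟩ | ⟨-, c3 | c3 | c3⟩
        · omega
        · exact c3
        · omega
        · omega

/-- under the conditions on the discriminant only the first case occurs -/
theorem quad_disc (h7 : 7 ≤ p) (hK : Module.finrank ℚ K = 2) {x y z : K} (hx : x ≠ 0)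
    (hy : y ≠ 0) (hz : z ≠ 0) (h : x ^ p + y ^ p + z ^ p = 0) (hW : ¬ p ^ 2 ∣ 2 ^ (p - 1) - 1)
    (hd : Even (NumberField.discr K) ∨
      (NumberField.discr K % 8 = 1 ∧ (p - 3 ∉ irr p ∨
        ¬ ∃ s : ZMod p, s ≠ 0 ∧ s ^ 2 = -15 * (NumberField.discr K : ZMod p))) ∨
      (NumberField.discr K % 8 = 5 ∧
        ¬ ∃ s : ZMod p, s ≠ 0 ∧ s ^ 2 = -3 * (NumberField.discr K : ZMod p)))
    : frst p x y z ≠ 2 := by
  classical
  intro hu
  have hpp : p.Prime := Fact.out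
  have hp0 := hpp.ne_zero
  refine mainQ hpp h7 hW hK hd hx hy hz h fun v hv => ?_
  have hcard : Nat.card {σ : K →+* PadicAlgCl p // ‖σ x‖ = ‖σ y‖ ∧ ‖σ y‖ = ‖σ z‖} =
      Nat.card (K →+* PadicAlgCl p) := by
    have h1 : frst p x y z = Nat.card (K →+* PadicAlgCl p) := by
      rw [hu, Nat.card_eq_fintype_card, NumberField.Embeddings.card, hK]
    exact h1
  have hall : ∀ σ : K →+* PadicAlgCl p, ‖σ x‖ = ‖σ y‖ ∧ ‖σ y‖ = ‖σ z‖ := by
    intro σ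
    rw [Nat.card_eq_fintype_card, Nat.card_eq_fintype_card, Fintype.card_subtype,
      ← Finset.card_univ] at hcard
    have h1 := (Finset.card_eq_iff_eq_univ _).1 (hcard.trans Finset.card_univ)
    have h2 := Finset.mem_univ σ
    rw [← h1] at h2
    exact (Finset.mem_filter.1 h2).2
  obtain ⟨σ, hσ⟩ := exists_emb (by omega) (by omega) v hv
  exact bal_val hx hy hz h σ (hall σ) v hσ

end

end Pool.Agent.V5helper55.FQ
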