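import Pool.Agent.Y546.WQ.All

/-!
# The Stickelberger relations modulo a prime number `q ≠ p`
-/

set_option autoImplicit false

namespace Pool.Agent.V5helper55.FQ

open Pool.Agent.Y546.WQ NumberField IsDedekindDomain Polynomial

section

variable {p : ℕ} [Fact p.Prime] {E : Type} [Field E] [NumberField E]

/-- the exponents of the conjugates -/
def ex (t : (ZMod p)ˣ) : ℕ := ((t⁻¹ : (ZMod p)ˣ) : ZMod p).val

/-- the relation in a quotient field of characteristic `q` -/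
theorem rel_F (a : ℕ) (c : Cyc p E) (q : ℕ) (hq : q.Prime)
    (f : Polynomial ℤ) (n : ℤ) (hn : ¬ (q : ℤ) ∣ n)
    (hP : ∀ P : Ideal (𝓞 E), P.IsPrime → ((q : ℕ) : 𝓞 E) ∈ P →
      ∀ w : 𝓞 E, (w : E) = aeval c.z f → w ∉ P)
    (g : E) (i : ℕ) (hrel : tha c a (aeval c.z f / (n : E)) = c.z ^ i * g ^ p)
    (zO : 𝓞 E) (hz : (zO : E) = c.z) {F : Type} [Field F] (h2 : ((q : ℕ) : F) = 0)
    (ψ : 𝓞 E →+* F) :
    ∃ d : F, d ≠ 0 ∧ ∏ t ∈ hf p a, f.eval₂ (Int.castRingHom F) (ψ zO ^ ex t) =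
      (n : F) ^ (hf p a).card * (ψ zO ^ i * d ^ p) := by
  have hpp : p.Prime := Fact.out
  have hp0 : p ≠ 0 := hpp.ne_zero
  have hzp : zO ^ p = 1 := by
    apply RingOfIntegers.coe_injective
    show (algebraMap (𝓞 E) E) _ = (algebraMap (𝓞 E) E) _
    have e2 : (algebraMap (𝓞 E) E) zO = c.z := hz
    rw [map_pow, map_one, e2, c.prim.pow_eq_one]
  have hw0 : ψ zO ≠ 0 := by
    intro h
    have h1 := congrArg ψ hzp
    rw [map_pow, h, zero_pow hp0, map_one] at h1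
    exact zero_ne_one h1
  have h2k : ((q : ℕ) : 𝓞 E) ∈ RingHom.ker ψ := by
    rw [RingHom.mem_ker, map_natCast]
    exact h2
  have hkb : RingHom.ker ψ ≠ ⊥ := by
    intro h
    rw [h, Ideal.mem_bot] at h2k
    have : q = 0 := by exact_mod_cast h2k
    exact hq.ne_zero this
  let v : HeightOneSpectrum (𝓞 E) := ⟨RingHom.ker ψ, RingHom.ker_isPrime ψ, hkb⟩
  have hab : ∃ al be : 𝓞 E, ¬ (ψ al = 0 ∧ ψ be = 0) ∧ g * (be : E) = (al : E) := by
    obtain ⟨x, d, h | h⟩ := v.exists_primeCompl_mul_eq_or_mul_eq g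
    · refine ⟨x, d, fun hh => ?_, h⟩
      exact d.2 hh.2
    · refine ⟨d, x, fun hh => ?_, h⟩
      exact d.2 hh.1
  obtain ⟨al, be, h0, hgab⟩ := hab
  have hn0 : (n : E) ≠ 0 := by
    intro h
    have h1 : n = 0 := by exact_mod_cast h
    rw [h1] at hn
    exact hn (dvd_zero _)
  have hae : ∀ k : ℕ, algebraMap (𝓞 E) E (aeval (zO ^ k) f) = aeval (c.z ^ k) f := by
    intro k
    rw [← Polynomial.aeval_algebraMap_apply, map_pow]
    rw [show algebraMap (𝓞 E) E zO = c.z from hz]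
  have hsig : ∀ t : (ZMod p)ˣ, c.σ t (aeval c.z f) = aeval (c.z ^ (t : ZMod p).val) f := by
    intro t
    have e1 := Polynomial.map_aeval_eq_aeval_map (φ := Int.castRingHom ℤ)
      (ψ := ((c.σ t : E ≃ₐ[ℚ] E) : E →+* E)) (RingHom.ext_int _ _) f c.z
    rw [show (Int.castRingHom ℤ) = RingHom.id ℤ from rfl, Polynomial.map_id] at e1
    rw [← c.σ_z t]
    exact e1
  have hR : (∏ t ∈ hf p a, aeval (zO ^ ex t) f) * be ^ p =
      (n : 𝓞 E) ^ (hf p a).card * (zO ^ i * al ^ p) := by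
    apply RingOfIntegers.coe_injective
    have e1 : tha c a (aeval c.z f / (n : E)) =
        (∏ t ∈ hf p a, aeval (c.z ^ ex t) f) / (n : E) ^ (hf p a).card := by
      unfold tha
      rw [← Finset.prod_const, ← Finset.prod_div_distrib]
      refine Finset.prod_congr rfl fun t _ => ?_
      rw [map_div₀, map_intCast, hsig]
      rfl
    rw [e1, div_eq_iff (pow_ne_zero _ hn0)] at hrel
    show (algebraMap (𝓞 E) E) _ = (algebraMap (𝓞 E) E) _
    have e2 : (algebraMap (𝓞 E) E) zO = c.z := hz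
    simp only [map_mul, map_pow, map_prod, map_intCast, e2, hae]
    rw [hrel]
    have e3 : (algebraMap (𝓞 E) E) al = g * (algebraMap (𝓞 E) E) be := hgab.symm
    rw [e3, mul_pow]
    ring
  have hRF := congrArg ψ hR
  have hnF : ((n : ℤ) : F) ≠ 0 := by
    have h1 := int_notMem (RingHom.ker ψ) (RingHom.ker_isPrime ψ) q hq h2k n hn
    rw [RingHom.mem_ker, map_intCast] at h1
    exact h1
  have hψ : ∀ x : 𝓞 E, ψ (aeval x f) = f.eval₂ (Int.castRingHom F) (ψ x) := by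
    intro x
    rw [Polynomial.aeval_def, Polynomial.hom_eval₂]
    congr 1
    exact RingHom.ext_int _ _
  simp only [map_mul, map_pow, map_prod, map_intCast, hψ] at hRF
  -- the product is not zero
  have hne : ∏ t ∈ hf p a, f.eval₂ (Int.castRingHom F) (ψ zO ^ ex t) ≠ 0 := by
    refine Finset.prod_ne_zero_iff.2 fun t _ hh => ?_
    have e1 : rs c t⁻¹ (aeval zO f) = aeval (zO ^ ex t) f := by
      apply RingOfIntegers.coe_injective
      have e2 : ((rs c t⁻¹ (aeval zO f) : 𝓞 E) : E) = c.σ t⁻¹ ((aeval zO f : 𝓞 E) : E) := rfl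
      refine e2.trans ?_
      have e3 := hae 1
      rw [pow_one, pow_one] at e3
      have e4 : ((aeval zO f : 𝓞 E) : E) = aeval c.z f := e3
      rw [e4, hsig]
      exact (hae _).symm
    have e5 : ψ (rs c t⁻¹ (aeval zO f)) = 0 := by
      rw [e1, hψ, map_pow]
      exact hh
    refine hP (RingHom.ker (ψ.comp (rs c t⁻¹ : 𝓞 E →+* 𝓞 E))) (RingHom.ker_isPrime _) ?_
      (aeval zO f) ?_ ?_
    · rw [RingHom.mem_ker, map_natCast]
      exact h2
    · have e3 := hae 1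
      rw [pow_one, pow_one] at e3
      exact e3
    · rw [RingHom.mem_ker]
      exact e5
  have hbe : ψ be ≠ 0 := by
    intro h
    rw [h, zero_pow hp0, mul_zero] at hRF
    have h1 := (mul_eq_zero.1 hRF.symm).resolve_left (pow_ne_zero _ hnF)
    have h1 : ψ al ^ p = 0 := (mul_eq_zero.1 h1).resolve_left (pow_ne_zero _ hw0)
    exact h0 ⟨pow_eq_zero_iff hp0 |>.1 h1, h⟩
  have hal : ψ al ≠ 0 := by
    intro h
    rw [h, zero_pow hp0, mul_zero, mul_zero] at hRF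
    have h1 : ψ be ^ p = 0 := (mul_eq_zero.1 hRF).resolve_left hne
    exact h0 ⟨h, pow_eq_zero_iff hp0 |>.1 h1⟩
  refine ⟨ψ al / ψ be, div_ne_zero hal hbe, ?_⟩
  rw [div_pow, ← mul_div_assoc, ← mul_div_assoc, eq_div_iff (pow_ne_zero _ hbe)]
  exact hRF

/-- **The Stickelberger relation modulo `q`.** -/
theorem relR (hp2 : p ≠ 2) (a : ℕ) (c : Cyc p E) (q : ℕ) (hq : q.Prime) (hqp : q ≠ p)
    (f : Polynomial ℤ) (n : ℤ) (hn : ¬ (q : ℤ) ∣ n) (b b' : ℕ) (s : ℤ) (hs : s = 1 ∨ s = -1)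
    (M : Ideal (𝓞 E)) (hMp : M.IsPrime) (hqM : ((q : ℕ) : 𝓞 E) ∈ M)
    (hval : ∀ y y' : 𝓞 E ⧸ M, y ^ p = 1 → y ≠ 1 → y * y' = 1 →
      y ^ b * f.eval₂ (Int.castRingHom (𝓞 E ⧸ M)) y =
        s * (y ^ b' * f.eval₂ (Int.castRingHom (𝓞 E ⧸ M)) y'))
    (hP : ∀ P : Ideal (𝓞 E), P.IsPrime → ((q : ℕ) : 𝓞 E) ∈ P →
      ∀ w : 𝓞 E, (w : E) = aeval c.z f → w ∉ P)
    (g : E) (i : ℕ) (hrel : tha c a (aeval c.z f / (n : E)) = c.z ^ i * g ^ p) :
    2 * (i : ZMod p) = ((b' : ZMod p) - b) * hsa p a 1 ∨ p ^ 2 ∣ q ^ (p - 1) - 1 := by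
  have hpp : p.Prime := Fact.out
  have hp1 := hpp.one_lt
  have hodd : Odd p := hpp.odd_of_ne_two hp2
  have hMbot : M ≠ ⊥ := by
    rintro rfl
    rw [Ideal.mem_bot] at hqM
    have : q = 0 := by exact_mod_cast hqM
    exact hq.ne_zero this
  have := hMp
  have hM : M.IsMaximal := hMp.isMaximal hMbot
  let _ : Field (𝓞 E ⧸ M) := Ideal.Quotient.field M
  let φ : 𝓞 E →+* (𝓞 E ⧸ M) := Ideal.Quotient.mk M
  have hqF : ((q : ℕ) : 𝓞 E ⧸ M) = 0 := by
    have : φ ((q : ℕ) : 𝓞 E) = 0 := Ideal.Quotient.eq_zero_iff_mem.2 hqM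
    rwa [map_natCast] at this
  have hchar : CharP (𝓞 E ⧸ M) q := charP_quot M hMp q hq hqM
  have hfactq : Fact (Nat.Prime q) := ⟨hq⟩
  -- the root of unity as an integer
  let zO : 𝓞 E := ⟨c.z, c.prim.isIntegral hpp.pos⟩
  have hzO : (zO : E) = c.z := rfl
  have hzprim : IsPrimitiveRoot zO p :=
    IsPrimitiveRoot.of_map_of_injective (f := algebraMap (𝓞 E) E) c.prim
      (RingOfIntegers.coe_injective)
  obtain ⟨w, hwdef⟩ : ∃ w : 𝓞 E ⧸ M, w = φ zO := ⟨_, rfl⟩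
  have hw : w ^ p = 1 := by rw [hwdef, ← map_pow, hzprim.pow_eq_one, map_one]
  have hw0 : w ≠ 0 := by
    intro h
    rw [h, zero_pow hpp.ne_zero] at hw
    exact zero_ne_one hw
  have hpF : ((p : ℕ) : 𝓞 E ⧸ M) ≠ 0 := by
    rw [Ne, CharP.cast_eq_zero_iff (𝓞 E ⧸ M) q]
    intro hd
    exact hqp ((Nat.prime_dvd_prime_iff_eq hq hpp).1 hd)
  have hw1 : w ≠ 1 := by
    intro h
    have h1 := hzprim.geom_sum_eq_zero hpp.one_lt
    have h3 := congrArg φ h1
    rw [map_sum, map_zero] at h3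
    have h4 : ∀ j ∈ Finset.range p, φ (zO ^ j) = 1 := by
      intro j _
      rw [map_pow, ← hwdef, h, one_pow]
    rw [Finset.sum_congr rfl h4, Finset.sum_const, Finset.card_range, nsmul_one] at h3
    exact hpF h3
  have hwprim : IsPrimitiveRoot w p := by
    have h1 := IsPrimitiveRoot.orderOf w
    rwa [orderOf_eq_prime hw hw1] at h1
  -- the Frobenius
  have hF : ∀ x : 𝓞 E ⧸ M, x ^ q ^ (p - 1) = x := by
    intro x
    obtain ⟨y, rfl⟩ := Ideal.Quotient.mk_surjective x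
    obtain ⟨f, hf⟩ := c.gen (y : E) y.2
    have h1 : y = Polynomial.aeval zO f := by
      apply RingOfIntegers.coe_injective
      have := Polynomial.aeval_algebraMap_apply E zO f
      exact hf.trans this
    have h3 : ∀ ψ : 𝓞 E →+* (𝓞 E ⧸ M), ψ (Polynomial.aeval zO f) =
        Polynomial.eval₂ (Int.castRingHom _) (ψ zO) f := by
      intro ψ
      rw [Polynomial.aeval_def, Polynomial.hom_eval₂]
      congr 1
      exact RingHom.ext_int _ _
    have h4 := h3 φ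
    have h5 := h3 ((iterateFrobenius (𝓞 E ⧸ M) q (p - 1)).comp φ)
    rw [RingHom.comp_apply, RingHom.comp_apply, iterateFrobenius_def, iterateFrobenius_def] at h5
    have h6 : (φ zO) ^ q ^ (p - 1) = φ zO := by
      have e1 : q ^ (p - 1) % p = 1 := by
        have e2 : ((q ^ (p - 1) : ℕ) : ZMod p) = ((1 : ℕ) : ZMod p) := by
          push_cast
          refine ZMod.pow_card_sub_one_eq_one ?_
          rw [Ne, ZMod.natCast_eq_zero_iff]
          intro hd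
          exact hqp ((Nat.prime_dvd_prime_iff_eq hpp hq).1 hd).symm
        rw [ZMod.natCast_eq_natCast_iff] at e2
        have e3 : q ^ (p - 1) % p = 1 % p := e2
        rw [e3, Nat.mod_eq_of_lt hpp.one_lt]
      rw [← hwdef, pow_eq_pow_mod _ hw, e1, pow_one]
    rw [h6, ← h4] at h5
    have h7 : Ideal.Quotient.mk M y = φ (Polynomial.aeval zO f) := by rw [← h1]
    rw [h7]
    exact h5
  -- the two relations
  obtain ⟨d1, hd1, hr1⟩ := rel_F a c q hq f n hn hP g i hrel zO hzO hqF φ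
  obtain ⟨d2, hd2, hr2⟩ := rel_F a c q hq f n hn hP g i hrel zO hzO hqF
    (φ.comp (rs c (-1) : 𝓞 E →+* 𝓞 E))
  have hw' : (φ.comp (rs c (-1) : 𝓞 E →+* 𝓞 E)) zO = w⁻¹ := by
    have e1 : rs c (-1) zO = zO ^ ((-1 : (ZMod p)ˣ) : ZMod p).val := by
      apply RingOfIntegers.coe_injective
      have e2 : ((rs c (-1) zO : 𝓞 E) : E) = c.σ (-1) ((zO : 𝓞 E) : E) := rfl
      refine e2.trans ?_
      rw [hzO, c.σ_z]
      rfl
    have e3 : (φ.comp (rs c (-1) : 𝓞 E →+* 𝓞 E)) zO = φ (rs c (-1) zO) := rfl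
    rw [e3, e1, map_pow, Units.val_neg, Units.val_one]
    apply eq_inv_of_mul_eq_one_left
    rw [← hwdef, ← pow_succ]
    have e4 : (-1 : ZMod p).val + 1 = p := by
      rw [ZMod.neg_val, if_neg one_ne_zero]
      have : Fact (1 < p) := ⟨hp1⟩
      rw [ZMod.val_one]
      omega
    rw [e4, hw]
  rw [hw'] at hr2
  rw [← hwdef] at hr1
  have hnF : ((n : ℤ) : 𝓞 E ⧸ M) ≠ 0 := by
    have h1 := int_notMem M hMp q hq hqM n hn
    rw [← Ideal.Quotient.eq_zero_iff_mem, map_intCast] at h1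
    exact h1
  obtain ⟨S, hS⟩ : ∃ S : ℕ, S = ∑ t ∈ hf p a, ex t := ⟨_, rfl⟩
  have hSc : ((S : ℕ) : ZMod p) = hsa p a 1 := by
    rw [hS]
    unfold hsa ex
    push_cast
    refine Finset.sum_congr rfl fun t _ => ?_
    rw [ZMod.natCast_val, ZMod.cast_id', id, pow_one]
  have hs2 : ((s : ℤ) : 𝓞 E ⧸ M) ^ 2 = 1 := by
    rcases hs with rfl | rfl
    · simp
    · simp
  have hprod : w ^ (b * S) * (w ^ i * d1 ^ p) =
      ((s : ℤ) : 𝓞 E ⧸ M) ^ (hf p a).card * (w ^ (b' * S) * ((w⁻¹) ^ i * d2 ^ p)) := by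
    have h1 : (∏ t ∈ hf p a, (w ^ ex t) ^ b) = w ^ (b * S) := by
      rw [hS, Finset.mul_sum, ← Finset.prod_pow_eq_pow_sum]
      refine Finset.prod_congr rfl fun t _ => ?_
      rw [← pow_mul, mul_comm]
    have h2 : (∏ t ∈ hf p a, (w ^ ex t) ^ b') = w ^ (b' * S) := by
      rw [hS, Finset.mul_sum, ← Finset.prod_pow_eq_pow_sum]
      refine Finset.prod_congr rfl fun t _ => ?_
      rw [← pow_mul, mul_comm]
    have h3 : w ^ (b * S) * (∏ t ∈ hf p a, f.eval₂ (Int.castRingHom (𝓞 E ⧸ M)) (w ^ ex t)) =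
        ((s : ℤ) : 𝓞 E ⧸ M) ^ (hf p a).card * (w ^ (b' * S) *
          ∏ t ∈ hf p a, f.eval₂ (Int.castRingHom (𝓞 E ⧸ M)) (w⁻¹ ^ ex t)) := by
      rw [← h1, ← h2, ← Finset.prod_const, ← Finset.prod_mul_distrib, ← Finset.prod_mul_distrib,
        ← Finset.prod_mul_distrib]
      refine Finset.prod_congr rfl fun t _ => ?_
      rw [inv_pow]
      refine hval (w ^ ex t) _ ?_ ?_ (mul_inv_cancel₀ (pow_ne_zero _ hw0))
      · rw [← pow_mul, mul_comm, pow_mul, hw, one_pow]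
      · intro h4
        have h5 := (hwprim.pow_eq_one_iff_dvd _).1 h4
        have h6 : ex t < p := ZMod.val_lt _
        have h7 : ex t ≠ 0 := by
          intro h8
          unfold ex at h8
          rw [ZMod.val_eq_zero] at h8
          exact Units.ne_zero _ h8
        have := Nat.le_of_dvd (by omega) h5
        omega
    rw [hr1, hr2] at h3
    have h4 : ((n : ℤ) : 𝓞 E ⧸ M) ^ (hf p a).card ≠ 0 := pow_ne_zero _ hnF
    apply mul_left_cancel₀ h4
    linear_combination h3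
  -- a power of `w` is a `p`-th power
  by_cases hcase : 2 * (i : ZMod p) = ((b' : ZMod p) - b) * hsa p a 1
  · exact Or.inl hcase
  right
  obtain ⟨k, hk⟩ : ∃ k : ℕ, ((k : ℕ) : ZMod p) = 2 * (i : ZMod p) - ((b' : ZMod p) - b) * hsa p a 1 :=
    ⟨(2 * (i : ZMod p) - ((b' : ZMod p) - b) * hsa p a 1).val, by
      rw [ZMod.natCast_val, ZMod.cast_id', id]⟩
  have hk0 : ((k : ℕ) : ZMod p) ≠ 0 := by
    rw [hk]
    exact sub_ne_zero.2 hcase
  obtain ⟨v, hv⟩ : ∃ v : 𝓞 E ⧸ M, w ^ k = v ^ p := by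
    refine ⟨((s : ℤ) : 𝓞 E ⧸ M) ^ (hf p a).card * d2 / d1, ?_⟩
    have h0 : ∀ x : 𝓞 E ⧸ M, x ^ 2 = 1 → x ^ p = x := by
      intro x hx
      obtain ⟨u, hu⟩ := hodd
      rw [hu, pow_succ, pow_mul, hx, one_pow, one_mul]
    have h1 : (((s : ℤ) : 𝓞 E ⧸ M) ^ (hf p a).card) ^ p =
        ((s : ℤ) : 𝓞 E ⧸ M) ^ (hf p a).card := by
      apply h0
      rw [← pow_mul, mul_comm, pow_mul, hs2, one_pow]
    have h2 : w ^ (b' * S) * w ^ k = w ^ (b * S + 2 * i) := by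
      rw [← pow_add, pow_eq_pow_mod _ hw, pow_eq_pow_mod (b * S + 2 * i) hw]
      congr 1
      have e1 : ((b' * S + k : ℕ) : ZMod p) = ((b * S + 2 * i : ℕ) : ZMod p) := by
        push_cast
        rw [hk, hSc]
        ring
      rw [ZMod.natCast_eq_natCast_iff] at e1
      exact e1
    have h3 : w ^ (b' * S) ≠ 0 := pow_ne_zero _ hw0
    apply mul_left_cancel₀ h3
    rw [h2, div_pow, mul_pow, h1, ← mul_div_assoc, eq_div_iff (pow_ne_zero _ hd1), pow_add,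
      two_mul, pow_add]
    have h4 : w ^ i ≠ 0 := pow_ne_zero _ hw0
    have h5 : w ^ i * (w⁻¹) ^ i = 1 := by
      rw [← mul_pow, mul_inv_cancel₀ hw0, one_pow]
    linear_combination (w ^ i) * hprod + (((s : ℤ) : 𝓞 E ⧸ M) ^ (hf p a).card * w ^ (b' * S) *
      d2 ^ p) * h5
  -- so `w` is one
  obtain ⟨l, hl⟩ : ∃ l : ℕ, ((k * l : ℕ) : ZMod p) = 1 := by
    refine ⟨((k : ZMod p)⁻¹).val, ?_⟩
    push_cast
    rw [ZMod.natCast_val, ZMod.cast_id', id, mul_inv_cancel₀ hk0]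
  have hwu : w = (v ^ l) ^ p := by
    rw [← pow_mul, mul_comm l p, pow_mul, ← hv, ← pow_mul, pow_eq_pow_mod _ hw]
    have e1 : (k * l) % p = 1 := by
      have e2 : ((k * l : ℕ) : ZMod p) = ((1 : ℕ) : ZMod p) := by
        rw [hl, Nat.cast_one]
      rw [ZMod.natCast_eq_natCast_iff] at e2
      have e3 : (k * l) % p = 1 % p := e2
      rw [e3, Nat.mod_eq_of_lt hpp.one_lt]
    rw [e1, pow_one]
  obtain ⟨u, hu⟩ : ∃ u, u = v ^ l := ⟨_, rfl⟩
  rw [← hu] at hwu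
  have hu0 : u ≠ 0 := by
    intro h
    rw [h, zero_pow hpp.ne_zero] at hwu
    exact hw0 hwu
  have hord : orderOf u = p ^ 2 := by
    refine orderOf_eq_prime_pow (p := p) (n := 1) ?_ ?_
    · rw [pow_one, ← hwu]
      exact hw1
    · rw [pow_succ, pow_one, pow_mul, ← hwu, hw]
  rw [← hord]
  apply orderOf_dvd_of_pow_eq_one
  have h1 := hF u
  have h2 : u ^ (q ^ (p - 1) - 1) * u = 1 * u := by
    rw [← pow_succ, one_mul]
    have h3 : q ^ (p - 1) - 1 + 1 = q ^ (p - 1) := Nat.sub_add_cancel (Nat.one_le_pow _ _ hq.pos)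
    rw [h3, h1]
  exact mul_right_cancel₀ hu0 h2

end

end Pool.Agent.V5helper55.FQ
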