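import Pool.Agent.V5helper55.FQ.LocP

/-!
# Palindromic products of linear factors
-/

set_option autoImplicit false

namespace Pool.Agent.V5helper55.FQ

open Polynomial

section

variable {k : Type*} [Field k] {ι : Type*}

theorem reflect_lin (a b : k) : (C a + X * C b : k[X]).reflect 1 = C b + X * C a := by
  ext n
  rw [coeff_reflect]
  rcases n with _ | _ | n
  · rw [show (0 : ℕ) = 1 - 1 by rfl, revAt_le (by omega)]
    simp
  · rw [revAt_le (by omega)]
    simp
  · have : revAt 1 (n + 1 + 1) = n + 1 + 1 := revAt_eq_self_of_lt (by omega)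
    rw [this]
    simp [coeff_C]

theorem reflect_prod (F : Finset ι) (x y : ι → k) :
    (∏ t ∈ F, (C (x t) + X * C (y t))).reflect F.card = ∏ t ∈ F, (C (y t) + X * C (x t)) := by
  classical
  induction F using Finset.induction_on with
  | empty => simp
  | insert a F ha ih =>
    rw [Finset.prod_insert ha, Finset.prod_insert ha, Finset.card_insert_of_notMem ha, add_comm,
      reflect_mul, ih, reflect_lin]
    · compute_degree
    · refine (natDegree_prod_le _ _).trans ?_
      have h1 := Finset.sum_le_card_nsmul F (fun t => (C (x t) + X * C (y t)).natDegree) 1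
        (fun t _ => by compute_degree)
      simpa using h1

/-- from the palindromic polynomial to the multiset of the quotients -/
theorem quot_multiset (F : Finset ι) (x y : ι → k) (hx : ∀ t ∈ F, x t ≠ 0) (hy : ∀ t ∈ F, y t ≠ 0)
    (h : ∏ t ∈ F, (C (x t) + X * C (y t)) = ∏ t ∈ F, (C (y t) + X * C (x t))) :
    F.val.map (fun t => x t / y t) = F.val.map (fun t => y t / x t) := by
  have key : ∀ (a b : ι → k), (∀ t ∈ F, b t ≠ 0) →
      (∏ t ∈ F, (C (a t) + X * C (b t))).roots = F.val.map (fun t => -(a t / b t)) := by
    intro a b hb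
    have e : ∏ t ∈ F, (C (a t) + X * C (b t)) =
        C (∏ t ∈ F, b t) * ((F.val.map (fun t => -(a t / b t))).map (fun r => X - C r)).prod := by
      rw [map_prod, Multiset.map_map, ← Finset.prod_eq_multiset_prod, ← Finset.prod_mul_distrib]
      refine Finset.prod_congr rfl fun t ht => ?_
      have := hb t ht
      simp only [Function.comp_apply, C_neg, sub_neg_eq_add, mul_add, ← C_mul]
      rw [mul_div_cancel₀ _ this]
      ring
    rw [e, roots_C_mul _ (Finset.prod_ne_zero_iff.2 hb), roots_multiset_prod_X_sub_C]
  have h1 := congrArg Polynomial.roots h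
  rw [key x y hy, key y x hx] at h1
  have h2 := congrArg (Multiset.map (fun r : k => -r)) h1
  rw [Multiset.map_map, Multiset.map_map] at h2
  simpa using h2

/-- the six families of quotients coincide -/
theorem six (F : Finset ι) (x y z : ι → k) (hx : ∀ t ∈ F, x t ≠ 0) (hy : ∀ t ∈ F, y t ≠ 0)
    (hz : ∀ t ∈ F, z t ≠ 0) (hsum : ∀ t, x t + y t + z t = 0)
    (hxy : F.val.map (fun t => x t / y t) = F.val.map (fun t => y t / x t))
    (hyz : F.val.map (fun t => y t / z t) = F.val.map (fun t => z t / y t))
    (hxz : F.val.map (fun t => x t / z t) = F.val.map (fun t => z t / x t)) :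
    F.val.map (fun t => y t / z t) = F.val.map (fun t => x t / y t) ∧
    F.val.map (fun t => z t / x t) = F.val.map (fun t => x t / y t) ∧
    F.val.map (fun t => x t / z t) = F.val.map (fun t => x t / y t) ∧
    F.val.map (fun t => z t / y t) = F.val.map (fun t => x t / y t) ∧
    F.val.map (fun t => y t / x t) = F.val.map (fun t => x t / y t) := by
  have key : ∀ a b c : ι → k, (∀ t ∈ F, b t ≠ 0) → (∀ t, a t + b t + c t = 0) →
      (F.val.map (fun t => a t / b t)).map (fun r => -1 - r) = F.val.map (fun t => c t / b t) := by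
    intro a b c hb hs
    rw [Multiset.map_map]
    refine Multiset.map_congr rfl fun t ht => ?_
    have h1 := hb t ht
    have h2 := hs t
    simp only [Function.comp_apply]
    field_simp
    linear_combination -h2
  have h1 : F.val.map (fun t => z t / y t) = F.val.map (fun t => z t / x t) := by
    rw [← key x y z hy hsum, hxy, key y x z hx (fun t => by rw [← hsum t]; ring)]
  have h2 : F.val.map (fun t => y t / z t) = F.val.map (fun t => y t / x t) := by
    rw [← key x z y hz (fun t => by rw [← hsum t]; ring), hxz,
      key z x y hx (fun t => by rw [← hsum t]; ring)]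
  refine ⟨h2.trans hxy.symm, ?_, ?_, ?_, hxy.symm⟩
  · rw [← h1, ← hyz, h2, hxy]
  · rw [hxz, ← h1, ← hyz, h2, hxy]
  · rw [← hyz, h2, hxy]

end

end Pool.Agent.V5helper55.FQ
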