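import Pool.Agent.V5helper55.FQ.SymA

/-!
# Fixed points in invariant multisets
-/

set_option autoImplicit false

namespace Pool.Agent.V5helper55.FQ

section

open Classical in
/-- a multiset invariant under a map of prime order -/
theorem card_fix {α : Type*} (Λ : Multiset α) (g : α → α) (n : ℕ) (hn : n.Prime)
    (hinj : Set.InjOn g {a | a ∈ Λ}) (hmap : Λ.map g = Λ) (hord : ∀ a ∈ Λ, g^[n] a = a) :
    Λ.card ≡ (Λ.filter fun a => g a = a).card [MOD n] := by
  have : Fact n.Prime := ⟨hn⟩
  have hc : ∀ a ∈ Λ, Λ.count (g a) = Λ.count a := by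
    intro a ha
    have h1 := Multiset.count_map_eq_count g Λ hinj a ha
    rwa [hmap] at h1
  have hg : ∀ a ∈ Λ, g a ∈ Λ := by
    intro a ha
    rw [← Multiset.count_pos, hc a ha, Multiset.count_pos]
    exact ha
  obtain ⟨T, hT⟩ : ∃ T : Finset (α × ℕ), T = Λ.toEnumFinset := ⟨_, rfl⟩
  have hmem : ∀ w : α × ℕ, w ∈ T ↔ w.2 < Λ.count w.1 := by
    intro w
    rw [hT, Multiset.mem_toEnumFinset]
  have hmem1 : ∀ w : α × ℕ, w ∈ T → w.1 ∈ Λ := by
    intro w hw
    rw [hmem] at hw
    exact Multiset.count_pos.1 (by omega)
  have hstep : ∀ w : α × ℕ, w ∈ T → (g w.1, w.2) ∈ T := by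
    intro w hw
    rw [hmem]
    show w.2 < Λ.count (g w.1)
    rw [hc _ (hmem1 w hw)]
    exact (hmem w).1 hw
  obtain ⟨f, hf⟩ : ∃ f : Function.End T, ∀ w : T, (f w : α × ℕ) = (g (w : α × ℕ).1, (w : α × ℕ).2) :=
    ⟨fun w => ⟨(g (w : α × ℕ).1, (w : α × ℕ).2), hstep _ w.2⟩, fun w => rfl⟩
  have hiter : ∀ (j : ℕ) (w : T), ((f ^ j) w : α × ℕ) = (g^[j] (w : α × ℕ).1, (w : α × ℕ).2) := by
    intro j
    induction j with
    | zero => intro w; rfl
    | succ j ih =>
      intro w
      have e : (f ^ (j + 1)) w = f ((f ^ j) w) := by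
        rw [pow_succ']
        rfl
      rw [e, hf, ih, Function.iterate_succ_apply']
  have hfn : f ^ n ^ 1 = 1 := by
    rw [pow_one]
    funext w
    apply Subtype.ext
    rw [hiter, hord _ (hmem1 _ w.2)]
    rfl
  have h1 := Equiv.Perm.card_fixedPoints_modEq hfn
  have h2 : Fintype.card T = Λ.card := by
    rw [Fintype.card_coe, hT, Multiset.card_toEnumFinset]
  have h3 : Fintype.card (Function.fixedPoints f) = (Λ.filter fun a => g a = a).card := by
    rw [← Multiset.card_toEnumFinset (Λ.filter fun a => g a = a), ← Fintype.card_coe]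
    have e1 : ∀ w : T, w ∈ Function.fixedPoints f ↔ g (w : α × ℕ).1 = (w : α × ℕ).1 := by
      intro w
      constructor
      · intro h
        have h4 : ((f w : T) : α × ℕ) = w := congrArg _ h
        rw [hf] at h4
        exact congrArg Prod.fst h4
      · intro h
        apply Subtype.ext
        rw [hf, h]
    have e2 : ∀ w : α × ℕ, w ∈ (Λ.filter fun a => g a = a).toEnumFinset ↔
        w ∈ T ∧ g w.1 = w.1 := by
      intro w
      rw [Multiset.mem_toEnumFinset, hmem, Multiset.count_filter]
      split_ifs with h
      · simp [h]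
      · simp [h]
    refine Fintype.card_congr
      { toFun := fun w => ⟨((w : T) : α × ℕ), (e2 _).2 ⟨(w : T).2, (e1 _).1 w.2⟩⟩
        invFun := fun w => ⟨⟨(w : α × ℕ), ((e2 _).1 w.2).1⟩, (e1 _).2 ((e2 _).1 w.2).2⟩
        left_inv := fun w => rfl
        right_inv := fun w => rfl }
  rw [← h2, ← h3]
  exact h1

end

section

variable {k : Type*} [Field k] {ι : Type*}

open Classical in
/-- the number modulo two -/
theorem count_two (F : Finset ι) (x y z : ι → k) (hx : ∀ t ∈ F, x t ≠ 0) (hy : ∀ t ∈ F, y t ≠ 0)
    (hz : ∀ t ∈ F, z t ≠ 0) (hsum : ∀ t, x t + y t + z t = 0)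
    (hxy : F.val.map (fun t => y t / x t) = F.val.map (fun t => x t / y t)) :
    F.card ≡ (F.filter fun t => x t = y t).card [MOD 2] := by
  have h := card_fix (F.val.map (fun t => x t / y t)) (fun r => r⁻¹) 2 Nat.prime_two
    (fun a _ b _ h => inv_injective h) (by
      rw [Multiset.map_map, ← hxy]
      refine Multiset.map_congr rfl fun t _ => ?_
      simp) (fun a _ => by simp)
  rw [Multiset.card_map, Multiset.filter_map, Multiset.card_map] at h
  have e : Multiset.filter ((fun a : k => a⁻¹ = a) ∘ fun t => x t / y t) F.val =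
      (F.filter fun t => x t = y t).val := by
    rw [Finset.filter_val]
    refine Multiset.filter_congr fun t ht => ?_
    have h1 := hx t ht
    have h2 := hy t ht
    have h3 := hz t ht
    have h4 := hsum t
    simp only [Function.comp_apply, inv_div]
    rw [div_eq_div_iff h1 h2]
    constructor
    · intro h5
      have h6 : (x t - y t) * z t = 0 := by
        linear_combination (x t - y t) * h4 + h5
      exact sub_eq_zero.1 ((mul_eq_zero.1 h6).resolve_right h3)
    · intro h5
      rw [h5]
  rw [e] at h
  exact h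

open Classical in
/-- the number modulo three -/
theorem count_three (F : Finset ι) (x y z : ι → k) (hx : ∀ t ∈ F, x t ≠ 0)
    (hy : ∀ t ∈ F, y t ≠ 0)
    (hz : ∀ t ∈ F, z t ≠ 0) (hsum : ∀ t, x t + y t + z t = 0)
    (hxy : F.val.map (fun t => y t / z t) = F.val.map (fun t => x t / y t)) :
    F.card ≡ (F.filter fun t => x t ^ 2 + x t * y t + y t ^ 2 = 0).card [MOD 3] := by
  -- the value at each member
  have hval : ∀ t ∈ F, -1 / (1 + x t / y t) = y t / z t := by
    intro t ht
    have h2 := hy t ht
    have h3 := hz t ht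
    have h4 := hsum t
    have h5 : y t + x t ≠ 0 := by
      intro h
      apply h3
      linear_combination h4 - h
    have e : 1 + x t / y t = (y t + x t) / y t := by
      field_simp
    rw [e, div_div_eq_mul_div, div_eq_div_iff h5 h3]
    linear_combination (-y t) * h4
  have hval2 : ∀ t ∈ F, -1 / (1 + y t / z t) = z t / x t := by
    intro t ht
    have h1 := hx t ht
    have h3 := hz t ht
    have h4 := hsum t
    have h5 : z t + y t ≠ 0 := by
      intro h
      apply h1
      linear_combination h4 - h
    have e : 1 + y t / z t = (z t + y t) / z t := by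
      field_simp
    rw [e, div_div_eq_mul_div, div_eq_div_iff h5 h1]
    linear_combination (-z t) * h4
  have hval3 : ∀ t ∈ F, -1 / (1 + z t / x t) = x t / y t := by
    intro t ht
    have h1 := hx t ht
    have h2 := hy t ht
    have h4 := hsum t
    have h5 : x t + z t ≠ 0 := by
      intro h
      apply h2
      linear_combination h4 - h
    have e : 1 + z t / x t = (x t + z t) / x t := by
      field_simp
    rw [e, div_div_eq_mul_div, div_eq_div_iff h5 h2]
    linear_combination (-x t) * h4
  have h := card_fix (F.val.map (fun t => x t / y t)) (fun r => -1 / (1 + r)) 3 Nat.prime_three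
    (by
      rintro a ha b hb hab
      rw [Set.mem_setOf_eq, Multiset.mem_map] at ha hb
      obtain ⟨s, hs, rfl⟩ := ha
      obtain ⟨t, ht, rfl⟩ := hb
      simp only at hab
      rw [hval s hs, hval t ht] at hab
      rw [← hval3 s hs, ← hval3 t ht, ← hval2 s hs, ← hval2 t ht, hab]) (by
      rw [Multiset.map_map, ← hxy]
      exact Multiset.map_congr rfl fun t ht => hval t ht) (by
      intro a ha
      rw [Multiset.mem_map] at ha
      obtain ⟨s, hs, rfl⟩ := ha
      rw [show (3 : ℕ) = 0 + 1 + 1 + 1 by rfl, Function.iterate_succ_apply,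
        Function.iterate_succ_apply, Function.iterate_succ_apply, Function.iterate_zero_apply]
      rw [hval s hs, hval2 s hs, hval3 s hs])
  rw [Multiset.card_map, Multiset.filter_map, Multiset.card_map] at h
  have e : Multiset.filter ((fun a : k => -1 / (1 + a) = a) ∘ fun t => x t / y t) F.val =
      (F.filter fun t => x t ^ 2 + x t * y t + y t ^ 2 = 0).val := by
    rw [Finset.filter_val]
    refine Multiset.filter_congr fun t ht => ?_
    have h2 := hy t ht
    have h3 := hz t ht
    have h4 := hsum t
    simp only [Function.comp_apply]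
    rw [hval t ht, div_eq_div_iff h3 h2]
    constructor
    · intro h5
      linear_combination h5 + x t * h4
    · intro h5
      linear_combination h5 - x t * h4
  rw [e] at h
  exact h

end

end Pool.Agent.V5helper55.FQ
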