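import Pool.Agent.V5helper55.FQ.Main
import Pool.Agent.V5helper55.FQ.SymB

/-!
# The residues of the first case are invariant under the permutations of the unknowns
-/

set_option autoImplicit false

namespace Pool.Agent.V5helper55.FQ

open Pool.Agent.Y546.WQ NumberField IsDedekindDomain Polynomial

section

variable {p : ℕ} [Fact p.Prime] {E : Type} [Field E] [NumberField E]
  {K N : Type} [Field K] [NumberField K] [Field N] [NumberField N]

omit [Fact (Nat.Prime p)] in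
/-- there is a prime number prime to a given integer of the field -/
theorem exists_q (w : 𝓞 E) (hw : w ≠ 0) : ∃ q : ℕ, q.Prime ∧ q ≠ p ∧
    ∀ P : Ideal (𝓞 E), P.IsPrime → ((q : ℕ) : 𝓞 E) ∈ P → w ∉ P := by
  obtain ⟨q, hq1, hq⟩ := Nat.exists_infinite_primes
    (Ideal.absNorm (Ideal.span {w}) + p + 1)
  have hM : Ideal.absNorm (Ideal.span {w}) ≠ 0 := by
    rw [Ne, Ideal.absNorm_eq_zero_iff, Ideal.span_singleton_eq_bot]
    exact hw
  refine ⟨q, hq, by omega, fun P hP hqP hwP => ?_⟩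
  have h1 : Ideal.absNorm P ∣ Ideal.absNorm (Ideal.span {w}) :=
    Ideal.absNorm_dvd_absNorm_of_le ((Ideal.span_singleton_le_iff_mem _).2 hwP)
  have h2 : Ideal.absNorm P ∣ Ideal.absNorm (Ideal.span {((q : ℕ) : 𝓞 E)}) :=
    Ideal.absNorm_dvd_absNorm_of_le ((Ideal.span_singleton_le_iff_mem _).2 hqP)
  rw [Ideal.absNorm_span_natCast] at h2
  obtain ⟨f, -, hf⟩ := (Nat.dvd_prime_pow hq).1 h2
  have hf0 : f ≠ 0 := by
    rintro rfl
    rw [pow_zero] at hf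
    exact hP.ne_top (Ideal.absNorm_eq_one_iff.1 hf)
  have h3 : q ∣ Ideal.absNorm (Ideal.span {w}) := by
    rw [hf] at h1
    exact (dvd_pow_self q hf0).trans h1
  have := Nat.le_of_dvd (Nat.pos_of_ne_zero hM) h3
  omega

open Classical in
/-- **The symmetry of the residues of the first case.** -/
theorem symPal (hp3 : 3 ≤ p) (c : Cyc p E) (i : E →+* N) (hD : Dn p E N i)
    (hcard : Nat.card (K →+* N) = Module.finrank ℚ K) (h3m : 3 * Module.finrank ℚ K ≤ p)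
    {X' Y Z : 𝓞 K} (hs : Sol0 p K X' Y Z) {k : Type} [Field k] [CharP k p] (ψ : 𝓞 N →+* k)
    (hreg : RegC p (Nat.card {τ : K →+* N // ψ (RingOfIntegers.mapRingHom τ X') ≠ 0 ∧
        ψ (RingOfIntegers.mapRingHom τ Y) ≠ 0 ∧ ψ (RingOfIntegers.mapRingHom τ Z) ≠ 0})) :
    (Finset.univ.filter (fun τ : K →+* N => ψ (RingOfIntegers.mapRingHom τ X') ≠ 0 ∧
        ψ (RingOfIntegers.mapRingHom τ Y) ≠ 0 ∧ ψ (RingOfIntegers.mapRingHom τ Z) ≠ 0)).val.map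
      (fun τ => ψ (RingOfIntegers.mapRingHom τ X') / ψ (RingOfIntegers.mapRingHom τ Y)) =
    (Finset.univ.filter (fun τ : K →+* N => ψ (RingOfIntegers.mapRingHom τ X') ≠ 0 ∧
        ψ (RingOfIntegers.mapRingHom τ Y) ≠ 0 ∧ ψ (RingOfIntegers.mapRingHom τ Z) ≠ 0)).val.map
      (fun τ => ψ (RingOfIntegers.mapRingHom τ Y) / ψ (RingOfIntegers.mapRingHom τ X')) := by
  have hpp : p.Prime := Fact.out
  have hp2 : p ≠ 2 := by omega
  obtain ⟨f, hdeg, hc0, hcm, hev, hf⟩ := Pool.Agent.Y290.WQ.mainNORM K X' Y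
  have hf := hf N hcard
  obtain ⟨R, hRd⟩ : ∃ R : Ideal (𝓞 N), R = RingHom.ker ψ := ⟨_, rfl⟩
  have hR : R.IsPrime := hRd ▸ RingHom.ker_isPrime ψ
  have hmR : ∀ w : 𝓞 N, w ∈ R ↔ ψ w = 0 := fun w => by rw [hRd, RingHom.mem_ker]
  have hpR : ((p : ℕ) : 𝓞 N) ∈ R := by
    rw [hmR, map_natCast, CharP.cast_eq_zero]
  obtain ⟨x, hx⟩ : ∃ x : (K →+* N) → k, x = fun τ => ψ (RingOfIntegers.mapRingHom τ X') :=
    ⟨_, rfl⟩
  obtain ⟨y, hy⟩ : ∃ y : (K →+* N) → k, y = fun τ => ψ (RingOfIntegers.mapRingHom τ Y) :=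
    ⟨_, rfl⟩
  obtain ⟨z, hz⟩ : ∃ z : (K →+* N) → k, z = fun τ => ψ (RingOfIntegers.mapRingHom τ Z) :=
    ⟨_, rfl⟩
  have hx0 : ∀ τ, x τ = 0 ↔ RingOfIntegers.mapRingHom τ X' ∈ R := fun τ => by
    rw [hx, hmR]
  have hy0 : ∀ τ, y τ = 0 ↔ RingOfIntegers.mapRingHom τ Y ∈ R := fun τ => by
    rw [hy, hmR]
  have hz0 : ∀ τ, z τ = 0 ↔ RingOfIntegers.mapRingHom τ Z ∈ R := fun τ => by
    rw [hz, hmR]
  have hsum : ∀ τ, x τ + y τ + z τ = 0 := by
    intro τ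
    have hP : (R.comap (RingOfIntegers.mapRingHom τ)).IsPrime := hR.comap _
    have hpP : ((p : ℕ) : 𝓞 K) ∈ R.comap (RingOfIntegers.mapRingHom τ) := by
      rw [Ideal.mem_comap, map_natCast]
      exact hpR
    have h1 := lin_p hpp _ hP hpP hs.eq
    rw [Ideal.mem_comap, map_add, map_add, hmR, map_add, map_add] at h1
    rw [hx, hy, hz]
    exact h1
  have hnot : ∀ τ, ¬ (x τ = 0 ∧ y τ = 0 ∧ z τ = 0) := by
    intro τ
    have hP : (R.comap (RingOfIntegers.mapRingHom τ)).IsPrime := hR.comap _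
    have hpP : ((p : ℕ) : 𝓞 K) ∈ R.comap (RingOfIntegers.mapRingHom τ) := by
      rw [Ideal.mem_comap, map_natCast]
      exact hpR
    rw [hx0, hy0, hz0]
    exact hs.cp _ hP hpP
  obtain ⟨n, hn⟩ : ∃ n, n = Nat.card {τ : K →+* N // z τ = 0} := ⟨_, rfl⟩
  obtain ⟨U, hU⟩ := exists_U c
  obtain ⟨h, hfh, hfp⟩ := exists_h c.z U hU f n
    (coef_main h3m hs R hR hpR f hf n (by
      rw [hn]
      refine Nat.card_congr (Equiv.subtypeEquivRight fun τ => ?_)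
      rw [hz0, Ideal.Quotient.eq_zero_iff_mem]))
  have hfx : f.map (Int.castRingHom k) = ∏ τ, (Polynomial.C (x τ) +
      X * Polynomial.C (y τ)) := by
    rw [hx, hy]
    exact map_nrmP ψ X' Y f hf
  have hh := locP x y z hsum f h hfx (by rw [← hn]; exact hfp)
  have hh1 := locP_one (p := p) x y z hsum hnot h hh
  have hh1' : ¬ (p : ℤ) ∣ h.eval 1 := by
    intro hd
    apply hh1
    rw [← map_one (Int.castRingHom (ZMod p)), eval_map_apply]
    exact (ZMod.intCast_zmod_eq_zero_iff_dvd _ p).2 hd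
  obtain ⟨hf0, hf1, hv⟩ := fld0 hp2 c i hD X' Y Z hs.X0 hs.Z0 hs.eq f hf
  -- an auxiliary prime number
  obtain ⟨w0, hw0⟩ : ∃ w : 𝓞 E, (w : E) = aeval c.z f := by
    obtain ⟨w, hwz, -⟩ := exists_zint c
    refine ⟨aeval w f, ?_⟩
    have hwz' : algebraMap (𝓞 E) E w = c.z := hwz
    rw [← hwz', aeval_algebraMap_apply]
  obtain ⟨q, hq, hqp, hq2⟩ := exists_q (p := p) w0 (by
    rintro rfl
    rw [← hw0] at hf0
    exact hf0 (by simp))
  have hcop : ∀ P : Ideal (𝓞 E), P.IsPrime → ((q : ℕ) : 𝓞 E) ∈ P →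
      ∀ w : 𝓞 E, (w : E) = aeval c.z f → w ∉ P := by
    intro P hP hqP w hw
    have e : w = w0 := RingOfIntegers.coe_injective (hw.trans hw0.symm)
    rw [e]
    exact hq2 P hP hqP
  obtain ⟨n0, hn1, hn2, hrel⟩ := rel_h hp2 c f h n hfh hh1' hf0 hf1 hv q hq hqp hcop
  have hall : ∀ a : ℕ, 0 < a → a + 2 ≤ p → ∃ (j : ℕ) (r : ZMod p), r ≠ 0 ∧
      (X - 1) ^ (p - 1) ∣ thPa p a (h.map (Int.castRingHom (ZMod p))) - Polynomial.C r * X ^ j := by
    intro a ha hap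
    obtain ⟨g, hg, j, hj⟩ := hrel a ha hap
    obtain ⟨r, hr, hdv⟩ := Pool.Agent.Y919.WQ.mainLAMA p hp2 a ha hap E c h n0 hn1 hh1' g hg j hj
    exact ⟨j, r, hr, hdv⟩
  obtain ⟨G, hG, g1, g2, g3, g4, c0, hc0', hGk⟩ := locP_G2 x y z hsum hnot h hh
  obtain ⟨F, hF⟩ : ∃ F : Finset (K →+* N), F = Finset.univ.filter
    (fun τ => x τ ≠ 0 ∧ y τ ≠ 0 ∧ z τ ≠ 0) := ⟨_, rfl⟩
  have hFc : Nat.card {τ // x τ ≠ 0 ∧ y τ ≠ 0 ∧ z τ ≠ 0} = F.card := by
    rw [Nat.card_eq_fintype_card, Fintype.card_subtype, hF]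
  rw [hFc] at g1 g3
  obtain ⟨dx, hdx⟩ : ∃ dx, dx = Nat.card {τ : K →+* N // x τ = 0} := ⟨_, rfl⟩
  rw [← hdx] at hG
  have hrelG : Rel p G := by
    intro a ha hap
    obtain ⟨j, r, hr, hdv⟩ := hall a ha hap
    rw [hG] at hdv
    obtain ⟨j', -, hj'⟩ := rel_shift a dx j G r hdv
    exact ⟨j', r, hr, hj'⟩
  have hreg' : RegC p F.card := by
    rw [← hFc, hx, hy, hz]
    exact hreg
  have hpal := pal_of_rel hp3 F.card hreg' G g1 g2 g3 g4 hrelG
  rw [← hF] at hGk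
  have h1 : ∏ t ∈ F, (Polynomial.C (x t) + X * Polynomial.C (y t)) =
      ∏ t ∈ F, (Polynomial.C (y t) + X * Polynomial.C (x t)) := by
    have h2 : (G.map (ZMod.castHom (dvd_refl p) k)).reflect F.card =
        G.map (ZMod.castHom (dvd_refl p) k) := by
      rw [reflect_map, hpal]
    rw [hGk, reflect_C_mul, reflect_prod] at h2
    exact (mul_left_cancel₀ (by rwa [Ne, C_eq_zero]) h2).symm
  have hFne : ∀ t ∈ F, x t ≠ 0 ∧ y t ≠ 0 ∧ z t ≠ 0 := by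
    intro t ht
    rw [hF] at ht
    exact (Finset.mem_filter.1 ht).2
  have h3 := quot_multiset F x y (fun t ht => (hFne t ht).1) (fun t ht => (hFne t ht).2.1) h1
  rw [hF, hx, hy, hz] at h3
  exact h3

end

end Pool.Agent.V5helper55.FQ
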