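import Pool.Agent.V5helper55.FQ.SymB

/-!
# The number of the members of a symmetric family
-/

set_option autoImplicit false

namespace Pool.Agent.V5helper55.FQ

section

variable {k : Type*} [Field k] {ι : Type*}

open Classical in
/-- the number of members with three different residues fixed by the cyclic permutations is even -/
theorem count_omega (F : Finset ι) (x y : ι → k) (hx : ∀ t ∈ F, x t ≠ 0) (hy : ∀ t ∈ F, y t ≠ 0)
    (h3 : (3 : k) ≠ 0)
    (hxy : F.val.map (fun t => y t / x t) = F.val.map (fun t => x t / y t)) :
    Even (F.filter fun t => x t ^ 2 + x t * y t + y t ^ 2 = 0).card := by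
  obtain ⟨W, hW⟩ : ∃ W : k → Prop, W = fun r => r ^ 2 + r + 1 = 0 := ⟨_, rfl⟩
  have hWt : ∀ t ∈ F, (W (x t / y t) ↔ x t ^ 2 + x t * y t + y t ^ 2 = 0) := by
    intro t ht
    have h2 := hy t ht
    rw [hW]
    simp only
    constructor
    · intro h
      field_simp at h
      linear_combination h
    · intro h
      field_simp
      linear_combination h
  have hWinv : ∀ r : k, r ≠ 0 → (W r⁻¹ ↔ W r) := by
    intro r hr
    rw [hW]
    simp only
    constructor
    · intro h
      field_simp at h
      linear_combination h
    · intro h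
      field_simp
      linear_combination h
  obtain ⟨Λ, hΛ⟩ : ∃ Λ : Multiset k, Λ = (F.val.map (fun t => x t / y t)).filter W := ⟨_, rfl⟩
  have hne : ∀ r ∈ F.val.map (fun t => x t / y t), r ≠ 0 := by
    intro r hr
    obtain ⟨t, ht, rfl⟩ := Multiset.mem_map.1 hr
    exact div_ne_zero (hx t ht) (hy t ht)
  have hinv : (F.val.map (fun t => x t / y t)).map (fun r => r⁻¹) =
      F.val.map (fun t => x t / y t) := by
    rw [Multiset.map_map, ← hxy]
    refine Multiset.map_congr rfl fun t _ => ?_
    simp
  have hmap : Λ.map (fun r => r⁻¹) = Λ := by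
    rw [hΛ]
    nth_rw 2 [← hinv]
    rw [Multiset.filter_map (f := fun r : k => r⁻¹)]
    congr 1
    exact Multiset.filter_congr fun r hr => (hWinv r (hne r hr)).symm
  have h := card_fix Λ (fun r => r⁻¹) 2 Nat.prime_two
    (fun a _ b _ h => inv_injective h) hmap (fun a _ => by simp)
  have hzero : Λ.filter (fun r => r⁻¹ = r) = 0 := by
    rw [Multiset.filter_eq_nil]
    intro r hr h1
    rw [hΛ, Multiset.mem_filter, hW] at hr
    obtain ⟨hr1, hr2⟩ := hr
    have hr0 := hne r hr1
    have h4 : r ^ 2 = 1 := by
      rw [pow_two]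
      nth_rw 1 [← h1]
      exact inv_mul_cancel₀ hr0
    have h5 : r = -2 := by
      have : r ^ 2 + r + 1 = 0 := hr2
      linear_combination this - h4
    rw [h5] at h4
    apply h3
    linear_combination h4
  rw [hzero, Multiset.card_zero, hΛ, Multiset.filter_map, Multiset.card_map] at h
  have e : Multiset.filter (W ∘ fun t => x t / y t) F.val =
      (F.filter fun t => x t ^ 2 + x t * y t + y t ^ 2 = 0).val := by
    rw [Finset.filter_val]
    exact Multiset.filter_congr fun t ht => hWt t ht
  rw [e] at h
  rw [Nat.even_iff]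
  exact h

open Classical in
/-- **The number of members of a symmetric family.** -/
theorem count_full (F : Finset ι) (x y z : ι → k) (hx : ∀ t ∈ F, x t ≠ 0)
    (hy : ∀ t ∈ F, y t ≠ 0)
    (hz : ∀ t ∈ F, z t ≠ 0) (hsum : ∀ t, x t + y t + z t = 0) (h3 : (3 : k) ≠ 0)
    (t5 : F.val.map (fun t => y t / x t) = F.val.map (fun t => x t / y t))
    (t1 : F.val.map (fun t => y t / z t) = F.val.map (fun t => x t / y t))
    (t2 : F.val.map (fun t => z t / x t) = F.val.map (fun t => x t / y t)) :
    ∃ a c : ℕ, F.card = 6 * a + 3 * (F.filter fun t => x t = y t).card + 2 * c ∧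
      (F.filter fun t => x t ^ 2 + x t * y t + y t ^ 2 = 0).card = 2 * c := by
  have h1 := count_two F x y z hx hy hz hsum t5
  have h2 := count_three F x y z hx hy hz hsum t1
  obtain ⟨c, hc⟩ := count_omega F x y hx hy h3 t5
  have key : ∀ u v : ι → k, (∀ t ∈ F, v t ≠ 0) →
      F.val.map (fun t => u t / v t) = F.val.map (fun t => x t / y t) →
      (F.filter fun t => u t = v t).card = (F.filter fun t => x t = y t).card := by
    intro u v hv h
    have h4 := congrArg (Multiset.count (1 : k)) h
    rw [Multiset.count_map, Multiset.count_map] at h4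
    have e1 : ∀ u v : ι → k, (∀ t ∈ F, v t ≠ 0) →
        (F.filter fun t => u t = v t).card = (F.val.filter fun t => 1 = u t / v t).card := by
      intro u v hv
      rw [← Finset.filter_val]
      show _ = (F.filter fun t => 1 = u t / v t).card
      congr 1
      refine Finset.filter_congr fun t ht => ?_
      rw [eq_comm (a := (1 : k)), div_eq_one_iff_eq (hv t ht)]
    rw [e1 u v hv, e1 x y hy]
    exact h4
  have b1 := key y z hz t1
  have b2 := key z x hx t2
  have hdis : (F.filter fun t => x t = y t).card + (F.filter fun t => y t = z t).card +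
      (F.filter fun t => z t = x t).card +
      (F.filter fun t => x t ^ 2 + x t * y t + y t ^ 2 = 0).card ≤ F.card := by
    rw [Finset.card_filter, Finset.card_filter, Finset.card_filter, Finset.card_filter,
      ← Finset.sum_add_distrib, ← Finset.sum_add_distrib, ← Finset.sum_add_distrib,
      Finset.card_eq_sum_ones]
    refine Finset.sum_le_sum fun t ht => ?_
    have hx1 := hx t ht
    have hy1 := hy t ht
    have hz1 := hz t ht
    have hs := hsum t
    have n1 : x t = y t → ¬ y t = z t := by
      intro h h'
      rw [← h', h] at hs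
      have : 3 * y t = 0 := by linear_combination hs
      exact (mul_ne_zero h3 hy1) this
    have n2 : x t = y t → ¬ z t = x t := fun h h' => n1 h (by rw [h', h])
    have n3 : y t = z t → ¬ z t = x t := fun h h' => n1 (by rw [h, h']) h
    have n4 : x t = y t → ¬ x t ^ 2 + x t * y t + y t ^ 2 = 0 := by
      intro h h'
      rw [h] at h'
      have : 3 * y t ^ 2 = 0 := by linear_combination h'
      exact (mul_ne_zero h3 (pow_ne_zero 2 hy1)) this
    have n5 : y t = z t → ¬ x t ^ 2 + x t * y t + y t ^ 2 = 0 := by
      intro h h'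
      have e : x t = -2 * y t := by linear_combination hs + h
      rw [e] at h'
      have : 3 * y t ^ 2 = 0 := by linear_combination h'
      exact (mul_ne_zero h3 (pow_ne_zero 2 hy1)) this
    have n6 : z t = x t → ¬ x t ^ 2 + x t * y t + y t ^ 2 = 0 := by
      intro h h'
      have e : y t = -2 * x t := by linear_combination hs - h
      rw [e] at h'
      have : 3 * x t ^ 2 = 0 := by linear_combination h'
      exact (mul_ne_zero h3 (pow_ne_zero 2 hx1)) this
    by_cases c1 : x t = y t
    · rw [if_pos c1, if_neg (n1 c1), if_neg (n2 c1), if_neg (n4 c1)]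
    · by_cases c2 : y t = z t
      · rw [if_neg c1, if_pos c2, if_neg (n3 c2), if_neg (n5 c2)]
      · by_cases c3 : z t = x t
        · rw [if_neg c1, if_neg c2, if_pos c3, if_neg (n6 c3)]
        · rw [if_neg c1, if_neg c2, if_neg c3]
          split_ifs <;> omega
  rw [b1, b2] at hdis
  unfold Nat.ModEq at h1 h2
  refine ⟨(F.card - 3 * (F.filter fun t => x t = y t).card -
    (F.filter fun t => x t ^ 2 + x t * y t + y t ^ 2 = 0).card) / 6, c, ?_, by omega⟩
  omega

end

end Pool.Agent.V5helper55.FQ
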