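import Pool.Agent.V5helper55.FQ.SymC
import Pool.Agent.V5helper55.FQ.SymD
import Pool.Agent.V5helper55.FQ.Emb

/-!
# The symmetry of the residues in terms of embeddings
-/

set_option autoImplicit false

namespace Pool.Agent.V5helper55.FQ

open Pool.Agent.Y546.WQ Pool.Agent.Y941.WQ NumberField IsDedekindDomain

section

variable {q : ℕ} [Fact q.Prime]

open Classical in
theorem count_eq {ι k : Type*} (F : Finset ι) (α γ : ι → PadicAlgCl q) (α' γ' : ι → k)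
    (h1 : ∀ i ∈ F, ∀ j ∈ F, ‖α i - α j‖ < 1 ↔ α' i = α' j)
    (h2 : ∀ i ∈ F, ∀ j ∈ F, ‖γ i - α j‖ < 1 ↔ γ' i = α' j)
    (h3 : F.val.map γ' = F.val.map α') (r : PadicAlgCl q) :
    (F.filter fun i => ‖γ i - r‖ < 1).card = (F.filter fun i => ‖α i - r‖ < 1).card := by
  have htri : ∀ a b c : PadicAlgCl q, ‖b - c‖ < 1 → (‖a - c‖ < 1 ↔ ‖a - b‖ < 1) := by
    intro a b c hbc
    constructor
    · intro h
      have e : a - b = (a - c) + -(b - c) := by ring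
      rw [e]
      exact add_lt_one h (by rwa [norm_neg])
    · intro h
      have e : a - c = (a - b) + (b - c) := by ring
      rw [e]
      exact add_lt_one h hbc
  by_cases hex : ∃ i ∈ F, ‖α i - r‖ < 1
  · obtain ⟨i, hi, hir⟩ := hex
    have e1 : (F.filter fun j => ‖γ j - r‖ < 1) = F.filter fun j => α' i = γ' j := by
      refine Finset.filter_congr fun j hj => ?_
      rw [htri _ _ _ hir, h2 j hj i hi]
      exact eq_comm
    have e2 : (F.filter fun j => ‖α j - r‖ < 1) = F.filter fun j => α' i = α' j := by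
      refine Finset.filter_congr fun j hj => ?_
      rw [htri _ _ _ hir, h1 j hj i hi]
      exact eq_comm
    have h4 := congrArg (Multiset.count (α' i)) h3
    rw [Multiset.count_map, Multiset.count_map] at h4
    rw [e1, e2]
    exact h4
  · have e2 : (F.filter fun j => ‖α j - r‖ < 1) = ∅ := by
      rw [Finset.filter_eq_empty_iff]
      intro i hi h
      exact hex ⟨i, hi, h⟩
    have e1 : (F.filter fun j => ‖γ j - r‖ < 1) = ∅ := by
      rw [Finset.filter_eq_empty_iff]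
      intro j hj h
      have h4 : γ' j ∈ F.val.map α' := by
        rw [← h3]
        exact Multiset.mem_map_of_mem γ' hj
      obtain ⟨i, hi, hij⟩ := Multiset.mem_map.1 h4
      apply hex
      refine ⟨i, hi, ?_⟩
      have h5 := (h2 j hj i hi).2 hij.symm
      rw [htri _ _ _ h, ← norm_neg, neg_sub]
      exact h5
    rw [e1, e2]

variable {K : Type} [Field K] [NumberField K]

/-- the types in terms of the ideals -/
theorem keyE {p : ℕ} (hp0 : p ≠ 0) (σ : K →+* PadicAlgCl q) {x y z a : K} {X Y Z : 𝓞 K}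
    (ha : a ≠ 0) (hXa : algebraMap (𝓞 K) K X = a * x) (hYa : algebraMap (𝓞 K) K Y = a * y)
    (hZa : algebraMap (𝓞 K) K Z = a * z) (hXYZ : X ^ p + Y ^ p + Z ^ p = 0)
    (hn : ¬ (X ∈ PI σ ∧ Y ∈ PI σ ∧ Z ∈ PI σ)) :
    (X ∈ PI σ ↔ ‖σ x‖ < ‖σ y‖) ∧ (Y ∈ PI σ ↔ ‖σ y‖ < ‖σ x‖) ∧
    ((X ∉ PI σ ∧ Y ∉ PI σ ∧ Z ∉ PI σ) ↔ (‖σ x‖ = ‖σ y‖ ∧ ‖σ y‖ = ‖σ z‖)) := by
  have hXYZK : (algebraMap (𝓞 K) K X) ^ p + (algebraMap (𝓞 K) K Y) ^ p +
      (algebraMap (𝓞 K) K Z) ^ p = 0 := by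
    rw [← map_pow, ← map_pow, ← map_pow, ← map_add, ← map_add, hXYZ, map_zero]
  rw [mem_PI, mem_PI, mem_PI] at hn ⊢
  have hX1 : ‖σ (algebraMap (𝓞 K) K X)‖ ≤ 1 := norm_int σ X
  have hY1 : ‖σ (algebraMap (𝓞 K) K Y)‖ ≤ 1 := norm_int σ Y
  have hZ1 : ‖σ (algebraMap (𝓞 K) K Z)‖ ≤ 1 := norm_int σ Z
  have he : (σ (algebraMap (𝓞 K) K X)) ^ p + (σ (algebraMap (𝓞 K) K Y)) ^ p +
      (σ (algebraMap (𝓞 K) K Z)) ^ p = 0 := by
    have e1 := congrArg σ hXYZK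
    rwa [map_add, map_add, map_pow, map_pow, map_pow, map_zero] at e1
  have ha0 : 0 < ‖σ a‖ := norm_pos_iff.2 ((map_ne_zero σ).2 ha)
  have hXn : ‖σ (algebraMap (𝓞 K) K X)‖ = ‖σ a‖ * ‖σ x‖ := by rw [hXa, map_mul, norm_mul]
  have hYn : ‖σ (algebraMap (𝓞 K) K Y)‖ = ‖σ a‖ * ‖σ y‖ := by rw [hYa, map_mul, norm_mul]
  have hZn : ‖σ (algebraMap (𝓞 K) K Z)‖ = ‖σ a‖ * ‖σ z‖ := by rw [hZa, map_mul, norm_mul]
  have i1 := lt_iff hp0 he hY1 hn
  have i2 := lt_iff hp0 (A := σ (algebraMap (𝓞 K) K Y)) (B := σ (algebraMap (𝓞 K) K X))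
    (C := σ (algebraMap (𝓞 K) K Z)) (by rw [← he]; ring) hX1 (by tauto)
  have i3 := lt_iff hp0 (A := σ (algebraMap (𝓞 K) K Z)) (B := σ (algebraMap (𝓞 K) K X))
    (C := σ (algebraMap (𝓞 K) K Y)) (by rw [← he]; ring) hX1 (by tauto)
  refine ⟨?_, ?_, ?_⟩
  · rw [i1, hXn, hYn, mul_lt_mul_iff_right₀ ha0]
  · rw [i2, hXn, hYn, mul_lt_mul_iff_right₀ ha0]
  · constructor
    · rintro ⟨h3, h4, h5⟩
      have e1 : ‖σ (algebraMap (𝓞 K) K X)‖ = 1 := le_antisymm hX1 (not_lt.1 h3)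
      have e2 : ‖σ (algebraMap (𝓞 K) K Y)‖ = 1 := le_antisymm hY1 (not_lt.1 h4)
      have e3 : ‖σ (algebraMap (𝓞 K) K Z)‖ = 1 := le_antisymm hZ1 (not_lt.1 h5)
      rw [hXn] at e1
      rw [hYn] at e2
      rw [hZn] at e3
      exact ⟨mul_left_cancel₀ ha0.ne' (e1.trans e2.symm), mul_left_cancel₀ ha0.ne' (e2.trans e3.symm)⟩
    · rintro ⟨h3, h4⟩
      refine ⟨?_, ?_, ?_⟩
      · rw [i1, hXn, hYn, h3]
        exact lt_irrefl _
      · rw [i2, hXn, hYn, h3]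
        exact lt_irrefl _
      · rw [i3, hXn, hZn, h3, h4]
        exact lt_irrefl _

end

section

variable {p : ℕ} [Fact p.Prime] {K : Type} [Field K] [NumberField K]

/-- the number of embeddings of the first case -/
noncomputable def frst (r : ℕ) [Fact r.Prime] {K : Type} [Field K] (x y z : K) : ℕ :=
  Nat.card {σ : K →+* PadicAlgCl r // ‖σ x‖ = ‖σ y‖ ∧ ‖σ y‖ = ‖σ z‖}

/-- the number of embeddings of the first case at which `w` is in the residue class of `r` -/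
noncomputable def dist (q : ℕ) [Fact q.Prime] {K : Type} [Field K] (x y z w : K)
    (r : PadicAlgCl q) : ℕ :=
  Nat.card {σ : K →+* PadicAlgCl q // (‖σ x‖ = ‖σ y‖ ∧ ‖σ y‖ = ‖σ z‖) ∧ ‖σ w - r‖ < 1}

/-- **The symmetry of the residues of the first case.** -/
theorem mainS (h5 : 5 ≤ p) (h3m : 3 * Module.finrank ℚ K ≤ p) {x y z : K}
    (hx : x ≠ 0) (hy : y ≠ 0) (hz : z ≠ 0) (h : x ^ p + y ^ p + z ^ p = 0)
    (hreg : RegC p (frst p x y z)) :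
    (∀ r : PadicAlgCl p,
      dist p x y z (y / z) r = dist p x y z (x / y) r ∧
      dist p x y z (z / x) r = dist p x y z (x / y) r ∧
      dist p x y z (x / z) r = dist p x y z (x / y) r ∧
      dist p x y z (z / y) r = dist p x y z (x / y) r ∧
      dist p x y z (y / x) r = dist p x y z (x / y) r) ∧
    frst p x y z ≡ Nat.card {σ : K →+* PadicAlgCl p // (‖σ x‖ = ‖σ y‖ ∧ ‖σ y‖ = ‖σ z‖) ∧
      ‖σ (x - y)‖ < ‖σ x‖} [MOD 2] ∧
    frst p x y z ≡ Nat.card {σ : K →+* PadicAlgCl p // (‖σ x‖ = ‖σ y‖ ∧ ‖σ y‖ = ‖σ z‖) ∧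
      ‖σ (x ^ 2 + x * y + y ^ 2)‖ < ‖σ (x ^ 2)‖} [MOD 3] ∧
    ∃ a c : ℕ, frst p x y z = 6 * a +
        3 * Nat.card {σ : K →+* PadicAlgCl p // (‖σ x‖ = ‖σ y‖ ∧ ‖σ y‖ = ‖σ z‖) ∧
          ‖σ (x - y)‖ < ‖σ x‖} + 2 * c ∧
      Nat.card {σ : K →+* PadicAlgCl p // (‖σ x‖ = ‖σ y‖ ∧ ‖σ y‖ = ‖σ z‖) ∧
        ‖σ (x ^ 2 + x * y + y ^ 2)‖ < ‖σ (x ^ 2)‖} = 2 * c := by
  classical
  have hpp : p.Prime := Fact.out
  have hp0 := hpp.ne_zero
  have hm := Module.finrank_pos (R := ℚ) (M := K)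
  obtain ⟨E, _, _, ⟨c⟩⟩ := Pool.Agent.Y978.WQ.main p (by omega)
  obtain ⟨N, _, _, i, hcard, hD⟩ := Pool.Agent.Y258.WQ.mainDOWNG p E c K (by omega)
  have hD' : Dn p E N i := hD
  obtain ⟨a, X, Y, Z, ha, hXa, hYa, hZa, hX0, hY0, hZ0, hXYZ, hnp⟩ := prep2 hx hy hz h p hp0
    ⟨p, Nat.mem_primeFactors.2 ⟨hpp, dvd_refl _, hp0⟩⟩
  obtain ⟨ιp⟩ : Nonempty (N →+* PadicAlgCl p) := inferInstance
  have hPp : (PI ιp).IsPrime := PI_prime ιp
  have hbot : PI ιp ≠ ⊥ := by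
    intro h0
    have h1 := q_mem ιp
    rw [h0, Ideal.mem_bot] at h1
    exact hp0 (by exact_mod_cast h1)
  have hmax : (PI ιp).IsMaximal := hPp.isMaximal hbot
  let _ : Field (𝓞 N ⧸ PI ιp) := Ideal.Quotient.field (PI ιp)
  have hchar : CharP (𝓞 N ⧸ PI ιp) p := charP_quot (PI ιp) hPp p hpp (q_mem ιp)
  obtain ⟨ψ, hψ⟩ : ∃ ψ : 𝓞 N →+* 𝓞 N ⧸ PI ιp, ∀ w, ψ w = 0 ↔ ‖ιp (algebraMap (𝓞 N) N w)‖ < 1 :=
    ⟨Ideal.Quotient.mk (PI ιp), fun w => by rw [Ideal.Quotient.eq_zero_iff_mem, mem_PI]⟩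
  -- the residues
  obtain ⟨x', hx'⟩ : ∃ x' : (K →+* N) → 𝓞 N ⧸ PI ιp, ∀ τ, x' τ =
    ψ (RingOfIntegers.mapRingHom τ X) := ⟨_, fun _ => rfl⟩
  obtain ⟨y', hy'⟩ : ∃ y' : (K →+* N) → 𝓞 N ⧸ PI ιp, ∀ τ, y' τ =
    ψ (RingOfIntegers.mapRingHom τ Y) := ⟨_, fun _ => rfl⟩
  obtain ⟨z', hz'⟩ : ∃ z' : (K →+* N) → 𝓞 N ⧸ PI ιp, ∀ τ, z' τ =
    ψ (RingOfIntegers.mapRingHom τ Z) := ⟨_, fun _ => rfl⟩
  have hmem : ∀ (τ : K →+* N) (W : 𝓞 K), ψ (RingOfIntegers.mapRingHom τ W) = 0 ↔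
      W ∈ PI (ιp.comp τ) := by
    intro τ W
    rw [hψ, mem_PI]
    rfl
  have hnot : ∀ τ : K →+* N, ¬ (X ∈ PI (ιp.comp τ) ∧ Y ∈ PI (ιp.comp τ) ∧ Z ∈ PI (ιp.comp τ)) :=
    fun τ => hnp _ (PI_prime _) (q_mem _)
  have hF : ∀ τ : K →+* N, (x' τ ≠ 0 ∧ y' τ ≠ 0 ∧ z' τ ≠ 0) ↔
      (‖ιp.comp τ x‖ = ‖ιp.comp τ y‖ ∧ ‖ιp.comp τ y‖ = ‖ιp.comp τ z‖) := by
    intro τ
    rw [hx', hy', hz', Ne, Ne, Ne, hmem, hmem, hmem]
    exact (keyE hp0 (ιp.comp τ) ha hXa hYa hZa hXYZ (hnot τ)).2.2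
  have hsum : ∀ τ : K →+* N, x' τ + y' τ + z' τ = 0 := by
    intro τ
    have h1 := lin_p hpp (PI (ιp.comp τ)) (PI_prime _) (q_mem _) hXYZ
    rw [hx', hy', hz', ← map_add, ← map_add, ← map_add, ← map_add, hmem]
    exact h1
  obtain ⟨F, hFd⟩ : ∃ F : Finset (K →+* N), F = Finset.univ.filter
    (fun τ : K →+* N => x' τ ≠ 0 ∧ y' τ ≠ 0 ∧ z' τ ≠ 0) := ⟨_, rfl⟩
  have hmF : ∀ τ, τ ∈ F ↔ x' τ ≠ 0 ∧ y' τ ≠ 0 ∧ z' τ ≠ 0 := by
    intro τ
    rw [hFd, Finset.mem_filter]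
    simp only [Finset.mem_univ, true_and]
  have hcount : ∀ (P : (K →+* N) → Prop) (P' : (K →+* PadicAlgCl p) → Prop)
      (_ : ∀ τ ∈ F, P τ ↔ P' (ιp.comp τ)),
      Nat.card {σ : K →+* PadicAlgCl p // (‖σ x‖ = ‖σ y‖ ∧ ‖σ y‖ = ‖σ z‖) ∧ P' σ} =
        (F.filter P).card := by
    intro P P' hPP
    rw [← card_emb hcard ιp (fun τ => τ ∈ F ∧ P τ)
      (fun σ => (‖σ x‖ = ‖σ y‖ ∧ ‖σ y‖ = ‖σ z‖) ∧ P' σ) (by
        intro τ
        rw [← hF, ← hmF]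
        constructor
        · rintro ⟨h1, h2⟩
          exact ⟨h1, (hPP τ h1).1 h2⟩
        · rintro ⟨h1, h2⟩
          exact ⟨h1, (hPP τ h1).2 h2⟩), Nat.card_eq_fintype_card, Fintype.card_subtype]
    congr 1
    ext τ
    simp
  have hFcard : frst p x y z = F.card := by
    have h1 := hcount (fun _ => True) (fun _ => True) (fun _ _ => Iff.rfl)
    rw [Finset.filter_true] at h1
    rw [← h1]
    unfold frst
    exact Nat.card_congr (Equiv.subtypeEquivRight fun σ => by simp)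
  -- the three symmetries
  have hcardF : Nat.card {τ : K →+* N // ψ (RingOfIntegers.mapRingHom τ X) ≠ 0 ∧
      ψ (RingOfIntegers.mapRingHom τ Y) ≠ 0 ∧ ψ (RingOfIntegers.mapRingHom τ Z) ≠ 0} = F.card := by
    rw [Nat.card_eq_fintype_card, Fintype.card_subtype, hFd]
    congr 1
    ext τ
    simp only [Finset.mem_filter, Finset.mem_univ, true_and, hx', hy', hz']
  have hreg1 : RegC p F.card := by rw [← hFcard]; exact hreg
  have hs : Sol0 p K X Y Z := ⟨hX0, hY0, hZ0, hXYZ, hnp⟩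
  have s1 : F.val.map (fun τ => x' τ / y' τ) = F.val.map (fun τ => y' τ / x' τ) := by
    have h1 := symPal (by omega) c i hD' hcard h3m hs ψ (by rw [hcardF]; exact hreg1)
    have e : (Finset.univ.filter (fun τ : K →+* N => ψ (RingOfIntegers.mapRingHom τ X) ≠ 0 ∧
        ψ (RingOfIntegers.mapRingHom τ Y) ≠ 0 ∧ ψ (RingOfIntegers.mapRingHom τ Z) ≠ 0)) = F := by
      ext τ
      simp only [Finset.mem_filter, Finset.mem_univ, true_and, hmF, hx', hy', hz']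
    rw [e] at h1
    simp only [hx', hy']
    exact h1
  have s2 : F.val.map (fun τ => y' τ / z' τ) = F.val.map (fun τ => z' τ / y' τ) := by
    have hs' : Sol0 p K Y Z X := ⟨hY0, hZ0, hX0, by rw [← hXYZ]; ring,
      fun P hP hpP hn => hnp P hP hpP ⟨hn.2.2, hn.1, hn.2.1⟩⟩
    have hcardF' : Nat.card {τ : K →+* N // ψ (RingOfIntegers.mapRingHom τ Y) ≠ 0 ∧
      ψ (RingOfIntegers.mapRingHom τ Z) ≠ 0 ∧ ψ (RingOfIntegers.mapRingHom τ X) ≠ 0} = F.card := by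
      rw [← hcardF]
      exact Nat.card_congr (Equiv.subtypeEquivRight fun τ => by tauto)
    have h1 := symPal (by omega) c i hD' hcard h3m hs' ψ (by rw [hcardF']; exact hreg1)
    have e : (Finset.univ.filter (fun τ : K →+* N => ψ (RingOfIntegers.mapRingHom τ Y) ≠ 0 ∧
        ψ (RingOfIntegers.mapRingHom τ Z) ≠ 0 ∧ ψ (RingOfIntegers.mapRingHom τ X) ≠ 0)) = F := by
      ext τ
      simp only [Finset.mem_filter, Finset.mem_univ, true_and, hmF, hx', hy', hz']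
      tauto
    rw [e] at h1
    simp only [hz', hy']
    exact h1
  have s3 : F.val.map (fun τ => x' τ / z' τ) = F.val.map (fun τ => z' τ / x' τ) := by
    have hs' : Sol0 p K X Z Y := ⟨hX0, hZ0, hY0, by rw [← hXYZ]; ring,
      fun P hP hpP hn => hnp P hP hpP ⟨hn.1, hn.2.2, hn.2.1⟩⟩
    have hcardF' : Nat.card {τ : K →+* N // ψ (RingOfIntegers.mapRingHom τ X) ≠ 0 ∧
      ψ (RingOfIntegers.mapRingHom τ Z) ≠ 0 ∧ ψ (RingOfIntegers.mapRingHom τ Y) ≠ 0} = F.card := by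
      rw [← hcardF]
      exact Nat.card_congr (Equiv.subtypeEquivRight fun τ => by tauto)
    have h1 := symPal (by omega) c i hD' hcard h3m hs' ψ (by rw [hcardF']; exact hreg1)
    have e : (Finset.univ.filter (fun τ : K →+* N => ψ (RingOfIntegers.mapRingHom τ X) ≠ 0 ∧
        ψ (RingOfIntegers.mapRingHom τ Z) ≠ 0 ∧ ψ (RingOfIntegers.mapRingHom τ Y) ≠ 0)) = F := by
      ext τ
      simp only [Finset.mem_filter, Finset.mem_univ, true_and, hmF, hx', hy', hz']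
      tauto
    rw [e] at h1
    simp only [hz', hx']
    exact h1
  have hxF : ∀ τ ∈ F, x' τ ≠ 0 := fun τ hτ => ((hmF τ).1 hτ).1
  have hyF : ∀ τ ∈ F, y' τ ≠ 0 := fun τ hτ => ((hmF τ).1 hτ).2.1
  have hzF : ∀ τ ∈ F, z' τ ≠ 0 := fun τ hτ => ((hmF τ).1 hτ).2.2
  obtain ⟨t1, t2, t3, t4, t5⟩ := six F x' y' z' hxF hyF hzF hsum s1 s2 s3
  -- quotients and residues
  have hquot : ∀ (A B C D : 𝓞 K) (b d : K) (_ : b ≠ 0) (_ : d ≠ 0) (a0 c0 : K)
      (_ : algebraMap (𝓞 K) K A = a * a0) (_ : algebraMap (𝓞 K) K B = a * b)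
      (_ : algebraMap (𝓞 K) K C = a * c0) (_ : algebraMap (𝓞 K) K D = a * d)
      (τ τ' : K →+* N) (_ : ψ (RingOfIntegers.mapRingHom τ B) ≠ 0)
      (_ : ψ (RingOfIntegers.mapRingHom τ' D) ≠ 0),
      ‖ιp.comp τ (a0 / b) - ιp.comp τ' (c0 / d)‖ < 1 ↔
        ψ (RingOfIntegers.mapRingHom τ A) / ψ (RingOfIntegers.mapRingHom τ B) =
        ψ (RingOfIntegers.mapRingHom τ' C) / ψ (RingOfIntegers.mapRingHom τ' D) := by
    intro A B C D b d hb hd a0 c0 hA hB hC hDd τ τ' hB0 hD0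
    rw [div_eq_div_iff hB0 hD0, ← sub_eq_zero, ← map_mul, ← map_mul, ← map_sub, hψ]
    rw [Ne, hψ] at hB0 hD0
    have e1 : ∀ (ρ : K →+* N) (W : 𝓞 K), ιp (algebraMap (𝓞 N) N (RingOfIntegers.mapRingHom ρ W)) =
        ιp.comp ρ (algebraMap (𝓞 K) K W) := fun ρ W => rfl
    rw [e1, hB, map_mul] at hB0
    rw [e1, hDd, map_mul] at hD0
    have hB1 : ‖ιp.comp τ a * ιp.comp τ b‖ = 1 := by
      refine le_antisymm ?_ (not_lt.1 hB0)
      rw [← map_mul, ← hB]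
      exact norm_int _ _
    have hD1 : ‖ιp.comp τ' a * ιp.comp τ' d‖ = 1 := by
      refine le_antisymm ?_ (not_lt.1 hD0)
      rw [← map_mul, ← hDd]
      exact norm_int _ _
    have hb' : ιp.comp τ b ≠ 0 := (map_ne_zero _).2 hb
    have hd' : ιp.comp τ' d ≠ 0 := (map_ne_zero _).2 hd
    have ha1 : ιp.comp τ a ≠ 0 := (map_ne_zero _).2 ha
    have ha2 : ιp.comp τ' a ≠ 0 := (map_ne_zero _).2 ha
    have e2 : ιp (algebraMap (𝓞 N) N (RingOfIntegers.mapRingHom τ A * RingOfIntegers.mapRingHom τ' D -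
        RingOfIntegers.mapRingHom τ' C * RingOfIntegers.mapRingHom τ B)) =
        (ιp.comp τ (a0 / b) - ιp.comp τ' (c0 / d)) *
          ((ιp.comp τ a * ιp.comp τ b) * (ιp.comp τ' a * ιp.comp τ' d)) := by
      rw [map_sub, map_sub, map_mul, map_mul, map_mul, map_mul, e1, e1, e1, e1, hA, hB, hC, hDd,
        map_mul, map_mul, map_mul, map_mul, map_div₀, map_div₀]
      field_simp
    rw [e2, norm_mul, norm_mul, hB1, hD1, mul_one, mul_one]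
  have hB' : ∀ τ ∈ F, ψ (RingOfIntegers.mapRingHom τ X) ≠ 0 ∧
      ψ (RingOfIntegers.mapRingHom τ Y) ≠ 0 ∧ ψ (RingOfIntegers.mapRingHom τ Z) ≠ 0 := by
    intro τ hτ
    have h1 := (hmF τ).1 hτ
    rw [hx', hy', hz'] at h1
    exact h1
  have hdist : ∀ (w : K) (r : PadicAlgCl p), dist p x y z w r =
      (F.filter fun τ => ‖ιp.comp τ w - r‖ < 1).card := by
    intro w r
    exact hcount (fun τ => ‖ιp.comp τ w - r‖ < 1) (fun σ => ‖σ w - r‖ < 1) (fun _ _ => Iff.rfl)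
  have hcb : Nat.card {σ : K →+* PadicAlgCl p // (‖σ x‖ = ‖σ y‖ ∧ ‖σ y‖ = ‖σ z‖) ∧
      ‖σ (x - y)‖ < ‖σ x‖} = (F.filter fun τ => x' τ = y' τ).card := by
    rw [hcount (fun τ => x' τ = y' τ) (fun σ => ‖σ (x - y)‖ < ‖σ x‖)]
    intro τ hτ
    rw [hx', hy', ← sub_eq_zero, ← map_sub, ← map_sub, hmem, mem_PI]
    have e1 : algebraMap (𝓞 K) K (X - Y) = a * (x - y) := by
      rw [map_sub, hXa, hYa]
      ring
    have h1 : ‖ιp.comp τ a * ιp.comp τ x‖ = 1 := by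
      refine le_antisymm ?_ ?_
      · rw [← map_mul, ← hXa]
        exact norm_int _ _
      · have h2 := (hB' τ hτ).1
        rw [Ne, hmem, mem_PI, hXa, map_mul] at h2
        exact not_lt.1 h2
    rw [e1, map_mul, norm_mul, ← h1, norm_mul]
    exact mul_lt_mul_iff_right₀ (norm_pos_iff.2 ((map_ne_zero _).2 ha))
  have hcc : Nat.card {σ : K →+* PadicAlgCl p // (‖σ x‖ = ‖σ y‖ ∧ ‖σ y‖ = ‖σ z‖) ∧
      ‖σ (x ^ 2 + x * y + y ^ 2)‖ < ‖σ (x ^ 2)‖} =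
        (F.filter fun τ => x' τ ^ 2 + x' τ * y' τ + y' τ ^ 2 = 0).card := by
    rw [hcount (fun τ => x' τ ^ 2 + x' τ * y' τ + y' τ ^ 2 = 0)
      (fun σ => ‖σ (x ^ 2 + x * y + y ^ 2)‖ < ‖σ (x ^ 2)‖)]
    intro τ hτ
    have e0 : x' τ ^ 2 + x' τ * y' τ + y' τ ^ 2 =
        ψ (RingOfIntegers.mapRingHom τ (X ^ 2 + X * Y + Y ^ 2)) := by
      rw [hx', hy']
      simp only [map_add, map_mul, map_pow]
    rw [e0, hmem, mem_PI]
    have e1 : algebraMap (𝓞 K) K (X ^ 2 + X * Y + Y ^ 2) = a ^ 2 * (x ^ 2 + x * y + y ^ 2) := by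
      rw [map_add, map_add, map_pow, map_mul, map_pow, hXa, hYa]
      ring
    have h1 : ‖ιp.comp τ (a ^ 2) * ιp.comp τ (x ^ 2)‖ = 1 := by
      have h2 : ‖ιp.comp τ a * ιp.comp τ x‖ = 1 := by
        refine le_antisymm ?_ ?_
        · rw [← map_mul, ← hXa]
          exact norm_int _ _
        · have h2 := (hB' τ hτ).1
          rw [Ne, hmem, mem_PI, hXa, map_mul] at h2
          exact not_lt.1 h2
      rw [map_pow, map_pow, ← mul_pow, norm_pow, h2, one_pow]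
    rw [e1, map_mul, norm_mul, ← h1, norm_mul]
    exact mul_lt_mul_iff_right₀ (norm_pos_iff.2 ((map_ne_zero _).2 (pow_ne_zero 2 ha)))
  have h3k : (3 : 𝓞 N ⧸ PI ιp) ≠ 0 := by
    have h1 : ((3 : ℕ) : 𝓞 N ⧸ PI ιp) ≠ 0 := by
      rw [Ne, CharP.cast_eq_zero_iff _ p]
      intro hd
      have := Nat.le_of_dvd (by norm_num) hd
      omega
    exact_mod_cast h1
  refine ⟨?_, ?_, ?_, ?_⟩
  · intro r
    have h0 : ∀ s ∈ F, ∀ t ∈ F, ‖ιp.comp s (x / y) - ιp.comp t (x / y)‖ < 1 ↔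
        x' s / y' s = x' t / y' t := by
      intro s hs t ht
      rw [hx', hx', hy', hy']
      exact hquot X Y X Y y y hy hy x x hXa hYa hXa hYa s t (hB' s hs).2.1 (hB' t ht).2.1
    rw [hdist, hdist, hdist, hdist, hdist, hdist]
    refine ⟨?_, ?_, ?_, ?_, ?_⟩
    · refine count_eq F (fun τ => ιp.comp τ (x / y)) (fun τ => ιp.comp τ (y / z))
        (fun τ => x' τ / y' τ) (fun τ => y' τ / z' τ) h0 ?_ t1 r
      intro s hs t ht
      rw [hx', hz', hy', hy']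
      exact hquot Y Z X Y z y hz hy y x hYa hZa hXa hYa s t (hB' s hs).2.2 (hB' t ht).2.1
    · refine count_eq F (fun τ => ιp.comp τ (x / y)) (fun τ => ιp.comp τ (z / x))
        (fun τ => x' τ / y' τ) (fun τ => z' τ / x' τ) h0 ?_ t2 r
      intro s hs t ht
      rw [hx', hz', hx', hy']
      exact hquot Z X X Y x y hx hy z x hZa hXa hXa hYa s t (hB' s hs).1 (hB' t ht).2.1
    · refine count_eq F (fun τ => ιp.comp τ (x / y)) (fun τ => ιp.comp τ (x / z))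
        (fun τ => x' τ / y' τ) (fun τ => x' τ / z' τ) h0 ?_ t3 r
      intro s hs t ht
      rw [hx', hz', hx', hy']
      exact hquot X Z X Y z y hz hy x x hXa hZa hXa hYa s t (hB' s hs).2.2 (hB' t ht).2.1
    · refine count_eq F (fun τ => ιp.comp τ (x / y)) (fun τ => ιp.comp τ (z / y))
        (fun τ => x' τ / y' τ) (fun τ => z' τ / y' τ) h0 ?_ t4 r
      intro s hs t ht
      rw [hx', hz', hy', hy']
      exact hquot Z Y X Y y y hy hy z x hZa hYa hXa hYa s t (hB' s hs).2.1 (hB' t ht).2.1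
    · refine count_eq F (fun τ => ιp.comp τ (x / y)) (fun τ => ιp.comp τ (y / x))
        (fun τ => x' τ / y' τ) (fun τ => y' τ / x' τ) h0 ?_ t5 r
      intro s hs t ht
      rw [hx', hy', hx', hy']
      exact hquot Y X X Y x y hx hy y x hYa hXa hXa hYa s t (hB' s hs).1 (hB' t ht).2.1
  · rw [hFcard, hcb]
    exact count_two F x' y' z' hxF hyF hzF hsum t5
  · rw [hFcard, hcc]
    exact count_three F x' y' z' hxF hyF hzF hsum t1
  · rw [hFcard, hcb, hcc]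
    exact count_full F x' y' z' hxF hyF hzF hsum h3k t5 t1 t2

end

end Pool.Agent.V5helper55.FQ
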