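import Pool.Agent.V5helper55.FQ.SymE

/-!
# The primes above two, and the condition of Wieferich
-/

set_option autoImplicit false

namespace Pool.Agent.V5helper55.FQ

open Pool.Agent.Y546.WQ Pool.Agent.Y941.WQ NumberField IsDedekindDomain Polynomial

section

variable {p : ℕ} [Fact p.Prime] {K : Type} [Field K] [NumberField K]

/-- a solution of the type `(1, 1, -2)` at a place above `p` -/
theorem wiefL (hmp : Module.finrank ℚ K < p) (hp2 : p ≠ 2) (hW : ¬ p ^ 2 ∣ 2 ^ (p - 1) - 1)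
    (P : Ideal (𝓞 K)) (hP : P.IsPrime) (hpP : ((p : ℕ) : 𝓞 K) ∈ P)
    {X Y Z : 𝓞 K} (hs : X ^ p + Y ^ p + Z ^ p = 0) (hX : X ∉ P) (hXY : X - Y ∈ P) :
    False := by
  have hpp : p.Prime := Fact.out
  have hodd : Odd p := hpp.odd_of_ne_two hp2
  obtain ⟨n, hnm, hn1, hn2⟩ := exists_ram P hP hpP
  have h1 := lin_p hpp P hP hpP hs
  have h2 : Z - (-2 * X) ∈ P := by
    have : Z - (-2 * X) = (X + Y + Z) + (X - Y) := by ring
    rw [this]
    exact P.add_mem h1 hXY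
  have h3 := pow_sub_pow_mem hpp P hn1 (by omega) hXY
  have h4 := pow_sub_pow_mem hpp P hn1 (by omega) h2
  have h5 : X ^ p * (2 ^ p - 2) ∈ P ^ (n + 1) := by
    have e : X ^ p * (2 ^ p - 2) = (Z ^ p - (-2 * X) ^ p) - (X ^ p - Y ^ p) := by
      have e1 : (-2 * X) ^ p = -(2 ^ p * X ^ p) := by
        rw [neg_mul, hodd.neg_pow, mul_pow]
      rw [e1]
      linear_combination -hs
    rw [e]
    exact (P ^ (n + 1)).sub_mem h4 h3
  have h6 : (2 : 𝓞 K) ^ p - 2 ∈ P ^ (n + 1) := by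
    rcases Ideal.IsPrime.mul_mem_pow P h5 with h | h
    · exact absurd (hP.mem_of_pow_mem p h) hX
    · exact h
  have h7 : p ∣ 2 ^ (p - 1) - 1 := by
    have h8 : ((2 ^ (p - 1) - 1 : ℕ) : ZMod p) = 0 := by
      rw [Nat.cast_sub Nat.one_le_two_pow]
      push_cast
      rw [ZMod.pow_card_sub_one_eq_one, sub_self]
      have h : ((2 : ℕ) : ZMod p) ≠ 0 := by
        rw [Ne, ZMod.natCast_eq_zero_iff]
        intro hd
        exact hp2 ((Nat.prime_dvd_prime_iff_eq hpp Nat.prime_two).1 hd)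
      exact_mod_cast h
    exact (ZMod.natCast_eq_zero_iff _ _).1 h8
  obtain ⟨v, hv⟩ := h7
  have h8 : ((2 * v : ℕ) : 𝓞 K) * (p : 𝓞 K) ∈ P ^ (n + 1) := by
    have e : ((2 * v : ℕ) : 𝓞 K) * (p : 𝓞 K) = 2 ^ p - 2 := by
      have e1 : 2 * v * p = 2 ^ p - 2 := by
        have e2 : 2 ^ p = 2 * 2 ^ (p - 1) := by
          rw [← pow_succ']
          congr 1
          have := hpp.pos
          omega
        rw [e2, mul_assoc, mul_comm v p, ← hv, Nat.mul_sub]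
      have e3 := congrArg (fun w : ℕ => (w : 𝓞 K)) e1
      have e4 : 2 ≤ 2 ^ p := by
        calc 2 = 2 ^ 1 := by norm_num
          _ ≤ 2 ^ p := Nat.pow_le_pow_right (by norm_num) hpp.one_lt.le
      simp only [Nat.cast_mul] at e3
      rw [Nat.cast_sub e4] at e3
      push_cast at e3 ⊢
      exact e3
    rw [e]
    exact h6
  rcases Ideal.IsPrime.mul_mem_pow P h8 with h | h
  · have h9 := int_notMem P hP p hpp hpP (2 * v : ℕ) (by
      intro hd
      have hd' : p ∣ 2 * v := by exact_mod_cast hd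
      rcases (Nat.Prime.dvd_mul hpp).1 hd' with h' | h'
      · exact hp2 ((Nat.prime_dvd_prime_iff_eq hpp Nat.prime_two).1 h')
      · apply hW
        rw [hv, pow_two]
        exact Nat.mul_dvd_mul_left p h')
    exact h9 (by exact_mod_cast h)
  · exact hn2 h

/-- at the embeddings of the first case the unknowns have different residues -/
theorem wiefE (hmp : Module.finrank ℚ K < p) (hp2 : p ≠ 2) (hW : ¬ p ^ 2 ∣ 2 ^ (p - 1) - 1)
    {x y z : K} (hx : x ≠ 0) (hy : y ≠ 0) (hz : z ≠ 0) (h : x ^ p + y ^ p + z ^ p = 0)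
    (σ : K →+* PadicAlgCl p) (hσ : ‖σ x‖ = ‖σ y‖ ∧ ‖σ y‖ = ‖σ z‖) : ¬ ‖σ (x - y)‖ < ‖σ x‖ := by
  have hpp : p.Prime := Fact.out
  have hp0 := hpp.ne_zero
  intro hlt
  obtain ⟨a, X, Y, Z, ha, hXa, hYa, hZa, hX0, hY0, hZ0, hXYZ, hnp⟩ := prep2 hx hy hz h p hp0
    ⟨p, Nat.mem_primeFactors.2 ⟨hpp, dvd_refl _, hp0⟩⟩
  have hk := (keyE hp0 σ ha hXa hYa hZa hXYZ (hnp _ (PI_prime _) (q_mem _))).2.2.2 hσ
  refine wiefL hmp hp2 hW (PI σ) (PI_prime σ) (q_mem σ) hXYZ hk.1 ?_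
  have e1 : algebraMap (𝓞 K) K (X - Y) = a * (x - y) := by
    rw [map_sub, hXa, hYa]
    ring
  have h1 : ‖σ a * σ x‖ = 1 := by
    refine le_antisymm ?_ ?_
    · rw [← map_mul, ← hXa]
      exact norm_int _ _
    · have h2 := hk.1
      rw [mem_PI, hXa, map_mul] at h2
      exact not_lt.1 h2
  rw [mem_PI, e1, map_mul, norm_mul, ← h1, norm_mul]
  exact (mul_lt_mul_iff_right₀ (norm_pos_iff.2 ((_root_.map_ne_zero _).2 ha))).2 hlt

/-- the number of embeddings at two at which no unknown is smaller than the others is even -/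
theorem even_two (h5 : 5 ≤ p) (h3m : 3 * Module.finrank ℚ K ≤ p) {x y z : K}
    (hx : x ≠ 0) (hy : y ≠ 0) (hz : z ≠ 0) (h : x ^ p + y ^ p + z ^ p = 0)
    (hgood : Good p 2 K x y z) : Even (frst 2 x y z) := by
  classical
  have hpp : p.Prime := Fact.out
  have hp0 := hpp.ne_zero
  have hodd : Odd p := hpp.odd_of_ne_two (by omega)
  have hm := Module.finrank_pos (R := ℚ) (M := K)
  obtain ⟨E, _, _, ⟨c⟩⟩ := Pool.Agent.Y978.WQ.main p (by omega)
  obtain ⟨N, _, _, i, hcard, -⟩ := Pool.Agent.Y258.WQ.mainDOWNG p E c K (by omega)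
  obtain ⟨a, X', Y, Z, ha, hXa, hYa, hZa, hX0, hY0, hZ0, hXYZ, hn2⟩ := prep2 hx hy hz h 2 two_ne_zero
    ⟨2, Nat.mem_primeFactors.2 ⟨Nat.prime_two, dvd_refl _, two_ne_zero⟩⟩
  have hloc : Loc 2 K X' Y Z := loc_of_good hpp h5 Nat.prime_two ha hXa hYa hZa hXYZ hn2 hgood
  obtain ⟨ι⟩ : Nonempty (N →+* PadicAlgCl 2) := inferInstance
  have hP2 : (PI ι).IsPrime := PI_prime ι
  have hbot : PI ι ≠ ⊥ := by
    intro h0
    have h1 := q_mem ι
    rw [h0, Ideal.mem_bot] at h1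
    exact two_ne_zero (α := ℕ) (by exact_mod_cast h1)
  have hmax : (PI ι).IsMaximal := hP2.isMaximal hbot
  let _ : Field (𝓞 N ⧸ PI ι) := Ideal.Quotient.field (PI ι)
  have hchar : CharP (𝓞 N ⧸ PI ι) 2 := charP_quot (PI ι) hP2 2 Nat.prime_two (q_mem ι)
  obtain ⟨ψ, hψ⟩ : ∃ ψ : 𝓞 N →+* 𝓞 N ⧸ PI ι, ∀ w, ψ w = 0 ↔ ‖ι (algebraMap (𝓞 N) N w)‖ < 1 :=
    ⟨Ideal.Quotient.mk (PI ι), fun w => by rw [Ideal.Quotient.eq_zero_iff_mem, mem_PI]⟩
  obtain ⟨x', hx'⟩ : ∃ x' : (K →+* N) → 𝓞 N ⧸ PI ι, ∀ τ, x' τ =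
    ψ (RingOfIntegers.mapRingHom τ X') := ⟨_, fun _ => rfl⟩
  obtain ⟨y', hy'⟩ : ∃ y' : (K →+* N) → 𝓞 N ⧸ PI ι, ∀ τ, y' τ =
    ψ (RingOfIntegers.mapRingHom τ Y) := ⟨_, fun _ => rfl⟩
  obtain ⟨z', hz'⟩ : ∃ z' : (K →+* N) → 𝓞 N ⧸ PI ι, ∀ τ, z' τ =
    ψ (RingOfIntegers.mapRingHom τ Z) := ⟨_, fun _ => rfl⟩
  have hmem : ∀ (τ : K →+* N) (W : 𝓞 K), ψ (RingOfIntegers.mapRingHom τ W) = 0 ↔
      W ∈ PI (ι.comp τ) := by
    intro τ W
    rw [hψ, mem_PI]
    rfl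
  have hnot : ∀ τ : K →+* N, ¬ (X' ∈ PI (ι.comp τ) ∧ Y ∈ PI (ι.comp τ) ∧ Z ∈ PI (ι.comp τ)) :=
    fun τ => hn2 _ (PI_prime _) (q_mem _)
  have hF : ∀ τ : K →+* N, (x' τ ≠ 0 ∧ y' τ ≠ 0 ∧ z' τ ≠ 0) ↔
      (‖ι.comp τ x‖ = ‖ι.comp τ y‖ ∧ ‖ι.comp τ y‖ = ‖ι.comp τ z‖) := by
    intro τ
    rw [hx', hy', hz', Ne, Ne, Ne, hmem, hmem, hmem]
    exact (keyE hp0 (ι.comp τ) ha hXa hYa hZa hXYZ (hnot τ)).2.2
  have hpow : ∀ τ : K →+* N, x' τ ^ p + y' τ ^ p + z' τ ^ p = 0 := by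
    intro τ
    have h1 := congrArg (fun w => ψ (RingOfIntegers.mapRingHom τ w)) hXYZ
    simp only [map_add, map_pow, map_zero] at h1
    rw [hx', hy', hz']
    exact h1
  have hneg : ∀ w : 𝓞 N ⧸ PI ι, -w = w := fun w => CharTwo.neg_eq w
  -- the local conditions
  have hlocτ : ∀ τ : K →+* N, (x' τ = 0 ∧ y' τ ≠ 0) ∨ (y' τ = 0 ∧ x' τ ≠ 0) ∨
      (x' τ ≠ 0 ∧ y' τ ≠ 0 ∧ x' τ = y' τ) ∨
      (x' τ ≠ 0 ∧ y' τ ≠ 0 ∧ z' τ ≠ 0 ∧ x' τ ^ 3 = y' τ ^ 3) := by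
    intro τ
    have h1 := hloc (PI (ι.comp τ)) (PI_prime _) (q_mem _)
    rw [← hmem, ← hmem, ← hmem, ← hmem, ← hmem, ← hx', ← hy', ← hz'] at h1
    rcases h1 with h1 | h1 | ⟨h1, h2, h3⟩ | ⟨h1, h2, h3, h4⟩
    · exact Or.inl h1
    · exact Or.inr (Or.inl h1)
    · refine Or.inr (Or.inr (Or.inl ⟨h1, h2, ?_⟩))
      rw [map_add, map_add, ← hx', ← hy'] at h3
      rw [← hneg (y' τ)]
      exact eq_neg_of_add_eq_zero_left h3
    · refine Or.inr (Or.inr (Or.inr ⟨h1, h2, h3, ?_⟩))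
      rw [map_sub, map_sub, map_pow, map_pow, map_pow, map_pow, ← hx', ← hy', sub_eq_zero] at h4
      exact h4
  have hzz : ∀ τ : K →+* N, x' τ = y' τ → z' τ = 0 := by
    intro τ h1
    have h2 := hpow τ
    rw [h1] at h2
    have h3 : (2 : 𝓞 N ⧸ PI ι) = 0 := CharTwo.two_eq_zero
    have h4 : z' τ ^ p = 0 := by linear_combination h2 - y' τ ^ p * h3
    exact (pow_eq_zero_iff hp0).1 h4
  -- the polynomial
  obtain ⟨f, -, -, -, -, hf⟩ := Pool.Agent.Y290.WQ.mainNORM K X' Y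
  have hf := hf N hcard
  have hfx : f.map (Int.castRingHom (𝓞 N ⧸ PI ι)) = ∏ τ, (Polynomial.C (x' τ) +
      X * Polynomial.C (y' τ)) := by
    rw [map_nrmP ψ X' Y f hf]
    refine Finset.prod_congr rfl fun τ _ => ?_
    rw [hx', hy']
  obtain ⟨φ, hφ⟩ : ∃ φ : (𝓞 N ⧸ PI ι) →+* (𝓞 N ⧸ PI ι), ∀ w, φ w = w ^ 2 :=
    ⟨frobenius _ 2, fun w => rfl⟩
  have hfx2 : ∏ τ, (Polynomial.C (x' τ) + X * Polynomial.C (y' τ)) =
      ∏ τ, (Polynomial.C (x' τ ^ 2) + X * Polynomial.C (y' τ ^ 2)) := by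
    have h1 : (f.map (Int.castRingHom (𝓞 N ⧸ PI ι))).map φ =
        f.map (Int.castRingHom (𝓞 N ⧸ PI ι)) := by
      rw [Polynomial.map_map]
      congr 1
      exact RingHom.ext_int _ _
    rw [hfx, Polynomial.map_prod] at h1
    rw [← h1]
    refine Finset.prod_congr rfl fun τ _ => ?_
    rw [Polynomial.map_add, Polynomial.map_mul, map_C, map_C, map_X, hφ, hφ]
  obtain ⟨S, hS⟩ : ∃ S : Finset (K →+* N), S = Finset.univ.filter (fun τ => y' τ ≠ 0) := ⟨_, rfl⟩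
  have key : ∀ (u v : (K →+* N) → 𝓞 N ⧸ PI ι), (∀ τ, v τ ≠ 0 ↔ y' τ ≠ 0) →
      (∀ τ, v τ = 0 → u τ ≠ 0) →
      (∏ τ, (C (u τ) + X * C (v τ))).roots = S.val.map (fun t => -(u t / v t)) := by
    intro u v hv hu
    rw [← Finset.prod_filter_mul_prod_filter_not Finset.univ (fun τ => y' τ ≠ 0)]
    have e1 : ∏ τ ∈ Finset.univ.filter (fun τ => ¬ y' τ ≠ 0), (C (u τ) + X * C (v τ)) =
        C (∏ τ ∈ Finset.univ.filter (fun τ => ¬ y' τ ≠ 0), u τ) := by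
      rw [map_prod]
      refine Finset.prod_congr rfl fun τ hτ => ?_
      have h1 := (Finset.mem_filter.1 hτ).2
      rw [← hv, not_not] at h1
      rw [h1, C_0, mul_zero, add_zero]
    have e2 : ∏ τ ∈ Finset.univ.filter (fun τ => y' τ ≠ 0), (C (u τ) + X * C (v τ)) =
        C (∏ t ∈ S, v t) * ((S.val.map (fun t => -(u t / v t))).map (fun r => X - C r)).prod := by
      rw [← hS, map_prod, Multiset.map_map, ← Finset.prod_eq_multiset_prod,
        ← Finset.prod_mul_distrib]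
      refine Finset.prod_congr rfl fun t ht => ?_
      rw [hS] at ht
      have := (hv t).2 (Finset.mem_filter.1 ht).2
      simp only [Function.comp_apply, C_neg, sub_neg_eq_add, mul_add, ← C_mul]
      rw [mul_div_cancel₀ _ this]
      ring
    have n1 : ∏ t ∈ S, v t ≠ 0 := by
      refine Finset.prod_ne_zero_iff.2 fun t ht => ?_
      rw [hS] at ht
      exact (hv t).2 (Finset.mem_filter.1 ht).2
    have n2 : ∏ τ ∈ Finset.univ.filter (fun τ => ¬ y' τ ≠ 0), u τ ≠ 0 := by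
      refine Finset.prod_ne_zero_iff.2 fun t ht => ?_
      have h1 := (Finset.mem_filter.1 ht).2
      rw [← hv, not_not] at h1
      exact hu t h1
    rw [e1, e2, mul_comm, roots_C_mul _ n2, roots_C_mul _ n1, roots_multiset_prod_X_sub_C]
  have hyx : ∀ τ, y' τ = 0 → x' τ ≠ 0 := by
    intro τ h1
    rcases hlocτ τ with h2 | h2 | h2 | h2
    · exact absurd h1 h2.2
    · exact h2.2
    · exact h2.1
    · exact h2.1
  have hM : S.val.map (fun t => x' t / y' t) =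
      (S.val.map (fun t => x' t / y' t)).map (fun r => r ^ 2) := by
    have h1 := congrArg Polynomial.roots hfx2
    rw [key x' y' (fun τ => Iff.rfl) hyx, key (fun τ => x' τ ^ 2) (fun τ => y' τ ^ 2)
      (fun τ => by rw [Ne, pow_eq_zero_iff two_ne_zero])
      (fun τ h => pow_ne_zero 2 (hyx τ ((pow_eq_zero_iff two_ne_zero).1 h)))] at h1
    rw [Multiset.map_map]
    have h2 := congrArg (Multiset.map (fun r : 𝓞 N ⧸ PI ι => -r)) h1
    rw [Multiset.map_map, Multiset.map_map] at h2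
    simp only [Function.comp_def, neg_neg] at h2 ⊢
    rw [h2]
    refine Multiset.map_congr rfl fun t _ => ?_
    rw [div_pow]
  -- the embeddings without a smaller unknown
  obtain ⟨F, hFd⟩ : ∃ F : Finset (K →+* N), F = Finset.univ.filter
    (fun τ : K →+* N => x' τ ≠ 0 ∧ y' τ ≠ 0 ∧ z' τ ≠ 0) := ⟨_, rfl⟩
  have hmF : ∀ τ, τ ∈ F ↔ x' τ ≠ 0 ∧ y' τ ≠ 0 ∧ z' τ ≠ 0 := by
    intro τ
    rw [hFd, Finset.mem_filter]
    simp only [Finset.mem_univ, true_and]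
  obtain ⟨Q, hQ⟩ : ∃ Q : (𝓞 N ⧸ PI ι) → Prop, Q = fun r => r ≠ 0 ∧ r ≠ 1 := ⟨_, rfl⟩
  have hFval : F.val.map (fun t => x' t / y' t) =
      (S.val.map (fun t => x' t / y' t)).filter Q := by
    rw [Multiset.filter_map]
    congr 1
    have : F = S.filter (Q ∘ fun t => x' t / y' t) := by
      ext τ
      rw [hmF, Finset.mem_filter, hS, Finset.mem_filter, hQ]
      simp only [Finset.mem_univ, true_and, Function.comp_apply]
      constructor
      · rintro ⟨h1, h2, h3⟩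
        refine ⟨h2, div_ne_zero h1 h2, fun h4 => h3 (hzz τ ?_)⟩
        rwa [div_eq_one_iff_eq h2] at h4
      · rintro ⟨h1, h2, h3⟩
        have h4 : x' τ ≠ 0 := fun h => h2 (by rw [h, zero_div])
        refine ⟨h4, h1, ?_⟩
        rcases hlocτ τ with h5 | h5 | h5 | h5
        · exact absurd h5.1 h4
        · exact absurd h5.1 h1
        · exact absurd ((div_eq_one_iff_eq h1).2 h5.2.2) h3
        · exact h5.2.2.1
    rw [this]
    rfl
  have hQ2 : ∀ r, Q (r ^ 2) ↔ Q r := by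
    intro r
    rw [hQ]
    simp only [Ne, pow_eq_zero_iff two_ne_zero]
    have : r ^ 2 = 1 ↔ r = 1 := by
      constructor
      · intro h1
        have h2 : (r - 1) ^ 2 = 0 := by
          have h3 : (2 : 𝓞 N ⧸ PI ι) = 0 := CharTwo.two_eq_zero
          linear_combination h1 + (1 - r) * h3
        exact sub_eq_zero.1 ((pow_eq_zero_iff two_ne_zero).1 h2)
      · rintro rfl
        exact one_pow 2
    rw [this]
  have hFm : (F.val.map (fun t => x' t / y' t)).map (fun r => r ^ 2) =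
      F.val.map (fun t => x' t / y' t) := by
    rw [hFval]
    nth_rw 2 [hM]
    rw [Multiset.filter_map (f := fun r : 𝓞 N ⧸ PI ι => r ^ 2)]
    congr 1
    exact Multiset.filter_congr fun r _ => (hQ2 r).symm
  have hmu : ∀ r ∈ F.val.map (fun t => x' t / y' t), r ^ 3 = 1 ∧ r ≠ 0 ∧ r ≠ 1 := by
    intro r hr
    obtain ⟨t, ht, rfl⟩ := Multiset.mem_map.1 hr
    obtain ⟨h1, h2, h3⟩ := (hmF t).1 ht
    have h4 : x' t ≠ y' t := fun h4 => h3 (hzz t h4)
    refine ⟨?_, div_ne_zero h1 h2, fun h5 => h4 ((div_eq_one_iff_eq h2).1 h5)⟩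
    rcases hlocτ t with h5 | h5 | h5 | h5
    · exact absurd h5.1 h1
    · exact absurd h5.1 h2
    · exact absurd h5.2.2 h4
    · rw [div_pow, h5.2.2.2, div_self (pow_ne_zero 3 h2)]
  have hfin := card_fix (F.val.map (fun t => x' t / y' t)) (fun r => r ^ 2) 2 Nat.prime_two
    (by
      intro u _ v _ huv
      have h3 : (2 : 𝓞 N ⧸ PI ι) = 0 := CharTwo.two_eq_zero
      have huv' : u ^ 2 = v ^ 2 := huv
      have h2 : (u - v) ^ 2 = 0 := by linear_combination huv' + (v ^ 2 - u * v) * h3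
      exact sub_eq_zero.1 ((pow_eq_zero_iff two_ne_zero).1 h2)) hFm (by
      intro r hr
      have h1 := (hmu r hr).1
      show (r ^ 2) ^ 2 = r
      linear_combination r * h1)
  have hzero : (F.val.map (fun t => x' t / y' t)).filter (fun r => r ^ 2 = r) = 0 := by
    rw [Multiset.filter_eq_nil]
    intro r hr h1
    obtain ⟨-, h2, h3⟩ := hmu r hr
    have h4 : r * (r - 1) = 0 := by linear_combination h1
    rcases mul_eq_zero.1 h4 with h5 | h5
    · exact h2 h5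
    · exact h3 (sub_eq_zero.1 h5)
  rw [hzero, Multiset.card_zero, Multiset.card_map] at hfin
  have hFcard : frst 2 x y z = F.card := by
    unfold frst
    rw [← card_emb hcard ι (fun τ => τ ∈ F) (fun σ => ‖σ x‖ = ‖σ y‖ ∧ ‖σ y‖ = ‖σ z‖)
      (fun τ => by rw [hmF, hF]), Nat.card_eq_fintype_card, Fintype.card_coe]
  rw [hFcard, Nat.even_iff]
  exact hfin

end

end Pool.Agent.V5helper55.FQ
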