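import Pool.Agent.V5helper55.FQ.Types2

/-!
# Primes of norm two
-/

set_option autoImplicit false

namespace Pool.Agent.V5helper55.FQ

open Pool.Agent.Y546.WQ Pool.Agent.Y941.WQ NumberField IsDedekindDomain

section

variable {p : ℕ} [Fact p.Prime] {K : Type} [Field K] [NumberField K]

/-- at a prime of norm two one of the unknowns is smaller -/
theorem norm_two (hp3 : 3 ≤ p) {X Y Z : 𝓞 K} (h : X ^ p + Y ^ p + Z ^ p = 0) (P : Ideal (𝓞 K))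
    (hP : P.IsPrime) (h2 : Nat.card (𝓞 K ⧸ P) = 2) : X ∈ P ∨ Y ∈ P ∨ Z ∈ P := by
  classical
  by_contra hcon
  push Not at hcon
  obtain ⟨h3, h4, h5⟩ := hcon
  have hfin : Finite (𝓞 K ⧸ P) := Nat.finite_of_card_ne_zero (by omega)
  have := Fintype.ofFinite (𝓞 K ⧸ P)
  have := hP
  have hone : ∀ w : 𝓞 K, w ∉ P → Ideal.Quotient.mk P w = 1 := by
    intro w hw
    by_contra h6
    have h7 : Ideal.Quotient.mk P w ≠ 0 := fun h => hw (Ideal.Quotient.eq_zero_iff_mem.1 h)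
    have h01 : (0 : 𝓞 K ⧸ P) ≠ 1 := zero_ne_one
    have h8 : ({0, 1, Ideal.Quotient.mk P w} : Finset (𝓞 K ⧸ P)).card = 3 := by
      rw [Finset.card_insert_of_notMem, Finset.card_insert_of_notMem, Finset.card_singleton]
      · simpa using fun h => h6 h.symm
      · simp only [Finset.mem_insert, Finset.mem_singleton, not_or]
        exact ⟨h01, fun h => h7 h.symm⟩
    have h9 := Finset.card_le_univ ({0, 1, Ideal.Quotient.mk P w} : Finset (𝓞 K ⧸ P))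
    rw [h8, ← Nat.card_eq_fintype_card, h2] at h9
    omega
  have e := congrArg (Ideal.Quotient.mk P) h
  rw [map_add, map_add, map_pow, map_pow, map_pow, hone _ h3, hone _ h4, hone _ h5, one_pow,
    map_zero] at e
  have h6 : (2 : 𝓞 K ⧸ P) = 0 := by
    have h7 : ((Nat.card (𝓞 K ⧸ P) : ℕ) : 𝓞 K ⧸ P) = 0 := by
      rw [Nat.card_eq_fintype_card]
      exact Nat.cast_card_eq_zero _
    rw [h2] at h7
    exact_mod_cast h7
  have h7 : (1 : 𝓞 K ⧸ P) = 0 := by linear_combination e - h6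
  exact one_ne_zero h7

theorem frst_two (hp3 : 3 ≤ p) {x y z : K} (hx : x ≠ 0) (hy : y ≠ 0) (hz : z ≠ 0)
    (h : x ^ p + y ^ p + z ^ p = 0)
    (h2 : ∀ v : HeightOneSpectrum (𝓞 K), ((2 : ℕ) : 𝓞 K) ∈ v.asIdeal →
      Nat.card (𝓞 K ⧸ v.asIdeal) = 2) : frst 2 x y z = 0 := by
  have hp0 : p ≠ 0 := by omega
  obtain ⟨a, X, Y, Z, ha, hXa, hYa, hZa, hX0, hY0, hZ0, hXYZ, hn2⟩ := prep2 hx hy hz h 2 two_ne_zero
    ⟨2, Nat.mem_primeFactors.2 ⟨Nat.prime_two, dvd_refl _, two_ne_zero⟩⟩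
  unfold frst
  rw [Nat.card_eq_zero]
  left
  refine ⟨fun ⟨σ, hσ⟩ => ?_⟩
  have hk := (keyE hp0 σ ha hXa hYa hZa hXYZ (hn2 _ (PI_prime _) (q_mem _))).2.2.2 hσ
  have hP0 : PI σ ≠ ⊥ := by
    intro h0
    have h1 := q_mem σ
    rw [h0, Ideal.mem_bot] at h1
    exact two_ne_zero (α := ℕ) (by exact_mod_cast h1)
  rcases norm_two hp3 hXYZ (PI σ) (PI_prime σ) (h2 ⟨PI σ, PI_prime σ, hP0⟩ (q_mem σ)) with h1 | h1 | h1
  · exact hk.1 h1
  · exact hk.2.1 h1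
  · exact hk.2.2 h1

/-- only one prime above two -/
theorem one_two (hp3 : 3 ≤ p) {x y z : K} (hx : x ≠ 0) (hy : y ≠ 0) (hz : z ≠ 0)
    (h : x ^ p + y ^ p + z ^ p = 0)
    (h2 : ∀ v : HeightOneSpectrum (𝓞 K), ((2 : ℕ) : 𝓞 K) ∈ v.asIdeal →
      Nat.card (𝓞 K ⧸ v.asIdeal) = 2)
    (h1 : ∀ v v' : HeightOneSpectrum (𝓞 K), ((2 : ℕ) : 𝓞 K) ∈ v.asIdeal →
      ((2 : ℕ) : 𝓞 K) ∈ v'.asIdeal → v = v') :
    emb 2 x y = Module.finrank ℚ K ∨ emb 2 y z = Module.finrank ℚ K ∨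
      emb 2 z x = Module.finrank ℚ K := by
  have hp0 : p ≠ 0 := by omega
  obtain ⟨a, X, Y, Z, ha, hXa, hYa, hZa, hX0, hY0, hZ0, hXYZ, hn2⟩ := prep2 hx hy hz h 2 two_ne_zero
    ⟨2, Nat.mem_primeFactors.2 ⟨Nat.prime_two, dvd_refl _, two_ne_zero⟩⟩
  have hP0 : ∀ σ : K →+* PadicAlgCl 2, PI σ ≠ ⊥ := by
    intro σ h0
    have h1 := q_mem σ
    rw [h0, Ideal.mem_bot] at h1
    exact two_ne_zero (α := ℕ) (by exact_mod_cast h1)
  obtain ⟨ρ⟩ : Nonempty (K →+* PadicAlgCl 2) := inferInstance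
  have hsame : ∀ σ : K →+* PadicAlgCl 2, PI σ = PI ρ := by
    intro σ
    have h3 := h1 ⟨PI σ, PI_prime σ, hP0 σ⟩ ⟨PI ρ, PI_prime ρ, hP0 ρ⟩ (q_mem σ) (q_mem ρ)
    exact congrArg HeightOneSpectrum.asIdeal h3
  have hall : ∀ a b : K, (∀ σ : K →+* PadicAlgCl 2, ‖σ a‖ < ‖σ b‖) →
      emb 2 a b = Module.finrank ℚ K := by
    intro a b hab
    unfold emb
    rw [← NumberField.Embeddings.card K (PadicAlgCl 2), ← Nat.card_eq_fintype_card]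
    exact Nat.card_congr (Equiv.subtypeUnivEquiv hab)
  have hXYZ' : Y ^ p + Z ^ p + X ^ p = 0 := by rw [← hXYZ]; ring
  have hXYZ'' : Z ^ p + X ^ p + Y ^ p = 0 := by rw [← hXYZ]; ring
  rcases norm_two hp3 hXYZ (PI ρ) (PI_prime ρ) (h2 ⟨PI ρ, PI_prime ρ, hP0 ρ⟩ (q_mem ρ)) with
    h3 | h3 | h3
  · left
    refine hall x y fun σ => ?_
    rw [← hsame σ] at h3
    exact (keyE hp0 σ ha hXa hYa hZa hXYZ (hn2 _ (PI_prime _) (q_mem _))).1.1 h3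
  · right; left
    refine hall y z fun σ => ?_
    rw [← hsame σ] at h3
    exact (keyE hp0 σ ha hYa hZa hXa hXYZ' (fun hh => hn2 (PI σ) (PI_prime _) (q_mem _)
      ⟨hh.2.2, hh.1, hh.2.1⟩)).1.1 h3
  · right; right
    refine hall z x fun σ => ?_
    rw [← hsame σ] at h3
    exact (keyE hp0 σ ha hZa hXa hYa hXYZ'' (fun hh => hn2 (PI σ) (PI_prime _) (q_mem _)
      ⟨hh.2.1, hh.2.2, hh.1⟩)).1.1 h3

end

end Pool.Agent.V5helper55.FQ
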