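import Pool.Agent.V5helper55.FQ.Pow

/-!
# Primes above two of norm different from four
-/

set_option autoImplicit false

namespace Pool.Agent.V5helper55.FQ

open Pool.Agent.Y546.WQ Pool.Agent.Y941.WQ NumberField IsDedekindDomain

section

variable {p : ℕ} [Fact p.Prime] {K : Type} [Field K] [NumberField K]

theorem PI_ne_bot {q : ℕ} [Fact q.Prime] (σ : K →+* PadicAlgCl q) : PI σ ≠ ⊥ := by
  intro h0
  have h1 := q_mem σ
  rw [h0, Ideal.mem_bot] at h1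
  exact (Fact.out : q.Prime).ne_zero (by exact_mod_cast h1)

/-- no embedding at two is balanced -/
theorem frst_two' (hp3 : 3 ≤ p) {x y z : K} (hx : x ≠ 0) (hy : y ≠ 0) (hz : z ≠ 0)
    (h : x ^ p + y ^ p + z ^ p = 0)
    (h2 : ∀ v : HeightOneSpectrum (𝓞 K), ((2 : ℕ) : 𝓞 K) ∈ v.asIdeal →
      Nat.card (𝓞 K ⧸ v.asIdeal) = 2 ∨
        ¬ (v.valuation K x = v.valuation K y ∧ v.valuation K y = v.valuation K z)) :
    frst 2 x y z = 0 := by
  have hp0 : p ≠ 0 := by omega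
  obtain ⟨a, X, Y, Z, ha, hXa, hYa, hZa, hX0, hY0, hZ0, hXYZ, hn2⟩ := prep2 hx hy hz h 2 two_ne_zero
    ⟨2, Nat.mem_primeFactors.2 ⟨Nat.prime_two, dvd_refl _, two_ne_zero⟩⟩
  unfold frst
  rw [Nat.card_eq_zero]
  left
  refine ⟨fun ⟨σ, hσ⟩ => ?_⟩
  have hk := (keyE hp0 σ ha hXa hYa hZa hXYZ (hn2 _ (PI_prime _) (q_mem _))).2.2.2 hσ
  obtain ⟨v, hv⟩ : ∃ v : HeightOneSpectrum (𝓞 K), v.asIdeal = PI σ :=
    ⟨⟨PI σ, PI_prime σ, PI_ne_bot σ⟩, rfl⟩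
  rcases h2 v (by rw [hv]; exact q_mem σ) with h3 | h3
  · rw [hv] at h3
    rcases norm_two hp3 hXYZ (PI σ) (PI_prime σ) h3 with h1 | h1 | h1
    · exact hk.1 h1
    · exact hk.2.1 h1
    · exact hk.2.2 h1
  · apply h3
    have hva : v.valuation K a ≠ 0 := (Valuation.ne_zero_iff _).2 ha
    have hone : ∀ (w : K) (W : 𝓞 K), algebraMap (𝓞 K) K W = a * w → W ∉ PI σ →
        v.valuation K a * v.valuation K w = 1 := by
      intro w W hW hWP
      rw [← map_mul, ← hW]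
      refine le_antisymm (v.valuation_le_one W) ?_
      rw [← hv] at hWP
      rw [← not_lt]
      intro hlt
      exact hWP ((v.valuation_lt_one_iff_mem (K := K) W).1 hlt)
    have e1 := hone x X hXa hk.1
    have e2 := hone y Y hYa hk.2.1
    have e3 := hone z Z hZa hk.2.2
    exact ⟨mul_left_cancel₀ hva (e1.trans e2.symm), mul_left_cancel₀ hva (e2.trans e3.symm)⟩

/-- only one prime above two -/
theorem one_two' (hp0 : p ≠ 0) {x y z : K} (hx : x ≠ 0) (hy : y ≠ 0) (hz : z ≠ 0)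
    (h : x ^ p + y ^ p + z ^ p = 0) (hfr : frst 2 x y z = 0)
    (h1 : ∀ v v' : HeightOneSpectrum (𝓞 K), ((2 : ℕ) : 𝓞 K) ∈ v.asIdeal →
      ((2 : ℕ) : 𝓞 K) ∈ v'.asIdeal → v = v') :
    emb 2 x y = Module.finrank ℚ K ∨ emb 2 y z = Module.finrank ℚ K ∨
      emb 2 z x = Module.finrank ℚ K := by
  obtain ⟨a, X, Y, Z, ha, hXa, hYa, hZa, hX0, hY0, hZ0, hXYZ, hn2⟩ := prep2 hx hy hz h 2 two_ne_zero
    ⟨2, Nat.mem_primeFactors.2 ⟨Nat.prime_two, dvd_refl _, two_ne_zero⟩⟩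
  obtain ⟨ρ⟩ : Nonempty (K →+* PadicAlgCl 2) := inferInstance
  have hsame : ∀ σ : K →+* PadicAlgCl 2, PI σ = PI ρ := by
    intro σ
    have h3 := h1 ⟨PI σ, PI_prime σ, PI_ne_bot σ⟩ ⟨PI ρ, PI_prime ρ, PI_ne_bot ρ⟩ (q_mem σ) (q_mem ρ)
    exact congrArg HeightOneSpectrum.asIdeal h3
  have hall : ∀ a b : K, (∀ σ : K →+* PadicAlgCl 2, ‖σ a‖ < ‖σ b‖) →
      emb 2 a b = Module.finrank ℚ K := by
    intro a b hab
    unfold emb
    rw [← NumberField.Embeddings.card K (PadicAlgCl 2), ← Nat.card_eq_fintype_card]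
    exact Nat.card_congr (Equiv.subtypeUnivEquiv hab)
  have hXYZ' : Y ^ p + Z ^ p + X ^ p = 0 := by rw [← hXYZ]; ring
  have hXYZ'' : Z ^ p + X ^ p + Y ^ p = 0 := by rw [← hXYZ]; ring
  have hρ : X ∈ PI ρ ∨ Y ∈ PI ρ ∨ Z ∈ PI ρ := by
    by_contra hcon
    push Not at hcon
    have h3 := (keyE hp0 ρ ha hXa hYa hZa hXYZ (hn2 _ (PI_prime _) (q_mem _))).2.2.1 hcon
    unfold frst at hfr
    rw [Nat.card_eq_zero] at hfr
    rcases hfr with h4 | h4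
    · exact h4.false ⟨ρ, h3⟩
    · exact h4.false
  rcases hρ with h3 | h3 | h3
  · left
    refine hall x y fun σ => ?_
    rw [← hsame σ] at h3
    exact (keyE hp0 σ ha hXa hYa hZa hXYZ (hn2 _ (PI_prime _) (q_mem _))).1.1 h3
  · right; left
    refine hall y z fun σ => ?_
    rw [← hsame σ] at h3
    exact (keyE hp0 σ ha hYa hZa hXa hXYZ' (fun hh => hn2 (PI σ) (PI_prime _) (q_mem _)
      ⟨hh.2.2, hh.1, hh.2.1⟩)).1.1 h3
  · right; right
    refine hall z x fun σ => ?_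
    rw [← hsame σ] at h3
    exact (keyE hp0 σ ha hZa hXa hYa hXYZ'' (fun hh => hn2 (PI σ) (PI_prime _) (q_mem _)
      ⟨hh.2.1, hh.2.2, hh.1⟩)).1.1 h3

omit [NumberField K] in
theorem even_card [NumberField K] (v : HeightOneSpectrum (𝓞 K)) (hv : ((2 : ℕ) : 𝓞 K) ∈ v.asIdeal) :
    2 ∣ Nat.card (𝓞 K ⧸ v.asIdeal) := by
  have hP := v.isPrime
  have hfin : Finite (𝓞 K ⧸ v.asIdeal) := Ideal.finiteQuotientOfFreeOfNeBot v.asIdeal v.ne_bot
  have hft : Fintype (𝓞 K ⧸ v.asIdeal) := Fintype.ofFinite _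
  have hchar : CharP (𝓞 K ⧸ v.asIdeal) 2 := charP_quot v.asIdeal hP 2 Nat.prime_two hv
  rw [Nat.card_eq_fintype_card, ← CharP.cast_eq_zero_iff (𝓞 K ⧸ v.asIdeal) 2]
  exact Nat.cast_card_eq_zero _

end

end Pool.Agent.V5helper55.FQ
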