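import Pool.Agent.V5helper55.FQ.Coef2
import Pool.Agent.V5helper55.FQ.RelR
import Pool.Agent.V5helper55.FQ.LocR
import Pool.Agent.V5helper55.FQ.LocP
import Pool.Agent.V5helper55.FQ.Harm

/-!
# Comparison of the primes above `p` and above `q`
-/

set_option autoImplicit false

namespace Pool.Agent.V5helper55.FQ

open Pool.Agent.Y546.WQ NumberField IsDedekindDomain Polynomial

section

variable {p : ℕ} [Fact p.Prime] {E : Type} [Field E] [NumberField E]
  {K N : Type} [Field K] [NumberField K] [Field N] [NumberField N]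

/-- `1 - z` divides `p` -/
theorem exists_U (c : Cyc p E) : ∃ U : ℤ[X], (c.z - 1) * aeval c.z U = ((p : ℕ) : E) := by
  have hpp : p.Prime := Fact.out
  obtain ⟨U, hU⟩ : X - Polynomial.C (1 : ℤ) ∣ (∑ j ∈ Finset.range p, X ^ j) -
      Polynomial.C ((∑ j ∈ Finset.range p, (X : ℤ[X]) ^ j).eval 1) := X_sub_C_dvd_sub_C_eval
  refine ⟨-U, ?_⟩
  have h1 := congrArg (aeval c.z) hU
  have h2 : (∑ j ∈ Finset.range p, (X : ℤ[X]) ^ j).eval 1 = (p : ℤ) := by
    rw [eval_finsetSum]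
    simp
  rw [h2, map_sub, map_mul, map_sub, map_sum, aeval_X, aeval_C, aeval_C] at h1
  simp only [map_pow, aeval_X] at h1
  rw [c.prim.geom_sum_eq_zero hpp.one_lt] at h1
  have h3 : (algebraMap ℤ E) (p : ℤ) = ((p : ℕ) : E) := by simp
  rw [h3, map_one] at h1
  rw [map_neg]
  linear_combination h1

/-- the division by a power of `X - 1` at roots of unity in other fields -/
theorem h_val (c : Cyc p E) (f h : ℤ[X]) (n : ℕ)
    (hfh : aeval c.z f = (c.z - 1) ^ n * aeval c.z h) {F : Type*} [Field F] (y : F)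
    (hy : y ^ p = 1) (hy1 : y ≠ 1) :
    f.eval₂ (Int.castRingHom F) y = (y - 1) ^ n * h.eval₂ (Int.castRingHom F) y := by
  have hpp : p.Prime := Fact.out
  have h1 : aeval c.z (f - (X - 1) ^ n * h) = 0 := by
    rw [map_sub, map_mul, map_pow, map_sub, aeval_X, map_one, hfh, sub_self]
  have h2 : cyclotomic p ℤ ∣ f - (X - 1) ^ n * h := by
    rw [cyclotomic_eq_minpoly c.prim hpp.pos]
    exact minpoly.isIntegrallyClosed_dvd (c.prim.isIntegral hpp.pos) h1
  obtain ⟨W, hW⟩ := h2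
  have h3 : (cyclotomic p ℤ).eval₂ (Int.castRingHom F) y = 0 := by
    rw [cyclotomic_prime, eval₂_finsetSum]
    simp only [eval₂_pow, eval₂_X]
    have h4 := mul_geom_sum y p
    rw [hy, sub_self] at h4
    exact (mul_eq_zero.1 h4).resolve_left (sub_ne_zero.2 hy1)
  have h4 := congrArg (eval₂ (Int.castRingHom F) y) hW
  rw [eval₂_sub, eval₂_mul, eval₂_mul, eval₂_pow, eval₂_sub, eval₂_X, eval₂_one, h3, zero_mul,
    sub_eq_zero] at h4
  exact h4

theorem map_nrmP {k : Type*} [CommRing k] (ψ : 𝓞 N →+* k) (X' Y : 𝓞 K) (f : ℤ[X])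
    (hf : f.map (Int.castRingHom (𝓞 N)) = nrmP K N X' Y) :
    f.map (Int.castRingHom k) = ∏ τ : K →+* N,
      (Polynomial.C (ψ (RingOfIntegers.mapRingHom τ X')) +
        X * Polynomial.C (ψ (RingOfIntegers.mapRingHom τ Y))) := by
  have e1 : f.map (Int.castRingHom k) = (f.map (Int.castRingHom (𝓞 N))).map ψ := by
    rw [Polynomial.map_map]
    congr 1
    exact RingHom.ext_int _ _
  rw [e1, hf, nrmP, Polynomial.map_prod]
  refine Finset.prod_congr rfl fun τ _ => ?_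
  rw [Polynomial.map_add, Polynomial.map_mul, map_C, map_C, map_X]

/-- the relation modulo `q` for the quotient -/
theorem relQ (hp2 : p ≠ 2) (c : Cyc p E) (i : E →+* N)
    (hcard : Nat.card (K →+* N) = Module.finrank ℚ K) (q : ℕ) (hq : q.Prime) (hqp : q ≠ p)
    (hW : ¬ p ^ 2 ∣ q ^ (p - 1) - 1) {X' Y Z : 𝓞 K} (hs : Sol0 p K X' Y Z)
    (hloc : Loc q K X' Y Z) (f h : ℤ[X]) (hf : f.map (Int.castRingHom (𝓞 N)) = nrmP K N X' Y)
    (n : ℕ) (hfh : aeval c.z f = (c.z - 1) ^ n * aeval c.z h)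
    (Q : Ideal (𝓞 N)) (hQ : Q.IsPrime) (hqQ : ((q : ℕ) : 𝓞 N) ∈ Q) (n0 : ℤ)
    (hn0 : ¬ (q : ℤ) ∣ n0) (a : ℕ) (g : E) (j : ℕ)
    (hrel : tha c a (aeval c.z h / (n0 : E)) = c.z ^ j * g ^ p) :
    2 * (j : ZMod p) = ((Module.finrank ℚ K : ZMod p) - n +
      Nat.card {τ : K →+* N // RingOfIntegers.mapRingHom τ X' ∈ Q} -
      Nat.card {τ : K →+* N // RingOfIntegers.mapRingHom τ Y ∈ Q}) * hsa p a 1 := by
  classical
  have hpp : p.Prime := Fact.out
  have hodd : Odd p := hpp.odd_of_ne_two hp2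
  have hcop := cop0 hp2 c i q hq hqp hs.eq hloc f hf
  -- the residue field
  have hQbot : Q ≠ ⊥ := by
    rintro rfl
    rw [Ideal.mem_bot] at hqQ
    have : q = 0 := by exact_mod_cast hqQ
    exact hq.ne_zero this
  have := hQ
  have hQM : Q.IsMaximal := hQ.isMaximal hQbot
  let _ : Field (𝓞 N ⧸ Q) := Ideal.Quotient.field Q
  have hchar : CharP (𝓞 N ⧸ Q) q := charP_quot Q hQ q hq hqQ
  have hzero : ∀ w : 𝓞 N, Ideal.Quotient.mk Q w = 0 ↔ w ∈ Q := fun w =>
    Ideal.Quotient.eq_zero_iff_mem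
  obtain ⟨C0, hC0⟩ := locR hq (fun τ : K →+* N => Ideal.Quotient.mk Q (RingOfIntegers.mapRingHom τ X'))
    (fun τ : K →+* N => Ideal.Quotient.mk Q (RingOfIntegers.mapRingHom τ Y)) f
    (map_nrmP (Ideal.Quotient.mk Q) X' Y f hf) (by
      intro τ
      have hP : (Q.comap (RingOfIntegers.mapRingHom τ)).IsPrime := hQ.comap _
      have hqP : ((q : ℕ) : 𝓞 K) ∈ Q.comap (RingOfIntegers.mapRingHom τ) := by
        rw [Ideal.mem_comap, map_natCast]
        exact hqQ
      rcases hloc _ hP hqP with ⟨h1, h2⟩ | ⟨h1, h2⟩ | ⟨h1, h2, h3⟩ | ⟨h1, h2, h3, h4⟩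
      · exact Or.inl ⟨(hzero _).2 h1, fun h => h2 ((hzero _).1 h)⟩
      · exact Or.inr (Or.inl ⟨(hzero _).2 h1, fun h => h2 ((hzero _).1 h)⟩)
      · refine Or.inr (Or.inr ⟨fun h => h1 ((hzero _).1 h), fun h => h2 ((hzero _).1 h), ?_⟩)
        have h4 : Ideal.Quotient.mk Q (RingOfIntegers.mapRingHom τ X') =
            -Ideal.Quotient.mk Q (RingOfIntegers.mapRingHom τ Y) := by
          apply eq_neg_of_add_eq_zero_left
          rw [← map_add, ← map_add]
          exact (hzero _).2 h3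
        rw [h4]
        rcases hq.eq_two_or_odd' with h2 | h2
        · subst h2
          have h5 : ∀ w : 𝓞 N ⧸ Q, -w = w := fun w => CharTwo.neg_eq w
          rw [h5]
        · exact Even.neg_pow (by
            obtain ⟨u, hu⟩ := h2
            exact ⟨u + 1, by omega⟩) _
      · refine Or.inr (Or.inr ⟨fun h => h1 ((hzero _).1 h), fun h => h2 ((hzero _).1 h), ?_⟩)
        rw [← map_pow, ← map_pow, ← map_pow, ← map_pow, ← sub_eq_zero, ← map_sub, ← map_sub]
        exact (hzero _).2 h4)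
  have ea : Nat.card {τ : K →+* N // Ideal.Quotient.mk Q (RingOfIntegers.mapRingHom τ X') = 0} =
      Nat.card {τ : K →+* N // RingOfIntegers.mapRingHom τ X' ∈ Q} :=
    Nat.card_congr (Equiv.subtypeEquivRight fun τ => hzero _)
  have eb : Nat.card {τ : K →+* N // Ideal.Quotient.mk Q (RingOfIntegers.mapRingHom τ Y) = 0} =
      Nat.card {τ : K →+* N // RingOfIntegers.mapRingHom τ Y ∈ Q} :=
    Nat.card_congr (Equiv.subtypeEquivRight fun τ => hzero _)
  rw [ea, eb, hcard] at hC0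
  obtain ⟨A, hA⟩ : ∃ A, A = Nat.card {τ : K →+* N // RingOfIntegers.mapRingHom τ X' ∈ Q} :=
    ⟨_, rfl⟩
  obtain ⟨B, hB⟩ : ∃ B, B = Nat.card {τ : K →+* N // RingOfIntegers.mapRingHom τ Y ∈ Q} :=
    ⟨_, rfl⟩
  rw [← hA, ← hB] at hC0 ⊢
  -- the prime of the cyclotomic field
  obtain ⟨jj, hjj⟩ : ∃ jj : 𝓞 E →+* 𝓞 N, jj = RingOfIntegers.mapRingHom i := ⟨_, rfl⟩
  have hjinj : Function.Injective jj := by
    intro a b hab
    have h1 : ((jj a : 𝓞 N) : N) = jj b := congrArg _ hab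
    rw [hjj, RingOfIntegers.mapRingHom_apply, RingOfIntegers.mapRingHom_apply] at h1
    exact RingOfIntegers.ext (i.injective h1)
  obtain ⟨M, hMdef⟩ : ∃ M : Ideal (𝓞 E), M = Q.comap jj := ⟨_, rfl⟩
  have hMp : M.IsPrime := hMdef ▸ hQ.comap _
  have hqM : ((q : ℕ) : 𝓞 E) ∈ M := by
    rw [hMdef, Ideal.mem_comap, map_natCast]
    exact hqQ
  obtain ⟨u, hu, hup⟩ := exists_zint c
  obtain ⟨w, hw⟩ : ∃ w : 𝓞 N ⧸ Q, w = Ideal.Quotient.mk Q (jj u) := ⟨_, rfl⟩
  have hwp : w ^ p = 1 := by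
    rw [hw, ← map_pow, ← map_pow, hup.pow_eq_one, map_one, map_one]
  have hfw : f.eval₂ (Int.castRingHom (𝓞 N ⧸ Q)) w ≠ 0 := by
    intro h0
    have h1 : Ideal.Quotient.mk Q (jj (aeval u f)) = 0 := by
      have h2 : Ideal.Quotient.mk Q (jj (aeval u f)) = ((Ideal.Quotient.mk Q).comp jj) (aeval u f) :=
        rfl
      rw [h2, aeval_def, hom_eval₂, ← h0, hw]
      congr 1
      exact RingHom.ext_int _ _
    have h3 : aeval u f ∈ M := by
      rw [hMdef, Ideal.mem_comap]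
      exact (hzero _).1 h1
    refine hcop M hMp hqM (aeval u f) ?_ h3
    have hu' : algebraMap (𝓞 E) E u = c.z := hu
    rw [← hu']
    exact (aeval_algebraMap_apply E u f).symm
  have hsign : C0 = 1 ∨ C0 = -1 := by
    refine locR_sign (F := fun v => f.eval₂ (Int.castRingHom (𝓞 N ⧸ Q)) v) hC0
      (u := w ^ (p - 1)) (u' := w) ?_ hfw
    rw [← pow_succ, Nat.sub_add_cancel hpp.one_lt.le, hwp]
  obtain ⟨s, hs1, hs2⟩ : ∃ s : ℤ, (s = 1 ∨ s = -1) ∧ (s : 𝓞 N ⧸ Q) = C0 := by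
    rcases hsign with h | h
    · exact ⟨1, Or.inl rfl, by rw [h]; simp⟩
    · exact ⟨-1, Or.inr rfl, by rw [h]; simp⟩
  obtain ⟨s', hs1', hs2'⟩ : ∃ s' : ℤ, (s' = 1 ∨ s' = -1) ∧ s' = s * (-1) ^ n := by
    rcases hs1 with rfl | rfl
    · rcases neg_one_pow_eq_or ℤ n with h | h
      · exact ⟨_, Or.inl rfl, by rw [h]; rfl⟩
      · exact ⟨_, Or.inr rfl, by rw [h]; rfl⟩
    · rcases neg_one_pow_eq_or ℤ n with h | h
      · exact ⟨_, Or.inr rfl, by rw [h]; rfl⟩
      · exact ⟨_, Or.inl rfl, by rw [h]; rfl⟩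
  have hMbot : M ≠ ⊥ := by
    rintro h0
    rw [h0, Ideal.mem_bot] at hqM
    have : q = 0 := by exact_mod_cast hqM
    exact hq.ne_zero this
  have := hMp
  have hMM : M.IsMaximal := hMp.isMaximal hMbot
  let _ : Field (𝓞 E ⧸ M) := Ideal.Quotient.field M
  have hmain := relR hp2 a c q hq hqp h n0 hn0 (B + n) (A + Module.finrank ℚ K) s' hs1' M hMp hqM
    (by
      intro y y' hy hy1 hyy
      have hle : M ≤ Q.comap jj := hMdef.le
      obtain ⟨ι, hι⟩ : ∃ ι : (𝓞 E ⧸ M) →+* (𝓞 N ⧸ Q), ι = Ideal.quotientMap Q jj hle := ⟨_, rfl⟩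
      have hιinj : Function.Injective ι := ι.injective
      apply hιinj
      have e1 : ∀ v : 𝓞 E ⧸ M, ι (h.eval₂ (Int.castRingHom (𝓞 E ⧸ M)) v) =
          h.eval₂ (Int.castRingHom (𝓞 N ⧸ Q)) (ι v) := by
        intro v
        rw [hom_eval₂]
        congr 1
        exact RingHom.ext_int _ _
      rw [map_mul, map_mul, map_mul, map_pow, map_pow, map_intCast, e1, e1]
      obtain ⟨v, hv⟩ : ∃ v, v = ι y := ⟨_, rfl⟩
      obtain ⟨v', hv'⟩ : ∃ v', v' = ι y' := ⟨_, rfl⟩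
      rw [← hv, ← hv']
      have hvv : v * v' = 1 := by rw [hv, hv', ← map_mul, hyy, map_one]
      have hvp : v ^ p = 1 := by rw [hv, ← map_pow, hy, map_one]
      have hvp' : v' ^ p = 1 := by
        have h1 : (v * v') ^ p = 1 := by rw [hvv, one_pow]
        rwa [mul_pow, hvp, one_mul] at h1
      have hv1 : v ≠ 1 := by
        intro h1
        apply hy1
        apply hιinj
        rw [← hv, h1, map_one]
      have hv1' : v' ≠ 1 := by
        intro h1
        rw [h1, mul_one] at hvv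
        exact hv1 hvv
      have h1 := hC0 v v' hvv
      rw [h_val c f h n hfh v hvp hv1, h_val c f h n hfh v' hvp' hv1', ← hs2] at h1
      have h2 : v' - 1 = (-1) * (v' * (v - 1)) := by linear_combination hvv
      rw [h2, mul_pow, mul_pow] at h1
      have h3 : v ^ n * v' ^ n = 1 := by rw [← mul_pow, hvv, one_pow]
      have h4 : (v - 1) ^ n ≠ 0 := pow_ne_zero _ (sub_ne_zero.2 hv1)
      apply mul_left_cancel₀ h4
      rw [hs2', pow_add]
      push_cast
      linear_combination (v ^ n) * h1 + (s * (v ^ (A + Module.finrank ℚ K) * ((-1) ^ n *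
        ((v - 1) ^ n)) * eval₂ (Int.castRingHom (𝓞 N ⧸ Q)) v' h)) * h3)
    (by
      intro P hP hqP w' hw' hwP
      have hwz : algebraMap (𝓞 E) E u = c.z := hu
      have e1 : ∀ g : ℤ[X], algebraMap (𝓞 E) E (aeval u g) = aeval c.z g := by
        intro g
        rw [← hwz]
        exact (aeval_algebraMap_apply E u g).symm
      have e2 : w' = aeval u h := RingOfIntegers.ext (hw'.trans (e1 h).symm)
      refine hcop P hP hqP (aeval u f) (e1 f) ?_
      have e3 : aeval u f = (u - 1) ^ n * w' := by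
        apply RingOfIntegers.ext
        have e4 : algebraMap (𝓞 E) E (aeval u f) = algebraMap (𝓞 E) E ((u - 1) ^ n * w') := by
          rw [map_mul, map_pow, map_sub, map_one, hwz, e1, hfh, e2, e1]
        exact e4
      rw [e3]
      exact P.mul_mem_left _ hwP)
    g j hrel
  rw [hmain.resolve_right hW]
  push_cast
  ring

end

end Pool.Agent.V5helper55.FQ
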