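import Pool.Agent.V5helper55.FQ.Two

/-!
# The types at `p` and at two
-/

set_option autoImplicit false

namespace Pool.Agent.V5helper55.FQ

open Pool.Agent.Y546.WQ Pool.Agent.Y941.WQ NumberField IsDedekindDomain

section

variable {q : ℕ} [Fact q.Prime]

/-- the two largest of the three are equal -/
theorem lt_imp {p : ℕ} (hp : p ≠ 0) {A B C : PadicAlgCl q} (h : A ^ p + B ^ p + C ^ p = 0)
    (hAB : ‖A‖ < ‖B‖) : ‖B‖ = ‖C‖ := by
  have h1 : ‖A‖ ^ p < ‖B‖ ^ p := pow_lt_pow_left₀ hAB (norm_nonneg _) hp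
  have h2 : ‖C‖ ^ p ≤ ‖B‖ ^ p := by
    rw [← norm_pow]
    have e : C ^ p = -(A ^ p + B ^ p) := by linear_combination h
    rw [e, norm_neg]
    refine (PadicAlgCl.isNonarchimedean q _ _).trans ?_
    rw [norm_pow, norm_pow]
    exact max_le h1.le le_rfl
  have h3 : ‖B‖ ^ p ≤ ‖C‖ ^ p := by
    have e : B ^ p = -(A ^ p + C ^ p) := by linear_combination h
    have h4 : ‖B ^ p‖ ≤ max (‖A ^ p‖) (‖C ^ p‖) := by
      rw [e, norm_neg]
      exact PadicAlgCl.isNonarchimedean q _ _
    rw [norm_pow, norm_pow, norm_pow] at h4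
    rcases le_max_iff.1 h4 with h5 | h5
    · exact absurd h5 (not_le.2 h1)
    · exact h5
  exact (pow_left_inj₀ (norm_nonneg _) (norm_nonneg _) hp).1 (le_antisymm h3 h2)

theorem lt_iff_lt {p : ℕ} (hp : p ≠ 0) {A B C : PadicAlgCl q} (h : A ^ p + B ^ p + C ^ p = 0) :
    ‖A‖ < ‖B‖ ↔ ‖A‖ < ‖C‖ := by
  constructor
  · intro h1
    rw [← lt_imp hp h h1]
    exact h1
  · intro h1
    rw [← lt_imp hp (A := A) (B := C) (C := B) (by rw [← h]; ring) h1]
    exact h1

variable {K : Type} [Field K] [NumberField K]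

theorem emb_swap {p : ℕ} (hp : p ≠ 0) {x y z : K} (h : x ^ p + y ^ p + z ^ p = 0) :
    emb q x z = emb q x y := by
  unfold emb
  refine Nat.card_congr (Equiv.subtypeEquivRight fun σ => ?_)
  have e : (σ x) ^ p + (σ y) ^ p + (σ z) ^ p = 0 := by
    rw [← map_pow, ← map_pow, ← map_pow, ← map_add, ← map_add, h, map_zero]
  exact (lt_iff_lt hp e).symm

theorem frst_rot (x y z : K) : frst q y z x = frst q x y z := by
  unfold frst
  refine Nat.card_congr (Equiv.subtypeEquivRight fun σ => ?_)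
  constructor
  · rintro ⟨h1, h2⟩
    exact ⟨(h1.trans h2).symm, h1⟩
  · rintro ⟨h1, h2⟩
    exact ⟨h2, (h1.trans h2).symm⟩

/-- the total number of embeddings -/
theorem total {p : ℕ} (hp : p ≠ 0) {x y z : K} (h : x ^ p + y ^ p + z ^ p = 0) :
    emb q x y + emb q y z + emb q z x + frst q x y z = Module.finrank ℚ K := by
  classical
  rw [← NumberField.Embeddings.card K (PadicAlgCl q)]
  unfold emb frst
  rw [Nat.card_eq_fintype_card, Nat.card_eq_fintype_card, Nat.card_eq_fintype_card,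
    Nat.card_eq_fintype_card, Fintype.card_subtype, Fintype.card_subtype, Fintype.card_subtype,
    Fintype.card_subtype, ← Finset.card_univ, Finset.card_filter, Finset.card_filter,
    Finset.card_filter, Finset.card_filter, ← Finset.sum_add_distrib, ← Finset.sum_add_distrib,
    ← Finset.sum_add_distrib, Finset.card_eq_sum_ones]
  refine Finset.sum_congr rfl fun σ _ => ?_
  have e1 : (σ x) ^ p + (σ y) ^ p + (σ z) ^ p = 0 := by
    rw [← map_pow, ← map_pow, ← map_pow, ← map_add, ← map_add, h, map_zero]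
  have e2 : (σ y) ^ p + (σ z) ^ p + (σ x) ^ p = 0 := by rw [← e1]; ring
  have e3 : (σ z) ^ p + (σ x) ^ p + (σ y) ^ p = 0 := by rw [← e1]; ring
  have e4 : (σ y) ^ p + (σ x) ^ p + (σ z) ^ p = 0 := by rw [← e1]; ring
  obtain ⟨A, hA⟩ : ∃ A, A = ‖σ x‖ := ⟨_, rfl⟩
  obtain ⟨B, hB⟩ : ∃ B, B = ‖σ y‖ := ⟨_, rfl⟩
  obtain ⟨C, hC⟩ : ∃ C, C = ‖σ z‖ := ⟨_, rfl⟩
  have i1 : A < B → B = C := by rw [hA, hB, hC]; exact lt_imp hp e1
  have i2 : B < C → C = A := by rw [hA, hB, hC]; exact lt_imp hp e2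
  have i3 : C < A → A = B := by rw [hA, hB, hC]; exact lt_imp hp e3
  have i4 : B < A → A = C := by rw [hA, hB, hC]; exact lt_imp hp e4
  rw [← hA, ← hB, ← hC]
  by_cases h1 : A < B
  · have h2 := i1 h1
    have h3 : ¬ B < C := by rw [h2]; exact lt_irrefl _
    have h4 : ¬ C < A := by rw [← h2]; exact not_lt.2 h1.le
    have h5 : ¬ (A = B ∧ B = C) := fun h => h1.ne h.1
    rw [if_pos h1, if_neg h3, if_neg h4, if_neg h5]
  · by_cases h2 : B < C
    · have h3 := i2 h2
      have h4 : ¬ C < A := by rw [h3]; exact lt_irrefl _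
      have h5 : ¬ (A = B ∧ B = C) := fun h => h2.ne h.2
      rw [if_neg h1, if_pos h2, if_neg h4, if_neg h5]
    · by_cases h3 : C < A
      · have h5 : ¬ (A = B ∧ B = C) := fun h => h3.ne (h.1.trans h.2).symm
        rw [if_neg h1, if_neg h2, if_pos h3, if_neg h5]
      · have h4 : A = B := by
          rcases lt_trichotomy A B with h | h | h
          · exact absurd h h1
          · exact h
          · have h6 := i4 h
            rw [← h6] at h2
            exact absurd h h2
        have h5 : B = C := by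
          rw [← h4] at h2 ⊢
          exact le_antisymm (not_lt.1 h3) (not_lt.1 h2)
        rw [if_neg h1, if_neg h2, if_neg h3, if_pos ⟨h4, h5⟩]

end

section

variable {p : ℕ} [Fact p.Prime] {K : Type} [Field K] [NumberField K]

/-- **The types at `p` and at an auxiliary prime number.** -/
theorem mainQ2 (h5 : 5 ≤ p) (h3m : 3 * Module.finrank ℚ K ≤ p) (q : ℕ) [Fact q.Prime]
    (hqp : q ≠ p) (hW : ¬ p ^ 2 ∣ q ^ (p - 1) - 1) {x y z : K} (hx : x ≠ 0) (hy : y ≠ 0)
    (hz : z ≠ 0) (h : x ^ p + y ^ p + z ^ p = 0) (hg1 : Good p q K x y z)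
    (hg2 : Good p q K y z x) (hreg : RegC p (frst p x y z)) :
    3 * emb p x y + frst p x y z = 3 * emb q x y + frst q x y z ∧
    3 * emb p y z + frst p x y z = 3 * emb q y z + frst q x y z ∧
    3 * emb p z x + frst p x y z = 3 * emb q z x + frst q x y z := by
  have hp0 : p ≠ 0 := by omega
  have h' : y ^ p + z ^ p + x ^ p = 0 := by rw [← h]; ring
  have h'' : y ^ p + x ^ p + z ^ p = 0 := by rw [← h]; ring
  have h''' : z ^ p + y ^ p + x ^ p = 0 := by rw [← h]; ring
  have a1 := (mainE h5 h3m hqp hW hx hy hz h hg1).2 hreg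
  have a2 := (mainE h5 h3m hqp hW hy hz hx h' hg2).2 (by
    have := frst_rot (q := p) x y z
    unfold frst at this hreg
    rw [this]
    exact hreg)
  have t1 := total (q := p) hp0 h
  have t2 := total (q := q) hp0 h
  rw [← emb_swap (q := p) hp0 h'', ← emb_swap (q := q) hp0 h''] at a1
  rw [← emb_swap (q := p) hp0 h''', ← emb_swap (q := q) hp0 h'''] at a2
  omega

end

end Pool.Agent.V5helper55.FQ
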